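import Pool.Agent.P.MP_009630_co.Dn.St

/-! From the operator `N` to the matrix. -/

set_option autoImplicit false

namespace Pool.Agent.P.MP_009630_co.Dn

open Finset

namespace AlgP

variable {n : ℕ} [NeZero n]

theorem const_of_dd {f : Dv n} (h : dd f = 0) (y : ZMod n) : f y = f 0 := by
  have h1 : ∀ k : ℕ, f (k : ZMod n) = f 0 := by
    intro k
    induction k with
    | zero => simp
    | succ k ih =>
      have h2 := congrFun h ((k + 1 : ℕ) : ZMod n)
      simp only [dd, Pi.zero_apply, Nat.cast_add, Nat.cast_one, add_sub_cancel_right] at h2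
      rw [← ih]; push_cast; linarith
  have := h1 y.val
  rwa [ZMod.natCast_zmod_val] at this

theorem sum_const {f : Dv n} (h : dd f = 0) : ∑ y, f y = n * f 0 := by
  rw [sum_congr rfl fun y _ => const_of_dd h y]
  simp [ZMod.card]

theorem dd_lin {N a : ZMod n → Dv n} (h : ∀ x, dd (a x) = N (x + 1) - N x) (f : Dv n) :
    dd (lin a f) = lin N (dd f) := by
  have h1 : dd f = ∑ y, f y • (pt (y + 1) - pt y) := by
    conv_lhs => rw [← lin_id f]
    unfold lin
    rw [dd_sum]
    exact sum_congr rfl fun y _ => by rw [dd_smul, dd_pt]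
  rw [h1, lin_sum]
  unfold lin
  rw [dd_sum]
  refine sum_congr rfl fun y _ => ?_
  have h2 : lin N (f y • (pt (y + 1) - pt y)) = f y • (N (y + 1) - N y) := by
    rw [lin_smul, lin_sub, lin_pt, lin_pt]
  rw [dd_smul, h y]
  exact h2.symm

end AlgP

open AlgP in
theorem alg : S_Alg := by
  intro n _ c d lam hc0 hcn hcd hG
  obtain ⟨N, hN, hm, ha⟩ := hG
  choose a ha01 hda using ha
  have hn0 : (n : ℤ) ≠ 0 := by exact_mod_cast NeZero.ne n
  have hrow : ∀ x, ∑ y, a x y = c := by
    intro x
    have h1 : ((∑ y, a x y : ℤ) : ZMod n) = (c : ZMod n) := by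
      rw [← mom_dd, hda, mom_sub, hm, hm]; ring
    have h2 : 0 ≤ ∑ y, a x y := sum_nonneg fun y _ => by rcases ha01 x y with h | h <;> omega
    have h3 : ∑ y, a x y ≤ n := by
      calc ∑ y, a x y ≤ ∑ _y : ZMod n, (1 : ℤ) :=
            sum_le_sum fun y _ => by rcases ha01 x y with h | h <;> omega
        _ = n := by simp [ZMod.card]
    obtain ⟨t, ht⟩ := lift_eq h1
    rcases lt_trichotomy t 0 with h | h | h
    · nlinarith
    · subst h; simpa using ht.symm
    · nlinarith
  have hcol : ∀ y, ∑ x, a x y = c := by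
    intro y
    have h1 : dd (∑ x, a x) = 0 := by
      rw [dd_sum, sum_congr rfl fun x _ => hda x, sum_sub_distrib,
        ← Equiv.sum_comp (Equiv.addRight (1 : ZMod n)) N]
      simp
    have h2 := sum_const h1
    have h3 : ∑ y, (∑ x, a x) y = n * c := by
      simp only [Finset.sum_apply]
      rw [sum_comm, sum_congr rfl fun x _ => hrow x]
      simp [ZMod.card]
    have h4 : (∑ x, a x) 0 = c := mul_left_cancel₀ hn0 (h2.symm.trans h3)
    have h5 := const_of_dd h1 y
    rw [h4] at h5
    simpa [Finset.sum_apply] using h5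
  have hsq : ∀ x z, ∑ y, a x y * a y z = d * pt x z + lam := by
    intro x z
    have h1 : dd (lin a (a x) - d • pt x) = 0 := by
      rw [dd_sub, dd_lin hda, hda, lin_sub, hN, hN, dd_smul, dd_pt]
      module
    have h2 := sum_const h1
    have h0 : ∀ w, (lin a (a x) - d • pt x) w = ∑ y, a x y * a y w - d * pt x w := by
      intro w; simp [lin, Finset.sum_apply]
    have h3 : ∑ w, (lin a (a x) - d • pt x) w = n * lam := by
      rw [sum_congr rfl fun w _ => h0 w, sum_sub_distrib, sum_comm]
      have h6 : ∀ y, ∑ w, a x y * a y w = a x y * c := fun y => by rw [← mul_sum, hrow]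
      rw [sum_congr rfl fun y _ => h6 y, ← sum_mul, hrow, ← mul_sum]
      have h7 : ∑ w, pt x w = 1 := deg_pt x
      rw [h7]; linarith
    have h4 := mul_left_cancel₀ hn0 (h2.symm.trans h3)
    have h5 := const_of_dd h1 z
    rw [h4, h0] at h5
    linarith
  have e : ZMod n ≃ Fin n := Fintype.equivFinOfCardEq (ZMod.card n)
  refine ⟨Matrix.of fun i j => a (e.symm i) (e.symm j), fun i j => ha01 _ _, fun i => ?_,
    fun j => ?_, ?_⟩
  · simp only [Matrix.of_apply]
    rw [Equiv.sum_comp e.symm (fun y => a (e.symm i) y)]; exact hrow _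
  · simp only [Matrix.of_apply]
    rw [Equiv.sum_comp e.symm (fun x => a x (e.symm j))]; exact hcol _
  · ext i j
    rw [pow_two, Matrix.mul_apply]
    simp only [Matrix.of_apply, Matrix.add_apply, Matrix.smul_apply, smul_eq_mul, mul_one]
    rw [Equiv.sum_comp e.symm (fun y => a (e.symm i) y * a y (e.symm j)), hsq, pt_apply,
      Matrix.one_apply]
    by_cases h : i = j
    · simp [h]
    · have : e.symm j ≠ e.symm i := fun h' => h (e.symm.injective h').symm
      simp [h, this]

end Pool.Agent.P.MP_009630_co.Dn
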