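import Pool.Agent.P.MP_009630_co.Dn.Defs

/-! Basic library: linear algebra of divisors, `At`, `Feat`. -/

set_option autoImplicit false

namespace Pool.Agent.P.MP_009630_co.Dn

open Finset

noncomputable section

variable {n : ℕ}

theorem pt_apply (x y : ZMod n) : pt x y = if y = x then 1 else 0 := by
  unfold pt; rw [Pi.single_apply]

/-! ### Linearity -/

@[simp] theorem dd_zero : dd (0 : Dv n) = 0 := by funext y; simp [dd]
theorem dd_add (f g : Dv n) : dd (f + g) = dd f + dd g := by funext y; simp [dd]; ring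
theorem dd_sub (f g : Dv n) : dd (f - g) = dd f - dd g := by funext y; simp [dd]; ring
theorem dd_neg (f : Dv n) : dd (-f) = -dd f := by funext y; simp [dd]; ring
theorem dd_smul (a : ℤ) (f : Dv n) : dd (a • f) = a • dd f := by funext y; simp [dd]; ring
theorem dd_sum {ι : Type*} (s : Finset ι) (f : ι → Dv n) :
    dd (∑ i ∈ s, f i) = ∑ i ∈ s, dd (f i) := by
  funext y; simp [dd, Finset.sum_apply, Finset.sum_sub_distrib]
theorem dd_pt (x : ZMod n) : dd (pt x) = pt (x + 1) - pt x := by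
  funext y; simp only [dd, pt_apply, Pi.sub_apply, sub_eq_iff_eq_add]

section lin
variable [NeZero n]

@[simp] theorem mom_zero : mom (0 : Dv n) = 0 := by simp [mom]
theorem mom_add (f g : Dv n) : mom (f + g) = mom f + mom g := by
  simp [mom, add_mul, sum_add_distrib]
theorem mom_neg (f : Dv n) : mom (-f) = -mom f := by simp [mom]
theorem mom_sub (f g : Dv n) : mom (f - g) = mom f - mom g := by
  simp [mom, sub_mul, sum_sub_distrib]
theorem mom_smul (a : ℤ) (f : Dv n) : mom (a • f) = (a : ZMod n) * mom f := by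
  simp [mom, mul_sum, mul_assoc]
@[simp] theorem mom_pt (x : ZMod n) : mom (pt x) = x := by
  simp [mom, pt_apply]
theorem mom_sum {ι : Type*} (s : Finset ι) (f : ι → Dv n) :
    mom (∑ i ∈ s, f i) = ∑ i ∈ s, mom (f i) := by
  classical
  induction s using Finset.induction_on with
  | empty => simp
  | insert a s ha ih => rw [sum_insert ha, sum_insert ha, mom_add, ih]
theorem mom_dd (f : Dv n) : mom (dd f) = ((∑ y, f y : ℤ) : ZMod n) := by
  unfold mom dd
  simp only [Int.cast_sub, sub_mul, sum_sub_distrib, Int.cast_sum]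
  rw [← Equiv.sum_comp (Equiv.addRight (1 : ZMod n))]
  simp [mul_add, sum_add_distrib]

@[simp] theorem deg_zero : deg (0 : Dv n) = 0 := by simp [deg]
theorem deg_add (f g : Dv n) : deg (f + g) = deg f + deg g := by simp [deg, sum_add_distrib]
theorem deg_neg (f : Dv n) : deg (-f) = -deg f := by simp [deg]
theorem deg_sub (f g : Dv n) : deg (f - g) = deg f - deg g := by simp [deg, sum_sub_distrib]
theorem deg_smul (a : ℤ) (f : Dv n) : deg (a • f) = a * deg f := by simp [deg, mul_sum]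
@[simp] theorem deg_pt (x : ZMod n) : deg (pt x) = 1 := by simp [deg, pt_apply]
theorem deg_sum {ι : Type*} (s : Finset ι) (f : ι → Dv n) :
    deg (∑ i ∈ s, f i) = ∑ i ∈ s, deg (f i) := by
  unfold deg; simp only [Finset.sum_apply]; rw [sum_comm]
theorem deg_dd (f : Dv n) : deg (dd f) = 0 := by
  unfold deg dd
  rw [sum_sub_distrib, ← Equiv.sum_comp (Equiv.addRight (1 : ZMod n))]
  simp

@[simp] theorem lin_zero (N : ZMod n → Dv n) : lin N 0 = 0 := by simp [lin]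
theorem lin_add (N : ZMod n → Dv n) (f g : Dv n) : lin N (f + g) = lin N f + lin N g := by
  simp [lin, add_smul, sum_add_distrib]
theorem lin_neg (N : ZMod n → Dv n) (f : Dv n) : lin N (-f) = -lin N f := by simp [lin]
theorem lin_sub (N : ZMod n → Dv n) (f g : Dv n) : lin N (f - g) = lin N f - lin N g := by
  simp [lin, sub_smul, sum_sub_distrib]
theorem lin_smul (N : ZMod n → Dv n) (a : ℤ) (f : Dv n) : lin N (a • f) = a • lin N f := by
  simp [lin, smul_sum, mul_smul]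
@[simp] theorem lin_pt (N : ZMod n → Dv n) (x : ZMod n) : lin N (pt x) = N x := by
  simp [lin, pt_apply, ite_smul]
theorem lin_sum {ι : Type*} (N : ZMod n → Dv n) (s : Finset ι) (f : ι → Dv n) :
    lin N (∑ i ∈ s, f i) = ∑ i ∈ s, lin N (f i) := by
  classical
  induction s using Finset.induction_on with
  | empty => simp
  | insert a s ha ih => rw [sum_insert ha, sum_insert ha, lin_add, ih]
/-- `lin N f` only depends on `N` on the support of `f`. -/
theorem lin_congr {N N' : ZMod n → Dv n} {f : Dv n} (h : ∀ g, f g ≠ 0 → N g = N' g) :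
    lin N f = lin N' f := by
  unfold lin
  refine sum_congr rfl fun g _ => ?_
  by_cases hg : f g = 0
  · simp [hg]
  · rw [h g hg]
theorem lin_id (f : Dv n) : lin pt f = f := by
  funext y; simp [lin, Finset.sum_apply, pt_apply]

theorem psh_eq (c : ZMod n) (f : Dv n) : psh c f = lin (fun g => pt (c * g)) f := rfl
@[simp] theorem psh_zero (c : ZMod n) : psh c 0 = 0 := lin_zero _
theorem psh_add (c : ZMod n) (f g : Dv n) : psh c (f + g) = psh c f + psh c g := lin_add _ f g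
theorem psh_neg (c : ZMod n) (f : Dv n) : psh c (-f) = -psh c f := lin_neg _ f
theorem psh_sub (c : ZMod n) (f g : Dv n) : psh c (f - g) = psh c f - psh c g := lin_sub _ f g
theorem psh_smul (c : ZMod n) (a : ℤ) (f : Dv n) : psh c (a • f) = a • psh c f := lin_smul _ a f
@[simp] theorem psh_pt (c x : ZMod n) : psh c (pt x) = pt (c * x) := lin_pt _ x
theorem psh_sum {ι : Type*} (c : ZMod n) (s : Finset ι) (f : ι → Dv n) :
    psh c (∑ i ∈ s, f i) = ∑ i ∈ s, psh c (f i) := lin_sum _ s f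
theorem mom_psh (c : ZMod n) (f : Dv n) : mom (psh c f) = c * mom f := by
  unfold psh; rw [mom_sum]; simp only [mom_smul, mom_pt]
  unfold mom; rw [mul_sum]; exact sum_congr rfl fun g _ => by ring
theorem deg_psh (c : ZMod n) (f : Dv n) : deg (psh c f) = deg f := by
  unfold psh; rw [deg_sum]; simp only [deg_smul, deg_pt, mul_one]; rfl

end lin

/-! ### Positions -/

section At
variable {m : ℕ}

@[simp] theorem ps_zero : ps m n 0 = 0 := by simp [ps]
theorem ps_add (Y Z : ℤ) : ps m n (Y + Z) = ps m n Y + ps m n Z := by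
  unfold ps; push_cast; ring
theorem ps_neg (Y : ℤ) : ps m n (-Y) = -ps m n Y := by unfold ps; push_cast; ring
theorem ps_sub (Y Z : ℤ) : ps m n (Y - Z) = ps m n Y - ps m n Z := by
  unfold ps; push_cast; ring
theorem ps_mul (a Y : ℤ) : ps m n (a * Y) = a * ps m n Y := by unfold ps; push_cast; ring

theorem npos [NeZero n] : (0 : ℝ) < n := by exact_mod_cast Nat.pos_of_ne_zero (NeZero.ne n)

theorem ps_n [NeZero n] (t : ℤ) : ps m n (t * n) = t * m := by
  have := npos (n := n)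
  unfold ps; push_cast; field_simp
theorem ps_mono [NeZero n] {Y Z : ℤ} (h : Y ≤ Z) : ps m n Y ≤ ps m n Z := by
  have := npos (n := n)
  unfold ps
  have h' : (Y : ℝ) ≤ Z := by exact_mod_cast h
  gcongr
theorem lt_of_ps_lt [NeZero n] {Y Z : ℤ} (h : ps m n Y < ps m n Z) : Y < Z := by
  by_contra hc
  exact absurd (ps_mono (m := m) (n := n) (not_lt.1 hc)) (not_le.2 h)
theorem ps_lt [NeZero n] (hm : 0 < m) {Y Z : ℤ} (h : Y < Z) : ps m n Y < ps m n Z := by
  have := npos (n := n)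
  have hm' : (0 : ℝ) < m := by exact_mod_cast hm
  unfold ps
  have h' : (Y : ℝ) < Z := by exact_mod_cast h
  gcongr
theorem le_of_ps_le [NeZero n] (hm : 0 < m) {Y Z : ℤ} (h : ps m n Y ≤ ps m n Z) : Y ≤ Z := by
  by_contra hc
  exact absurd (ps_lt (n := n) hm (not_le.1 hc)) (not_lt.2 h)

/-- Two lifts differ by a multiple of `n`. -/
theorem lift_eq {Y Z : ℤ} (h : (Y : ZMod n) = Z) : ∃ t : ℤ, Z = Y + t * n := by
  obtain ⟨t, ht⟩ := (ZMod.intCast_eq_intCast_iff_dvd_sub Y Z n).1 h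
  exact ⟨t, by rw [mul_comm]; linarith⟩
theorem lift_ps [NeZero n] {Y Z : ℤ} (h : (Y : ZMod n) = Z) :
    ∃ t : ℤ, Z = Y + t * n ∧ ps m n Z = ps m n Y + t * m := by
  obtain ⟨t, ht⟩ := lift_eq h
  exact ⟨t, ht, by rw [ht, ps_add, ps_n]⟩
/-- Two lifts at distance less than `m` are equal. -/
theorem lift_unique [NeZero n] {Y Z : ℤ} (h : (Y : ZMod n) = Z)
    (h1 : ps m n Y < ps m n Z + m) (h2 : ps m n Z < ps m n Y + m) : Y = Z := by
  obtain ⟨t, ht, hp⟩ := lift_ps (m := m) h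
  have hm : (0 : ℝ) ≤ m := Nat.cast_nonneg m
  have a1 : (t : ℝ) * m < 1 * m := by linarith
  have a2 : (-1 : ℝ) * m < t * m := by linarith
  have b1 : (t : ℝ) < 1 := lt_of_mul_lt_mul_right a1 hm
  have b2 : (-1 : ℝ) < t := lt_of_mul_lt_mul_right a2 hm
  have c1 : t < 1 := by exact_mod_cast b1
  have c2 : -1 < t := by exact_mod_cast b2
  have : t = 0 := by omega
  subst this; simpa using ht.symm

theorem At.intCast (Y : ℤ) : At m (Y : ZMod n) (ps m n Y) (ps m n Y) := ⟨Y, rfl, le_rfl, le_rfl⟩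
theorem At.mono {y : ZMod n} {lo hi lo' hi' : ℝ} (h : At m y lo hi) (h1 : lo' ≤ lo)
    (h2 : hi ≤ hi') : At m y lo' hi' := by
  obtain ⟨Y, e, a, b⟩ := h; exact ⟨Y, e, h1.trans a, b.trans h2⟩
theorem At.le {y : ZMod n} {lo hi : ℝ} (h : At m y lo hi) : lo ≤ hi := by
  obtain ⟨Y, _, a, b⟩ := h; exact a.trans b
theorem At.zero {lo hi : ℝ} (h1 : lo ≤ 0) (h2 : 0 ≤ hi) : At m (0 : ZMod n) lo hi :=
  ⟨0, by simp, by simpa, by simpa⟩
theorem At.add {y y' : ZMod n} {lo hi lo' hi' : ℝ} (h : At m y lo hi) (h' : At m y' lo' hi') :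
    At m (y + y') (lo + lo') (hi + hi') := by
  obtain ⟨Y, e, a, b⟩ := h; obtain ⟨Z, e', a', b'⟩ := h'
  exact ⟨Y + Z, by push_cast; rw [e, e'], by rw [ps_add]; linarith, by rw [ps_add]; linarith⟩
theorem At.neg {y : ZMod n} {lo hi : ℝ} (h : At m y lo hi) : At m (-y) (-hi) (-lo) := by
  obtain ⟨Y, e, a, b⟩ := h
  exact ⟨-Y, by push_cast; rw [e], by rw [ps_neg]; linarith, by rw [ps_neg]; linarith⟩
theorem At.sub {y y' : ZMod n} {lo hi lo' hi' : ℝ} (h : At m y lo hi) (h' : At m y' lo' hi') :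
    At m (y - y') (lo - hi') (hi - lo') := by
  simpa [sub_eq_add_neg] using h.add h'.neg
theorem At.shift [NeZero n] {y : ZMod n} {lo hi : ℝ} (h : At m y lo hi) (t : ℤ) :
    At m y (lo + t * m) (hi + t * m) := by
  obtain ⟨Y, e, a, b⟩ := h
  exact ⟨Y + t * n, by push_cast; simp [e], by rw [ps_add, ps_n]; linarith,
    by rw [ps_add, ps_n]; linarith⟩
/-- Two intervals that are disjoint on the circle. -/
theorem At.disj [NeZero n] {y : ZMod n} {l1 h1 l2 h2 : ℝ} (a : At m y l1 h1) (b : At m y l2 h2)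
    (c1 : h1 < l2) (c2 : h2 < l1 + m) : False := by
  obtain ⟨Y, e, a1, a2⟩ := a; obtain ⟨Z, e', b1, b2⟩ := b
  have hm : (0 : ℝ) ≤ m := Nat.cast_nonneg m
  have := lift_unique (m := m) (e.trans e'.symm) (by linarith) (by linarith)
  subst this; linarith
theorem At.ne [NeZero n] {y y' : ZMod n} {l1 h1 l2 h2 : ℝ} (a : At m y l1 h1)
    (b : At m y' l2 h2) (c1 : h1 < l2) (c2 : h2 < l1 + m) : y ≠ y' := by
  rintro rfl; exact a.disj b c1 c2
theorem At.sum {ι : Type*} (s : Finset ι) {y : ι → ZMod n} {lo hi : ι → ℝ}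
    (h : ∀ i ∈ s, At m (y i) (lo i) (hi i)) :
    At m (∑ i ∈ s, y i) (∑ i ∈ s, lo i) (∑ i ∈ s, hi i) := by
  classical
  induction s using Finset.induction_on with
  | empty => simpa using At.zero le_rfl le_rfl
  | insert a s ha ih =>
    rw [sum_insert ha, sum_insert ha, sum_insert ha]
    exact (h a (mem_insert_self a s)).add (ih fun i hi => h i (mem_insert_of_mem hi))
theorem At.sum_const {ι : Type*} (s : Finset ι) {y : ι → ZMod n} {lo hi : ℝ}
    (h : ∀ i ∈ s, At m (y i) lo hi) : At m (∑ i ∈ s, y i) (s.card * lo) (s.card * hi) := by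
  simpa using At.sum s (lo := fun _ => lo) (hi := fun _ => hi) h
theorem At.smul {y : ZMod n} {η : ℝ} (h : At m y (-η) η) {a : ℤ} {B : ℝ} (ha : |(a : ℝ)| ≤ B) :
    At m ((a : ZMod n) * y) (-(B * η)) (B * η) := by
  obtain ⟨Y, e, h1, h2⟩ := h
  have hb : |ps m n (a * Y)| ≤ B * η := by
    rw [ps_mul, abs_mul]
    exact mul_le_mul ha (abs_le.2 ⟨h1, h2⟩) (abs_nonneg _) ((abs_nonneg _).trans ha)
  exact ⟨a * Y, by push_cast; rw [e], (abs_le.1 hb).1, (abs_le.1 hb).2⟩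
/-- Every point has a lift in `[lo, lo + m)`. -/
theorem exists_lift [NeZero n] (hm : 0 < m) (y : ZMod n) (lo : ℝ) :
    ∃ Y : ℤ, (Y : ZMod n) = y ∧ lo ≤ ps m n Y ∧ ps m n Y < lo + m := by
  have hm' : (0 : ℝ) < m := by exact_mod_cast hm
  set Y0 : ℤ := (y.val : ℤ)
  have e0 : (Y0 : ZMod n) = y := by simp [Y0]
  set t : ℤ := ⌈(lo - ps m n Y0) / m⌉
  have h1 : (lo - ps m n Y0) / m ≤ t := Int.le_ceil _
  have h2 : (t : ℝ) < (lo - ps m n Y0) / m + 1 := Int.ceil_lt_add_one _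
  rw [div_le_iff₀ hm'] at h1
  have h3 : (t : ℝ) * m < ((lo - ps m n Y0) / m + 1) * m := by gcongr
  rw [add_mul, div_mul_cancel₀ _ hm'.ne'] at h3
  exact ⟨Y0 + t * n, by push_cast; simp [e0], by rw [ps_add, ps_n]; linarith,
    by rw [ps_add, ps_n]; linarith⟩
theorem cell_lt [NeZero n] (hm : 0 < m) (y : ZMod n) : cell m y < m := by
  unfold cell
  rw [Nat.div_lt_iff_lt_mul (Nat.pos_of_ne_zero (NeZero.ne n)), mul_comm m n]
  exact Nat.mul_lt_mul_of_pos_right (ZMod.val_lt y) hm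
theorem cell_eq_floor [NeZero n] (y : ZMod n) :
    (cell m y : ℝ) ≤ ps m n (y.val : ℤ) ∧ ps m n (y.val : ℤ) < cell m y + 1 := by
  have hn := npos (n := n)
  have hn' : 0 < n := Nat.pos_of_ne_zero (NeZero.ne n)
  unfold cell ps
  rw [le_div_iff₀ hn, div_lt_iff₀ hn]
  have a := Nat.div_mul_le_self (y.val * m) n
  have b : y.val * m < (y.val * m / n + 1) * n := by
    rw [← Nat.div_lt_iff_lt_mul hn']; omega
  rw [Int.cast_natCast]
  constructor
  · exact_mod_cast a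
  · exact_mod_cast b
theorem At.cell [NeZero n] (y : ZMod n) : At m y (cell m y) (cell m y + 1) :=
  ⟨(y.val : ℤ), by simp, (cell_eq_floor y).1, (cell_eq_floor y).2.le⟩

end At

/-! ### Features -/

section Feat
variable {m : ℕ}

open Classical in
/-- Indicator of the arc `[A, B)`. -/
def arc (n : ℕ) (A B : ℤ) : Dv n := fun y => if ∃ Y : ℤ, (Y : ZMod n) = y ∧ A ≤ Y ∧ Y < B then 1 else 0

theorem arc_eq_one {A B : ℤ} {y : ZMod n} :
    arc n A B y = 1 ↔ ∃ Y : ℤ, (Y : ZMod n) = y ∧ A ≤ Y ∧ Y < B := by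
  unfold arc; split_ifs with h <;> simp [h]
theorem arc_val (A B : ℤ) (y : ZMod n) : arc n A B y = 0 ∨ arc n A B y = 1 := by
  unfold arc; split_ifs <;> simp
theorem arc_eq_zero {A B : ℤ} {y : ZMod n} :
    arc n A B y = 0 ↔ ¬ ∃ Y : ℤ, (Y : ZMod n) = y ∧ A ≤ Y ∧ Y < B := by
  unfold arc; split_ifs with h <;> simp [h]

theorem arc_succ {A B : ℤ} (h1 : A ≤ B) (h2 : B < A + n) :
    arc n A (B + 1) = arc n A B + pt (B : ZMod n) := by
  funext y
  simp only [Pi.add_apply, pt_apply]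
  by_cases hy : y = (B : ZMod n)
  · subst hy
    have a : arc n A (B + 1) (B : ZMod n) = 1 := arc_eq_one.2 ⟨B, rfl, h1, by omega⟩
    have b : arc n A B (B : ZMod n) = 0 := by
      rw [arc_eq_zero]
      rintro ⟨Y, e, y1, y2⟩
      obtain ⟨t, ht⟩ := lift_eq e
      have hn : (0 : ℤ) ≤ n := Int.natCast_nonneg n
      rcases le_or_gt t 0 with h | h
      · nlinarith
      · nlinarith
    simp [a, b]
  · simp only [hy, if_false, add_zero]
    unfold arc
    congr 1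
    apply propext
    constructor
    · rintro ⟨Y, e, y1, y2⟩
      refine ⟨Y, e, y1, ?_⟩
      rcases lt_or_eq_of_le (Int.lt_add_one_iff.1 y2) with h | h
      · exact h
      · exact absurd (by rw [← e, h]) hy
    · rintro ⟨Y, e, y1, y2⟩
      exact ⟨Y, e, y1, by omega⟩

theorem dd_arc {A B : ℤ} (h1 : A ≤ B) (h2 : B ≤ A + n) :
    dd (arc n A B) = pt (B : ZMod n) - pt (A : ZMod n) := by
  obtain ⟨j, rfl⟩ : ∃ j : ℕ, B = A + j := ⟨(B - A).toNat, by omega⟩
  induction j with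
  | zero =>
    have : arc n A A = 0 := by
      funext y; rw [Pi.zero_apply, arc_eq_zero]; rintro ⟨Y, _, a, b⟩; omega
    simp [this]
  | succ j ih =>
    push_cast at h1 h2 ⊢
    rw [← add_assoc, arc_succ (by omega) (by omega), dd_add, ih (by omega) (by omega), dd_pt]
    push_cast; abel_nf

theorem Feat.zero (lo hi : ℝ) : Feat m (0 : Dv n) lo hi := ⟨0, fun _ => Or.inl rfl, by simp⟩
theorem Feat.mono {E : Dv n} {lo hi lo' hi' : ℝ} (h : Feat m E lo hi) (h1 : lo' ≤ lo)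
    (h2 : hi ≤ hi') : Feat m E lo' hi' := by
  obtain ⟨f, hf, e⟩ := h
  exact ⟨f, fun y => (hf y).imp id fun h => ⟨h.1, h.2.mono h1 h2⟩, e⟩
theorem Feat.shift [NeZero n] {E : Dv n} {lo hi : ℝ} (h : Feat m E lo hi) (t : ℤ) :
    Feat m E (lo + t * m) (hi + t * m) := by
  obtain ⟨f, hf, e⟩ := h
  exact ⟨f, fun y => (hf y).imp id fun h => ⟨h.1, h.2.shift t⟩, e⟩
theorem Feat.congr {E E' : Dv n} {lo hi : ℝ} (h : Feat m E lo hi) (e : E' = E) :
    Feat m E' lo hi := e ▸ h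

theorem le_add_n [NeZero n] {A B : ℤ} (h : ps m n B < ps m n A + m) : B ≤ A + n := by
  have : ps m n B < ps m n (A + 1 * n) := by rw [ps_add, ps_n]; simpa using h
  have := lt_of_ps_lt this
  omega

/-- A bump between two lifts. -/
theorem Feat.dipZ [NeZero n] {A B : ℤ} (h1 : A ≤ B) (h2 : ps m n B < ps m n A + m) :
    Feat m (pt (A : ZMod n) - pt (B : ZMod n)) (ps m n A) (ps m n B) := by
  refine ⟨arc n A B, fun y => ?_, by rw [dd_arc h1 (le_add_n h2)]; abel⟩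
  rcases arc_val A B y with h | h
  · exact Or.inl h
  · obtain ⟨Y, e, a, b⟩ := arc_eq_one.1 h
    exact Or.inr ⟨h, Y, e, ps_mono a, ps_mono b.le⟩
/-- A bump from `p` to `q`. -/
theorem Feat.dip [NeZero n] (hm : 0 < m) {p q : ZMod n} {l1 h1 l2 h2 : ℝ} (a : At m p l1 h1)
    (b : At m q l2 h2) (c1 : h1 ≤ l2) (c2 : h2 < l1 + m) : Feat m (pt p - pt q) l1 h2 := by
  obtain ⟨A, rfl, a1, a2⟩ := a; obtain ⟨B, rfl, b1, b2⟩ := b
  exact (Feat.dipZ (le_of_ps_le (n := n) hm (by linarith)) (by linarith)).mono a1 b2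
/-- Two features with disjoint supports. -/
theorem Feat.add' [NeZero n] {E E' : Dv n} {l1 h1 l2 h2 lo hi : ℝ} (a : Feat m E l1 h1)
    (b : Feat m E' l2 h2) (c : ∀ y : ZMod n, At m y l1 h1 → At m y l2 h2 → False)
    (d1 : lo ≤ l1) (d2 : h1 ≤ hi) (d3 : lo ≤ l2) (d4 : h2 ≤ hi) : Feat m (E + E') lo hi := by
  obtain ⟨f, hf, e⟩ := a; obtain ⟨g, hg, e'⟩ := b
  refine ⟨f + g, fun y => ?_, by rw [dd_add, e, e']; abel⟩
  rcases hf y with p | p <;> rcases hg y with r | r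
  · left; simp [p, r]
  · right; exact ⟨by simp [p, r.1], r.2.mono d3 d4⟩
  · right; exact ⟨by simp [p.1, r], p.2.mono d1 d2⟩
  · exact (c y p.2 r.2).elim
theorem Feat.add [NeZero n] {E E' : Dv n} {l1 h1 l2 h2 lo hi : ℝ} (a : Feat m E l1 h1)
    (b : Feat m E' l2 h2) (c : h1 < l2 ∨ h2 < l1) (d1 : lo ≤ l1) (d2 : h1 ≤ hi) (d3 : lo ≤ l2)
    (d4 : h2 ≤ hi) (d5 : hi < lo + m) : Feat m (E + E') lo hi := by
  refine a.add' b (fun y p r => ?_) d1 d2 d3 d4
  rcases c with c | c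
  · exact p.disj r c (by linarith)
  · exact r.disj p c (by linarith)
/-- A sum of features with pairwise disjoint supports inside a frame shorter than the circle. -/
theorem Feat.sum [NeZero n] {ι : Type*} (s : Finset ι) {E : ι → Dv n} {l h : ι → ℝ} {lo hi : ℝ}
    (a : ∀ i ∈ s, Feat m (E i) (l i) (h i)) (b : ∀ i ∈ s, lo ≤ l i ∧ h i ≤ hi)
    (c : ∀ i ∈ s, ∀ j ∈ s, i ≠ j → h i < l j ∨ h j < l i) (d : hi < lo + m) :
    Feat m (∑ i ∈ s, E i) lo hi := by
  classical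
  suffices H : ∃ f : Dv n, (∀ y, f y = 0 ∨ (f y = 1 ∧ ∃ i ∈ s, At m y (l i) (h i))) ∧
      ∑ i ∈ s, E i = -dd f by
    obtain ⟨f, hf, e⟩ := H
    refine ⟨f, fun y => (hf y).imp id ?_, e⟩
    rintro ⟨p, i, hi, r⟩
    exact ⟨p, r.mono (b i hi).1 (b i hi).2⟩
  induction s using Finset.induction_on with
  | empty => exact ⟨0, fun _ => Or.inl rfl, by simp⟩
  | insert i s hi ih =>
    obtain ⟨f, hf, e⟩ := ih (fun j hj => a j (mem_insert_of_mem hj))
      (fun j hj => b j (mem_insert_of_mem hj))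
      (fun j hj k hk => c j (mem_insert_of_mem hj) k (mem_insert_of_mem hk))
    obtain ⟨g, hg, e'⟩ := a i (mem_insert_self i s)
    refine ⟨g + f, fun y => ?_, by rw [sum_insert hi, dd_add, e, e']; abel⟩
    rcases hg y with p | p <;> rcases hf y with r | ⟨r, j, hj, r'⟩
    · left; simp [p, r]
    · right; exact ⟨by simp [p, r], j, mem_insert_of_mem hj, r'⟩
    · right; exact ⟨by simp [p.1, r], i, mem_insert_self i s, p.2⟩
    · exfalso
      have hne : i ≠ j := fun h => hi (h ▸ hj)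
      have bi := b i (mem_insert_self i s)
      have bj := b j (mem_insert_of_mem hj)
      rcases c i (mem_insert_self i s) j (mem_insert_of_mem hj) hne with h | h
      · exact p.2.disj r' h (by linarith)
      · exact r'.disj p.2 h (by linarith)
/-- A plateau from `p` to `q` out of which the feature `E` is cut. -/
theorem Feat.hole [NeZero n] (hm : 0 < m) {E : Dv n} {lo hi : ℝ} (h : Feat m E lo hi)
    {p q : ZMod n} {l1 h1 l2 h2 : ℝ} (a : At m p l1 h1) (b : At m q l2 h2) (c0 : h1 ≤ l2)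
    (c1 : h1 ≤ lo) (c2 : hi < l2) (c3 : h2 < l1 + m) : Feat m (pt p - pt q - E) l1 h2 := by
  obtain ⟨A, rfl, a1, a2⟩ := a; obtain ⟨B, rfl, b1, b2⟩ := b
  obtain ⟨f, hf, e⟩ := h
  have hAB : A ≤ B := le_of_ps_le (n := n) hm (by linarith)
  refine ⟨arc n A B - f, fun y => ?_,
    by rw [dd_sub, dd_arc hAB (le_add_n (m := m) (by linarith)), e]; abel⟩
  rcases hf y with p | ⟨p, Y, eY, y1, y2⟩
  · rcases arc_val A B y with r | r
    · left; simp [p, r]
    · obtain ⟨Y, eY, y1, y2⟩ := arc_eq_one.1 r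
      right
      exact ⟨by simp [p, r], Y, eY, a1.trans (ps_mono y1), (ps_mono y2.le).trans b2⟩
  · have r : arc n A B y = 1 := arc_eq_one.2
      ⟨Y, eY, le_of_ps_le (n := n) hm (by linarith), lt_of_ps_lt (m := m) (n := n) (by linarith)⟩
    left; simp [p, r]
/-- The dipole `w ([x] - [u])` becomes a feature, if necessary on the plateau from `p` to `q`. -/
theorem exists_aslot [NeZero n] (hm : 7 ≤ m) {x u p q : ZMod n} {a : ℝ} {w : ℤ}
    (hw : w = 1 ∨ w = -1) (hx : At m x (a - 1) (a + 3)) (hu : At m u (a - 1) (a + 3))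
    (hp : At m p (a - 2) (a - 1)) (hq : At m q (a + 3 + 1 / 5) (a + 4)) :
    ∃ fl : Bool, Feat m (w • (pt x - pt u) + if fl then pt p - pt q else 0) (a - 2) (a + 4) := by
  have hm0 : 0 < m := by omega
  have hm' : (7 : ℝ) ≤ m := by exact_mod_cast hm
  obtain ⟨X, rfl, x1, x2⟩ := hx; obtain ⟨U, rfl, u1, u2⟩ := hu
  have key : ∀ E : Dv n, Feat m E (a - 1) (a + 3) →
      (∃ fl : Bool, Feat m (E + if fl then pt p - pt q else 0) (a - 2) (a + 4)) ∧
      (∃ fl : Bool, Feat m (-E + if fl then pt p - pt q else 0) (a - 2) (a + 4)) := by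
    intro E hE
    refine ⟨⟨false, by simpa using hE.mono (by linarith) (by linarith)⟩, ⟨true, ?_⟩⟩
    refine (hE.hole hm0 hp hq (by linarith) le_rfl (by linarith) (by linarith)).congr ?_
    simp only [if_true]; abel
  rcases le_total X U with h | h
  · have := key _ ((Feat.dipZ (m := m) h (by linarith)).mono x1 u2)
    rcases hw with rfl | rfl
    · simpa using this.1
    · simpa using this.2
  · have := key _ ((Feat.dipZ (m := m) h (by linarith)).mono u1 x2)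
    rcases hw with rfl | rfl
    · simpa using this.2
    · simpa using this.1

end Feat

/-! ### Constants -/

namespace Par
variable (P : Par)

theorem D_pos : 1 ≤ P.D := by
  have := P.hD; have := P.hd0; omega
theorem abs_d : |P.d| = P.D := by rw [← P.hD]; simp
theorem klenP_nonneg : 0 ≤ (P.k : ℤ) * P.lenP := by
  have := P.hq; have := P.hlenP
  exact mul_nonneg (by omega) (by omega)
/-- Linear integer facts; the products `k * lenP`, `k * len`, `D * w1` are atoms. -/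
theorem factsZ : 1 ≤ (P.D : ℤ) ∧ 1 ≤ (P.k : ℤ) ∧ P.q = 2 * P.k + P.D ∧ P.ls = 2 * P.q + 13 ∧
    P.s2 = 2 * P.q + 7 ∧ P.lenP = 6 * P.q + 29 ∧ P.len = P.lenP + 8 ∧
    P.S = 6 * P.k + P.k * P.lenP + 6 ∧ P.S1 = 14 * P.D + 48 ∧ P.lt = P.S + P.S1 + 1 ∧
    P.ladj = P.lt + 7 ∧ P.w1 = P.k * P.len + P.ladj + 23 ∧
    P.k * P.len = P.k * P.lenP + 8 * P.k ∧ P.lenP ≤ P.k * P.lenP ∧
    P.w = P.D * P.w1 + 3 * P.w1 + 28 * P.D + 84 ∧ P.w1 ≤ P.D * P.w1 ∧
    4 * (P.w + P.S + P.S1 + 20) ≤ P.m := by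
  have h1 : 1 ≤ (P.D : ℤ) := by exact_mod_cast P.D_pos
  have h2 : 1 ≤ (P.k : ℤ) := by exact_mod_cast P.hk
  have h3 : 0 ≤ P.lenP := by have := P.hq; have := P.hlenP; omega
  have h4 : P.lenP ≤ P.k * P.lenP := by nlinarith
  have h5 : P.k * P.len = P.k * P.lenP + 8 * P.k := by rw [P.hlen]; ring
  have h6 : P.S = 6 * P.k + P.k * P.lenP + 6 := by rw [P.hS]; ring
  have h7 : 0 ≤ P.w1 := by
    have := P.hw1; have := P.hladj; have := P.hlt; have := P.hS1; omega
  refine ⟨h1, h2, P.hq, P.hls, P.hs2, P.hlenP, P.hlen, h6, P.hS1, P.hlt, P.hladj, P.hw1, h5, h4,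
    by rw [P.hw]; ring, by nlinarith, P.hm⟩
/-- The same facts over the reals. -/
theorem factsR : 1 ≤ (P.D : ℝ) ∧ 1 ≤ (P.k : ℝ) ∧ (P.q : ℝ) = 2 * P.k + P.D ∧
    (P.ls : ℝ) = 2 * P.q + 13 ∧ (P.s2 : ℝ) = 2 * P.q + 7 ∧ (P.lenP : ℝ) = 6 * P.q + 29 ∧
    (P.len : ℝ) = P.lenP + 8 ∧ (P.S : ℝ) = 6 * P.k + P.k * P.lenP + 6 ∧
    (P.S1 : ℝ) = 14 * P.D + 48 ∧ (P.lt : ℝ) = P.S + P.S1 + 1 ∧ (P.ladj : ℝ) = P.lt + 7 ∧
    (P.w1 : ℝ) = P.k * P.len + P.ladj + 23 ∧ (P.k : ℝ) * P.len = P.k * P.lenP + 8 * P.k ∧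
    (P.lenP : ℝ) ≤ P.k * P.lenP ∧ (P.w : ℝ) = P.D * P.w1 + 3 * P.w1 + 28 * P.D + 84 ∧
    (P.w1 : ℝ) ≤ P.D * P.w1 ∧ 4 * ((P.w : ℝ) + P.S + P.S1 + 20) ≤ P.m := by
  obtain ⟨a1, a2, a3, a4, a5, a6, a7, a8, a9, a10, a11, a12, a13, a14, a15, a16, a17⟩ := P.factsZ
  refine ⟨?_, ?_, ?_, ?_, ?_, ?_, ?_, ?_, ?_, ?_, ?_, ?_, ?_, ?_, ?_, ?_, ?_⟩
  all_goals assumption_mod_cast
theorem m_ge : 100 ≤ P.m := by
  obtain ⟨a1, a2, a3, a4, a5, a6, a7, a8, a9, a10, a11, a12, a13, a14, a15, a16, a17⟩ := P.factsZ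
  omega
theorem m_pos : 0 < P.m := by have := P.m_ge; omega
theorem L_ge : 2 ≤ P.L := by have := P.hL; omega
theorem eta_pos : 0 < P.eta := by
  have := P.factsR.2.1
  unfold eta; positivity
theorem k_D_eta : (P.k : ℝ) * ((P.D + 1) * P.eta) = 1 := by
  have := P.factsR.2.1
  unfold eta; field_simp

end Par

variable {P : Par} {c : ZMod n}

/-- Small integers sit near `0`. -/
theorem Env.small [NeZero n] (E : Env P c) {j : ℤ} {B : ℕ} (hj : |j| ≤ B * (P.L + 1)) :
    At P.m (j : ZMod n) (-(B / 100 : ℝ)) (B / 100) := by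
  have hn := npos (n := n)
  have h1 : (100 : ℝ) * (P.L + 1) * P.m ≤ n := by exact_mod_cast E.hsm
  have h2 : |(j : ℝ)| ≤ B * (P.L + 1) := by exact_mod_cast hj
  have h3 : |ps P.m n j| ≤ B / 100 := by
    unfold ps
    rw [abs_div, abs_mul, abs_of_pos hn, abs_of_nonneg (Nat.cast_nonneg P.m : (0 : ℝ) ≤ P.m),
      div_le_iff₀ hn]
    have : |(j : ℝ)| * P.m ≤ B * (P.L + 1) * P.m := by gcongr
    have h4 : (B : ℝ) / 100 * (100 * (P.L + 1) * P.m) ≤ B / 100 * n := by gcongr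
    nlinarith
  exact ⟨j, rfl, (abs_le.1 h3).1, (abs_le.1 h3).2⟩
/-- Small integers are distinct in `ZMod n`. -/
theorem Env.inj (E : Env P c) {i j : ℤ} (hi : |i| ≤ 2 * (P.L + 1)) (hj : |j| ≤ 2 * (P.L + 1))
    (h : (i : ZMod n) = j) : i = j := by
  obtain ⟨t, ht⟩ := lift_eq h
  have h1 : (100 : ℤ) * (P.L + 1) * P.m ≤ n := by exact_mod_cast E.hsm
  have h2 : (1 : ℤ) ≤ P.m := by exact_mod_cast P.m_pos
  have h3 : (100 : ℤ) * (P.L + 1) ≤ n := by nlinarith
  have a := abs_le.1 hi; have b := abs_le.1 hj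
  rcases lt_trichotomy t 0 with h | h | h
  · nlinarith
  · subst h; simpa using ht.symm
  · nlinarith

theorem Lib.vp_at (Lb : Lib P c) (p : ℤ) (s : ℕ) (l : ℤ) :
    At P.m (Lb.vp p s l) (l + 1 / 5) (l + 4 / 5) := Lb.lk_v _ _ _
theorem Lib.vm_at (Lb : Lib P c) (p : ℤ) (s : ℕ) (l : ℤ) :
    At P.m (Lb.vm p s l) (l + 1 / 5) (l + 4 / 5) := Lb.lk_v _ _ _

open Classical in
theorem mem_bx [NeZero n] {m : ℕ} {σ α τ β : ℝ} {g : ZMod n} :
    g ∈ bx m c σ α τ β ↔ At m g σ (σ + α) ∧ At m (c * g) τ (τ + β) := by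
  simp [bx]

/-- No change of the carried divisor. -/
theorem RowOK.refl [NeZero n] (P : Par) (C : Dv n) (τ z τ' z' : ℤ) : RowOK P C τ z C τ' z' :=
  ⟨by simpa using At.zero (by norm_num) (by norm_num), 0, by simp, fun y h => (h rfl).elim⟩

end

end Pool.Agent.P.MP_009630_co.Dn
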