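import Pool.Agent.P.MP_009630_co.Dn.St

/-! The block lemma. -/

set_option autoImplicit false

namespace Pool.Agent.P.MP_009630_co.Dn

open Finset

noncomputable section

namespace BlockP

variable {n : ℕ} {P : Par} {c : ZMod n}

/-- Slots of the pair zone of a member. -/
abbrev Sl (P : Par) := Fin P.k ⊕ Fin P.k ⊕ Fin P.D

/-- Number of a slot. -/
def ix (P : Par) : Sl P → ℕ :=
  Sum.elim (fun x => x.val) (Sum.elim (fun x => P.k + x.val) fun i => 2 * P.k + i.val)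

theorem ix_inj : Function.Injective (ix P) := by
  rintro (x | x | x) (y | y | y) h <;> simp only [ix, Sum.elim_inl, Sum.elim_inr] at h
  all_goals first
    | (exfalso; have := x.isLt; have := y.isLt; omega)
    | (have h' : x = y := Fin.ext (by omega); rw [h'])

theorem ix_lt (s : Sl P) : (ix P s : ℤ) < P.q := by
  have := P.hq
  rcases s with x | x | x <;> simp only [ix, Sum.elim_inl, Sum.elim_inr] <;>
    have := x.isLt <;> omega

theorem card_Sl : ((univ : Finset (Sl P)).card : ℝ) = P.q := by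
  have h : (P.q : ℝ) = 2 * P.k + P.D := P.factsR.2.2.1
  rw [h, card_univ]
  simp only [Fintype.card_sum, Fintype.card_fin]
  push_cast; ring

variable (B : BD P n) (Lb : Lib P c) (Cf : Cm P.d P.k)

/-- Coefficient of `x` seen from `y`. -/
def wt (y x : Fin P.k) : ℤ := B.σ * Cf.W y x

/-- Cell of the plus end of the plateau over the pair zone of `x`. -/
def pa (y x : Fin P.k) : ℤ := if wt B Cf y x = 1 then B.p x + 2 * P.q + P.ls + 2 else B.p x - 1

/-- Cell of the minus end of the plateau over the pair zone of `x`. -/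
def pb (y x : Fin P.k) : ℤ :=
  if wt B Cf y x = 1 then B.p x + 2 * P.q + P.ls + P.s2 + 6 else B.p x + 2 * P.q + P.ls + 2

/-- Flags of the slots. -/
def fl (y : Fin P.k) : Sl P → Bool :=
  Sum.elim (B.af y) (Sum.elim (fun x => decide (Cf.W y x ≠ 0)) (B.sf y))

/-- Cells of the plus ends. -/
def ca (y : Fin P.k) : Sl P → ℤ := Sum.elim (B.aa y) (Sum.elim (pa B Cf y) (B.sa y))

/-- Cells of the minus ends. -/
def cb (y : Fin P.k) : Sl P → ℤ := Sum.elim (B.ab y) (Sum.elim (pb B Cf y) (B.sb y))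

/-- The pairs of the pair zone of `y`. -/
def Zs (y : Fin P.k) : Dv n :=
  ∑ s, if fl B Cf y s then pt (Lb.lk false (B.p y + 2 * ix P s) (cb B Cf y s)) -
    pt (Lb.lk false (B.p y + 2 * ix P s + 1) (ca B Cf y s)) else 0

/-- The plateau dipole. -/
def dP (y x : Fin P.k) : Dv n :=
  Lb.dip (B.p y) (P.k + x) (decide (Cf.W y x ≠ 0)) (pa B Cf y x) (pb B Cf y x)

/-- The small correction. -/
def om (c : ZMod n) (y : Fin P.k) : ZMod n :=
  (B.g Cf y : ZMod n) * B.ζ + (B.β y : ZMod n) * (B.u - c * B.ζ)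

variable [NeZero n]

/-- What remains to be adjusted. -/
def xi (y : Fin P.k) : ZMod n := B.pos y - B.u0 y - om B Cf c y + mom (Zs B Lb Cf y)

theorem psh_Zs (y : Fin P.k) : psh c (Zs B Lb Cf y) =
    -(∑ x : Fin P.k, Lb.dip (B.p y) x (B.af y x) (B.aa y x) (B.ab y x) + ∑ x, dP B Lb Cf y x +
      Lb.scaf (B.p y) (B.sf y) (B.sa y) (B.sb y)) := by
  have h : psh c (Zs B Lb Cf y) =
      -∑ s, Lb.dip (B.p y) (ix P s) (fl B Cf y s) (ca B Cf y s) (cb B Cf y s) := by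
    unfold Zs
    rw [psh_sum, ← sum_neg_distrib]
    refine sum_congr rfl fun s _ => ?_
    unfold Lib.dip Lib.vp Lib.vm
    split_ifs
    · rw [psh_sub, psh_pt, psh_pt, neg_sub]
    · rw [psh_zero, neg_zero]
  rw [h, Fintype.sum_sum_type, Fintype.sum_sum_type, add_assoc]
  rfl

variable {B Lb Cf}

theorem wt_val (hB : B.ok Lb Cf) {y x : Fin P.k} (h : Cf.W y x ≠ 0) :
    wt B Cf y x = 1 ∨ wt B Cf y x = -1 := by
  unfold wt
  rcases hB.hσ with a | a <;> rcases Cf.val y x with b | b | b <;> simp_all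

theorem wt_abs (hB : B.ok Lb Cf) (y x : Fin P.k) : |(wt B Cf y x : ℝ)| ≤ 1 := by
  by_cases h : Cf.W y x = 0
  · simp [wt, h]
  · rcases wt_val hB h with a | a <;> simp [a]

theorem sum_wg (hB : B.ok Lb Cf) (y : Fin P.k) :
    ∑ x, wt B Cf y x * B.g Cf x = -(P.d * B.β y) := by
  have h1 : B.σ * B.σ = 1 := by rcases hB.hσ with a | a <;> simp [a]
  have h2 : ∀ x, wt B Cf y x * B.g Cf x = -∑ z, Cf.W y x * Cf.W x z * B.β z := by
    intro x
    unfold wt BD.g
    rw [mul_neg, mul_sum]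
    congr 1
    refine sum_congr rfl fun z _ => ?_
    linear_combination (Cf.W y x * Cf.W x z * B.β z) * h1
  simp only [h2]
  rw [sum_neg_distrib, sum_comm]
  congr 1
  have h3 : ∀ z, ∑ x, Cf.W y x * Cf.W x z * B.β z = if y = z then P.d * B.β z else 0 := by
    intro z
    rw [← sum_mul, Cf.sq]
    split_ifs <;> simp
  simp only [h3]
  simp

omit [NeZero n] in
theorem sum_wb (y : Fin P.k) : ∑ x, wt B Cf y x * B.β x = -B.g Cf y := by
  unfold BD.g wt
  rw [neg_neg]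

theorem om_id (E : Env P c) (hB : B.ok Lb Cf) (y : Fin P.k) :
    c * om B Cf c y = ∑ x, (wt B Cf y x : ZMod n) * om B Cf c x + (B.g Cf y : ZMod n) * B.u +
      (B.β y : ZMod n) * (c * B.u) := by
  have h1 : ∑ x, (wt B Cf y x : ZMod n) * (B.g Cf x : ZMod n) = -((P.d : ZMod n) * B.β y) := by
    exact_mod_cast congrArg (Int.cast : ℤ → ZMod n) (sum_wg hB y)
  have h2 : ∑ x, (wt B Cf y x : ZMod n) * (B.β x : ZMod n) = -(B.g Cf y : ZMod n) := by
    exact_mod_cast congrArg (Int.cast : ℤ → ZMod n) (sum_wb (B := B) (Cf := Cf) y)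
  have h3 : ∑ x, (wt B Cf y x : ZMod n) * om B Cf c x =
      (∑ x, (wt B Cf y x : ZMod n) * (B.g Cf x : ZMod n)) * B.ζ +
        (∑ x, (wt B Cf y x : ZMod n) * (B.β x : ZMod n)) * (B.u - c * B.ζ) := by
    rw [sum_mul, sum_mul, ← sum_add_distrib]
    refine sum_congr rfl fun x _ => ?_
    unfold om; ring
  rw [h3, h1, h2]
  unfold om
  linear_combination (-(B.β y : ZMod n) * B.ζ) * E.hc

theorem om_at (hB : B.ok Lb Cf) (y : Fin P.k) :
    At P.m (om B Cf c y) (-((P.D + 1) * P.eta)) ((P.D + 1) * P.eta) := by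
  have h1 : |((B.g Cf y : ℤ) : ℝ)| ≤ P.D := by exact_mod_cast hB.hg y
  have h2 : |((B.β y : ℤ) : ℝ)| ≤ 1 := by exact_mod_cast hB.hβ y
  exact ((hB.hζ.smul h1).add (hB.hζ'.smul h2)).mono (le_of_eq (by ring)) (le_of_eq (by ring))

theorem D_eta_le (P : Par) : ((P.D : ℝ) + 1) * P.eta ≤ 1 := by
  have h1 := P.k_D_eta
  have h2 := P.factsR.2.1
  have h3 : 0 ≤ ((P.D : ℝ) + 1) * P.eta := by have := P.eta_pos; positivity
  nlinarith

theorem Zs_at (y : Fin P.k) : At P.m (mom (Zs B Lb Cf y)) (-2 * P.q) 0 := by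
  unfold Zs
  rw [mom_sum]
  have h := At.sum_const (m := P.m) (univ : Finset (Sl P)) (lo := -2) (hi := 0)
    (y := fun s => mom (if fl B Cf y s then
      pt (Lb.lk false (B.p y + 2 * ix P s) (cb B Cf y s)) -
        pt (Lb.lk false (B.p y + 2 * ix P s + 1) (ca B Cf y s)) else 0)) (fun s _ => by
      split_ifs
      · rw [mom_sub, mom_pt, mom_pt]
        refine ((Lb.lk_f _ _).sub (Lb.lk_f _ _)).mono ?_ ?_ <;> push_cast <;> linarith
      · rw [mom_zero]
        exact At.zero (by norm_num) le_rfl)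
  rw [card_Sl] at h
  exact h.mono (le_of_eq (by ring)) (le_of_eq (by ring))

theorem xi_at (hB : B.ok Lb Cf) (y : Fin P.k) : At P.m (xi B Lb Cf y) (-2 * P.q - 5) 5 := by
  have h := D_eta_le P
  exact (((hB.near y).sub (om_at hB y)).add (Zs_at y)).mono (by linarith) (by linarith)

omit [NeZero n] in
theorem sum_ap (y : Fin P.k) : ∑ x, B.ap Lb Cf y x =
    ∑ x : Fin P.k, Lb.dip (B.p y) x (B.af y x) (B.aa y x) (B.ab y x) + B.Ex c y := by
  unfold BD.ap
  rw [sum_add_distrib, sum_ite_eq' univ Cf.i0, if_pos (mem_univ _)]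

theorem cxi_eq (E : Env P c) (hB : B.ok Lb Cf) (y : Fin P.k) : c * xi B Lb Cf y =
    c * B.pos y - mom (B.C Lb Cf y) - c * B.u0 y - ∑ x, (wt B Cf y x : ZMod n) * om B Cf c x -
      ∑ x, mom (B.ap Lb Cf y x) - ∑ x, mom (dP B Lb Cf y x) := by
  have h1 := congrArg mom (psh_Zs B Lb Cf y)
  rw [mom_psh, mom_neg, mom_add, mom_add] at h1
  rw [← mom_sum, ← mom_sum, sum_ap, mom_add]
  unfold BD.C BD.Ex xi
  simp only [mom_add, mom_sub, mom_smul, mom_pt]
  linear_combination h1 - om_id E hB y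

theorem dP_at (y x : Fin P.k) : At P.m (mom (dP B Lb Cf y x)) (-P.lenP) 0 := by
  obtain ⟨a1, a2, a3, a4, a5, a6, -⟩ := P.factsR
  unfold dP Lib.dip
  split_ifs
  · rw [mom_sub, mom_pt, mom_pt]
    refine ((Lb.vp_at _ _ _).sub (Lb.vm_at _ _ _)).mono ?_ ?_ <;> unfold pa pb <;>
      split_ifs <;> push_cast <;> linarith
  · rw [mom_zero]
    exact At.zero (by linarith) le_rfl

theorem cxi_at (E : Env P c) (hB : B.ok Lb Cf) (y : Fin P.k) :
    At P.m (c * xi B Lb Cf y) (-P.S - P.S1 - 2) (-4) := by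
  obtain ⟨a1, a2, a3, a4, a5, a6, a7, a8, -⟩ := P.factsR
  have hk := P.k_D_eta
  have h1 := At.sum_const (m := P.m) (univ : Finset (Fin P.k))
    (fun x _ => (om_at hB x).smul (wt_abs hB y x))
  have h2 := At.sum_const (m := P.m) (univ : Finset (Fin P.k)) (fun x _ => hB.apm y x)
  have h3 := At.sum_const (m := P.m) (univ : Finset (Fin P.k))
    (fun x _ => dP_at (B := B) (Lb := Lb) (Cf := Cf) y x)
  rw [card_univ, Fintype.card_fin] at h1 h2 h3
  rw [cxi_eq E hB]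
  refine (((((hB.tc y).sub (hB.jump y)).sub h1).sub h2).sub h3).mono ?_ ?_ <;> nlinarith

/-- Divisors supported on the library and `0`. -/
def Sp (Lb : Lib P c) (f : Dv n) : Prop := ∀ g, f g ≠ 0 → g ∈ Lb.U ∨ g = 0

omit [NeZero n] in
theorem Sp.pt {u : ZMod n} (h : u ∈ Lb.U ∨ u = 0) : Sp Lb (pt u) := by
  intro g hg
  rw [pt_apply] at hg
  split_ifs at hg with e
  · rw [e]; exact h
  · exact (hg rfl).elim

omit [NeZero n] in
theorem Sp.zero : Sp Lb 0 := fun _ hg => (hg rfl).elim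

omit [NeZero n] in
theorem Sp.add {f f' : Dv n} (h : Sp Lb f) (h' : Sp Lb f') : Sp Lb (f + f') := by
  intro g hg
  by_cases a : f g = 0
  · exact h' g (by simpa [a] using hg)
  · exact h g a

omit [NeZero n] in
theorem Sp.smul {f : Dv n} (h : Sp Lb f) (a : ℤ) : Sp Lb (a • f) := by
  intro g hg
  refine h g fun e => hg ?_
  simp [e]

omit [NeZero n] in
theorem Sp.sub {f f' : Dv n} (h : Sp Lb f) (h' : Sp Lb f') : Sp Lb (f - f') := by
  have := h.add (h'.smul (-1))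
  rwa [neg_one_smul, ← sub_eq_add_neg] at this

omit [NeZero n] in
theorem Sp.sum {ι : Type} (s : Finset ι) {f : ι → Dv n} (h : ∀ i ∈ s, Sp Lb (f i)) :
    Sp Lb (∑ i ∈ s, f i) :=
  Finset.sum_induction f (Sp Lb) (fun _ _ a b => a.add b) Sp.zero h

omit [NeZero n] in
theorem Sp_Zs (y : Fin P.k) : Sp Lb (Zs B Lb Cf y) := by
  refine Sp.sum _ fun s _ => ?_
  split_ifs
  · exact (Sp.pt (Or.inl (Lb.lk_mem _ _ _))).sub (Sp.pt (Or.inl (Lb.lk_mem _ _ _)))
  · exact Sp.zero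

theorem deg_Zs (y : Fin P.k) : deg (Zs B Lb Cf y) = 0 := by
  unfold Zs
  rw [deg_sum]
  refine sum_eq_zero fun s _ => ?_
  split_ifs
  · rw [deg_sub, deg_pt, deg_pt, sub_self]
  · exact deg_zero

variable (B Lb Cf) in
/-- The shadow of `y`. -/
def Rs (E1 E2 : Fin P.k → Dv n) (y : Fin P.k) : Dv n :=
  pt (B.u0 y) - (Zs B Lb Cf y + E1 y - E2 y) + B.β y • (pt B.u - pt 0)

theorem nr_eq (E1 E2 : Fin P.k → Dv n) (y : Fin P.k) :
    nr c Cf.W B.σ B.pos (Rs B Lb Cf E1 E2) y - pt (c * B.u0 y) - B.C Lb Cf y =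
      ∑ x, (wt B Cf y x • (pt (B.pos x) - pt (B.u0 x)) + B.ap Lb Cf y x) +
        (∑ x, (wt B Cf y x • (Zs B Lb Cf x + E1 x - E2 x) + dP B Lb Cf y x) +
          psh c (E2 y - E1 y)) := by
  have h1 : ∑ x, (B.σ * Cf.W y x) • (pt (B.pos x) - Rs B Lb Cf E1 E2 x) =
      ∑ x, wt B Cf y x • (pt (B.pos x) - pt (B.u0 x)) +
        ∑ x, wt B Cf y x • (Zs B Lb Cf x + E1 x - E2 x) + B.g Cf y • (pt B.u - pt 0) := by
    rw [← neg_neg (B.g Cf y), ← sum_wb, neg_smul, sum_smul, ← sum_neg_distrib, ← sum_add_distrib,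
      ← sum_add_distrib]
    refine sum_congr rfl fun x _ => ?_
    unfold Rs wt
    module
  unfold nr
  rw [h1, sum_add_distrib, sum_add_distrib, sum_ap]
  unfold Rs BD.C BD.Ex
  simp only [psh_add, psh_sub, psh_smul, psh_pt, psh_Zs, mul_zero]
  abel

theorem mom_nr (E : Env P c) (hB : B.ok Lb Cf) (E1 E2 : Fin P.k → Dv n)
    (hE : ∀ y, mom (E2 y - E1 y) = xi B Lb Cf y) (y : Fin P.k) :
    mom (nr c Cf.W B.σ B.pos (Rs B Lb Cf E1 E2) y) = c * B.pos y := by
  have h1 : ∀ x, mom (Rs B Lb Cf E1 E2 x) = B.pos x - om B Cf c x + (B.β x : ZMod n) * B.u := by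
    intro x
    have := hE x
    unfold xi at this
    unfold Rs
    simp only [mom_add, mom_sub, mom_smul, mom_pt] at this ⊢
    linear_combination this
  have h2 : ∑ x, (wt B Cf y x : ZMod n) * (B.β x : ZMod n) = -(B.g Cf y : ZMod n) := by
    exact_mod_cast congrArg (Int.cast : ℤ → ZMod n) (sum_wb (B := B) (Cf := Cf) y)
  have h3 : mom (∑ x, (B.σ * Cf.W y x) • (pt (B.pos x) - Rs B Lb Cf E1 E2 x)) =
      ∑ x, (wt B Cf y x : ZMod n) * om B Cf c x -
        (∑ x, (wt B Cf y x : ZMod n) * (B.β x : ZMod n)) * B.u := by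
    rw [mom_sum, sum_mul, ← sum_sub_distrib]
    refine sum_congr rfl fun x _ => ?_
    rw [mom_smul, mom_sub, mom_pt, h1]
    unfold wt; ring
  unfold nr
  rw [mom_add, mom_psh, h1, h3, h2]
  linear_combination -om_id E hB y

theorem feat_nr (h : S_Pz) (hB : B.ok Lb Cf) (E1 E2 : Fin P.k → Dv n)
    (h1 : ∀ y, Feat P.m (E1 y) (B.p y + 2 * P.q) (B.p y + 2 * P.q + P.ls + 1))
    (h2 : ∀ y, Feat P.m (E2 y) (B.p y + 2 * P.q + P.ls + 3) (B.p y + 2 * P.q + P.ls + P.s2 + 5))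
    (y : Fin P.k) (h3 : Feat P.m (psh c (E2 y - E1 y)) (B.adj y) (B.adj y + P.ladj)) :
    Feat P.m (nr c Cf.W B.σ B.pos (Rs B Lb Cf E1 E2) y - pt (c * B.u0 y) - B.C Lb Cf y)
      (B.z y) (B.z y + P.w1) := by
  classical
  obtain ⟨a1, a2, a3, a4, a5, a6, a7, a8, a9, a10, a11, a12, a13, a14, a15, a16, a17⟩ := P.factsR
  set T : Finset (Fin P.k) := univ.filter fun x => Cf.W y x ≠ 0 with hT
  have mT : ∀ x, x ∈ T ↔ Cf.W y x ≠ 0 := fun x => by simp [hT]
  let EA : Fin P.k → Dv n := fun x => wt B Cf y x • (pt (B.pos x) - pt (B.u0 x)) + B.ap Lb Cf y x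
  let EP : Fin P.k → Dv n := fun x =>
    wt B Cf y x • (Zs B Lb Cf x + E1 x - E2 x) + dP B Lb Cf y x
  have sA : ∑ x, EA x = ∑ x ∈ T, EA x := by
    refine (sum_subset (subset_univ T) fun x _ hx => ?_).symm
    have hx' : Cf.W y x = 0 := by simpa [mT] using hx
    simp only [EA, wt, hx', mul_zero, zero_smul, zero_add, BD.ap, Lib.dip, hB.off y x hx']
    by_cases e : x = Cf.i0
    · rw [if_pos e, hB.offE y (e ▸ hx')]; simp
    · rw [if_neg e]; simp
  have sP : ∑ x, EP x = ∑ x ∈ T, EP x := by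
    refine (sum_subset (subset_univ T) fun x _ hx => ?_).symm
    have hx' : Cf.W y x = 0 := by simpa [mT] using hx
    simp [EP, wt, hx', dP, Lib.dip]
  have fP : ∀ x, Cf.W y x ≠ 0 → Feat P.m (EP x) (B.p x - 1) (B.p x - 1 + P.lenP) := by
    intro x hx
    have := h P n c Lb (Sl P) (ix P) ix_inj ix_lt (B.p x) (fl B Cf x) (ca B Cf x) (cb B Cf x)
      (E1 x) (E2 x) (wt B Cf y x) (B.p y) (P.k + x) (wt_val hB hx) (h1 x) (h2 x)
    refine this.congr ?_
    simp only [EP, dP, decide_eq_true hx]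
    rfl
  have key := Feat.sum (m := P.m) (T.disjSum (T.disjSum (univ : Finset Unit)))
    (E := Sum.elim EA (Sum.elim EP fun _ => psh c (E2 y - E1 y)))
    (l := Sum.elim (B.lo y) (Sum.elim (fun x => (B.p x : ℝ) - 1) fun _ => (B.adj y : ℝ)))
    (h := Sum.elim (B.hi y) (Sum.elim (fun x => (B.p x : ℝ) - 1 + P.lenP)
      fun _ => (B.adj y : ℝ) + P.ladj)) (lo := B.z y) (hi := B.z y + P.w1) ?_ ?_ ?_ (by linarith)
  · refine key.congr ?_
    rw [nr_eq, sum_disjSum, sum_disjSum]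
    simp only [Sum.elim_inl, Sum.elim_inr, univ_unique, sum_singleton]
    rw [← sA, ← sP]
  · rintro (x | x | x) hx <;> simp only [Sum.elim_inl, Sum.elim_inr, inl_mem_disjSum,
      inr_mem_disjSum, mT] at hx ⊢
    · exact hB.feat y x hx
    · exact fP x hx
    · exact h3
  · rintro (x | x | x) hx <;> simp only [Sum.elim_inl, Sum.elim_inr, inl_mem_disjSum,
      inr_mem_disjSum, mT] at hx ⊢
    · exact hB.inA y x hx
    · exact_mod_cast hB.inP y x hx
    · exact_mod_cast hB.inJ y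
  · rintro (x | x | x) hx (x' | x' | x') hx' hne <;>
      simp only [Sum.elim_inl, Sum.elim_inr, inl_mem_disjSum, inr_mem_disjSum, mT] at hx hx' ⊢
    · exact hB.AA y x x' hx hx' fun e => hne (by rw [e])
    · exact hB.AP y x x' hx hx'
    · exact hB.AJ y x hx
    · exact (hB.AP y x' x hx' hx).symm
    · exact_mod_cast hB.PP y x x' hx hx' fun e => hne (by rw [e])
    · exact_mod_cast hB.PJ y x hx
    · exact (hB.AJ y x' hx').symm
    · exact_mod_cast (hB.PJ y x' hx').symm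
    · exact (hne rfl).elim

end BlockP

open BlockP in
theorem block (h : S_Pz) : S_Block := by
  intro P n _ c E Lb Cf B hB
  choose u1 m1 u1' m1' u2 m2 u2' m2' hxi f1 f2 f3 using fun y =>
    Lb.adj (B.p y) (B.adj y) (xi B Lb Cf y) (xi_at hB y) (cxi_at E hB y)
  refine ⟨B.σ, Rs B Lb Cf (fun y => pt (u1' y) - pt (u1 y)) (fun y => pt (u2 y) - pt (u2' y)),
    hB.hσ, fun y => ?_, fun y => ?_, fun y => ⟨?_, hB.win y, ?_, c * B.u0 y, hB.jump y, ?_⟩⟩
  · exact ((Sp.pt (Or.inl (hB.hu0 y))).sub (((Sp_Zs y).add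
      ((Sp.pt (Or.inl (m1' y))).sub (Sp.pt (Or.inl (m1 y))))).sub
      ((Sp.pt (Or.inl (m2 y))).sub (Sp.pt (Or.inl (m2' y)))))).add
      (((Sp.pt hB.hu).sub (Sp.pt (Or.inr rfl))).smul _)
  · unfold Rs
    simp only [deg_add, deg_sub, deg_smul, deg_pt, deg_Zs]
    ring
  · refine mom_nr E hB _ _ (fun x => ?_) y
    simp only [mom_sub, mom_pt]
    rw [hxi x]; ring
  · obtain ⟨a1, a2, a3, a4, a5, a6, a7, a8, a9, a10, a11, a12, a13, a14, -⟩ := P.factsR
    exact (hB.tc y).mono le_rfl (by linarith)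
  · refine feat_nr h hB _ _ f1 f2 y ((f3 y).congr ?_)
    simp only [psh_sub, psh_pt]
    abel

end

end Pool.Agent.P.MP_009630_co.Dn
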