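import Pool.Agent.P.MP_009630_co.Dn.St

/-! Assembly of library, special blocks and ordinary blocks. -/

set_option autoImplicit false

namespace Pool.Agent.P.MP_009630_co.Dn

open Finset

noncomputable section

namespace BuildP

/-- Global data defined by cases. -/
theorem exists_data {G α β γ : Type} (U : Finset G) (f : G → G) (p : β → G) (q : γ → G)
    (a0 : α) (aU aV : G → α) (ap : β → α) (aq : γ → α) (o : G)
    (h0 : o ∉ U) (hfU : ∀ u ∈ U, f u ∉ U ∧ f u ≠ o)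
    (hf : ∀ u ∈ U, ∀ u' ∈ U, f u = f u' → u = u')
    (hp : Function.Injective p) (hq : Function.Injective q)
    (hpa : ∀ b, p b ≠ o ∧ p b ∉ U ∧ ∀ u ∈ U, p b ≠ f u)
    (hqa : ∀ b, q b ≠ o ∧ q b ∉ U ∧ (∀ u ∈ U, q b ≠ f u) ∧ ∀ b', p b' ≠ q b) :
    ∃ D : G → α, D o = a0 ∧ (∀ u ∈ U, D u = aU u) ∧ (∀ u ∈ U, D (f u) = aV u) ∧
      (∀ b, D (p b) = ap b) ∧ ∀ b, D (q b) = aq b := by
  classical
  refine ⟨fun x => if x ∈ U then aU x else if h : ∃ u ∈ U, x = f u then aV h.choose else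
    if h : ∃ b, p b = x then ap h.choose else if h : ∃ b, q b = x then aq h.choose else a0,
    ?_, ?_, ?_, ?_, ?_⟩
  · have a1 : ¬ ∃ u ∈ U, o = f u := fun ⟨u, hu, h⟩ => (hfU u hu).2 h.symm
    have a2 : ¬ ∃ b, p b = o := fun ⟨b, h⟩ => (hpa b).1 h
    have a3 : ¬ ∃ b, q b = o := fun ⟨b, h⟩ => (hqa b).1 h
    simp only [if_neg h0, dif_neg a1, dif_neg a2, dif_neg a3]
  · intro u hu
    simp only [if_pos hu]
  · intro u hu
    have a1 : ∃ u' ∈ U, f u = f u' := ⟨u, hu, rfl⟩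
    simp only [if_neg (hfU u hu).1, dif_pos a1]
    rw [← hf u hu _ a1.choose_spec.1 a1.choose_spec.2]
  · intro b
    have a1 : ¬ ∃ u ∈ U, p b = f u := fun ⟨u, hu, h⟩ => (hpa b).2.2 u hu h
    have a2 : ∃ b', p b' = p b := ⟨b, rfl⟩
    simp only [if_neg (hpa b).2.1, dif_neg a1, dif_pos a2]
    rw [hp a2.choose_spec]
  · intro b
    have a1 : ¬ ∃ u ∈ U, q b = f u := fun ⟨u, hu, h⟩ => (hqa b).2.2.1 u hu h
    have a2 : ¬ ∃ b', p b' = q b := fun ⟨b', h⟩ => (hqa b).2.2.2 b' h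
    have a3 : ∃ b', q b' = q b := ⟨b, rfl⟩
    simp only [if_neg (hqa b).2.1, dif_neg a1, dif_neg a2, dif_pos a3]
    rw [hq a3.choose_spec]

/-- The set of remaining points. -/
theorem exists_rest {G β : Type} [Fintype G] [Fintype β] (U : Finset G) (f : G → G) (p : β → G)
    (o : G) (h0 : o ∉ U) (hfU : ∀ u ∈ U, f u ∉ U ∧ f u ≠ o)
    (hf : ∀ u ∈ U, ∀ u' ∈ U, f u = f u' → u = u') (hp : Function.Injective p)
    (hpa : ∀ b, p b ≠ o ∧ p b ∉ U ∧ ∀ u ∈ U, p b ≠ f u) :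
    ∃ T : Finset G, T.card + (1 + 2 * U.card + Fintype.card β) = Fintype.card G ∧
      ∀ x, x ∈ T ↔ x ≠ o ∧ x ∉ U ∧ (∀ u ∈ U, x ≠ f u) ∧ ∀ b, p b ≠ x := by
  classical
  have c1 : (U.image f).card = U.card :=
    card_image_of_injOn fun u hu u' hu' h => hf u hu u' hu' h
  have c2 : (univ.image p).card = Fintype.card β := by
    rw [card_image_of_injective _ hp, card_univ]
  have d1 : Disjoint U (U.image f) := by
    rw [disjoint_right]
    intro x hx
    obtain ⟨u, hu, rfl⟩ := mem_image.1 hx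
    exact (hfU u hu).1
  have d2 : Disjoint (U ∪ U.image f) (univ.image p) := by
    rw [disjoint_right]
    intro x hx
    obtain ⟨b, -, rfl⟩ := mem_image.1 hx
    rw [mem_union, not_or]
    refine ⟨(hpa b).2.1, fun h => ?_⟩
    obtain ⟨u, hu, h⟩ := mem_image.1 h
    exact (hpa b).2.2 u hu h.symm
  have d3 : o ∉ U ∪ U.image f ∪ univ.image p := by
    simp only [mem_union, mem_image, not_or]
    exact ⟨⟨h0, fun ⟨u, hu, h⟩ => (hfU u hu).2 h⟩, fun ⟨b, _, h⟩ => (hpa b).1 h⟩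
  refine ⟨(insert o (U ∪ U.image f ∪ univ.image p))ᶜ, ?_, ?_⟩
  · have := card_add_card_compl (insert o (U ∪ U.image f ∪ univ.image p))
    rw [card_insert_of_notMem d3, card_union_of_disjoint d2, card_union_of_disjoint d1, c1, c2]
      at this
    omega
  · intro x
    simp only [mem_compl, mem_insert, mem_union, mem_image, not_or, mem_univ, true_and,
      not_exists, not_and]
    constructor
    · rintro ⟨a, ⟨b, c⟩, d⟩
      exact ⟨a, b, fun u hu h => c u hu h.symm, d⟩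
    · rintro ⟨a, b, c, d⟩
      exact ⟨a, ⟨b, fun u hu h => c u hu h.symm⟩, d⟩

end BuildP

open BuildP

theorem build (h1 : S_Lib) (h2 : S_Spec) (h3 : S_Group) (h4 : S_Glue) (h5 : S_Row)
    (h6 : S_Greedy) (h7 : S_Norm) : S_Build := by
  intro P n _ c N0 X E hE hL hCl Co act hcl hodd hN hn
  classical
  obtain ⟨Cf, -⟩ := hCl 0 (Nat.zero_le _)
  obtain ⟨t, ht⟩ := hodd
  obtain ⟨Lb, hU, hdiv⟩ := h1 P n c N0 X E hE hL ((t : ℤ) - act.card) hN
  obtain ⟨B, instB, pos, rd, hcard, hinj, hav, hblk, hcu, hrun⟩ :=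
    h2 P n c N0 X E hE hL Lb hCl hU hN
  have hfU : ∀ u ∈ Lb.U, c * u ∉ Lb.U ∧ c * u ≠ 0 := fun u hu => by
    simpa using Lb.disjU u hu 0 (by simp)
  have hf : ∀ u ∈ Lb.U, ∀ u' ∈ Lb.U, c * u = c * u' → u = u' := fun u hu u' hu' h =>
    (Lb.disj u hu u' hu' 0 0 (by simp) (by simp) (by simpa using h)).1
  have hp : Function.Injective fun b : B × Fin P.k => pos b.1 b.2 := fun b b' h =>
    Prod.ext (hinj _ _ _ _ h).1 (hinj _ _ _ _ h).2
  obtain ⟨T0, hTc, hT⟩ := exists_rest Lb.U (fun u => c * u) (fun b : B × Fin P.k => pos b.1 b.2) 0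
    Lb.zero hfU hf hp (fun b => hav b.1 b.2)
  rw [Fintype.card_prod, Fintype.card_fin, ZMod.card] at hTc
  obtain ⟨pos3, g1, g2⟩ := h6 (Fin P.k) (ZMod n)
    (fun y => bx P.m c (P.len * (y.val : ℤ) - 1) (1 / 20) (P.w1 - P.S - 13) (1 / 20))
    (fun _ b => {b}) T0ᶜ 1 1 (fun _ _ => by simp)
    (fun i p => card_le_one.2 fun a ha b hb => by
      rw [← mem_singleton.1 (mem_filter.1 ha).2, ← mem_singleton.1 (mem_filter.1 hb).2])
    (fun y => by
      refine lt_of_lt_of_le ?_ (hN.trans (hL.box _ _))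
      have e1 : (T0ᶜ).card ≤ (P.Ub X + 1) * P.Q ^ 4 := by
        rw [card_compl, ZMod.card]; omega
      have e2 : P.k + 1 ≤ P.Q := by unfold Par.Q; nlinarith
      have e3 : P.Q ^ 4 ≤ P.Q ^ 6 := Nat.pow_le_pow_right (by omega) (by norm_num)
      have e4 : P.Q ≤ P.Q ^ 6 := Nat.le_self_pow (by norm_num) _
      have e5 : (P.Ub X + 1) * P.Q ^ 4 ≤ (P.Ub X + 1) * P.Q ^ 6 := Nat.mul_le_mul_left _ e3
      have e6 : P.Q ^ 6 ≤ (P.Ub X + 1) * P.Q ^ 6 := Nat.le_mul_of_pos_left _ (by omega)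
      have e7 : (P.Ub X + 1) * P.Q ^ 6 * 2 ≤ (P.Ub X + 1) * P.Q ^ 6 * (P.D + 2) :=
        Nat.mul_le_mul_left _ (by omega)
      rw [Fintype.card_fin]
      omega)
  have hT3 : ∀ y, pos3 y ∈ T0 := fun y => by
    simpa using disjoint_singleton_left.1 (g1 y).2
  have hinj3 : Function.Injective pos3 := fun y y' h => by
    by_contra hne
    exact disjoint_singleton.1 (g2 y y' hne) h
  have hblk3 := h7 P n c hE Lb Co (fun _ => true) (fun _ => 0) pos3 (fun _ _ _ => rfl)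
    (fun y => (mem_bx.1 (g1 y).1).1.mono (by push_cast; linarith) (by push_cast; linarith))
    (fun y => (mem_bx.1 (g1 y).1).2.mono (by push_cast; linarith) (by push_cast; linarith))
  set T := T0 \ act.image pos3 with hTdef
  have hTc' : T.card + act.card = T0.card := by
    rw [hTdef, ← card_image_of_injective act hinj3]
    exact card_sdiff_add_card_eq_card fun x hx => by
      obtain ⟨y, -, rfl⟩ := mem_image.1 hx
      exact hT3 y
  have hact : act.card ≤ P.k := (card_le_univ _).trans_eq (Fintype.card_fin _)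
  have hkT : P.k ∣ T.card := by
    have e : (T.card : ℤ) = 2 * ((t : ℤ) - act.card - Lb.U.card) - P.k * Fintype.card B := by
      have a1 : (T0.card : ℤ) + (1 + 2 * Lb.U.card + Fintype.card B * P.k) = n := by
        exact_mod_cast hTc
      have a2 : (T.card : ℤ) + act.card = T0.card := by exact_mod_cast hTc'
      have a3 : (n : ℤ) + act.card = 2 * t + 1 := by exact_mod_cast ht
      linarith
    have : (P.k : ℤ) ∣ T.card := by
      rw [e]; exact dvd_sub (hdiv.mul_left _) (dvd_mul_right _ _)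
    exact_mod_cast this
  obtain ⟨Nb, pos2, τ2, z2, hinj2, hT2', hcov, hblk2⟩ :=
    h3 P n c N0 X E hE hL Lb Cf T ((P.Ub X + 1) * P.Q ^ 4 + P.k) hkT (by omega) hn
  have hT2 : ∀ b i, pos2 b i ∈ T0 := fun b i => (mem_sdiff.1 (hT2' b i)).1
  have h23 : ∀ b i, ∀ y ∈ act, pos2 b i ≠ pos3 y := fun b i y hy h =>
    (mem_sdiff.1 (hT2' b i)).2 (mem_image.2 ⟨y, hy, h.symm⟩)
  have hq : Function.Injective (Sum.elim (fun b : Fin Nb × Fin P.k => pos2 b.1 b.2)
      fun y : act => pos3 y) := by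
    rintro (b | y) (b' | y') h
    · exact congrArg _ (Prod.ext (hinj2 _ _ _ _ h).1 (hinj2 _ _ _ _ h).2)
    · exact (h23 _ _ _ y'.2 h).elim
    · exact (h23 _ _ _ y.2 h.symm).elim
    · exact congrArg _ (Subtype.ext (hinj3 h))
  have hmid : ∀ u : ZMod n, ∃ a : ℤ, u ∈ Lb.U → At P.m (c * u) a (a + 1) := fun u => by
    by_cases hu : u ∈ Lb.U
    · obtain ⟨a, ha⟩ := Lb.mid u hu
      exact ⟨a, fun _ => ha.mono (by linarith) (by linarith)⟩
    · exact ⟨0, fun h => (hu h).elim⟩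
  choose tU htU using hmid
  obtain ⟨Dt, e0, eU, eV, ep, eq⟩ := exists_data (α := Dv n × ℤ × ℤ) Lb.U (fun u => c * u)
    (fun b : B × Fin P.k => pos b.1 b.2)
    (Sum.elim (fun b : Fin Nb × Fin P.k => pos2 b.1 b.2) fun y : act => pos3 y)
    (0, 0, -P.w) (fun u => (0, tU u, tU u - P.w)) (fun u => (P.d • (pt u - pt 0), 0, -P.w))
    (fun b => ((rd b.1 b.2).C Lb, (rd b.1 b.2).τ, (rd b.1 b.2).z))
    (Sum.elim (fun b => (0, τ2 b.1 b.2, z2 b.1 b.2)) fun _ => (0, 0 + P.w1 - 2, 0 - 3)) 0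
    Lb.zero hfU hf hp hq (fun b => hav b.1 b.2)
    (by
      rintro (b | y)
      · exact (hT _).1 (hT2 b.1 b.2)
      · exact (hT _).1 (hT3 y))
  have ep' : ∀ b i, Dt (pos b i) = ((rd b i).C Lb, (rd b i).τ, (rd b i).z) := fun b i => ep (b, i)
  have eq' : ∀ b i, Dt (pos2 b i) = (0, τ2 b i, z2 b i) := fun b i => eq (.inl (b, i))
  have eq3 : ∀ y ∈ act, Dt (pos3 y) = (0, 0 + P.w1 - 2, 0 - 3) := fun y hy => eq (.inr ⟨y, hy⟩)
  have eV' : ∀ u ∈ Lb.U, Dt (c * u) = (P.d • (pt u - pt 0), 0, -P.w) := eV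
  have hall : ∀ x : ZMod n, x = 0 ∨ x ∈ Lb.U ∨ (∃ u ∈ Lb.U, x = c * u) ∨
      (∃ b i, pos b i = x) ∨ (∃ b i, pos2 b i = x) ∨ ∃ y ∈ act, pos3 y = x := by
    intro x
    by_contra hx
    simp only [not_or, not_exists, not_and] at hx
    obtain ⟨a1, a2, a3, a4, a5, a6⟩ := hx
    obtain ⟨b, i, h⟩ := hcov x (mem_sdiff.2 ⟨(hT x).2 ⟨a1, a2, a3, fun b => a4 b.1 b.2⟩, fun h => by
      obtain ⟨y, hy, h⟩ := mem_image.1 h
      exact a6 y hy h⟩)
    exact a5 b i h
  obtain ⟨N, hN1, hN2, hN3⟩ := h4 P n c hE Lb (B ⊕ Fin Nb ⊕ Unit)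
    (Sum.elim pos (Sum.elim pos2 fun _ => pos3))
    (Sum.elim (fun _ _ => True) (Sum.elim (fun _ _ => True) fun _ y => y ∈ act))
    (fun x => (Dt x).1) (fun x => (Dt x).2.1) (fun x => (Dt x).2.2)
    (by
      rintro (b | b | b) i (b' | b' | b') i' hi hi' h
      · obtain ⟨rfl, rfl⟩ := hinj _ _ _ _ h
        exact ⟨rfl, rfl⟩
      · exact (((hT _).1 (hT2 b' i')).2.2.2 (b, i) h).elim
      · exact (((hT _).1 (hT3 i')).2.2.2 (b, i) h).elim
      · exact (((hT _).1 (hT2 b i)).2.2.2 (b', i') h.symm).elim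
      · obtain ⟨rfl, rfl⟩ := hinj2 _ _ _ _ h
        exact ⟨rfl, rfl⟩
      · exact (h23 _ _ _ hi' h).elim
      · exact (((hT _).1 (hT3 i)).2.2.2 (b', i') h.symm).elim
      · exact (h23 _ _ _ hi h.symm).elim
      · exact ⟨rfl, hinj3 h⟩)
    (by
      rintro (b | b | b) i -
      · exact hav b i
      · obtain ⟨a1, a2, a3, -⟩ := (hT _).1 (hT2 b i)
        exact ⟨a1, a2, a3⟩
      · obtain ⟨a1, a2, a3, -⟩ := (hT _).1 (hT3 i)
        exact ⟨a1, a2, a3⟩)
    (by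
      intro x
      rcases hall x with h | h | h | ⟨b, i, h⟩ | ⟨b, i, h⟩ | ⟨i, hi, h⟩
      · exact Or.inl h
      · exact Or.inr (Or.inl h)
      · exact Or.inr (Or.inr (Or.inl h))
      · exact Or.inr (Or.inr (Or.inr ⟨.inl b, i, trivial, h⟩))
      · exact Or.inr (Or.inr (Or.inr ⟨.inr (.inl b), i, trivial, h⟩))
      · exact Or.inr (Or.inr (Or.inr ⟨.inr (.inr ()), i, hi, h⟩)))
    (by
      rintro (b | b | b)
      · obtain ⟨Cb, hb⟩ := hblk b
        exact ⟨Cb, _, _, _, hb, fun _ _ _ _ => trivial, fun i _ => by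
          simp only [Sum.elim_inl, ep', and_self]⟩
      · exact ⟨Cf, _, _, _, hblk2 b, fun _ _ _ _ => trivial, fun i _ => by
          simp only [Sum.elim_inl, Sum.elim_inr, eq', and_self]⟩
      · exact ⟨Co, _, _, _, hblk3, fun y x hy hx => hcl y hy x hx, fun i hi => by
          simp only [Sum.elim_inr, eq3 i hi, and_self]⟩)
    (by simp only [e0, and_self])
    (by
      intro u hu
      simp only [eU u hu, true_and, and_true]
      exact htU u hu)
    (by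
      intro u hu
      simp only [eV' u hu, and_self])
  refine ⟨N, hN1, hN2, fun x => h5 P n c hE x _ _ _ _ _ _ _ _ (hN3 x) (hN3 (x + 1)) ?_⟩
  have hne : ∀ y : ZMod n, (Dt y).1 ≠ 0 →
      (∃ u ∈ Lb.U, y = c * u) ∨ ∃ b i, pos b i = y := by
    intro y hy
    rcases hall y with h | h | h | h | ⟨b, i, h⟩ | ⟨i, hi, h⟩
    · rw [h, e0] at hy; exact (hy rfl).elim
    · rw [eU y h] at hy; exact (hy rfl).elim
    · exact Or.inl h
    · exact Or.inr h
    · rw [← h, eq'] at hy; exact (hy rfl).elim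
    · rw [← h, eq3 i hi] at hy; exact (hy rfl).elim
  by_cases hC : (Dt x).1 = (Dt (x + 1)).1
  · rw [← hC]; exact RowOK.refl _ _ _ _ _ _
  have hor : (Dt x).1 ≠ 0 ∨ (Dt (x + 1)).1 ≠ 0 := by
    by_contra h
    rw [not_or, not_not, not_not] at h
    exact hC (h.1.trans h.2.symm)
  have k1 : ∀ u ∈ Lb.U, x ≠ c * u := by
    rintro u hu rfl
    obtain ⟨⟨b, i, h, h'⟩, -⟩ := hcu u hu
    apply hC
    rw [← h, ep', eV' u hu]; exact h'.symm
  have k2 : ∀ u ∈ Lb.U, x + 1 ≠ c * u := by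
    intro u hu hx
    obtain ⟨-, ⟨b, i, h, h'⟩⟩ := hcu u hu
    have : x = pos b i := by rw [h, ← hx]; ring
    apply hC
    rw [hx, this, ep', eV' u hu]; exact h'
  rcases hor with h | h
  · rcases hne x h with ⟨u, hu, hx⟩ | ⟨b, i, rfl⟩
    · exact (k1 u hu hx).elim
    · rw [ep'] at h
      rcases (hrun b i h).1 with ⟨u, hu, hx⟩ | ⟨b', i', hx, hr⟩
      · exact (k2 u hu hx).elim
      · rw [← hx, ep', ep']; exact hr
  · rcases hne (x + 1) h with ⟨u, hu, hx⟩ | ⟨b, i, hb⟩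
    · exact (k2 u hu hx).elim
    · rw [← hb, ep'] at h
      have hx' : pos b i - 1 = x := by rw [hb]; ring
      rcases (hrun b i h).2 with ⟨u, hu, hx⟩ | ⟨b', i', hx, hr⟩
      · exact (k1 u hu (hx'.symm.trans hx)).elim
      · rw [← hb, ← hx', ← hx, ep', ep']; exact hr

end

end Pool.Agent.P.MP_009630_co.Dn
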