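import Pool.Agent.P.MP_009630_co.Dn.St

/-! Symmetric weighing matrices of polynomial size and the adapted square roots of `d I`. -/

set_option autoImplicit false

namespace Pool.Agent.P.MP_009630_co.Dn

open Finset Matrix

noncomputable section

namespace ClP

/-- entries in `{0, 1, -1}` -/
def Tri {ι : Type} (V : Matrix ι ι ℤ) : Prop := ∀ i j, V i j = 0 ∨ V i j = 1 ∨ V i j = -1

/-- symmetric weighing matrix of weight `w` -/
structure Sym {ι : Type} [Fintype ι] [DecidableEq ι] (w : ℕ) (V : Matrix ι ι ℤ) : Prop where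
  symm : ∀ i j, V i j = V j i
  tri : Tri V
  sq : V * V = (w : ℤ) • 1

variable {ι : Type} [Fintype ι] [DecidableEq ι]

theorem blocks {A B : Matrix ι ι ℤ} {a b : ℕ} (hA : Sym a A) (hB : Sym b B) (h : A * B = B * A) :
    Sym (a + b) (fromBlocks A B B (-A)) := by
  refine ⟨?_, ?_, ?_⟩
  · rintro (i | i) (j | j) <;> simp [hA.symm i j, hB.symm i j]
  · rintro (i | i) (j | j)
    · exact hA.tri i j
    · exact hB.tri i j
    · exact hB.tri i j
    · rcases hA.tri i j with h | h | h <;> simp [h]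
  · rw [fromBlocks_multiply, ← fromBlocks_one, fromBlocks_smul]
    simp only [Matrix.mul_neg, Matrix.neg_mul, neg_neg, hA.sq, hB.sq, h, add_neg_cancel, smul_zero]
    push_cast
    rw [add_smul, add_comm ((b : ℤ) • _)]

theorem sym_zero : Sym 0 (0 : Matrix ι ι ℤ) := ⟨fun _ _ => rfl, fun _ _ => Or.inl rfl, by simp⟩

theorem sym_one : Sym 1 (1 : Matrix ι ι ℤ) :=
  ⟨fun i j => by simp [one_apply, eq_comm], fun i j => by
    by_cases h : i = j <;> simp [one_apply, h], by simp⟩

theorem exists_sym (t : ℕ) : ∃ (κ : Type) (_ : Fintype κ) (_ : DecidableEq κ),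
    Fintype.card κ = 4 ^ t ∧ ∀ w < 2 ^ t, ∃ V : Matrix κ κ ℤ, Sym w V := by
  induction t with
  | zero =>
    refine ⟨Unit, inferInstance, inferInstance, rfl, fun w hw => ⟨0, ?_⟩⟩
    obtain rfl : w = 0 := by omega
    exact sym_zero
  | succ t ih =>
    obtain ⟨κ, _, _, hc, h⟩ := ih
    refine ⟨(κ ⊕ κ) ⊕ (κ ⊕ κ), inferInstance, inferInstance, by simp [hc]; ring, fun w hw => ?_⟩
    obtain ⟨V, hV⟩ := h (w / 2) (by omega)
    have h2 := blocks hV hV rfl
    rcases Nat.mod_two_eq_zero_or_one w with e | e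
    · have := blocks h2 sym_zero (by simp)
      exact ⟨_, by rwa [show w / 2 + w / 2 + 0 = w by omega] at this⟩
    · have := blocks h2 sym_one (by simp)
      exact ⟨_, by rwa [show w / 2 + w / 2 + 1 = w by omega] at this⟩

theorem Sym.card {w : ℕ} {V : Matrix ι ι ℤ} (h : Sym w V) (i : ι) :
    (univ.filter fun j => V i j ≠ 0).card = w := by
  have h1 := congrFun (congrFun h.sq i) i
  rw [mul_apply] at h1
  simp only [Matrix.smul_apply, one_apply_eq, smul_eq_mul, mul_one] at h1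
  have h2 : ∑ j, V i j * V j i = ∑ j, if V i j ≠ 0 then (1 : ℤ) else 0 :=
    sum_congr rfl fun j _ => by
      rw [h.symm j i]
      rcases h.tri i j with e | e | e <;> simp [e]
  rw [h2, sum_boole] at h1
  exact_mod_cast h1

theorem Sym.left {κ : Type} [Fintype κ] [DecidableEq κ] {w : ℕ} {V : Matrix ι ι ℤ} (h : Sym w V) :
    Sym w (kroneckerMap (· * ·) V (1 : Matrix κ κ ℤ)) := by
  refine ⟨fun i j => ?_, fun i j => ?_, ?_⟩
  · simp [h.symm i.1 j.1, one_apply, eq_comm]
  · by_cases e : i.2 = j.2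
    · simpa [one_apply, e] using h.tri i.1 j.1
    · simp [one_apply, e]
  · rw [← mul_kronecker_mul, h.sq, smul_kronecker, Matrix.one_mul, one_kronecker_one]

theorem Sym.right {κ : Type} [Fintype κ] [DecidableEq κ] {w : ℕ} {V : Matrix ι ι ℤ}
    (h : Sym w V) : Sym w (kroneckerMap (· * ·) (1 : Matrix κ κ ℤ) V) := by
  refine ⟨fun i j => ?_, fun i j => ?_, ?_⟩
  · simp [h.symm i.2 j.2, one_apply, eq_comm]
  · by_cases e : i.1 = j.1
    · simpa [one_apply, e] using h.tri i.2 j.2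
    · simp [one_apply, e]
  · rw [← mul_kronecker_mul, h.sq, kronecker_smul, Matrix.one_mul, one_kronecker_one]

omit [Fintype ι] in
/-- an enumeration of the support that lists `S` first -/
theorem enum {D γ : ℕ} {S U : Finset ι} (hSU : S ⊆ U) (hS : S.card = γ) (hU : U.card = D) :
    ∃ e : Fin D → ι, Function.Injective e ∧ (∀ a, e a ∈ U) ∧
      ∀ f : ι → ℤ, ∑ a ∈ univ.filter (fun a : Fin D => a.val < γ), f (e a) = ∑ y ∈ S, f y := by
  have hγ : γ ≤ D := hS ▸ hU ▸ card_le_card hSU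
  have hR : (U \ S).card = D - γ := by rw [card_sdiff_of_subset hSU, hS, hU]
  let f1 := (S.equivFinOfCardEq hS).symm
  let f2 := ((U \ S).equivFinOfCardEq hR).symm
  let e : Fin D → ι := fun a => if h : a.val < γ then (f1 ⟨a, h⟩).1 else (f2 ⟨a - γ, by omega⟩).1
  have e1 : ∀ a (h : a.val < γ), e a = (f1 ⟨a, h⟩).1 := fun a h => dif_pos h
  have e2 : ∀ a (h : ¬ a.val < γ), e a = (f2 ⟨a - γ, by omega⟩).1 := fun a h => dif_neg h
  have m1 : ∀ a, a.val < γ → e a ∈ S := fun a h => e1 a h ▸ (f1 _).2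
  have m2 : ∀ a, ¬ a.val < γ → e a ∈ U \ S := fun a h => e2 a h ▸ (f2 _).2
  have hinj : Function.Injective e := by
    intro a b hab
    by_cases ha : a.val < γ <;> by_cases hb : b.val < γ
    · rw [e1 a ha, e1 b hb] at hab
      have := f1.injective (Subtype.ext hab)
      exact Fin.ext (by simpa using this)
    · exact ((mem_sdiff.1 (m2 b hb)).2 (hab ▸ m1 a ha)).elim
    · exact ((mem_sdiff.1 (m2 a ha)).2 (hab ▸ m1 b hb)).elim
    · rw [e2 a ha, e2 b hb] at hab
      have := f2.injective (Subtype.ext hab)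
      have : a.val - γ = b.val - γ := by simpa using this
      exact Fin.ext (by omega)
  refine ⟨e, hinj, fun a => ?_, fun f => ?_⟩
  · by_cases h : a.val < γ
    · exact hSU (m1 a h)
    · exact (mem_sdiff.1 (m2 a h)).1
  · refine sum_bij (fun a _ => e a) (fun a ha => m1 a (mem_filter.1 ha).2)
      (fun a _ b _ h => hinj h) (fun y hy => ?_) fun _ _ => rfl
    obtain ⟨a, ha⟩ := f1.surjective ⟨y, hy⟩
    refine ⟨⟨a, by omega⟩, by simp, ?_⟩
    rw [e1 _ a.2]
    exact congrArg Subtype.val ha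

theorem mk {d : ℤ} (hd : d ≠ 0) {V : Matrix ι ι ℤ} (hV : Sym d.natAbs V) (i0 : ι) {γ k : ℕ}
    (hk : Fintype.card (ι ⊕ ι) = k) (S : Finset ι) (hS0 : ∀ y ∈ S, V i0 y ≠ 0) (hS : S.card = γ)
    (hsm : ∀ x, x ≠ i0 → |∑ y ∈ S, V x y * V i0 y| ≤ 1) :
    ∃ Cf : Cl d d.natAbs k, Cf.gam = γ := by
  obtain ⟨e, einj, eU, esum⟩ := enum (S := S) (U := univ.filter fun j => V i0 j ≠ 0)
    (fun y hy => by simpa using hS0 y hy) hS (hV.card i0)
  have hk0 : 0 < k := hk ▸ Fintype.card_pos_iff.2 ⟨.inl i0⟩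
  let E0 : (ι ⊕ ι) ≃ Fin k := Fintype.equivFinOfCardEq hk
  let E := (E0.trans (Equiv.swap (E0 (.inl i0)) ⟨0, hk0⟩)).symm
  have h0 : E ⟨0, hk0⟩ = .inl i0 := by simp [E]
  let s : ι → ℤ := fun y => if V i0 y = 0 then 1 else V i0 y
  have hs : ∀ y, s y = 1 ∨ s y = -1 := fun y => by
    rcases hV.tri i0 y with h | h | h <;> simp [s, h]
  have hs2 : ∀ y, s y * s y = 1 := fun y => by rcases hs y with h | h <;> simp [h]
  have hsV : ∀ a, V i0 (e a) * s (e a) = 1 := fun a => by
    have : V i0 (e a) ≠ 0 := by simpa using eU a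
    rcases hV.tri i0 (e a) with h | h | h <;> simp_all [s]
  have hsg : d.sign = 1 ∨ d.sign = -1 := by
    rcases lt_or_gt_of_ne hd with h | h
    · exact Or.inr (Int.sign_eq_neg_one_of_neg h)
    · exact Or.inl (Int.sign_eq_one_of_pos h)
  have hsq : ∀ x z, ∑ y, V x y * V y z = if x = z then (d.natAbs : ℤ) else 0 := fun x z => by
    have := congrFun (congrFun hV.sq x) z
    rw [mul_apply] at this
    rw [this]
    by_cases h : x = z <;> simp [one_apply, h]
  let W : ι ⊕ ι → ι ⊕ ι → ℤ := fun x y => match x, y with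
    | .inl x, .inr y => V x y * s y
    | .inr y, .inl x => d.sign * (s y * V y x)
    | _, _ => 0
  refine ⟨⟨⟨fun x y => W (E x) (E y), ⟨0, hk0⟩, fun x z => ?_, fun x y => ?_⟩,
    fun x => (E x).isLeft, fun a => E.symm (.inr (e a)), rfl, fun x y h => ?_,
    E.symm.injective.comp (Sum.inr_injective.comp einj), fun a => ?_, fun a => ?_, γ,
    fun x hx => ?_⟩, rfl⟩
  · rw [E.sum_comp fun y => W (E x) y * W y (E z)]
    simp only [← E.apply_eq_iff_eq (x := x)]
    rcases E x with x | x <;> rcases E z with z | z <;>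
      simp only [Fintype.sum_sum_type, W, mul_zero, zero_mul, sum_const_zero, zero_add, add_zero,
        Sum.inl.injEq, Sum.inr.injEq, reduceCtorEq, if_false]
    · rw [sum_congr rfl (g := fun y => d.sign * (V x y * V y z)) fun y _ => by
        linear_combination (d.sign * V x y * V y z) * hs2 y, ← mul_sum, hsq]
      split_ifs
      · exact Int.sign_mul_natAbs d
      · simp
    · rw [sum_congr rfl (g := fun y => d.sign * s x * s z * (V x y * V y z)) fun y _ => by ring,
        ← mul_sum, hsq]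
      split_ifs with h
      · rw [h, mul_assoc d.sign, hs2, mul_one]; exact Int.sign_mul_natAbs d
      · simp
  · rcases E x with x | x <;> rcases E y with y | y <;> simp only [W, true_or]
    · rcases hV.tri x y with h | h | h <;> rcases hs y with h' | h' <;> simp [h, h']
    · rcases hV.tri x y with h | h | h <;> rcases hs x with h' | h' <;>
        rcases hsg with h'' | h'' <;> simp [h, h', h'']
  · dsimp only at h ⊢
    revert h
    rcases E x with x | x <;> rcases E y with y | y <;> simp [W]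
  · dsimp only
    rw [h0, E.apply_symm_apply]
    exact hsV a
  · dsimp only
    rw [h0, E.apply_symm_apply]
    show d.sign * (s (e a) * V (e a) i0) = _
    rw [hV.symm, mul_comm (s _), hsV, mul_one]
  · simp only [E.apply_symm_apply]
    have hx' : E x ≠ .inl i0 := fun h => hx (E.injective (h.trans h0.symm))
    revert hx'
    rcases E x with x | x
    · intro hx'
      rw [esum fun y => W (.inl x) (.inr y)]
      refine le_of_eq_of_le (congrArg _ (sum_congr rfl fun y hy => ?_))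
        (hsm x fun h => hx' (congrArg _ h))
      simp [W, s, hS0 y hy]
    · simp [W]

theorem adapted {κ1 κ2 : Type} [Fintype κ1] [DecidableEq κ1] [Fintype κ2] [DecidableEq κ2]
    {V : Matrix κ1 κ1 ℤ} {V' : Matrix κ2 κ2 ℤ} {γ δ : ℕ} (hV : Sym γ V) (hV' : Sym δ V')
    (a0 : κ1) (b0 : κ2) :
    ∃ (U : Matrix ((κ1 × κ2) ⊕ (κ1 × κ2)) ((κ1 × κ2) ⊕ (κ1 × κ2)) ℤ) (i0 : (κ1 × κ2) ⊕ (κ1 × κ2))
      (S : Finset ((κ1 × κ2) ⊕ (κ1 × κ2))), Sym (γ + δ) U ∧ (∀ y ∈ S, U i0 y ≠ 0) ∧ S.card = γ ∧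
      ∀ x, x ≠ i0 → |∑ y ∈ S, U x y * U i0 y| ≤ 1 := by
  have hP := blocks (hV.left (κ := κ2)) (hV'.right (κ := κ1))
    (by rw [← Matrix.mul_kronecker_mul, ← Matrix.mul_kronecker_mul]; simp)
  refine ⟨_, .inl (a0, b0),
    ((univ.filter fun j => V a0 j ≠ 0).map ⟨fun y => .inl (y, b0), fun y y' e => by simpa using e⟩),
    hP, fun y hy => ?_, by rw [card_map, hV.card], fun x hx => ?_⟩
  · obtain ⟨y, hy, rfl⟩ := mem_map.1 hy
    simpa using hy
  · rw [sum_map, sum_filter_of_ne fun y _ hy => by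
      intro e
      simp [e] at hy]
    rcases x with ⟨i, j⟩ | ⟨i, j⟩
    · by_cases e : j = b0
      · subst e
        have hi : i ≠ a0 := fun e => hx (by rw [e])
        have := congrFun (congrFun hV.sq i) a0
        rw [mul_apply] at this
        simp only [Function.Embedding.coeFn_mk, fromBlocks_apply₁₁, kroneckerMap_apply,
          one_apply_eq, mul_one, hV.symm a0, this]
        simp [one_apply, hi]
      · simp [one_apply, e]
    · simp only [Function.Embedding.coeFn_mk, fromBlocks_apply₂₁, fromBlocks_apply₁₁,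
        kroneckerMap_apply, one_apply, ite_mul, one_mul, zero_mul, sum_ite_eq, mem_univ, if_true,
        mul_one]
      rcases hV.tri a0 i with e | e | e <;> rcases hV'.tri j b0 with e' | e' | e' <;> simp [e, e']

theorem exists_sym' {D : ℕ} (hD : D ≠ 0) : ∃ (κ : Type) (_ : Fintype κ) (_ : DecidableEq κ),
    0 < Fintype.card κ ∧ Fintype.card κ ≤ 4 * D ^ 2 ∧ ∀ w ≤ D, ∃ V : Matrix κ κ ℤ, Sym w V := by
  obtain ⟨κ, _, _, hc, h⟩ := exists_sym (Nat.log 2 D + 1)
  have h1 : D < 2 ^ (Nat.log 2 D + 1) := Nat.lt_pow_succ_log_self (by norm_num) _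
  have h2 : 2 ^ Nat.log 2 D ≤ D := Nat.pow_log_le_self 2 hD
  refine ⟨κ, inferInstance, inferInstance, by rw [hc]; positivity, ?_, fun w hw => h w (by omega)⟩
  rw [hc, pow_succ, show 4 = 2 ^ 2 by norm_num, ← pow_mul, mul_comm 2, pow_mul, mul_comm]
  exact Nat.mul_le_mul_left _ (Nat.pow_le_pow_left h2 2)

end ClP

open ClP in
theorem cl : S_Cl := by
  intro d hd
  have hD : d.natAbs ≠ 0 := Int.natAbs_ne_zero.2 hd
  obtain ⟨κ, _, _, hc0, hc2, h⟩ := exists_sym' hD
  obtain ⟨a0⟩ := Fintype.card_pos_iff.1 hc0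
  refine ⟨4 * Fintype.card κ ^ 2, by nlinarith, ?_, fun j hj γ hγ => ?_⟩
  · calc 4 * Fintype.card κ ^ 2 ≤ 4 * (4 * d.natAbs ^ 2) ^ 2 := by gcongr
      _ = 64 * d.natAbs ^ 4 := by ring
  obtain ⟨V, hV⟩ := h γ hγ
  obtain ⟨V', hV'⟩ := h (d.natAbs - γ) (by omega)
  obtain ⟨U, i0, S, hU, h1, h2, h3⟩ := adapted (hV.left (κ := Fin j)) hV' (a0, ⟨0, hj⟩) a0
  rw [show γ + (d.natAbs - γ) = d.natAbs by omega] at hU
  exact mk hd hU i0 (by simp; ring) S h1 h2 h3

end

end Pool.Agent.P.MP_009630_co.Dn
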