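import Pool.Agent.P.MP_009630_co.Dn.St

/-! Conversion step of a run. -/

set_option autoImplicit false

namespace Pool.Agent.P.MP_009630_co.Dn

open Finset

noncomputable section

namespace ConvP

variable {n : ℕ} [NeZero n] {P : Par} {c : ZMod n}

omit [NeZero n] in
theorem sg_cases (dir : Bool) : (dir = true ∧ sg dir = 1) ∨ (dir = false ∧ sg dir = -1) := by
  cases dir <;> simp [sg]

omit [NeZero n] in
theorem far_near {τ z : ℤ} {p y : ZMod n} {r r' ρ : ℝ} (h : Far P τ z p r)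
    (hy : At P.m (y - p) (-ρ) ρ) (hr : r' + ρ ≤ r) : Far P τ z y r' := by
  constructor
  · intro a
    have := a.sub hy
    rw [sub_sub_cancel] at this
    exact h.1 (this.mono (by linarith) (by linarith))
  · intro a
    have := a.sub hy
    rw [sub_sub_cancel] at this
    exact h.2 (this.mono (by linarith) (by linarith))

omit [NeZero n] in
theorem far_mono {τ z : ℤ} {p : ZMod n} {r r' : ℝ} (h : Far P τ z p r) (hr : r' ≤ r) :
    Far P τ z p r' :=
  far_near (ρ := 0) h (by simpa using At.zero (m := P.m) (n := n) le_rfl le_rfl) (by linarith)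

/-- The value `s` is allowed at `y`. -/
def OKy (P : Par) (τ1 z1 τ2 z2 s : ℤ) (y : ZMod n) : Prop :=
  ¬ At P.m y z1 (z1 + P.w1) ∧ ¬ At P.m y z2 (z2 + P.w1) ∧
    ((s = -1 ∧ At P.m y (τ1 + 1) (τ2 - 1)) ∨ (s = 1 ∧ At P.m y (τ2 + 1) (τ1 + P.m - 1)))

/-- The lift `Y` is inside (`s = -1`) or outside (`s = 1`). -/
def Side (P : Par) (n : ℕ) (τ1 τ2 s Y : ℤ) : Prop :=
  (s = -1 ∧ τ1 + 5 < ps P.m n Y ∧ ps P.m n Y < τ2 - 4) ∨
    (s = 1 ∧ τ2 + 5 < ps P.m n Y ∧ ps P.m n Y < τ1 + P.m - 4)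

theorem exists_side {τ1 z1 τ2 z2 : ℤ} {p : ZMod n} (h1 : Far P τ1 z1 p 4) (h2 : Far P τ2 z2 p 4) :
    ∃ s Y : ℤ, (Y : ZMod n) = p ∧ Side P n τ1 τ2 s Y := by
  obtain ⟨Y, e, a, b⟩ := exists_lift P.m_pos p ((τ1 : ℝ) - 4)
  have c1 : τ1 + 5 < ps P.m n Y := by
    by_contra hc
    exact h1.1 ⟨Y, e, a, by linarith⟩
  by_cases c2 : ps P.m n Y < τ2 - 4
  · exact ⟨-1, Y, e, Or.inl ⟨rfl, c1, c2⟩⟩
  · refine ⟨1, Y, e, Or.inr ⟨rfl, ?_, by linarith⟩⟩
    by_contra hc
    exact h2.1 ⟨Y, e, by linarith, by linarith⟩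

omit [NeZero n] in
theorem oky {τ1 z1 τ2 z2 s Y : ℤ} (h1 : Far P τ1 z1 (Y : ZMod n) 4)
    (h2 : Far P τ2 z2 (Y : ZMod n) 4) (hs : Side P n τ1 τ2 s Y) {y : ZMod n}
    (hy : At P.m y (ps P.m n Y - 3) (ps P.m n Y + 3)) : OKy P τ1 z1 τ2 z2 s y := by
  have hn : At P.m (y - (Y : ZMod n)) (-3) 3 :=
    (hy.sub (At.intCast Y)).mono (by linarith) (by linarith)
  refine ⟨fun a => (far_near (r' := 0) h1 hn (by norm_num)).2 (by simpa using a),
    fun a => (far_near (r' := 0) h2 hn (by norm_num)).2 (by simpa using a), ?_⟩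
  rcases hs with ⟨rfl, a, b⟩ | ⟨rfl, a, b⟩
  · exact Or.inl ⟨rfl, hy.mono (by linarith) (by linarith)⟩
  · exact Or.inr ⟨rfl, hy.mono (by linarith) (by linarith)⟩

theorem rowok {τ1 z1 τ2 z2 s1 s2 : ℤ} {C1 C2 h1 h2 : Dv n} (t1 : τ1 < τ2) (t2 : τ2 < τ1 + P.m)
    (a1 : ∀ y, h1 y = 0 ∨ (h1 y = 1 ∧ h2 y = 0 ∧ OKy P τ1 z1 τ2 z2 s1 y))
    (a2 : ∀ y, h2 y = 0 ∨ (h2 y = 1 ∧ OKy P τ1 z1 τ2 z2 s2 y))
    (e : C2 - C1 = s1 • dd h1 + s2 • dd h2) (hm : At P.m (mom (C2 - C1)) (-8) 8) :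
    RowOK P C1 τ1 z1 C2 τ2 z2 := by
  refine ⟨hm, s1 • h1 + s2 • h2, by rw [dd_add, dd_smul, dd_smul, e], fun y hy => ?_⟩
  have key : ∀ s : ℤ, (s1 • h1 + s2 • h2) y = s → OKy P τ1 z1 τ2 z2 s y →
      ¬ At P.m y z1 (z1 + P.w1) ∧ ¬ At P.m y z2 (z2 + P.w1) ∧
      ∃ t : ℤ, τ1 < τ2 + t * P.m ∧ τ2 + t * P.m < τ1 + P.m ∧
        (((s1 • h1 + s2 • h2) y = -1 ∧ At P.m y (τ1 + 1) (τ2 + t * P.m - 1)) ∨
         ((s1 • h1 + s2 • h2) y = 1 ∧ At P.m y (τ2 + t * P.m + 1) (τ1 + P.m - 1))) := by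
    intro s hs h
    refine ⟨h.1, h.2.1, 0, by simpa using t1, by simpa using t2, ?_⟩
    rw [hs]
    simpa using h.2.2
  rcases a1 y with p | ⟨p, q, r⟩
  · rcases a2 y with q | ⟨q, r⟩
    · exact (hy (by simp [p, q])).elim
    · exact key s2 (by simp [p, q]) r
  · exact key s1 (by simp [p, q]) r

/-- Moving a point to the neighbouring cell in direction `ε`. -/
theorem move {Y ε : ℤ} (hε : ε = 1 ∨ ε = -1) {v : ZMod n}
    (hv : At P.m v (((⌊ps P.m n Y⌋ + ε : ℤ) : ℝ) + 1 / 5) (((⌊ps P.m n Y⌋ + ε : ℤ) : ℝ) + 4 / 5)) :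
    At P.m (v - (Y : ZMod n)) (-2) 2 ∧ ∃ h : Dv n, pt v - pt (Y : ZMod n) = ε • dd h ∧
      ∀ y, h y = 0 ∨ (h y = 1 ∧ At P.m y (ps P.m n Y + (ε - 1)) (ps P.m n Y + (ε + 1))) := by
  have f1 := Int.floor_le (ps P.m n Y)
  have f2 := Int.lt_floor_add_one (ps P.m n Y)
  have hm : (100 : ℝ) ≤ P.m := by exact_mod_cast P.m_ge
  rcases hε with rfl | rfl
  · push_cast at hv ⊢
    refine ⟨(hv.sub (At.intCast Y)).mono (by linarith) (by linarith), ?_⟩
    obtain ⟨h, hh, e⟩ := Feat.dip P.m_pos (At.intCast Y) hv (by linarith) (by linarith)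
    refine ⟨h, by rw [one_smul, ← neg_neg (dd h), ← e]; abel, fun y => (hh y).imp id fun a =>
      ⟨a.1, a.2.mono (by linarith) (by linarith)⟩⟩
  · push_cast at hv ⊢
    refine ⟨(hv.sub (At.intCast Y)).mono (by linarith) (by linarith), ?_⟩
    obtain ⟨h, hh, e⟩ := Feat.dip P.m_pos hv (At.intCast Y) (by linarith) (by linarith)
    refine ⟨h, by rw [e]; simp, fun y => (hh y).imp id fun a =>
      ⟨a.1, a.2.mono (by linarith) (by linarith)⟩⟩

omit [NeZero n] in
theorem scaf_update (Lb : Lib P c) (p : ℤ) (sf : Fin P.D → Bool) (sa sb : Fin P.D → ℤ)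
    (i0 : Fin P.D) (h0 : sf i0 = false) (fl : Bool) (a b : ℤ) :
    Lb.scaf p (Function.update sf i0 fl) (Function.update sa i0 a) (Function.update sb i0 b) =
      Lb.scaf p sf sa sb + Lb.dip p (2 * P.k + i0) fl a b := by
  unfold Lib.scaf
  rw [← add_sum_erase _ _ (mem_univ i0), ← add_sum_erase _ _ (mem_univ i0)]
  have : ∑ i ∈ univ.erase i0, Lb.dip p (2 * P.k + i) (Function.update sf i0 fl i)
      (Function.update sa i0 a i) (Function.update sb i0 b i) =
      ∑ i ∈ univ.erase i0, Lb.dip p (2 * P.k + i) (sf i) (sa i) (sb i) := by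
    refine sum_congr rfl fun i hi => ?_
    have hne : i ≠ i0 := ne_of_mem_erase hi
    rw [Function.update_of_ne hne, Function.update_of_ne hne, Function.update_of_ne hne]
  rw [this]
  simp only [Function.update_self, h0]
  have z : Lb.dip p (2 * P.k + i0) false (sa i0) (sb i0) = 0 := by simp [Lib.dip]
  rw [z]; abel

/-- The geometric core: how the special dipole is replaced. -/
theorem core (Lb : Lib P c) (p : ℤ) (s : ℕ) (dir : Bool) {τ1 z1 τ2 z2 : ℤ} {pp pm : ZMod n}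
    (t1 : τ1 < τ2) (t2 : τ2 < τ1 + P.m) (hne : pp ≠ pm) (p1 : Far P τ1 z1 pp 4) (p2 : Far P τ2 z2 pp 4) (m1 : Far P τ1 z1 pm 4)
    (m2 : Far P τ2 z2 pm 4) :
    ∃ (a : ℤ) (k0 : ℕ) (s1 s2 : ℤ) (h1 h2 : Dv n), k0 < P.m ∧
      (k0 ≠ 0 → At P.m (Lb.vp p s a - pp) (-2) 2) ∧
      At P.m (mom (Lb.dip p s (decide (k0 ≠ 0)) a (a + sg dir * k0) - (pt pp - pt pm))) (-8) 8 ∧
      sg dir • (Lb.dip p s (decide (k0 ≠ 0)) a (a + sg dir * k0) - (pt pp - pt pm)) =
        s1 • dd h1 + s2 • dd h2 ∧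
      (∀ y, h1 y = 0 ∨ (h1 y = 1 ∧ h2 y = 0 ∧ OKy P τ1 z1 τ2 z2 s1 y)) ∧
      (∀ y, h2 y = 0 ∨ (h2 y = 1 ∧ OKy P τ1 z1 τ2 z2 s2 y)) := by
  obtain ⟨s1, A, rfl, hA⟩ := exists_side p1 p2
  obtain ⟨s2, B, rfl, hB⟩ := exists_side m1 m2
  have hm : (100 : ℝ) ≤ P.m := by exact_mod_cast P.m_ge
  have hmZ : (100 : ℤ) ≤ P.m := by exact_mod_cast P.m_ge
  have hsg : sg dir = 1 ∨ sg dir = -1 := by rcases sg_cases dir with h | h <;> simp [h.2]
  have hs1 : s1 = 1 ∨ s1 = -1 := by rcases hA with h | h <;> simp [h.1]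
  have hs2 : s2 = 1 ∨ s2 = -1 := by rcases hB with h | h <;> simp [h.1]
  have hsq : sg dir * sg dir = 1 := by rcases hsg with h | h <;> simp [h]
  have he1 : sg dir * s1 = 1 ∨ sg dir * s1 = -1 := by
    rcases hsg with h | h <;> rcases hs1 with h' | h' <;> simp [h, h']
  have he2 : -(sg dir * s2) = 1 ∨ -(sg dir * s2) = -1 := by
    rcases hsg with h | h <;> rcases hs2 with h' | h' <;> simp [h, h']
  set e1 := sg dir * s1 with de1
  set e2 := -(sg dir * s2) with de2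
  have fA1 := Int.floor_le (ps P.m n A)
  have fA2 := Int.lt_floor_add_one (ps P.m n A)
  have fB1 := Int.floor_le (ps P.m n B)
  have fB2 := Int.lt_floor_add_one (ps P.m n B)
  have r1 : (-1 : ℝ) ≤ e1 ∧ (e1 : ℝ) ≤ 1 := by rcases he1 with h | h <;> rw [h] <;> norm_num
  have r2 : (-1 : ℝ) ≤ e2 ∧ (e2 : ℝ) ≤ 1 := by rcases he2 with h | h <;> rw [h] <;> norm_num
  -- the generic construction
  have gen : (¬ (P.m : ℤ) ∣ (⌊ps P.m n B⌋ + e2) - (⌊ps P.m n A⌋ + e1)) →
      (∀ y : ZMod n, At P.m y (ps P.m n A + (e1 - 1)) (ps P.m n A + (e1 + 1)) →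
        At P.m y (ps P.m n B + (e2 - 1)) (ps P.m n B + (e2 + 1)) → False) →
      ∃ (a : ℤ) (k0 : ℕ) (s1 s2 : ℤ) (h1 h2 : Dv n), k0 < P.m ∧
      (k0 ≠ 0 → At P.m (Lb.vp p s a - (A : ZMod n)) (-2) 2) ∧
      At P.m (mom (Lb.dip p s (decide (k0 ≠ 0)) a (a + sg dir * k0) -
        (pt (A : ZMod n) - pt (B : ZMod n)))) (-8) 8 ∧
      sg dir • (Lb.dip p s (decide (k0 ≠ 0)) a (a + sg dir * k0) -
        (pt (A : ZMod n) - pt (B : ZMod n))) = s1 • dd h1 + s2 • dd h2 ∧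
      (∀ y, h1 y = 0 ∨ (h1 y = 1 ∧ h2 y = 0 ∧ OKy P τ1 z1 τ2 z2 s1 y)) ∧
      (∀ y, h2 y = 0 ∨ (h2 y = 1 ∧ OKy P τ1 z1 τ2 z2 s2 y)) := by
    intro hnd hdis
    set a := ⌊ps P.m n A⌋ + e1 with da
    set b := ⌊ps P.m n B⌋ + e2 with db
    have hm0 : (P.m : ℤ) ≠ 0 := by omega
    have k1 := Int.emod_nonneg (sg dir * (b - a)) hm0
    have k2 := Int.emod_lt_of_pos (sg dir * (b - a)) (show (0 : ℤ) < P.m by omega)
    have k3 := Int.emod_add_mul_ediv (sg dir * (b - a)) P.m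
    obtain ⟨k0, hk0⟩ : ∃ k0 : ℕ, (k0 : ℤ) = (sg dir * (b - a)) % P.m :=
      ⟨_, Int.toNat_of_nonneg k1⟩
    set t := sg dir * (b - a) / P.m with dt
    have k4 : b = a + sg dir * k0 + (sg dir * t) * P.m := by
      rw [hk0]
      have : sg dir * (sg dir * (b - a)) = b - a := by rw [← mul_assoc, hsq, one_mul]
      linear_combination -this - sg dir * k3
    have k5 : k0 ≠ 0 := by
      rintro rfl
      exact hnd ⟨sg dir * t, by rw [k4]; push_cast; ring⟩
    have hvm : At P.m (Lb.vm p s (a + sg dir * k0)) ((b : ℝ) + 1 / 5) ((b : ℝ) + 4 / 5) := by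
      have := (Lb.vm_at p s (a + sg dir * k0)).shift (sg dir * t)
      have k6 : (b : ℝ) = ((a + sg dir * k0 : ℤ) : ℝ) + ((sg dir * t : ℤ) : ℝ) * P.m := by
        rw [k4]; push_cast; ring
      exact this.mono (by linarith) (by linarith)
    obtain ⟨n1, h1, q1, v1⟩ := move he1 (Lb.vp_at p s a)
    obtain ⟨n2, h2, q2, v2⟩ := move he2 hvm
    have hd : Lb.dip p s (decide (k0 ≠ 0)) a (a + sg dir * k0) -
        (pt (A : ZMod n) - pt (B : ZMod n)) = (pt (Lb.vp p s a) - pt (A : ZMod n)) -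
          (pt (Lb.vm p s (a + sg dir * k0)) - pt (B : ZMod n)) := by
      simp only [Lib.dip, k5, ne_eq, not_false_eq_true, decide_true, if_true]; abel
    refine ⟨a, k0, s1, s2, h1, h2, by omega, fun _ => n1, ?_, ?_, fun y => ?_, fun y => ?_⟩
    · rw [hd]
      simp only [mom_sub, mom_pt]
      exact (n1.sub n2).mono (by norm_num) (by norm_num)
    · rw [hd, q1, q2, smul_sub, smul_smul, smul_smul, de1, de2, ← mul_assoc, hsq, mul_neg,
        ← mul_assoc, hsq]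
      simp
    · rcases v1 y with u | u
      · exact Or.inl u
      · refine Or.inr ⟨u.1, ?_, oky p1 p2 hA (u.2.mono (by linarith) (by linarith))⟩
        rcases v2 y with u' | u'
        · exact u'
        · exact (hdis y u.2 u'.2).elim
    · exact (v2 y).imp id fun u => ⟨u.1, oky m1 m2 hB (u.2.mono (by linarith) (by linarith))⟩
  by_cases hnear : At P.m ((A : ZMod n) - (B : ZMod n)) (-5) 5
  swap
  · refine gen ?_ ?_
    · rintro ⟨t, ht⟩
      have ht' : ((⌊ps P.m n B⌋ : ℝ) + e2) - (⌊ps P.m n A⌋ + e1) = P.m * t := by exact_mod_cast ht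
      exact hnear ((((At.intCast A).sub (At.intCast B)).shift t).mono (by linarith) (by linarith))
    · intro y u u'
      have a1 := u'.sub (At.intCast B)
      have a2 := u.sub (At.intCast A)
      have a3 := a1.sub a2
      rw [show y - (B : ZMod n) - (y - (A : ZMod n)) = (A : ZMod n) - B by ring] at a3
      exact hnear (a3.mono (by linarith) (by linarith))
  obtain ⟨Δ, eΔ, d1, d2⟩ := hnear
  have t1' : (τ1 : ℝ) < τ2 := by exact_mod_cast t1
  have t2' : (τ2 : ℝ) < τ1 + P.m := by exact_mod_cast t2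
  have bA : τ1 + 5 < ps P.m n A ∧ ps P.m n A < τ1 + P.m - 4 := by
    rcases hA with h | h <;> constructor <;> linarith [h.2.1, h.2.2]
  have bB : τ1 + 5 < ps P.m n B ∧ ps P.m n B < τ1 + P.m - 4 := by
    rcases hB with h | h <;> constructor <;> linarith [h.2.1, h.2.2]
  have eA : A = B + Δ := by
    refine lift_unique (m := P.m) (n := n) (by push_cast; rw [eΔ]; ring) ?_ ?_ <;>
      rw [ps_add] <;> linarith [bA.1, bA.2, bB.1, bB.2]
  have pA : ps P.m n A = ps P.m n B + ps P.m n Δ := by rw [eA, ps_add]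
  have ess : s2 = s1 := by
    rcases hA with h | h <;> rcases hB with h' | h'
    · rw [h.1, h'.1]
    · exfalso; linarith [h.2.1, h.2.2, h'.2.1, h'.2.2]
    · exfalso; linarith [h.2.1, h.2.2, h'.2.1, h'.2.2]
    · rw [h.1, h'.1]
  have e21 : e2 = -e1 := by rw [de2, de1, ess]
  have hAB : A ≠ B := fun h => hne (by rw [h])
  -- removal of the dipole
  have rem : ∀ h : Dv n, (∀ y, h y = 0 ∨ (h y = 1 ∧
      At P.m y (min (ps P.m n A) (ps P.m n B)) (max (ps P.m n A) (ps P.m n B)))) →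
      pt (B : ZMod n) - pt (A : ZMod n) = e1 • dd h →
      ∃ (a : ℤ) (k0 : ℕ) (s1 s2 : ℤ) (h1 h2 : Dv n), k0 < P.m ∧
      (k0 ≠ 0 → At P.m (Lb.vp p s a - (A : ZMod n)) (-2) 2) ∧
      At P.m (mom (Lb.dip p s (decide (k0 ≠ 0)) a (a + sg dir * k0) -
        (pt (A : ZMod n) - pt (B : ZMod n)))) (-8) 8 ∧
      sg dir • (Lb.dip p s (decide (k0 ≠ 0)) a (a + sg dir * k0) -
        (pt (A : ZMod n) - pt (B : ZMod n))) = s1 • dd h1 + s2 • dd h2 ∧
      (∀ y, h1 y = 0 ∨ (h1 y = 1 ∧ h2 y = 0 ∧ OKy P τ1 z1 τ2 z2 s1 y)) ∧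
      (∀ y, h2 y = 0 ∨ (h2 y = 1 ∧ OKy P τ1 z1 τ2 z2 s2 y)) := by
    intro h hh e
    have hd : Lb.dip p s (decide ((0 : ℕ) ≠ 0)) 0 (0 + sg dir * (0 : ℕ)) -
        (pt (A : ZMod n) - pt (B : ZMod n)) = pt (B : ZMod n) - pt (A : ZMod n) := by
      simp [Lib.dip]
    refine ⟨0, 0, s1, s1, h, 0, P.m_pos, fun a => (a rfl).elim, ?_, ?_, fun y => ?_,
      fun y => Or.inl rfl⟩
    · rw [hd]
      simp only [mom_sub, mom_pt]
      exact ((At.intCast B).sub (At.intCast A)).mono (by linarith) (by linarith)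
    · rw [hd, e, smul_smul, de1, ← mul_assoc, hsq]; simp
    · rcases hh y with u | ⟨u, Y, eY, y1, y2⟩
      · exact Or.inl u
      · refine Or.inr ⟨u, rfl, ?_⟩
        by_cases hc : ps P.m n A - 3 ≤ ps P.m n Y ∧ ps P.m n Y ≤ ps P.m n A + 3
        · exact oky p1 p2 hA ⟨Y, eY, hc.1, hc.2⟩
        · rw [← ess]
          refine oky m1 m2 hB ⟨Y, eY, ?_, ?_⟩
          · rcases min_le_iff.1 y1 with a | a <;> rcases le_max_iff.1 y2 with b | b <;>
              by_contra hc' <;> exact hc ⟨by linarith, by linarith⟩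
          · rcases min_le_iff.1 y1 with a | a <;> rcases le_max_iff.1 y2 with b | b <;>
              by_contra hc' <;> exact hc ⟨by linarith, by linarith⟩
  have ndv : ∀ u : ℤ, 0 < |u| → |u| < 100 → ¬ (P.m : ℤ) ∣ u := by
    intro u u1 u2 hd
    have := Int.le_of_dvd u1 ((dvd_abs _ _).2 hd)
    omega
  rcases lt_or_gt_of_ne hAB with hlt | hlt
  · have pl : ps P.m n A < ps P.m n B := ps_lt P.m_pos hlt
    have fl : ⌊ps P.m n A⌋ ≤ ⌊ps P.m n B⌋ := Int.floor_le_floor pl.le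
    have fl' : ⌊ps P.m n B⌋ < ⌊ps P.m n A⌋ + 7 := by
      have : (⌊ps P.m n B⌋ : ℝ) < ⌊ps P.m n A⌋ + 7 := by linarith
      exact_mod_cast this
    rcases he1 with h | h
    · obtain ⟨f, hf, e⟩ := Feat.dipZ (m := P.m) (n := n) hlt.le (by linarith)
      refine rem f (fun y => (hf y).imp id fun u =>
        ⟨u.1, u.2.mono (min_le_left _ _) (le_max_right _ _)⟩) ?_
      rw [h, one_smul, ← neg_neg (dd f), ← e]; abel
    · refine gen (ndv _ ?_ ?_) fun y u u' => ?_
      · rw [e21, h]; exact abs_pos.2 (by omega)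
      · rw [e21, h]; exact abs_lt.2 ⟨by omega, by omega⟩
      · rw [e21, h] at u'; rw [h] at u
        push_cast at u u'
        exact u.disj u' (by linarith) (by linarith)
  · have pl : ps P.m n B < ps P.m n A := ps_lt P.m_pos hlt
    have fl : ⌊ps P.m n B⌋ ≤ ⌊ps P.m n A⌋ := Int.floor_le_floor pl.le
    have fl' : ⌊ps P.m n A⌋ < ⌊ps P.m n B⌋ + 7 := by
      have : (⌊ps P.m n A⌋ : ℝ) < ⌊ps P.m n B⌋ + 7 := by linarith
      exact_mod_cast this
    rcases he1 with h | h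
    · refine gen (ndv _ ?_ ?_) fun y u u' => ?_
      · rw [e21, h]; exact abs_pos.2 (by omega)
      · rw [e21, h]; exact abs_lt.2 ⟨by omega, by omega⟩
      · rw [e21, h] at u'; rw [h] at u
        push_cast at u u'
        exact u'.disj u (by linarith) (by linarith)
    · obtain ⟨f, hf, e⟩ := Feat.dipZ (m := P.m) (n := n) hlt.le (by linarith)
      refine rem f (fun y => (hf y).imp id fun u =>
        ⟨u.1, u.2.mono (min_le_right _ _) (le_max_left _ _)⟩) ?_
      rw [h, e]; simp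

end ConvP

open ConvP in
theorem conv (h : S_Opt) : S_Conv := by
  classical
  intro P n _ c E Lb x dir r kk hinv hγ
  obtain ⟨T, eT, T1, T2⟩ := hinv.ok.tc
  obtain ⟨R, eR, R1, R2⟩ := E.hpos
  obtain ⟨hne, fp, fm⟩ := hinv.ok.far hγ
  have hγD := hinv.ok.hγ
  set pz := P.pz r.a r.f with dpz
  set s : Finset (ZMod n) := insert r.pp (insert r.pm
    (univ.image fun i : Fin P.D => Lb.vp pz (2 * P.k + i) (r.sa i))) with ds
  have hs : s.card ≤ P.D + 2 := by
    refine (card_insert_le _ _).trans ?_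
    refine (Nat.add_le_add_right (card_insert_le _ _) 1).trans ?_
    have := card_image_le (s := (univ : Finset (Fin P.D)))
      (f := fun i : Fin P.D => Lb.vp pz (2 * P.k + i) (r.sa i))
    simp only [card_univ, Fintype.card_fin] at this
    omega
  obtain ⟨τ', z', o1, o2, hw, hf⟩ := h P n (ps P.m n T + sg dir * ps P.m n R) s hs
  have fp' : Far P τ' z' r.pp 6 := hf _ (mem_insert_self _ _)
  have fm' : Far P τ' z' r.pm 6 := hf _ (mem_insert_of_mem (mem_insert_self _ _))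
  have fv' : ∀ i : Fin P.D, Far P τ' z' (Lb.vp pz (2 * P.k + i) (r.sa i)) 6 := fun i =>
    hf _ (mem_insert_of_mem (mem_insert_of_mem (mem_image_of_mem _ (mem_univ i))))
  obtain ⟨a1, a2, a3, a4, a5, a6, a7, a8, a9, a10, a11, a12, a13, a14, a15, a16, a17⟩ := P.factsR
  set i0 : Fin P.D := ⟨r.γ - 1, by omega⟩ with di0
  have k00 : kk i0 = 0 := hinv.free i0 (by simp only [di0]; omega)
  have sf0 : r.sf i0 = false := by rw [hinv.hsf, k00]; simp
  -- the construction from the core lemma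
  have fin : ∀ (a : ℤ) (k0 : ℕ), k0 < P.m →
      (k0 ≠ 0 → At P.m (Lb.vp pz (2 * P.k + i0) a - r.pp) (-2) 2) →
      At P.m (mom (Lb.dip pz (2 * P.k + i0) (decide (k0 ≠ 0)) a (a + sg dir * k0) -
        (pt r.pp - pt r.pm))) (-8) 8 →
      (∀ C' : Dv n, C' - r.C Lb = Lb.dip pz (2 * P.k + i0) (decide (k0 ≠ 0)) a (a + sg dir * k0) -
        (pt r.pp - pt r.pm) →
        if dir then RowOK P (r.C Lb) r.τ r.z C' τ' z' else RowOK P C' τ' z' (r.C Lb) r.τ r.z) →
      ∃ (r' : RD P n) (kk' : Fin P.D → ℕ), r'.inv Lb (x + (sg dir : ℤ)) dir kk' ∧ r.same r' ∧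
        r'.γ + 1 = r.γ ∧ (if dir then r.row r' Lb else r'.row r Lb) := by
    intro a k0 hk0 hn hm hrow
    let r' : RD P n :=
      { a := r.a, f := r.f, τ := τ', z := z'
        sf := Function.update r.sf i0 (decide (k0 ≠ 0))
        sa := Function.update r.sa i0 a
        sb := Function.update r.sb i0 (a + sg dir * k0)
        γ := r.γ - 1, pp := r.pp, pm := r.pm }
    have hC : r'.C Lb - r.C Lb = Lb.dip pz (2 * P.k + i0) (decide (k0 ≠ 0)) a (a + sg dir * k0) -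
        (pt r.pp - pt r.pm) := by
      have hg : ((r.γ - 1 : ℕ) : ℤ) = (r.γ : ℤ) - 1 := by omega
      simp only [RD.C, r']
      rw [scaf_update Lb _ _ _ _ i0 sf0, hg, sub_smul, one_smul]
      abel
    refine ⟨r', Function.update kk i0 k0, ⟨⟨hw, ?_, ?_, fun _ => ⟨hne, ?_, ?_⟩⟩, fun i => ?_,
      fun i hi => ?_, fun i => ?_, fun i hi => ?_, fun i hi => ?_⟩, ⟨rfl, rfl, rfl, rfl⟩, ?_, ?_⟩
    · have e1 : c * (x + (sg dir : ℤ)) - mom (r'.C Lb) =
          ((T + sg dir * R : ℤ) : ZMod n) - mom (r'.C Lb - r.C Lb) := by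
        rw [mom_sub]; push_cast; rw [eT, eR]; ring
      rw [e1, hC]
      have := (At.intCast (m := P.m) (n := n) (T + sg dir * R)).sub hm
      rw [ps_add, ps_mul] at this
      exact this.mono (by simp only [r']; linarith) (by simp only [r']; linarith)
    · simp only [r']; omega
    · exact far_mono fp' (by norm_num)
    · exact far_mono fm' (by norm_num)
    · by_cases hi : i = i0
      · subst hi; simp [r']
      · simp only [r', Function.update_of_ne hi]; exact hinv.hsf i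
    · by_cases hi' : i = i0
      · subst hi'; simp [r']
      · simp only [r', Function.update_of_ne hi'] at hi ⊢; exact hinv.hsb i hi
    · by_cases hi : i = i0
      · subst hi; simpa using hk0
      · simp only [Function.update_of_ne hi]; exact hinv.hkk i
    · have hi' : i ≠ i0 := by
        intro e
        have := congrArg Fin.val e
        simp only [r', di0] at hi this
        omega
      rw [Function.update_of_ne hi']
      exact hinv.free i (by simp only [r'] at hi; omega)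
    · by_cases hi' : i = i0
      · subst hi'
        simp only [r', Function.update_self] at hi ⊢
        exact far_near fp' (hn hi) (by norm_num)
      · simp only [r', Function.update_of_ne hi'] at hi ⊢
        exact far_mono (fv' i) (by norm_num)
    · simp only [r']; omega
    · exact hrow _ hC
  rcases sg_cases dir with ⟨rfl, hsg⟩ | ⟨rfl, hsg⟩
  · rw [hsg] at o1 o2
    push_cast at o1 o2
    have t1 : r.τ < τ' := by
      have : (r.τ : ℝ) < τ' := by nlinarith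
      exact_mod_cast this
    have t2 : τ' < r.τ + P.m := by
      have : (τ' : ℝ) < r.τ + P.m := by nlinarith
      exact_mod_cast this
    obtain ⟨a, k0, s1, s2, h1, h2, c1, c2, c3, c4, c5, c6⟩ := core Lb pz (2 * P.k + i0) true t1 t2
      hne fp (far_mono fp' (by norm_num)) fm (far_mono fm' (by norm_num))
    refine fin a k0 c1 c2 c3 fun C' hC' => ?_
    simp only [if_true]
    refine rowok t1 t2 c5 c6 ?_ (by rw [hC']; exact c3)
    rw [hC', ← c4, hsg, one_smul]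
  · rw [hsg] at o1 o2
    push_cast at o1 o2
    have t1 : τ' < r.τ := by
      have : (τ' : ℝ) < r.τ := by nlinarith
      exact_mod_cast this
    have t2 : r.τ < τ' + P.m := by
      have : (r.τ : ℝ) < τ' + P.m := by nlinarith
      exact_mod_cast this
    obtain ⟨a, k0, s1, s2, h1, h2, c1, c2, c3, c4, c5, c6⟩ := core Lb pz (2 * P.k + i0) false t1 t2
      hne (far_mono fp' (by norm_num)) fp (far_mono fm' (by norm_num)) fm
    refine fin a k0 c1 c2 c3 fun C' hC' => ?_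
    simp only [Bool.false_eq_true, if_false]
    have hC'' : r.C Lb - C' = -(C' - r.C Lb) := by abel
    refine rowok t1 t2 c5 c6 ?_ ?_
    · rw [hC'', hC', ← c4]
      generalize Lb.dip pz (2 * P.k + i0) (decide (k0 ≠ 0)) a (a + sg false * k0) -
        (pt r.pp - pt r.pm) = V
      rw [hsg]; simp
    · rw [hC'', hC', mom_neg]
      simpa using c3.neg

end

end Pool.Agent.P.MP_009630_co.Dn
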