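import Pool.Agent.P.MP_009630_co.Dn.St

/-!
Covering property of the lattice of points `(g, c g)`.
-/

set_option autoImplicit false

namespace Pool.Agent.P.MP_009630_co.Dn

namespace CovP

theorem thue (n : ℕ) [NeZero n] (c : ZMod n) : ∃ x y : ℤ, (x ≠ 0 ∨ y ≠ 0) ∧
    |(x : ℝ)| ≤ √n ∧ |(y : ℝ)| ≤ √n ∧ (y : ZMod n) = c * x := by
  obtain ⟨a, b, hab, he⟩ := Fintype.exists_ne_map_eq_of_card_lt
    (fun a : Fin (n.sqrt + 1) × Fin (n.sqrt + 1) => ((a.2 : ℕ) : ZMod n) - c * ((a.1 : ℕ) : ZMod n))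
    (by simpa [ZMod.card] using Nat.lt_succ_sqrt n)
  have hs : ((n.sqrt : ℕ) : ℝ) ≤ √n := Real.nat_sqrt_le_real_sqrt
  have hb : ∀ i j : Fin (n.sqrt + 1), |((((i : ℕ) : ℤ) - ((j : ℕ) : ℤ) : ℤ) : ℝ)| ≤ √n := by
    intro i j
    have h1 : ((i : ℕ) : ℝ) ≤ n.sqrt := by exact_mod_cast Nat.lt_succ_iff.1 i.2
    have h2 : ((j : ℕ) : ℝ) ≤ n.sqrt := by exact_mod_cast Nat.lt_succ_iff.1 j.2
    have h3 : (0 : ℝ) ≤ (i : ℕ) := Nat.cast_nonneg _
    have h4 : (0 : ℝ) ≤ (j : ℕ) := Nat.cast_nonneg _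
    push_cast
    rw [abs_le]
    constructor <;> linarith
  refine ⟨((a.1 : ℕ) : ℤ) - ((b.1 : ℕ) : ℤ), ((a.2 : ℕ) : ℤ) - ((b.2 : ℕ) : ℤ), ?_, hb _ _, hb _ _,
    ?_⟩
  · by_contra h
    rw [not_or, not_not, not_not] at h
    exact hab (Prod.ext (Fin.ext (by omega)) (Fin.ext (by omega)))
  · push_cast
    linear_combination he

theorem det_ne {d x y : ℤ} (hd : ¬ IsSquare d) (h : x ≠ 0 ∨ y ≠ 0) : d * x ^ 2 - y ^ 2 ≠ 0 := by
  intro h0
  by_cases hx : x = 0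
  · subst hx
    have : y = 0 := by simpa using h0
    simp [this] at h
  · refine hd (Rat.isSquare_intCast_iff.1 ⟨(y : ℚ) / x, ?_⟩)
    have h1 : (x : ℚ) ≠ 0 := by exact_mod_cast hx
    have h2 : (d : ℚ) * x ^ 2 - y ^ 2 = 0 := by exact_mod_cast h0
    field_simp
    linear_combination h2

theorem at_of {m n : ℕ} [NeZero n] (hm : 0 < m) {G : ℤ} {σ B : ℝ}
    (h : |(G : ℝ) - σ * n / m| ≤ B * √n) :
    At m (G : ZMod n) (σ - B * m / √n) (σ + B * m / √n) := by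
  have hn : (0 : ℝ) < n := by exact_mod_cast Nat.pos_of_ne_zero (NeZero.ne n)
  have hm' : (0 : ℝ) < m := by exact_mod_cast hm
  have hs : 0 < √(n : ℝ) := Real.sqrt_pos.2 hn
  have h1 : |ps m n G - σ| ≤ B * m / √n := by
    have e1 : ps m n G - σ = ((G : ℝ) - σ * n / m) * (m / n) := by
      unfold ps
      field_simp
    have e2 : B * m / √n = B * √n * (m / n) := by
      rw [div_eq_iff hs.ne', mul_assoc, mul_assoc, mul_comm (m / n : ℝ), ← mul_assoc √(n : ℝ),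
        Real.mul_self_sqrt hn.le]
      field_simp
    rw [e1, e2, abs_mul, abs_of_pos (div_pos hm' hn)]
    exact mul_le_mul_of_nonneg_right h (div_pos hm' hn).le
  obtain ⟨a, b⟩ := abs_le.1 h1
  exact ⟨G, rfl, by linarith, by linarith⟩

theorem fl_le (p q a b : ℝ) : |⌊p⌋ * a + ⌊q⌋ * b - (p * a + q * b)| ≤ |a| + |b| := by
  have h : ∀ r : ℝ, |(⌊r⌋ : ℝ) - r| ≤ 1 := fun r => by
    have h1 := Int.floor_le r
    have h2 := Int.lt_floor_add_one r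
    rw [abs_le]
    constructor <;> linarith
  have e : ⌊p⌋ * a + ⌊q⌋ * b - (p * a + q * b) = (⌊p⌋ - p) * a + (⌊q⌋ - q) * b := by ring
  rw [e]
  refine (abs_add_le _ _).trans (add_le_add ?_ ?_)
  · rw [abs_mul]
    exact mul_le_of_le_one_left (abs_nonneg _) (h p)
  · rw [abs_mul]
    exact mul_le_of_le_one_left (abs_nonneg _) (h q)

end CovP

open CovP

theorem cov : S_Cov := by
  intro d hd m n _ c hm hc σ τ
  obtain ⟨x, y, h0, hx, hy, he⟩ := thue n c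
  have hΔ : (d : ℝ) * x ^ 2 - y ^ 2 ≠ 0 := by exact_mod_cast det_ne hd h0
  have hd1 : (1 : ℝ) ≤ d.natAbs := by
    have : d ≠ 0 := fun h => hd (h ▸ IsSquare.zero)
    exact_mod_cast Int.natAbs_pos.2 this
  have hda : |(d : ℝ)| = d.natAbs := by rw [Nat.cast_natAbs, Int.cast_abs]
  have hs : 0 ≤ √(n : ℝ) := Real.sqrt_nonneg _
  set S : ℝ := σ * n / m
  set T : ℝ := τ * n / m
  set p : ℝ := (d * x * S - y * T) / (d * x ^ 2 - y ^ 2) with hp
  set q : ℝ := (x * T - y * S) / (d * x ^ 2 - y ^ 2) with hq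
  have e1 : p * x + q * y = S := by
    rw [hp, hq, div_mul_eq_mul_div, div_mul_eq_mul_div, ← add_div, div_eq_iff hΔ]
    ring
  have e2 : p * y + q * (d * x) = T := by
    rw [hp, hq, div_mul_eq_mul_div, div_mul_eq_mul_div, ← add_div, div_eq_iff hΔ]
    ring
  have e3 : c * ((⌊p⌋ * x + ⌊q⌋ * y : ℤ) : ZMod n) = ((⌊p⌋ * y + ⌊q⌋ * (d * x) : ℤ) : ZMod n) := by
    push_cast
    rw [he, ← hc]
    ring
  refine ⟨((⌊p⌋ * x + ⌊q⌋ * y : ℤ) : ZMod n), at_of hm ?_, ?_⟩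
  · have := fl_le p q x y
    rw [e1] at this
    push_cast
    nlinarith
  · rw [e3]
    refine at_of hm ?_
    have := fl_le p q y (d * x)
    rw [e2, abs_mul, hda] at this
    push_cast
    nlinarith

end Pool.Agent.P.MP_009630_co.Dn
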