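import Pool.Agent.P.MP_009630_co.Dn.Cov

/-! Covering property when `c` is congruent to `± e` modulo two large divisors of `n`. -/

set_option autoImplicit false

namespace Pool.Agent.P.MP_009630_co.Dn

namespace CovSP

theorem at_of {m n : ℕ} [NeZero n] (hm : 0 < m) {Y : ℤ} {σ B : ℝ}
    (h : |(Y : ℝ) - σ * n / m| ≤ B * n) : At m (Y : ZMod n) (σ - B * m) (σ + B * m) := by
  have hn := npos (n := n)
  have hm' : (0 : ℝ) < m := by exact_mod_cast hm
  have h1 : |ps m n Y - σ| ≤ B * m := by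
    have e1 : ps m n Y - σ = ((Y : ℝ) - σ * n / m) * (m / n) := by
      unfold ps
      field_simp
    have e2 : B * m = B * n * (m / n) := by field_simp
    rw [e1, e2, abs_mul, abs_of_pos (div_pos hm' hn)]
    exact mul_le_mul_of_nonneg_right h (div_pos hm' hn).le
  obtain ⟨a, b⟩ := abs_le.1 h1
  exact ⟨Y, rfl, by linarith, by linarith⟩

theorem vec {n G : ℕ} [NeZero n] (hG : 0 < G) {a : ℤ} (h : G ≤ Int.gcd n a) :
    ∃ x : ℤ, 0 < x ∧ (x : ℝ) ≤ n / G ∧ (a : ZMod n) * x = 0 := by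
  obtain ⟨x, hx⟩ := Int.gcd_dvd_left (n : ℤ) a
  obtain ⟨y, hy⟩ := Int.gcd_dvd_right (n : ℤ) a
  have hn : (0 : ℤ) < n := by exact_mod_cast Nat.pos_of_ne_zero (NeZero.ne n)
  generalize Int.gcd n a = g at h hx hy
  have hg : (G : ℤ) ≤ g := by exact_mod_cast h
  have hG' : (0 : ℤ) < G := by exact_mod_cast hG
  have hx0 : 0 < x := by
    by_contra h0
    nlinarith
  refine ⟨x, hx0, ?_, ?_⟩
  · rw [le_div_iff₀ (by exact_mod_cast hG)]
    have : x * G ≤ n := by nlinarith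
    exact_mod_cast this
  · have : a * x = n * y := by rw [hx, hy]; ring
    have := congrArg (Int.cast : ℤ → ZMod n) this
    simpa using this

end CovSP

open CovSP

theorem covS : S_CovS := by
  intro e c m n G _ he hm hG h1 h2 σ τ
  obtain ⟨x, x0, x1, x2⟩ := vec hG h1
  obtain ⟨y, y0, y1, y2⟩ := vec hG h2
  push_cast at x2 y2
  have x0' : (0 : ℝ) < x := by exact_mod_cast x0
  have y0' : (0 : ℝ) < y := by exact_mod_cast y0
  have he' : (e : ℝ) ≠ 0 := by exact_mod_cast he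
  have he1 : (1 : ℝ) ≤ |(e : ℝ)| := by exact_mod_cast Int.one_le_abs he
  set S : ℝ := σ * n / m
  set T : ℝ := τ * n / m
  set p : ℝ := (S + T / e) / (2 * x) with hp
  set q : ℝ := (S - T / e) / (2 * y) with hq
  have e1 : p * x + q * y = S := by rw [hp, hq]; field_simp; ring
  have e2 : p * (e * x) + q * (-e * y) = T := by rw [hp, hq]; field_simp; ring
  have e3 : (c : ZMod n) * ((⌊p⌋ * x + ⌊q⌋ * y : ℤ) : ZMod n) =
      ((⌊p⌋ * (e * x) + ⌊q⌋ * (-e * y) : ℤ) : ZMod n) := by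
    push_cast
    linear_combination (⌊p⌋ : ZMod n) * x2 + (⌊q⌋ : ZMod n) * y2
  have e4 : 2 * |(e : ℝ)| * m / G = 2 * |(e : ℝ)| / G * m := by ring
  have e5 : 2 * |(e : ℝ)| / G * n = 2 * |(e : ℝ)| * (n / G) := by ring
  rw [e4]
  refine ⟨((⌊p⌋ * x + ⌊q⌋ * y : ℤ) : ZMod n), at_of hm ?_, ?_⟩
  · have := CovP.fl_le p q x y
    rw [e1, abs_of_pos x0', abs_of_pos y0'] at this
    push_cast
    rw [e5]
    nlinarith
  · rw [e3]
    refine at_of hm ?_
    have := CovP.fl_le p q (e * x) (-e * y)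
    rw [e2, abs_mul, abs_mul, abs_neg, abs_of_pos x0', abs_of_pos y0'] at this
    push_cast
    rw [e5]
    nlinarith

end Pool.Agent.P.MP_009630_co.Dn
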