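import Mathlib

/-!
Definitions for the dense existence theorem for `A ^ 2 = d I + λ J`.
Plan and hints: /team-store/h67_009630_plan.md.
-/

set_option autoImplicit false

namespace Pool.Agent.P.MP_009630_co.Dn

open Finset

noncomputable section

/-- Integer functions on `Z_n` (divisors and height functions). -/
abbrev Dv (n : ℕ) := ZMod n → ℤ

variable {n : ℕ}

/-- The divisor `[x]`. -/
def pt (x : ZMod n) : Dv n := Pi.single x 1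

/-- Difference operator: `dd f = ∑ f y • ([y+1] - [y])`. -/
def dd (f : Dv n) : Dv n := fun y => f (y - 1) - f y

/-- Moment (sum in the group) of a divisor. -/
def mom [NeZero n] (f : Dv n) : ZMod n := ∑ y, (f y : ZMod n) * y

/-- Degree of a divisor. -/
def deg [NeZero n] (f : Dv n) : ℤ := ∑ y, f y

/-- Push-forward along multiplication by `c`. -/
def psh [NeZero n] (c : ZMod n) (f : Dv n) : Dv n := ∑ g, f g • pt (c * g)

/-- Linear extension of `N`. -/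
def lin [NeZero n] (N : ZMod n → Dv n) (f : Dv n) : Dv n := ∑ x, f x • N x

/-- Position of the integer `Y` in cell units (the circle has length `m`). -/
def ps (m n : ℕ) (Y : ℤ) : ℝ := (Y : ℝ) * m / n

/-- Some lift of `y` has position in `[lo, hi]`. -/
def At (m : ℕ) (y : ZMod n) (lo hi : ℝ) : Prop :=
  ∃ Y : ℤ, (Y : ZMod n) = y ∧ lo ≤ ps m n Y ∧ ps m n Y ≤ hi

/-- `E` is the boundary of a `{0,1}`-valued bump function supported in `[lo, hi]`. -/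
def Feat (m : ℕ) (E : Dv n) (lo hi : ℝ) : Prop :=
  ∃ h : Dv n, (∀ y, h y = 0 ∨ (h y = 1 ∧ At m y lo hi)) ∧ E = - dd h

/-- The cell (in `[0, m)`) of `y`. -/
def cell (m : ℕ) (y : ZMod n) : ℕ := y.val * m / n

open Classical in
/-- Points `g` with `g` at `[σ, σ+α]` and `c g` at `[τ, τ+β]`. -/
def bx [NeZero n] (m : ℕ) (c : ZMod n) (σ α τ β : ℝ) : Finset (ZMod n) :=
  univ.filter fun g => At m g σ (σ + α) ∧ At m (c * g) τ (τ + β)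

/-- Number of points with given pair of cells. -/
def cnt [NeZero n] (m : ℕ) (c : ZMod n) (a b : ℕ) : ℕ :=
  (univ.filter fun g : ZMod n => cell m g = a ∧ cell m (c * g) = b).card

/-- The matrix equation. -/
def Sol (n : ℕ) (c d lam : ℤ) : Prop :=
  ∃ A : Matrix (Fin n) (Fin n) ℤ, (∀ i j, A i j = 0 ∨ A i j = 1) ∧
    (∀ i, ∑ j, A i j = c) ∧ (∀ j, ∑ i, A i j = c) ∧
    A ^ 2 = d • (1 : Matrix (Fin n) (Fin n) ℤ) + lam • Matrix.of (fun _ _ => (1 : ℤ))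

/-- The operator form of the problem. -/
def Goal [NeZero n] (c : ZMod n) (d : ℤ) : Prop :=
  ∃ N : ZMod n → Dv n, (∀ x, lin N (N x) = d • pt x + (1 - d) • pt 0) ∧
    (∀ x, mom (N x) = c * x) ∧
    ∀ x, ∃ a : Dv n, (∀ y, a y = 0 ∨ a y = 1) ∧ dd a = N (x + 1) - N x

/-- The constants. -/
structure Par where
  d : ℤ
  D : ℕ
  k : ℕ
  m : ℕ
  L : ℕ
  q : ℤ
  ls : ℤ
  s2 : ℤ
  lenP : ℤ
  len : ℤ
  S : ℤ
  S1 : ℤ
  lt : ℤ
  ladj : ℤ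
  w1 : ℤ
  w : ℤ
  hD : d.natAbs = D
  hd0 : d ≠ 0
  hd1 : d ≠ 1
  hk : 1 ≤ k
  hq : q = 2 * k + D
  hls : ls = 2 * q + 13
  hs2 : s2 = 2 * q + 7
  hlenP : lenP = 6 * q + 29
  hlen : len = lenP + 8
  hS : S = k * (6 + lenP) + 6
  hS1 : S1 = 14 * D + 48
  hlt : lt = S + S1 + 1
  hladj : ladj = lt + 7
  hw1 : w1 = k * len + ladj + 23
  hw : w = (D + 3) * (w1 + 28)
  hm : 4 * (w + S + S1 + 20) ≤ m
  hL : (D + D * m + 1) * (m + 2) + 2 ≤ L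

/-- Size constant for the greedy choices. -/
def Par.Q (P : Par) : ℕ := (2 * P.L + 2) * (P.k + 1)

/-- Bound for the size of the library. -/
def Par.Ub (P : Par) (X : ℕ) : ℕ := 2 * P.m ^ 2 + P.k + 4 * P.m ^ 2 * X

/-- Tiny length. -/
def Par.eta (P : Par) : ℝ := 1 / ((P.k : ℝ) * (P.D + 1))

/-- Facts on `n` and `c`. -/
structure Env (P : Par) (c : ZMod n) : Prop where
  hc : c * c = (P.d : ZMod n)
  hpos : At P.m c (P.w + P.S + P.S1 + 11) (P.m - (P.w + P.S + P.S1 + 11))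
  hsm : 100 * (P.L + 1) * P.m ≤ n

/-- A `{0,±1}` square root of `d I`. -/
structure Cm (d : ℤ) (k : ℕ) where
  W : Fin k → Fin k → ℤ
  i0 : Fin k
  sq : ∀ x z, ∑ y, W x y * W y z = if x = z then d else 0
  val : ∀ x y, W x y = 0 ∨ W x y = 1 ∨ W x y = -1

/-- A bipartite `{0,±1}` square root of `d I`, adapted to the multiplicity `gam`. -/
structure Cl (d : ℤ) (D k : ℕ) extends Cm d k where
  sd : Fin k → Bool
  e : Fin D → Fin k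
  hi0 : i0.val = 0
  bip : ∀ x y, W x y ≠ 0 → sd x ≠ sd y
  einj : Function.Injective e
  w0e : ∀ a, W i0 (e a) = 1
  we0 : ∀ a, W (e a) i0 = d.sign
  gam : ℕ
  small : ∀ x : Fin k, x ≠ i0 →
    |∑ a ∈ univ.filter (fun a : Fin D => a.val < gam), W x (e a)| ≤ 1

instance {d : ℤ} {D k : ℕ} : CoeOut (Cl d D k) (Cm d k) := ⟨Cl.toCm⟩

/-- Every box of radius `R` contains a point `(g, c g)`. -/
def Cv (m : ℕ) (c : ZMod n) (R : ℝ) : Prop :=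
  ∀ σ τ : ℝ, ∃ g : ZMod n, At m g (σ - R) (σ + R) ∧ At m (c * g) (τ - R) (τ + R)

/-- Lattice facts on the points `(g, c g)`. -/
structure Lat [NeZero n] (P : Par) (c : ZMod n) (N0 X E : ℕ) : Prop where
  tiny : ∀ σ τ : ℝ, ∃ g : ZMod n, At P.m g (σ - P.eta) (σ + P.eta) ∧
    At P.m (c * g) (τ - P.eta) (τ + P.eta)
  box : ∀ σ τ : ℝ, N0 ≤ (bx P.m c σ (1 / 20) τ (1 / 20)).card
  rep : ∃ X1 X2 : Finset (ZMod n), X1.card ≤ X ∧ X2.card ≤ X ∧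
    (∀ ζ ∈ X1, At P.m ζ 1 P.ls ∧ At P.m (c * ζ) (-P.lt) (-1)) ∧
    (∀ ζ ∈ X2, At P.m ζ (-P.s2 - 1) (-P.s2 + 1) ∧ At P.m (c * ζ) (-3) (-1)) ∧
    ∀ ξ : ZMod n, At P.m ξ (-2 * P.q - 5) 5 → At P.m (c * ξ) (-P.S - P.S1 - 2) (-4) →
      ∃ ζ1 ∈ X1, ∃ ζ2 ∈ X2, ξ = ζ1 + ζ2
  cnt : ∀ a b a' b' : ℕ, a < P.m → b < P.m → a' < P.m → b' < P.m →
    cnt P.m c a b ≤ cnt P.m c a' b' + E

/-- The library `U`: its points `u` get `N u = [c u]`, `N (c u) = d [u] + (1 - d) [0]`. -/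
structure Lib (P : Par) (c : ZMod n) where
  U : Finset (ZMod n)
  lk : Bool → ℤ → ℤ → ZMod n
  lk_mem : ∀ s a b, lk s a b ∈ U
  lk_f : ∀ a b : ℤ, At P.m (lk false a b) (a + 1 / 20) (a + 3 / 20)
  lk_t : ∀ a b : ℤ, At P.m (lk true a b) (a + 17 / 20) (a + 19 / 20)
  lk_v : ∀ (s : Bool) (a b : ℤ), At P.m (c * lk s a b) (b + 1 / 5) (b + 4 / 5)
  adj : ∀ (p l : ℤ) (ξ : ZMod n), At P.m ξ (-2 * P.q - 5) 5 →
    At P.m (c * ξ) (-P.S - P.S1 - 2) (-4) →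
    ∃ u1 ∈ U, ∃ u1' ∈ U, ∃ u2 ∈ U, ∃ u2' ∈ U, ξ = u1 - u1' + (u2 - u2') ∧
      Feat P.m (pt u1' - pt u1) (p + 2 * P.q) (p + 2 * P.q + P.ls + 1) ∧
      Feat P.m (pt u2 - pt u2') (p + 2 * P.q + P.ls + 3) (p + 2 * P.q + P.ls + P.s2 + 5) ∧
      Feat P.m (pt (c * u1) - pt (c * u1') + (pt (c * u2) - pt (c * u2'))) l (l + P.ladj)
  mid : ∀ u ∈ U, ∃ a : ℤ, At P.m (c * u) (a + 1 / 5) (a + 4 / 5)
  zero : 0 ∉ U
  disj : ∀ u ∈ U, ∀ u' ∈ U, ∀ i j : ℤ, |i| ≤ P.L → |j| ≤ P.L →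
    c * u + i = c * u' + j → u = u' ∧ i = j
  disjU : ∀ u ∈ U, ∀ j : ℤ, |j| ≤ P.L → c * u + j ∉ U ∧ c * u + j ≠ 0

variable {P : Par} {c : ZMod n}

/-- Plus end of slot `s` of the zone starting at `p`, placed in cell `l`. -/
def Lib.vp (Lb : Lib P c) (p : ℤ) (s : ℕ) (l : ℤ) : ZMod n := c * Lb.lk false (p + 2 * s + 1) l

/-- Minus end of slot `s` of the zone starting at `p`, placed in cell `l`. -/
def Lib.vm (Lb : Lib P c) (p : ℤ) (s : ℕ) (l : ℤ) : ZMod n := c * Lb.lk false (p + 2 * s) l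

/-- The dipole of slot `s` (or zero). -/
def Lib.dip (Lb : Lib P c) (p : ℤ) (s : ℕ) (fl : Bool) (a b : ℤ) : Dv n :=
  if fl then pt (Lb.vp p s a) - pt (Lb.vm p s b) else 0

/-- Scaffolding dipoles. -/
def Lib.scaf (Lb : Lib P c) (p : ℤ) (sf : Fin P.D → Bool) (sa sb : Fin P.D → ℤ) : Dv n :=
  ∑ i : Fin P.D, Lb.dip p (2 * P.k + i) (sf i) (sa i) (sb i)

/-- Start of the pair zone of a point in cell `a` with layout flag `f`. -/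
def Par.pz (P : Par) (a : ℤ) (f : Bool) : ℤ := if f then a + 6 else a - 2 - P.lenP

/-- The feature zone `[z, z + w1]` lies to the left of the jump cell `τ`. -/
def Win (P : Par) (τ z : ℤ) : Prop := τ - P.w ≤ z ∧ z + P.w1 + 1 ≤ τ

/-- `y` is at distance more than `r` from the jump cell and from the feature zone. -/
def Far (P : Par) (τ z : ℤ) (y : ZMod n) (r : ℝ) : Prop :=
  ¬ At P.m y (τ - r) (τ + 1 + r) ∧ ¬ At P.m y (z - r) (z + P.w1 + r)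

/-- The carried divisors `C`, `C'` of two consecutive points are compatible. -/
def RowOK [NeZero n] (P : Par) (C : Dv n) (τ z : ℤ) (C' : Dv n) (τ' z' : ℤ) : Prop :=
  At P.m (mom (C' - C)) (-8) 8 ∧ ∃ e : Dv n, C' - C = dd e ∧ ∀ y, e y ≠ 0 →
    ¬ At P.m y z (z + P.w1) ∧ ¬ At P.m y z' (z' + P.w1) ∧
    ∃ t : ℤ, τ < τ' + t * P.m ∧ τ' + t * P.m < τ + P.m ∧
      ((e y = -1 ∧ At P.m y (τ + 1) (τ' + t * P.m - 1)) ∨
       (e y = 1 ∧ At P.m y (τ' + t * P.m + 1) (τ + P.m - 1)))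

/-- The divisor `Nx` is: a jump in cell `τ`, bumps in `[z, z + w1]`, and the carried part `C`. -/
def PointOK [NeZero n] (P : Par) (c x : ZMod n) (Nx C : Dv n) (τ z : ℤ) : Prop :=
  Win P τ z ∧ At P.m (c * x - mom C) (τ - P.S - P.S1) (τ + 1) ∧
    ∃ M : ZMod n, At P.m M τ (τ + 1) ∧ Feat P.m (Nx - pt M - C) z (z + P.w1)

/-- The divisor of the member `y` of a block with shadows `R`. -/
def nr [NeZero n] {k : ℕ} (c : ZMod n) (W : Fin k → Fin k → ℤ) (σ : ℤ) (pos : Fin k → ZMod n)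
    (R : Fin k → Dv n) (y : Fin k) : Dv n :=
  psh c (R y) + ∑ x, (σ * W y x) • (pt (pos x) - R x)

/-- A valid block. -/
def BlockOK [NeZero n] (Lb : Lib P c) (Cf : Cm P.d P.k) (pos : Fin P.k → ZMod n)
    (C : Fin P.k → Dv n) (τ z : Fin P.k → ℤ) : Prop :=
  ∃ (σ : ℤ) (R : Fin P.k → Dv n), (σ = 1 ∨ σ = -1) ∧
    (∀ y g, R y g ≠ 0 → g ∈ Lb.U ∨ g = 0) ∧ (∀ y, deg (R y) = 1) ∧
    ∀ y, mom (nr c Cf.W σ pos R y) = c * pos y ∧
      PointOK P c (pos y) (nr c Cf.W σ pos R y) (C y) (τ y) (z y)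

/-- Input data of the block lemma. -/
structure BD (P : Par) (n : ℕ) where
  σ : ℤ
  pos : Fin P.k → ZMod n
  u0 : Fin P.k → ZMod n
  p : Fin P.k → ℤ
  τ : Fin P.k → ℤ
  z : Fin P.k → ℤ
  adj : Fin P.k → ℤ
  β : Fin P.k → ℤ
  u : ZMod n
  ζ : ZMod n
  sf : Fin P.k → Fin P.D → Bool
  sa : Fin P.k → Fin P.D → ℤ
  sb : Fin P.k → Fin P.D → ℤ
  af : Fin P.k → Fin P.k → Bool
  aa : Fin P.k → Fin P.k → ℤ
  ab : Fin P.k → Fin P.k → ℤ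
  lo : Fin P.k → Fin P.k → ℝ
  hi : Fin P.k → Fin P.k → ℝ
  far : Fin P.k → Dv n

/-- Multiplicity with which `y` carries `[u] - [0]`. -/
def BD.g (B : BD P n) (Cf : Cm P.d P.k) (y : Fin P.k) : ℤ := -∑ x, B.σ * Cf.W y x * B.β x

/-- Carried divisor of `y`. -/
def BD.C (B : BD P n) (Lb : Lib P c) (Cf : Cm P.d P.k) (y : Fin P.k) : Dv n :=
  Lb.scaf (B.p y) (B.sf y) (B.sa y) (B.sb y) + B.g Cf y • (pt B.u - pt 0) + B.far y

/-- Local part of `β y • ([c u] - [0])`. -/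
def BD.Ex (B : BD P n) (c : ZMod n) (y : Fin P.k) : Dv n :=
  B.β y • (pt (c * B.u) - pt 0) - B.far y

/-- What `y` adds to the dipole `[pos x] - [u0 x]`. -/
def BD.ap (B : BD P n) (Lb : Lib P c) (Cf : Cm P.d P.k) (y x : Fin P.k) : Dv n :=
  Lb.dip (B.p y) x (B.af y x) (B.aa y x) (B.ab y x) + if x = Cf.i0 then B.Ex c y else 0

/-- Hypotheses of the block lemma. -/
structure BD.ok [NeZero n] (B : BD P n) (Lb : Lib P c) (Cf : Cm P.d P.k) : Prop where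
  hσ : B.σ = 1 ∨ B.σ = -1
  hu0 : ∀ y, B.u0 y ∈ Lb.U
  hu : B.u ∈ Lb.U ∨ B.u = 0
  near : ∀ y, At P.m (B.pos y - B.u0 y) (-4) 4
  jump : ∀ y, At P.m (c * B.u0 y) (B.τ y) (B.τ y + 1)
  hζ : At P.m B.ζ (-P.eta) P.eta
  hζ' : At P.m (B.u - c * B.ζ) (-P.eta) P.eta
  hβ : ∀ y, |B.β y| ≤ 1
  hg : ∀ y, |B.g Cf y| ≤ P.D
  feat : ∀ y x, Cf.W y x ≠ 0 →
    Feat P.m ((B.σ * Cf.W y x) • (pt (B.pos x) - pt (B.u0 x)) + B.ap Lb Cf y x) (B.lo y x) (B.hi y x)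
  off : ∀ y x, Cf.W y x = 0 → B.af y x = false
  offE : ∀ y, Cf.W y Cf.i0 = 0 → B.Ex c y = 0
  apm : ∀ y x, At P.m (mom (B.ap Lb Cf y x)) (-6) 0
  win : ∀ y, Win P (B.τ y) (B.z y)
  inA : ∀ y x, Cf.W y x ≠ 0 → (B.z y : ℝ) ≤ B.lo y x ∧ B.hi y x ≤ B.z y + P.w1
  inP : ∀ y x, Cf.W y x ≠ 0 → B.z y ≤ B.p x - 1 ∧ B.p x - 1 + P.lenP ≤ B.z y + P.w1
  inJ : ∀ y, B.z y ≤ B.adj y ∧ B.adj y + P.ladj ≤ B.z y + P.w1
  AA : ∀ y x x', Cf.W y x ≠ 0 → Cf.W y x' ≠ 0 → x ≠ x' →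
    B.hi y x < B.lo y x' ∨ B.hi y x' < B.lo y x
  AP : ∀ y x x', Cf.W y x ≠ 0 → Cf.W y x' ≠ 0 →
    B.hi y x < B.p x' - 1 ∨ (B.p x' : ℝ) - 1 + P.lenP < B.lo y x
  PP : ∀ y x x', Cf.W y x ≠ 0 → Cf.W y x' ≠ 0 → x ≠ x' →
    B.p x - 1 + P.lenP < B.p x' - 1 ∨ B.p x' - 1 + P.lenP < B.p x - 1
  AJ : ∀ y x, Cf.W y x ≠ 0 → B.hi y x < B.adj y ∨ (B.adj y : ℝ) + P.ladj < B.lo y x
  PJ : ∀ y x, Cf.W y x ≠ 0 → B.p x - 1 + P.lenP < B.adj y ∨ B.adj y + P.ladj < B.p x - 1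
  tc : ∀ y, At P.m (c * B.pos y - mom (B.C Lb Cf y)) (B.τ y - P.S - P.S1) (B.τ y - P.S)

/-- Data of a point of a run. -/
structure RD (P : Par) (n : ℕ) where
  a : ℤ
  f : Bool
  τ : ℤ
  z : ℤ
  sf : Fin P.D → Bool
  sa : Fin P.D → ℤ
  sb : Fin P.D → ℤ
  γ : ℕ
  pp : ZMod n
  pm : ZMod n

/-- Carried divisor of a run point. -/
def RD.C (r : RD P n) (Lb : Lib P c) : Dv n :=
  Lb.scaf (P.pz r.a r.f) r.sf r.sa r.sb + (r.γ : ℤ) • (pt r.pp - pt r.pm)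

/-- The data `r` fit the point `x`. -/
structure RD.ok [NeZero n] (r : RD P n) (Lb : Lib P c) (x : ZMod n) : Prop where
  win : Win P r.τ r.z
  tc : At P.m (c * x - mom (r.C Lb)) (r.τ - P.S - P.S1) (r.τ - P.S)
  hγ : r.γ ≤ P.D
  far : 0 < r.γ → r.pp ≠ r.pm ∧ Far P r.τ r.z r.pp 4 ∧ Far P r.τ r.z r.pm 4

/-- `RowOK` for run data. -/
def RD.row [NeZero n] (r r' : RD P n) (Lb : Lib P c) : Prop :=
  RowOK P (r.C Lb) r.τ r.z (r'.C Lb) r'.τ r'.z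

/-- The static fields agree. -/
def RD.same (r r' : RD P n) : Prop := r'.a = r.a ∧ r'.f = r.f ∧ r'.pp = r.pp ∧ r'.pm = r.pm

/-- Sign of a direction. -/
def sg (dir : Bool) : ℤ := if dir then 1 else -1

/-- Invariant of the relaxation: dipole `i` still has `kk i` cells to go. -/
structure RD.inv [NeZero n] (r : RD P n) (Lb : Lib P c) (x : ZMod n) (dir : Bool)
    (kk : Fin P.D → ℕ) : Prop where
  ok : r.ok Lb x
  hsf : ∀ i, r.sf i = decide (kk i ≠ 0)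
  hsb : ∀ i, kk i ≠ 0 → r.sb i = r.sa i + sg dir * kk i
  hkk : ∀ i, kk i < P.m
  free : ∀ i : Fin P.D, i.val < r.γ → kk i = 0
  far : ∀ i, kk i ≠ 0 → Far P r.τ r.z (Lb.vp (P.pz r.a r.f) (2 * P.k + i) (r.sa i)) 4

/-- Preconditions for building a block around the run point `x`. -/
structure StarPre [NeZero n] (Lb : Lib P c) (x : ZMod n) (r : RD P n) (u : ZMod n) (dir : Bool) :
    Prop where
  ok : r.ok Lb x
  loc : At P.m x (r.a + 17 / 100) (r.a + 83 / 100)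
  sp : 0 < r.γ → u ∈ Lb.U ∧ (r.pp = if 0 < P.d then u else 0) ∧ (r.pm = if 0 < P.d then 0 else u) ∧
    ((r.f = true ∧ 0 ≤ r.a ∧ 2 * r.a ≤ P.m) ∨ (r.f = false ∧ -(P.m : ℤ) ≤ 2 * r.a ∧ r.a ≤ -1)) ∧
    ∃ X V : ℤ, (X : ZMod n) = x ∧ (V : ZMod n) = c * u ∧
      r.a + 17 / 100 ≤ ps P.m n X ∧ ps P.m n X ≤ r.a + 83 / 100 ∧
      r.a + 17 / 100 ≤ ps P.m n V ∧ ps P.m n V ≤ r.a + 83 / 100 ∧
      (if dir then V < X else X < V)

end

end Pool.Agent.P.MP_009630_co.Dn
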