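import Pool.Agent.P.MP_009630_co.Dn.St

/-! Package P5: gluing the library and the blocks into one operator. -/

set_option autoImplicit false

namespace Pool.Agent.P.MP_009630_co.Dn

open Finset

noncomputable section

namespace GlueP

variable {n : ℕ} [NeZero n]

theorem lin_psh (N : ZMod n → Dv n) (c : ZMod n) (d : ℤ) (R : Dv n)
    (h : ∀ g, R g ≠ 0 → N (c * g) = d • pt g + (1 - d) • pt 0) (hR : deg R = 1) :
    lin N (psh c R) = d • R + (1 - d) • pt 0 := by
  have h1 : lin N (psh c R) = lin (fun g => N (c * g)) R := by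
    unfold psh
    rw [lin_sum]
    simp only [lin_smul, lin_pt]
    rfl
  have h2 : lin (fun g => N (c * g)) R = lin (fun g => d • pt g + (1 - d) • pt 0) R :=
    lin_congr h
  have h3 : lin (fun g => d • pt g + (1 - d) • pt (0 : ZMod n)) R
      = d • lin pt R + (deg R * (1 - d)) • pt 0 := by
    unfold lin deg
    simp only [smul_add, sum_add_distrib, smul_sum, sum_mul, sum_smul, mul_smul]
    congr 1
    exact sum_congr rfl fun g _ => smul_comm _ _ _
  rw [h1, h2, h3, lin_id, hR, one_mul]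

theorem lin_nr {d : ℤ} {k : ℕ} (Cf : Cm d k) (N : ZMod n → Dv n) (c : ZMod n) (σ : ℤ)
    (hσ : σ = 1 ∨ σ = -1) (pos : Fin k → ZMod n) (R : Fin k → Dv n) (act : Fin k → Prop)
    (hcl : ∀ y x, act y → Cf.W y x ≠ 0 → act x)
    (hN : ∀ y, act y → N (pos y) = nr c Cf.W σ pos R y)
    (h1 : ∀ y g, R y g ≠ 0 → N g = pt (c * g))
    (h2 : ∀ y g, R y g ≠ 0 → N (c * g) = d • pt g + (1 - d) • pt 0)
    (hR : ∀ y, deg (R y) = 1) (y : Fin k) (hy : act y) :
    lin N (nr c Cf.W σ pos R y) = d • pt (pos y) + (1 - d) • pt 0 := by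
  have hσ2 : σ * σ = 1 := by rcases hσ with rfl | rfl <;> norm_num
  have hl : ∀ x, (σ * Cf.W y x) • lin N (pt (pos x) - R x) =
      (σ * Cf.W y x) • ∑ x', (σ * Cf.W x x') • (pt (pos x') - R x') := by
    intro x
    by_cases hx : Cf.W y x = 0
    · simp [hx]
    congr 1
    rw [lin_sub, lin_pt, hN x (hcl y x hy hx), lin_congr (h1 x), ← psh_eq]
    unfold nr
    abel
  have hs : ∑ x, (σ * Cf.W y x) • ∑ x', (σ * Cf.W x x') • (pt (pos x') - R x')
      = d • (pt (pos y) - R y) := by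
    simp only [smul_sum, smul_smul]
    rw [sum_comm]
    have e : ∀ x', ∑ x, (σ * Cf.W y x * (σ * Cf.W x x')) • (pt (pos x') - R x')
        = (if y = x' then d else 0) • (pt (pos x') - R x') := by
      intro x'
      rw [← sum_smul, ← Cf.sq y x']
      congr 1
      refine sum_congr rfl fun x _ => ?_
      calc σ * Cf.W y x * (σ * Cf.W x x') = (σ * σ) * (Cf.W y x * Cf.W x x') := by ring
        _ = Cf.W y x * Cf.W x x' := by rw [hσ2, one_mul]
    simp only [e, ite_smul, zero_smul, sum_ite_eq, mem_univ, if_true]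
  have hu : nr c Cf.W σ pos R y
      = psh c (R y) + ∑ x, (σ * Cf.W y x) • (pt (pos x) - R x) := rfl
  rw [hu, lin_add, lin_psh N c d (R y) (h2 y) (hR y), lin_sum]
  simp only [lin_smul, hl]
  rw [hs, smul_sub]
  abel

end GlueP

theorem glue : S_Glue := by
  intro P n _ c E Lb B pos act C τ z hinj hpos hcov hB h0 hU hcU
  classical
  choose Cf C' τ' z' hB hcl hag using hB
  choose σ R hσ hsupp hdeg hOK using hB
  have hc0 : ∀ u ∈ Lb.U, c * u ∉ Lb.U ∧ c * u ≠ 0 := by
    intro u hu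
    simpa using Lb.disjU u hu 0 (by simp)
  have hci : ∀ u ∈ Lb.U, ∀ u' ∈ Lb.U, c * u = c * u' → u = u' := by
    intro u hu u' hu' h
    exact (Lb.disj u hu u' hu' 0 0 (by simp) (by simp) (by simpa using h)).1
  let N : ZMod n → Dv n := fun x =>
    if x = 0 then pt 0 else if x ∈ Lb.U then pt (c * x) else
      if h : ∃ u ∈ Lb.U, x = c * u then P.d • pt h.choose + (1 - P.d) • pt 0 else
        if h : ∃ p : B × Fin P.k, act p.1 p.2 ∧ pos p.1 p.2 = x then
          nr c (Cf h.choose.1).W (σ h.choose.1) (pos h.choose.1) (R h.choose.1) h.choose.2 else 0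
  have N0 : N 0 = pt 0 := by simp [N]
  have NU : ∀ u ∈ Lb.U, N u = pt (c * u) := by
    intro u hu
    have : u ≠ 0 := fun h => Lb.zero (h ▸ hu)
    simp [N, this, hu]
  have NC : ∀ u ∈ Lb.U, N (c * u) = P.d • pt u + (1 - P.d) • pt 0 := by
    intro u hu
    have h : ∃ u' ∈ Lb.U, c * u = c * u' := ⟨u, hu, rfl⟩
    have e : h.choose = u := (hci u hu _ h.choose_spec.1 h.choose_spec.2).symm
    simp only [N]
    rw [if_neg (hc0 u hu).2, if_neg (hc0 u hu).1, dif_pos h, e]
  have NB : ∀ b i, act b i → N (pos b i) = nr c (Cf b).W (σ b) (pos b) (R b) i := by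
    intro b i hi
    have h : ∃ p : B × Fin P.k, act p.1 p.2 ∧ pos p.1 p.2 = pos b i := ⟨(b, i), hi, rfl⟩
    have h' : ¬ ∃ u ∈ Lb.U, pos b i = c * u := by
      rintro ⟨u, hu, e⟩
      exact (hpos b i hi).2.2 u hu e
    obtain ⟨e1, e2⟩ := hinj _ _ _ _ h.choose_spec.1 hi h.choose_spec.2
    simp only [N]
    rw [if_neg (hpos b i hi).1, if_neg (hpos b i hi).2.1, dif_neg h', dif_pos h, e1, e2]
  have e0 : pt (0 : ZMod n) = P.d • pt 0 + (1 - P.d) • pt 0 := by
    rw [← add_smul]; simp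
  have hcc : ∀ u : ZMod n, c * (c * u) = (P.d : ZMod n) * u := by
    intro u; rw [← mul_assoc, E.hc]
  obtain ⟨a1, a2, a3, a4, a5, a6, a7, a8, a9, a10, a11, a12, a13, a14, a15, a16, a17⟩ := P.factsZ
  have hSZ : 0 ≤ P.S + P.S1 := by omega
  have hS : (0 : ℝ) ≤ P.S + P.S1 := by exact_mod_cast hSZ
  have hW : ∀ t : ℤ, Win P t (t - P.w) := fun t => ⟨le_rfl, by omega⟩
  have hW0 : Win P 0 (-P.w) := by simpa using hW 0
  have hA0 : At P.m (0 : ZMod n) (((0 : ℤ) : ℝ) - P.S - P.S1) (((0 : ℤ) : ℝ) + 1) :=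
    At.zero (by push_cast; linarith) (by norm_num)
  have hA1 : At P.m (0 : ZMod n) ((0 : ℤ) : ℝ) (((0 : ℤ) : ℝ) + 1) :=
    At.zero (by norm_num) (by norm_num)
  refine ⟨N, fun x => ?_, fun x => ?_, fun x => ?_⟩
  · rcases hcov x with rfl | hx | ⟨u, hu, rfl⟩ | ⟨b, i, hi, rfl⟩
    · rw [N0, lin_pt, N0]; exact e0
    · rw [NU x hx, lin_pt, NC x hx]
    · rw [NC u hu, lin_add, lin_smul, lin_smul, lin_pt, lin_pt, NU u hu, N0]
    · rw [NB b i hi]
      refine GlueP.lin_nr (Cf b) N c (σ b) (hσ b) (pos b) (R b) (act b) (hcl b) (NB b) ?_ ?_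
        (hdeg b) i hi
      · intro y g hg
        rcases hsupp b y g hg with h | rfl
        · exact NU g h
        · rw [mul_zero, N0]
      · intro y g hg
        rcases hsupp b y g hg with h | rfl
        · exact NC g h
        · rw [mul_zero, N0]; exact e0
  · rcases hcov x with rfl | hx | ⟨u, hu, rfl⟩ | ⟨b, i, hi, rfl⟩
    · rw [N0, mom_pt, mul_zero]
    · rw [NU x hx, mom_pt]
    · rw [NC u hu, mom_add, mom_smul, mom_smul, mom_pt, mom_pt, mul_zero, add_zero, hcc]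
    · rw [NB b i hi]; exact (hOK b i).1
  · rcases hcov x with rfl | hx | ⟨u, hu, rfl⟩ | ⟨b, i, hi, rfl⟩
    · obtain ⟨c1, c2, c3⟩ := h0
      rw [N0, c1, c2, c3]
      refine ⟨hW0, ?_, 0, hA1, (Feat.zero _ _).congr (by simp)⟩
      simpa using hA0
    · obtain ⟨c1, c2, c3⟩ := hU x hx
      rw [NU x hx, c1, c3]
      refine ⟨hW _, ?_, c * x, c2, (Feat.zero _ _).congr (by simp)⟩
      rw [mom_zero, sub_zero]
      exact c2.mono (by linarith) le_rfl
    · obtain ⟨c1, c2, c3⟩ := hcU u hu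
      rw [NC u hu, c1, c2, c3]
      refine ⟨hW0, ?_, 0, hA1, (Feat.zero _ _).congr ?_⟩
      · rw [mom_smul, mom_sub, mom_pt, mom_pt, sub_zero, hcc, sub_self]
        exact hA0
      · rw [smul_sub, sub_smul, one_smul]; abel
    · obtain ⟨c1, c2, c3⟩ := hag b i hi
      rw [NB b i hi, ← c1, ← c2, ← c3]; exact (hOK b i).2

end

end Pool.Agent.P.MP_009630_co.Dn
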