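import Pool.Agent.P.MP_009630_co.Dn.St

/-! Greedy choice of base points and fibres of multiplication in `ZMod n`. -/

set_option autoImplicit false

namespace Pool.Agent.P.MP_009630_co.Dn

open Finset

theorem greedy : S_Greedy := by
  intro I G _ _ Good Occ F K K' hK hK' hG
  classical
  have key : ∀ s : Finset I, ∃ b : I → G,
      (∀ i ∈ s, b i ∈ Good i ∧ Disjoint (Occ i (b i)) F) ∧
        ∀ i ∈ s, ∀ j ∈ s, i ≠ j → Disjoint (Occ i (b i)) (Occ j (b j)) := by
    intro s
    induction s using Finset.induction_on with
    | empty =>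
      have hne : ∀ i, (Good i).Nonempty := fun i =>
        Finset.card_pos.1 (lt_of_le_of_lt (Nat.zero_le _) (hG i))
      exact ⟨fun i => (hne i).choose, by simp, by simp⟩
    | insert i s hi ih =>
      obtain ⟨b, hb1, hb2⟩ := ih
      set O : Finset G := s.biUnion (fun j => Occ j (b j)) ∪ F with hO
      have hOc : O.card ≤ K * Fintype.card I + F.card := by
        refine (Finset.card_union_le _ _).trans (Nat.add_le_add_right ?_ _)
        refine (Finset.card_biUnion_le_card_mul s _ K fun j _ => hK j (b j)).trans ?_
        rw [mul_comm]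
        exact Nat.mul_le_mul_left _ (Finset.card_le_univ s)
      have hbad : (O.biUnion fun p => (Good i).filter fun x => p ∈ Occ i x).card <
          (Good i).card := by
        refine lt_of_le_of_lt ?_ (hG i)
        refine (Finset.card_biUnion_le_card_mul O _ K' fun p _ => hK' i p).trans ?_
        rw [mul_comm]
        exact Nat.mul_le_mul_left _ hOc
      obtain ⟨x, hx, hx'⟩ := Finset.exists_mem_notMem_of_card_lt_card hbad
      have hdis : Disjoint (Occ i x) O := by
        rw [Finset.disjoint_left]
        intro p hp hpO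
        exact hx' (Finset.mem_biUnion.2 ⟨p, hpO, Finset.mem_filter.2 ⟨hx, hp⟩⟩)
      have hup : ∀ j ∈ s, Function.update b i x j = b j := fun j hj =>
        Function.update_of_ne (fun h : j = i => hi (h ▸ hj)) _ _
      have hsub : ∀ j ∈ s, Disjoint (Occ i x) (Occ j (b j)) := fun j hj =>
        hdis.mono_right fun p hp =>
          Finset.mem_union_left _ (Finset.mem_biUnion.2 ⟨j, hj, hp⟩)
      refine ⟨Function.update b i x, ?_, ?_⟩
      · intro j hj
        rcases Finset.mem_insert.1 hj with rfl | hj
        · rw [Function.update_self]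
          exact ⟨hx, hdis.mono_right Finset.subset_union_right⟩
        · rw [hup j hj]; exact hb1 j hj
      · intro j hj l hl hjl
        rcases Finset.mem_insert.1 hj with rfl | hj'
        · rcases Finset.mem_insert.1 hl with rfl | hl'
          · exact (hjl rfl).elim
          · rw [Function.update_self, hup l hl']; exact hsub l hl'
        · rcases Finset.mem_insert.1 hl with rfl | hl'
          · rw [Function.update_self, hup j hj']; exact (hsub j hj').symm
          · rw [hup j hj', hup l hl']; exact hb2 j hj' l hl' hjl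
  obtain ⟨b, h1, h2⟩ := key univ
  exact ⟨b, fun i => h1 i (mem_univ _), fun i j => h2 i (mem_univ _) j (mem_univ _)⟩

theorem fib : S_Fib := by
  intro n _ α β h e he hβ
  rcases (univ.filter fun b : ZMod n => α * b = h).eq_empty_or_nonempty with h0 | ⟨b0, hb0⟩
  · simp [h0]
  have hn : 0 < n := Nat.pos_of_ne_zero (NeZero.ne n)
  have he' : 0 < e.natAbs := Int.natAbs_pos.2 he
  have hdvd : ∀ b : ZMod n, α * b = h → n ∣ e.natAbs * (b - b0).val := by
    intro b hb
    have h1 : (e : ZMod n) * (b - b0) = 0 := by
      rw [← hβ, mul_assoc, mul_sub, hb, (Finset.mem_filter.1 hb0).2, sub_self, mul_zero]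
    have h2 : ((e.natAbs : ℕ) : ZMod n) * (b - b0) = 0 := by
      have : ((e.natAbs : ℕ) : ZMod n) = ((e.natAbs : ℤ) : ZMod n) := (Int.cast_natCast _).symm
      rw [this]
      rcases Int.natAbs_eq e with h3 | h3
      · rw [← h3]; exact h1
      · have h4 : (e.natAbs : ℤ) = -e := by omega
        rw [h4, Int.cast_neg, neg_mul, h1, neg_zero]
    rw [← ZMod.natCast_eq_zero_iff, Nat.cast_mul, ZMod.natCast_zmod_val]
    exact h2
  rw [← Finset.card_range e.natAbs]
  refine Finset.card_le_card_of_injOn (fun b => e.natAbs * (b - b0).val / n) ?_ ?_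
  · intro b _
    simp only [Finset.coe_range, Set.mem_Iio]
    rw [Nat.div_lt_iff_lt_mul hn]
    exact Nat.mul_lt_mul_of_pos_left (ZMod.val_lt _) he'
  · intro b hb b' hb' hbb
    have hb1 := hdvd b (Finset.mem_filter.1 (Finset.mem_coe.1 hb)).2
    have hb2 := hdvd b' (Finset.mem_filter.1 (Finset.mem_coe.1 hb')).2
    have h5 : e.natAbs * (b - b0).val = e.natAbs * (b' - b0).val := by
      rw [← Nat.div_mul_cancel hb1, ← Nat.div_mul_cancel hb2]
      exact congrArg (· * n) hbb
    have h6 := ZMod.val_injective n (Nat.eq_of_mul_eq_mul_left he' h5)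
    exact sub_left_injective h6

end Pool.Agent.P.MP_009630_co.Dn
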