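import Pool.Agent.P.MP_009630_co.Dn.St

/-! The remaining points are grouped into ordinary blocks. -/

set_option autoImplicit false

namespace Pool.Agent.P.MP_009630_co.Dn

open Finset

noncomputable section

namespace GroupP

/-- Number of elements with label `l`. -/
def fc {A : Type} [Fintype A] (f : A → ℕ) (l : ℕ) : ℕ := (univ.filter fun a => f a = l).card

theorem pre_sum {A : Type} [Fintype A] (f : A → ℕ) (i : ℕ) :
    (univ.filter fun a => f a < i).card = ∑ l ∈ range i, fc f l := by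
  rw [card_eq_sum_card_fiberwise (f := f) (t := range i)]
  · refine sum_congr rfl fun l hl => ?_
    unfold fc
    congr 1
    ext a
    simp only [mem_filter, mem_univ, true_and]
    constructor
    · exact fun h => h.2
    · intro h
      exact ⟨h ▸ mem_range.1 hl, h⟩
  · intro a ha
    simpa using ha

theorem tot_sum {A : Type} [Fintype A] (f : A → ℕ) (M : ℕ) (hf : ∀ a, f a < M) :
    Fintype.card A = ∑ l ∈ range M, fc f l := by
  rw [← pre_sum, filter_true_of_mem fun a _ => hf a, card_univ]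

theorem prefix_le {A B : Type} [Fintype A] [Fintype B] (f : A → ℕ) (g : B → ℕ) (M lo δ : ℕ)
    (hc : Fintype.card A = Fintype.card B) (hg : ∀ b, g b < M)
    (h1 : ∀ l < M, fc f l ≤ lo + δ) (h2 : ∀ l < M, lo ≤ fc g l) (h3 : M * δ ≤ lo) (i : ℕ) :
    (univ.filter fun a => f a ≤ i).card ≤ (univ.filter fun b => g b ≤ i + 1).card := by
  by_cases hi : i + 2 ≤ M
  · have e1 : (univ.filter fun a => f a ≤ i) = univ.filter fun a => f a < i + 1 := by
      simp only [Nat.lt_succ_iff]
    have e2 : (univ.filter fun b => g b ≤ i + 1) = univ.filter fun b => g b < i + 2 := by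
      simp only [Nat.lt_succ_iff]
    rw [e1, e2, pre_sum, pre_sum]
    have a1 : ∑ l ∈ range (i + 1), fc f l ≤ (i + 1) * (lo + δ) := by
      have := sum_le_card_nsmul (range (i + 1)) (fc f) (lo + δ)
        fun l hl => h1 l (by have := mem_range.1 hl; omega)
      simpa using this
    have a2 : (i + 2) * lo ≤ ∑ l ∈ range (i + 2), fc g l := by
      have := card_nsmul_le_sum (range (i + 2)) (fc g) lo
        fun l hl => h2 l (by have := mem_range.1 hl; omega)
      simpa using this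
    have a3 : (i + 1) * δ ≤ M * δ := Nat.mul_le_mul_right δ (by omega)
    nlinarith
  · rw [filter_true_of_mem (s := (univ : Finset B)) fun b _ => by have := hg b; omega, card_univ,
      ← hc, ← card_univ]
    exact card_filter_le _ _

theorem avg {A : Type} [Fintype A] (f : A → ℕ) (M lo hi δ : ℕ) (hf : ∀ a, f a < M)
    (h : ∀ l < M, ∀ l' < M, fc f l ≤ fc f l' + δ) (h1 : M * lo ≤ Fintype.card A)
    (h2 : Fintype.card A ≤ M * hi) (l : ℕ) (hl : l < M) :
    lo ≤ fc f l + δ ∧ fc f l ≤ hi + δ := by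
  have hM : 0 < M := by omega
  rw [tot_sum f M hf] at h1 h2
  constructor
  · have := sum_le_card_nsmul (range M) (fc f) (fc f l + δ) fun l' hl' => h l' (mem_range.1 hl') l hl
    simp only [card_range, smul_eq_mul] at this
    exact Nat.le_of_mul_le_mul_left (h1.trans this) hM
  · have := card_nsmul_le_sum (range M) (fun l' => fc f l' + δ) (fc f l)
      fun l' hl' => h l hl l' (mem_range.1 hl')
    simp only [card_range, smul_eq_mul, sum_add_distrib, sum_const] at this
    refine Nat.le_of_mul_le_mul_left ?_ hM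
    rw [mul_add]
    omega

theorem pair_eq {m a b a' b' : ℕ} (hb : b < m) (hb' : b' < m) :
    a * m + b = a' * m + b' ↔ a = a' ∧ b = b' := by
  constructor
  · intro h
    have hm : 0 < m := by omega
    have e1 : (a * m + b) / m = a := by
      rw [add_comm, Nat.add_mul_div_right _ _ hm, Nat.div_eq_of_lt hb, zero_add]
    have e2 : (a' * m + b') / m = a' := by
      rw [add_comm, Nat.add_mul_div_right _ _ hm, Nat.div_eq_of_lt hb', zero_add]
    have : a = a' := by rw [← e1, ← e2, h]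
    subst this
    exact ⟨rfl, by omega⟩
  · rintro ⟨rfl, rfl⟩
    rfl

theorem pair_lt {m a b : ℕ} (ha : a < m) (hb : b < m) : a * m + b < m ^ 2 := by
  have : (a + 1) * m ≤ m * m := Nat.mul_le_mul_right m ha
  nlinarith

theorem pair_surj {m l : ℕ} (hl : l < m ^ 2) : ∃ a b, a < m ∧ b < m ∧ l = a * m + b := by
  have hm : 0 < m := by
    rcases Nat.eq_zero_or_pos m with h | h
    · subst h; simp at hl
    · exact h
  refine ⟨l / m, l % m, ?_, Nat.mod_lt _ hm, (Nat.div_add_mod' l m).symm⟩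
  rw [Nat.div_lt_iff_lt_mul hm]
  nlinarith

/-- Labels at distance at most one. -/
theorem pair_near {m a b a' b' : ℕ} (hb : b < m) (hb' : b' < m)
    (h1 : a * m + b ≤ a' * m + b' + 1) (h2 : a' * m + b' ≤ a * m + b + 1) :
    (a ≤ a' + 1 ∧ a' ≤ a + 1) ∧
      ∃ t : ℤ, (b : ℤ) + t * m ≤ b' + 1 ∧ (b' : ℤ) ≤ b + t * m + 1 := by
  refine ⟨⟨?_, ?_⟩, (a : ℤ) - a', ?_, ?_⟩
  · by_contra h
    have : (a' + 2) * m ≤ a * m := Nat.mul_le_mul_right m (by omega)
    nlinarith
  · by_contra h
    have : (a + 2) * m ≤ a' * m := Nat.mul_le_mul_right m (by omega)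
    nlinarith
  · have : ((a * m + b : ℕ) : ℤ) ≤ (a' * m + b' + 1 : ℕ) := by exact_mod_cast h1
    push_cast at this
    linarith
  · have : ((a' * m + b' : ℕ) : ℤ) ≤ (a * m + b + 1 : ℕ) := by exact_mod_cast h2
    push_cast at this
    linarith

theorem cnt_mod (N M t : ℕ) (hM : 0 < M) (ht : t < M) :
    N / M ≤ (univ.filter fun b : Fin N => b.val % M = t).card ∧
      (univ.filter fun b : Fin N => b.val % M = t).card ≤ N / M + 1 := by
  have e : (univ.filter fun b : Fin N => b.val % M = t).card = N.count (· ≡ t [MOD M]) := by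
    rw [Nat.count_eq_card_filter_range, ← card_map Fin.valEmbedding]
    congr 1
    ext b
    simp only [mem_map, mem_filter, mem_univ, true_and, Fin.valEmbedding_apply, mem_range,
      Nat.ModEq, Nat.mod_eq_of_lt ht]
    constructor
    · rintro ⟨a, h, rfl⟩
      exact ⟨a.2, h⟩
    · rintro ⟨h1, h2⟩
      exact ⟨⟨b, h1⟩, h2, rfl⟩
  rw [e, Nat.count_modEq_card N hM t]
  split_ifs <;> omega

/-- Residue of an integer. -/
def rs (m : ℕ) (a : ℤ) : ℕ := (a % m).toNat

theorem rs_cast {m : ℕ} (hm : 0 < m) (a : ℤ) : (rs m a : ℤ) = a % m :=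
  Int.toNat_of_nonneg (Int.emod_nonneg _ (by omega))

theorem rs_lt {m : ℕ} (hm : 0 < m) (a : ℤ) : rs m a < m := by
  have h1 := rs_cast hm a
  have h2 : a % m < m := Int.emod_lt_of_pos a (by omega)
  omega

theorem rs_eq {m : ℕ} (hm : 0 < m) (a : ℤ) : ∃ t : ℤ, a = rs m a + t * m :=
  ⟨a / m, by rw [rs_cast hm]; have := Int.emod_add_mul_ediv a m; linarith⟩

theorem rs_iff {m : ℕ} (hm : 0 < m) (b u : ℕ) (α : ℤ) (hu : u < m) :
    rs m (b + α) = u ↔ b % m = rs m (u - α) := by
  have e1 : rs m (b + α) = u ↔ ((b : ℤ) + α) % m = (u : ℤ) % m := by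
    rw [← rs_cast hm, Int.emod_eq_of_lt (by omega) (by omega : (u : ℤ) < m)]
    exact Int.natCast_inj.symm
  have e2 : b % m = rs m (u - α) ↔ (b : ℤ) % m = ((u : ℤ) - α) % m := by
    rw [← rs_cast hm (u - α), ← Int.natCast_mod]
    exact Int.natCast_inj.symm
  rw [e1, e2]
  constructor
  · intro h
    have := Int.ModEq.sub_right α h
    simpa [Int.ModEq] using this
  · intro h
    have := Int.ModEq.add_right α h
    simpa [Int.ModEq] using this

theorem mod_sq {m : ℕ} (b u v : ℕ) (hu : u < m) :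
    (b % m = u ∧ b / m % m = v) ↔ b % m ^ 2 = v * m + u := by
  have hm : 0 < m := by omega
  have e : b % m ^ 2 = b / m % m * m + b % m := by
    rw [pow_two, Nat.mod_mul]
    ring
  rw [e, pair_eq (Nat.mod_lt _ hm) hu]
  exact and_comm

theorem cnt_two (N m u v : ℕ) (α β : ℤ) (hu : u < m) (hv : v < m) :
    N / m ^ 2 ≤ (univ.filter fun b : Fin N =>
        rs m ((b.val : ℤ) + α) = u ∧ rs m (((b.val / m : ℕ) : ℤ) + β) = v).card ∧
      (univ.filter fun b : Fin N =>
        rs m ((b.val : ℤ) + α) = u ∧ rs m (((b.val / m : ℕ) : ℤ) + β) = v).card ≤ N / m ^ 2 + 1 := by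
  have hm : 0 < m := by omega
  have e : (univ.filter fun b : Fin N =>
        rs m ((b.val : ℤ) + α) = u ∧ rs m (((b.val / m : ℕ) : ℤ) + β) = v) =
      univ.filter fun b : Fin N => b.val % m ^ 2 = rs m (v - β) * m + rs m (u - α) := by
    refine filter_congr fun b _ => ?_
    rw [rs_iff hm _ _ _ hu, rs_iff hm _ _ _ hv, mod_sq _ _ _ (rs_lt hm _)]
  rw [e]
  exact cnt_mod N (m ^ 2) _ (by positivity) (pair_lt (rs_lt hm _) (rs_lt hm _))

/-- The two offsets of block number `b`. -/
def kap (m b : ℕ) (s : Bool) : ℤ := if s then (b : ℤ) else ((b / m : ℕ) : ℤ)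

/-- Label of a slot. -/
def lab (m : ℕ) {N k : ℕ} (sd : Fin k → Bool) (α : Fin k → ℤ) (β : ℤ) (s : Fin N × Fin k) : ℕ :=
  rs m (kap m s.1.val (sd s.2) + α s.2) * m + rs m (kap m s.1.val (!sd s.2) + β)

theorem lab_lt {m : ℕ} (hm : 0 < m) {N k : ℕ} (sd : Fin k → Bool) (α : Fin k → ℤ) (β : ℤ)
    (s : Fin N × Fin k) : lab m sd α β s < m ^ 2 := pair_lt (rs_lt hm _) (rs_lt hm _)

theorem lab_cnt {m : ℕ} (hm : 0 < m) (N k : ℕ) (sd : Fin k → Bool) (α : Fin k → ℤ) (β : ℤ)
    (l : ℕ) (hl : l < m ^ 2) :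
    k * (N / m ^ 2) ≤ fc (lab m (N := N) sd α β) l ∧
      fc (lab m (N := N) sd α β) l ≤ k * (N / m ^ 2) + k := by
  obtain ⟨u, v, hu, hv, rfl⟩ := pair_surj hl
  have e : fc (lab m (N := N) sd α β) (u * m + v) =
      ∑ y : Fin k, (univ.filter fun b : Fin N => lab m sd α β (b, y) = u * m + v).card := by
    unfold fc
    simp only [card_filter]
    rw [Fintype.sum_prod_type_right]
  have h : ∀ y : Fin k,
      N / m ^ 2 ≤ (univ.filter fun b : Fin N => lab m sd α β (b, y) = u * m + v).card ∧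
      (univ.filter fun b : Fin N => lab m sd α β (b, y) = u * m + v).card ≤ N / m ^ 2 + 1 := by
    intro y
    unfold lab
    simp only [pair_eq (rs_lt hm _) hv]
    cases hs : sd y
    · have := cnt_two N m v u β (α y) hv hu
      simpa [kap, and_comm] using this
    · have := cnt_two N m u v (α y) β hu hv
      simpa [kap] using this
  rw [e]
  constructor
  · have := card_nsmul_le_sum (univ : Finset (Fin k)) _ _ fun y _ => (h y).1
    simpa using this
  · have := sum_le_card_nsmul (univ : Finset (Fin k)) _ _ fun y _ => (h y).2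
    simpa [mul_add] using this

variable {n : ℕ}

/-- Label of a point. -/
def lp (m : ℕ) (c : ZMod n) (T : Finset (ZMod n)) (x : {x // x ∈ T}) : ℕ :=
  cell m x.1 * m + cell m (c * x.1)

theorem lp_cnt [NeZero n] {m : ℕ} (hm : 0 < m) (c : ZMod n) (T : Finset (ZMod n)) (Sp : ℕ)
    (hT : n ≤ T.card + Sp) (a b : ℕ) (hb : b < m) :
    fc (lp m c T) (a * m + b) ≤ cnt m c a b ∧ cnt m c a b ≤ fc (lp m c T) (a * m + b) + Sp := by
  have e : fc (lp m c T) (a * m + b) =
      (T.filter fun g => cell m g = a ∧ cell m (c * g) = b).card := by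
    unfold fc lp
    simp only [pair_eq (cell_lt hm _) hb]
    rw [← card_map (Function.Embedding.subtype _)]
    congr 1
    ext g
    simp only [mem_map, mem_filter, mem_univ, true_and, Function.Embedding.subtype_apply]
    constructor
    · rintro ⟨x, h, rfl⟩
      exact ⟨x.2, h⟩
    · rintro ⟨h1, h2⟩
      exact ⟨⟨g, h1⟩, h2, rfl⟩
  rw [e]
  unfold cnt
  constructor
  · exact card_le_card (filter_subset_filter _ (subset_univ T))
  · have h1 : (univ.filter fun g : ZMod n => cell m g = a ∧ cell m (c * g) = b) ⊆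
        (T.filter fun g => cell m g = a ∧ cell m (c * g) = b) ∪ Tᶜ := by
      intro g hg
      by_cases h : g ∈ T
      · exact mem_union_left _ (mem_filter.2 ⟨h, (mem_filter.1 hg).2⟩)
      · exact mem_union_right _ (mem_compl.2 h)
    have h2 := (card_le_card h1).trans (card_union_le _ _)
    rw [card_compl, ZMod.card] at h2
    omega

theorem at_near [NeZero n] {m : ℕ} (hm : 0 < m) (y : ZMod n) (a t : ℤ)
    (h1 : (cell m y : ℤ) + t * m ≤ rs m a + 1) (h2 : (rs m a : ℤ) ≤ cell m y + t * m + 1) :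
    At m y (a - 1) (a + 2) := by
  obtain ⟨s, hs⟩ := rs_eq hm a
  have a1 : (cell m y : ℝ) + t * m ≤ rs m a + 1 := by exact_mod_cast h1
  have a2 : (rs m a : ℝ) ≤ cell m y + t * m + 1 := by exact_mod_cast h2
  have a3 : (a : ℝ) = rs m a + s * m := by exact_mod_cast hs
  refine ((At.cell y).shift (t + s)).mono ?_ ?_
  · push_cast; linarith
  · push_cast; linarith

theorem size {M k N E Sp n : ℕ} (hM : 2 ≤ M) (h1 : n ≤ k * N + Sp)
    (h2 : M ^ 2 * (2 * E + 3 * Sp + 2 * k) ≤ n) : (M + 1) * (k + E + Sp) ≤ k * (N / M) := by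
  have hM0 : 0 < M := by omega
  have a1 : N ≤ M * (N / M) + M := by
    have := Nat.div_add_mod N M
    have := Nat.mod_lt N hM0
    omega
  have a2 : k * N ≤ k * (M * (N / M) + M) := Nat.mul_le_mul_left k a1
  refine Nat.le_of_mul_le_mul_left ?_ hM0
  have b1 : 2 * M ≤ M * M := Nat.mul_le_mul_right M hM
  have b2 : 2 * M * (k + E + Sp) ≤ M * M * (k + E + Sp) := Nat.mul_le_mul_right _ b1
  have b3 : 1 * Sp ≤ M * M * Sp := Nat.mul_le_mul_right _ (by nlinarith)
  nlinarith [Nat.zero_le (M * E), Nat.zero_le (M * Sp)]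

end GroupP

open GroupP in
theorem group (h1 : S_Match) (h2 : S_Norm) : S_Group := by
  intro P n _ c N0 X E En Lt Lb Cf T Sp hk hT hn
  obtain ⟨N, hN⟩ := hk
  have hm := P.m_pos
  have hM : 2 ≤ P.m ^ 2 := by have := P.m_ge; nlinarith
  have hs : (P.m ^ 2 + 1) * (P.k + E + Sp) ≤ P.k * (N / P.m ^ 2) :=
    size (n := n) hM (hN ▸ hT) (by rw [← pow_mul]; exact hn)
  set q := N / P.m ^ 2 with hq
  let α : Fin P.k → ℤ := fun y => P.len * (y.val : ℤ)
  let β : ℤ := P.w1 - P.S - 12
  let f := lp P.m c T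
  let g := lab P.m (N := N) Cf.sd α β
  have hf : ∀ x, f x < P.m ^ 2 := fun x => pair_lt (cell_lt hm _) (cell_lt hm _)
  have hg : ∀ s, g s < P.m ^ 2 := lab_lt hm _ _ _
  have cA : Fintype.card {x // x ∈ T} = P.k * N := by rw [Fintype.card_coe, hN]
  have hc : Fintype.card {x // x ∈ T} = Fintype.card (Fin N × Fin P.k) := by
    rw [cA]; simp [mul_comm]
  have hd : ∀ l < P.m ^ 2, ∀ l' < P.m ^ 2, fc f l ≤ fc f l' + (E + Sp) := by
    intro l hl l' hl'
    obtain ⟨a, b, ha, hb, rfl⟩ := pair_surj hl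
    obtain ⟨a', b', ha', hb', rfl⟩ := pair_surj hl'
    have p1 := (lp_cnt hm c T Sp hT a b hb).1
    have p2 := (lp_cnt hm c T Sp hT a' b' hb').2
    have p3 := Lt.cnt a b a' b' ha hb ha' hb'
    change fc (lp P.m c T) _ ≤ fc (lp P.m c T) _ + _
    omega
  have hdiv : P.m ^ 2 * q ≤ N ∧ N ≤ P.m ^ 2 * q + P.m ^ 2 := by
    have a1 := Nat.div_add_mod N (P.m ^ 2)
    have a2 := Nat.mod_lt N (show 0 < P.m ^ 2 by omega)
    rw [← hq] at a1
    generalize N % P.m ^ 2 = r at a1 a2
    omega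
  have hav := avg f (P.m ^ 2) (P.k * q) (P.k * q + P.k) (E + Sp) hf hd
    (by
      rw [cA]
      have : P.k * (P.m ^ 2 * q) ≤ P.k * N := Nat.mul_le_mul_left _ hdiv.1
      nlinarith)
    (by
      rw [cA]
      have : P.k * N ≤ P.k * (P.m ^ 2 * q + P.m ^ 2) := Nat.mul_le_mul_left _ hdiv.2
      nlinarith)
  have hgc := lab_cnt hm N P.k Cf.sd α β
  rw [← hq] at hgc
  have hs' : P.m ^ 2 * (P.k + E + Sp) + (P.k + E + Sp) ≤ P.k * q := by rw [← add_one_mul]; exact hs
  obtain ⟨e, he⟩ := h1 _ _ f g hc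
    (prefix_le f g (P.m ^ 2) (P.k * q) (P.k + E + Sp) hc hg
      (fun l hl => by have := (hav l hl).2; omega) (fun l hl => (hgc l hl).1) (by omega))
    (prefix_le g f (P.m ^ 2) (P.k * q - (E + Sp)) (P.k + E + Sp) hc.symm hf
      (fun l hl => by have := (hgc l hl).2; change fc g l ≤ _ at this; omega)
      (fun l hl => by have := (hav l hl).1; omega) (by omega))
  refine ⟨N, fun b i => (e (b, i)).1, fun b y => kap P.m b.val (!Cf.sd y) + P.w1 - 2,
    fun b y => kap P.m b.val (!Cf.sd y) - 3, ?_, fun b i => (e (b, i)).2, ?_, ?_⟩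
  · intro b i b' i' h
    have := e.injective (Subtype.ext h)
    simpa using this
  · intro x hx
    refine ⟨(e.symm ⟨x, hx⟩).1, (e.symm ⟨x, hx⟩).2, ?_⟩
    simp
  · intro b
    have near := fun y => pair_near (cell_lt hm _) (rs_lt hm _) (he (b, y)).1 (he (b, y)).2
    refine h2 P n c En Lb Cf Cf.sd (kap P.m b.val) (fun i => (e (b, i)).1)
      (fun y x h => congrArg _ (Bool.eq_not_iff.2 (Cf.bip y x h).symm)) (fun y => ?_) (fun y => ?_)
    · obtain ⟨⟨p1, p2⟩, -⟩ := near y
      have := at_near hm (e (b, y)).1 (kap P.m b.val (Cf.sd y) + α y) 0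
        (by rw [zero_mul, add_zero]; exact_mod_cast p1)
        (by rw [zero_mul, add_zero]; exact_mod_cast p2)
      refine this.mono ?_ ?_ <;> simp [α]
    · obtain ⟨-, t, p1, p2⟩ := near y
      have := at_near hm (c * (e (b, y)).1) (kap P.m b.val (!Cf.sd y) + β) t p1 p2
      refine this.mono ?_ ?_ <;> simp only [β] <;> push_cast <;> linarith

end

end Pool.Agent.P.MP_009630_co.Dn
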