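import Pool.Agent.P.MP_009630_co.Dn.St

/-! The lattice facts follow from a small covering radius. -/

set_option autoImplicit false

namespace Pool.Agent.P.MP_009630_co.Dn

open Finset

namespace LatP

/-- the floor at mesh `1 / M` -/
theorem fl {M : ℕ} (hM : 0 < M) (x : ℝ) :
    (⌊x * M⌋ : ℝ) * (1 / M) ≤ x ∧ x ≤ (⌊x * M⌋ : ℝ) * (1 / M) + 1 / M := by
  have hM' : (0 : ℝ) < M := by exact_mod_cast hM
  have h1 := Int.floor_le (x * M)
  have h2 := (Int.lt_floor_add_one (x * M)).le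
  constructor
  · rw [mul_one_div, div_le_iff₀ hM']; exact h1
  · rw [mul_one_div, ← add_div, le_div_iff₀ hM']; exact h2

theorem fl_mem {M : ℕ} {x : ℝ} {a b : ℤ} (h1 : (a : ℝ) ≤ x) (h2 : x ≤ b) :
    ⌊x * M⌋ ∈ Icc (a * M) (b * M) := by
  have hM' : (0 : ℝ) ≤ M := Nat.cast_nonneg M
  rw [mem_Icc]
  constructor
  · rw [Int.le_floor]; push_cast; exact mul_le_mul_of_nonneg_right h1 hM'
  · have : (⌊x * M⌋ : ℝ) ≤ ((b * M : ℤ) : ℝ) := by
      push_cast
      exact (Int.floor_le _).trans (mul_le_mul_of_nonneg_right h2 hM')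
    exact_mod_cast this

theorem node {M : ℕ} (hM : 0 < M) {a b i : ℤ} (h : i ∈ Icc (a * M) (b * M)) :
    (a : ℝ) ≤ i * (1 / M) ∧ (i : ℝ) * (1 / M) ≤ b := by
  have hM' : (0 : ℝ) < M := by exact_mod_cast hM
  obtain ⟨h1, h2⟩ := mem_Icc.1 h
  have h1' : (a : ℝ) * M ≤ i := by exact_mod_cast h1
  have h2' : (i : ℝ) ≤ b * M := by exact_mod_cast h2
  constructor
  · rw [mul_one_div, le_div_iff₀ hM']; exact h1'
  · rw [mul_one_div, div_le_iff₀ hM']; exact h2'

variable {m n : ℕ}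

theorem cell_of_at [NeZero n] {y : ZMod n} {l h : ℝ} {a : ℕ} (hy : At m y l h) (h1 : a ≤ l)
    (h2 : h < a + 1) (ha : a < m) : cell m y = a := by
  obtain ⟨Y, e, y1, y2⟩ := hy
  obtain ⟨c1, c2⟩ := cell_eq_floor (m := m) y
  have c3 : (cell m y : ℝ) + 1 ≤ m := by exact_mod_cast cell_lt (by omega) y
  have c4 : (a : ℝ) + 1 ≤ m := by exact_mod_cast ha
  have c5 : (0 : ℝ) ≤ cell m y := Nat.cast_nonneg _
  have c6 : (0 : ℝ) ≤ a := Nat.cast_nonneg _
  have e' : ((y.val : ℤ) : ZMod n) = y := by simp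
  have := lift_unique (m := m) (e.trans e'.symm) (by linarith) (by linarith)
  subst this
  have d1 : (cell m y : ℝ) < a + 1 := by linarith
  have d2 : (a : ℝ) < cell m y + 1 := by linarith
  have d3 : cell m y < a + 1 := by exact_mod_cast d1
  have d4 : a < cell m y + 1 := by exact_mod_cast d2
  omega

theorem split {y : ZMod n} {l : ℝ} (h : At m y l (l + 1)) (r : ℝ) :
    At m y (l + r) (l + 1 - r) ∨ At m y l (l + r) ∨ At m y (l + 1 - r) (l + 1 - r + r) := by
  obtain ⟨Y, e, y1, y2⟩ := h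
  rcases le_total (ps m n Y) (l + r) with h1 | h1
  · exact Or.inr (Or.inl ⟨Y, e, y1, h1⟩)
  · rcases le_total (ps m n Y) (l + 1 - r) with h2 | h2
    · exact Or.inl ⟨Y, e, h1, h2⟩
    · exact Or.inr (Or.inr ⟨Y, e, h2, by linarith⟩)

/-- The translation argument. -/
theorem cnt_le [NeZero n] {c g : ZMod n} {a b a' b' : ℕ} {R : ℝ} (hR : 0 < R) (ha : a' < m)
    (hb : b' < m) (g1 : At m g ((a' : ℝ) - a - R) ((a' : ℝ) - a + R))
    (g2 : At m (c * g) ((b' : ℝ) - b - R) ((b' : ℝ) - b + R)) :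
    cnt m c a b ≤ cnt m c a' b' + ((bx m c a (2 * R) b 1).card +
      (bx m c (a + 1 - 2 * R) (2 * R) b 1).card + (bx m c a 1 b (2 * R)).card +
      (bx m c a 1 (b + 1 - 2 * R) (2 * R)).card) := by
  classical
  set G : Finset (ZMod n) := univ.filter fun x => At m x (a + 2 * R) (a + 1 - 2 * R) ∧
    At m (c * x) (b + 2 * R) (b + 1 - 2 * R) with hG
  have h1 : G.card ≤ cnt m c a' b' := by
    refine card_le_card_of_injOn (fun x => x + g) (fun x hx => ?_)
      fun x _ y _ h => add_right_cancel h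
    obtain ⟨x1, x2⟩ := (mem_filter.1 (mem_coe.1 hx)).2
    refine mem_coe.2 (mem_filter.2 ⟨mem_univ _, cell_of_at (x1.add g1) (by linarith)
      (by linarith) ha, ?_⟩)
    rw [mul_add]
    exact cell_of_at (x2.add g2) (by linarith) (by linarith) hb
  have h2 : (univ.filter fun g : ZMod n => cell m g = a ∧ cell m (c * g) = b) ⊆
      G ∪ (bx m c a (2 * R) b 1 ∪ bx m c (a + 1 - 2 * R) (2 * R) b 1 ∪ bx m c a 1 b (2 * R) ∪
        bx m c a 1 (b + 1 - 2 * R) (2 * R)) := fun x hx => by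
    obtain ⟨x1, x2⟩ := (mem_filter.1 hx).2
    have y1 := At.cell (m := m) x
    have y2 := At.cell (m := m) (c * x)
    rw [x1] at y1
    rw [x2] at y2
    simp only [mem_union, mem_bx, hG, mem_filter, mem_univ, true_and]
    have := split y1 (2 * R)
    have := split y2 (2 * R)
    tauto
  refine (card_le_card h2).trans ((card_union_le _ _).trans (add_le_add h1 ?_))
  refine (card_union_le _ _).trans (add_le_add ?_ le_rfl)
  exact (card_union_le _ _).trans (add_le_add (card_union_le _ _) le_rfl)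

/-- Disjoint translates of a strip. -/
theorem strip [NeZero n] {a : ZMod n} {A : Finset (ZMod n)} {σ α R : ℝ} {J : ℕ} (hR : 0 < R)
    (hα : 0 ≤ α) (hJ : J * (α + 3 * R) ≤ m) (hA : ∀ x ∈ A, At m (a * x) σ (σ + α))
    (h : ∀ s : ℝ, ∃ g, At m (a * g) (s - R) (s + R)) : A.card * J ≤ n := by
  choose g hg using h
  have key : ∀ {x x' : ZMod n} {j j' : ℕ}, x ∈ A → x' ∈ A → j < j' → j' < J →
      x + g (j * (α + 3 * R)) = x' + g (j' * (α + 3 * R)) → False := by
    intro x x' j j' hx hx' h1 h2 e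
    have h3 : (j : ℝ) + 1 ≤ j' := by exact_mod_cast h1
    have h4 : (j' : ℝ) + 1 ≤ J := by exact_mod_cast h2
    have h5 : (0 : ℝ) ≤ j := Nat.cast_nonneg j
    have k1 := (hA x hx).add (hg (j * (α + 3 * R)))
    have k2 := (hA x' hx').add (hg (j' * (α + 3 * R)))
    rw [← mul_add] at k1 k2
    rw [e] at k1
    exact k1.disj k2 (by nlinarith) (by nlinarith)
  have := card_le_card_of_injOn (s := A ×ˢ range J) (t := univ)
    (fun p : ZMod n × ℕ => p.1 + g (p.2 * (α + 3 * R))) (fun _ _ => mem_coe.2 (mem_univ _))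
    (fun p hp p' hp' e => by
      obtain ⟨a, b⟩ := mem_product.1 (mem_coe.1 hp)
      obtain ⟨a', b'⟩ := mem_product.1 (mem_coe.1 hp')
      have e' : p.1 + g (p.2 * (α + 3 * R)) = p'.1 + g (p'.2 * (α + 3 * R)) := e
      rcases lt_trichotomy p.2 p'.2 with h | h | h
      · exact (key a a' h (mem_range.1 b') e').elim
      · rw [h] at e'
        exact Prod.ext (add_right_cancel e') h
      · exact (key a' a h (mem_range.1 b) e'.symm).elim)
  simpa [ZMod.card] using this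

theorem strip1 [NeZero n] {c : ZMod n} {σ α τ β R : ℝ} {J : ℕ} (hR : 0 < R) (hα : 0 ≤ α)
    (hJ : J * (α + 3 * R) ≤ m) (h : Cv m c R) : (bx m c σ α τ β).card * J ≤ n :=
  strip (a := 1) (σ := σ) hR hα hJ (fun x hx => by rw [one_mul]; exact (mem_bx.1 hx).1) fun s => by
    obtain ⟨g, h1, -⟩ := h s 0
    exact ⟨g, by rwa [one_mul]⟩

theorem strip2 [NeZero n] {c : ZMod n} {σ α τ β R : ℝ} {J : ℕ} (hR : 0 < R) (hβ : 0 ≤ β)
    (hJ : J * (β + 3 * R) ≤ m) (h : Cv m c R) : (bx m c σ α τ β).card * J ≤ n :=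
  strip (a := c) (σ := τ) hR hβ hJ (fun x hx => (mem_bx.1 hx).2) fun s => by
    obtain ⟨g, -, h1⟩ := h 0 s
    exact ⟨g, h1⟩

theorem fine [NeZero n] (y : ZMod n) :
    At m y (cell (40 * m) y / 40) (cell (40 * m) y / 40 + 1 / 40) := by
  obtain ⟨Y, e, h1, h2⟩ := At.cell (m := 40 * m) y
  have : ps (40 * m) n Y = 40 * ps m n Y := by unfold ps; push_cast; ring
  exact ⟨Y, e, by linarith, by linarith⟩

theorem lower [NeZero n] (hm : 0 < m) {c : ZMod n} {R : ℝ} (hR : R ≤ 1 / 80) (h : Cv m c R)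
    (σ τ : ℝ) : n ≤ (40 * m) ^ 2 * (bx m c σ (1 / 20) τ (1 / 20)).card := by
  classical
  choose g h1 h2 using h
  let f : ZMod n → (ℕ × ℕ) × ZMod n := fun x => ((cell (40 * m) x, cell (40 * m) (c * x)),
    x + g (σ + 1 / 80 - cell (40 * m) x / 40) (τ + 1 / 80 - cell (40 * m) (c * x) / 40))
  have := card_le_card_of_injOn (s := univ)
    (t := (range (40 * m) ×ˢ range (40 * m)) ×ˢ bx m c σ (1 / 20) τ (1 / 20)) f (fun x _ => by
      refine mem_coe.2 (mem_product.2 ⟨mem_product.2 ⟨mem_range.2 (cell_lt (by omega) _),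
        mem_range.2 (cell_lt (by omega) _)⟩, mem_bx.2 ⟨?_, ?_⟩⟩)
      · exact ((fine x).add (h1 _ _)).mono (by linarith) (by linarith)
      · simp only [f, mul_add]
        exact ((fine (c * x)).add (h2 _ _)).mono (by linarith) (by linarith))
    (fun x _ y _ e => by
      have e1 : cell (40 * m) x = cell (40 * m) y := congrArg (fun p => p.1.1) e
      have e2 : cell (40 * m) (c * x) = cell (40 * m) (c * y) := congrArg (fun p => p.1.2) e
      have e3 := congrArg Prod.snd e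
      simp only [f, e1, e2] at e3
      exact add_right_cancel e3)
  simpa [ZMod.card, sq] using this

end LatP

open LatP

theorem lat : S_Lat := by
  classical
  intro P n _ c K Z hK hkK hcv hZ1 hZ2 hn
  have hK0 : 0 < K := by omega
  have hK' : (20 : ℝ) ≤ K := by exact_mod_cast hK
  have hm' : (100 : ℝ) ≤ P.m := by exact_mod_cast P.m_ge
  set M : ℕ := 4 * K with hM
  have hMK : (4 * K : ℝ) = M := by rw [hM]; push_cast; rfl
  rw [hMK] at hcv
  have hM0 : 0 < M := by omega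
  have hθ : (1 : ℝ) / M ≤ 1 / 80 := one_div_le_one_div_of_le (by norm_num) (by linarith)
  have hθ0 : (0 : ℝ) < 1 / M := by
    have : (0 : ℝ) < M := by exact_mod_cast hM0
    positivity
  have hθK : (K : ℝ) * (1 / M) = 1 / 4 := by rw [← hMK]; field_simp
  refine ⟨fun σ τ => ?_, fun σ τ => Nat.div_le_of_le_mul (lower P.m_pos hθ hcv σ τ), ?_,
    fun a b a' b' _ _ ha hb => ?_⟩
  · have h1 : (1 : ℝ) / M ≤ P.eta := by
      have h2 : (P.k : ℝ) * (P.D + 1) ≤ K := by exact_mod_cast hkK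
      have h3 : (1 : ℝ) ≤ P.k := by exact_mod_cast P.hk
      exact one_div_le_one_div_of_le (by positivity) (by linarith)
    obtain ⟨g, a, b⟩ := hcv σ τ
    exact ⟨g, a.mono (by linarith) (by linarith), b.mono (by linarith) (by linarith)⟩
  swap
  · obtain ⟨g, g1, g2⟩ := hcv ((a' : ℝ) - a) ((b' : ℝ) - b)
    refine (cnt_le hθ0 ha hb g1 g2).trans (add_le_add le_rfl ((Nat.le_div_iff_mul_le hK0).2 ?_))
    have hJ : ((4 * K : ℕ) : ℝ) * (2 * (1 / M) + 3 * (1 / M)) ≤ P.m := by push_cast; nlinarith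
    have p1 := strip1 (σ := a) (τ := b) (β := 1) hθ0 (by positivity) hJ hcv
    have p2 := strip1 (σ := a + 1 - 2 * (1 / M)) (τ := b) (β := 1) hθ0 (by positivity) hJ hcv
    have p3 := strip2 (σ := a) (τ := b) (α := 1) hθ0 (by positivity) hJ hcv
    have p4 := strip2 (σ := a) (τ := b + 1 - 2 * (1 / M)) (α := 1) hθ0 (by positivity) hJ hcv
    nlinarith
  set G : Finset (ℤ × ℤ) :=
    Icc (2 * (M : ℤ)) ((2 * P.q + 12) * M) ×ˢ Icc ((-P.S - P.S1) * M) ((-2) * M) with hG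
  have hGc : G.card ≤ (Z * M) ^ 2 := by
    have hM1 : (1 : ℤ) ≤ M := by exact_mod_cast hM0
    rw [hG, card_product, sq, Int.card_Icc, Int.card_Icc]
    refine Nat.mul_le_mul (Int.toNat_le.2 ?_) (Int.toNat_le.2 ?_) <;> push_cast <;> nlinarith
  have hGK : G.card * K ≤ (Z * M) ^ 2 * K := Nat.mul_le_mul_right _ hGc
  choose g hg1 hg2 using id hcv
  let nd : ℤ × ℤ → ZMod n := fun p => g (p.1 * (1 / M)) (p.2 * (1 / M))
  have a1 : ∀ p : ℤ × ℤ, At P.m (nd p) (p.1 * (1 / M) - 1 / M) (p.1 * (1 / M) + 1 / M) :=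
    fun p => (hg1 _ _).mono (by linarith) (by linarith)
  have a2 : ∀ p : ℤ × ℤ, At P.m (c * nd p) (p.2 * (1 / M) - 1 / M) (p.2 * (1 / M) + 1 / M) :=
    fun p => (hg2 _ _).mono (by linarith) (by linarith)
  obtain ⟨-, -, -, f1, f2, -, -, -, -, f3, -⟩ := P.factsR
  refine ⟨G.image nd, bx P.m c (-P.s2 - 2 * (1 / M)) (4 * (1 / M)) (-2 - 2 * (1 / M))
    (4 * (1 / M)), ?_, ?_, ?_, ?_, ?_⟩
  · refine card_image_le.trans ?_
    rw [Nat.le_div_iff_mul_le hK0]; omega
  · rw [Nat.le_div_iff_mul_le hK0]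
    exact strip1 hθ0 (by positivity) (by nlinarith) hcv
  · intro ζ hζ
    obtain ⟨p, hp, rfl⟩ := mem_image.1 hζ
    obtain ⟨p1, p2⟩ := mem_product.1 hp
    obtain ⟨n1, n2⟩ := node hM0 p1
    obtain ⟨n3, n4⟩ := node hM0 p2
    push_cast at n1 n2 n3 n4
    exact ⟨(a1 p).mono (by linarith) (by linarith), (a2 p).mono (by linarith) (by linarith)⟩
  · intro ζ hζ
    obtain ⟨b1, b2⟩ := mem_bx.1 hζ
    exact ⟨b1.mono (by linarith) (by linarith), b2.mono (by linarith) (by linarith)⟩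
  · rintro ξ ⟨Y, hY, y1, y2⟩ ⟨Z, hZ, z1, z2⟩
    let p : ℤ × ℤ := (⌊(ps P.m n Y + P.s2) * M⌋, ⌊(ps P.m n Z + 2) * M⌋)
    have hp : p ∈ G := mem_product.2
      ⟨fl_mem (by push_cast; linarith) (by push_cast; linarith),
        fl_mem (by push_cast; linarith) (by push_cast; linarith)⟩
    obtain ⟨u1, u2⟩ := fl hM0 (ps P.m n Y + P.s2)
    obtain ⟨v1, v2⟩ := fl hM0 (ps P.m n Z + 2)
    refine ⟨nd p, mem_image_of_mem _ hp, ξ - nd p, mem_bx.2 ⟨?_, ?_⟩, by ring⟩
    · have := (At.intCast (m := P.m) (n := n) Y).sub (a1 p)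
      rw [hY] at this
      exact this.mono (by simp only [p]; linarith) (by simp only [p]; linarith)
    · have := (At.intCast (m := P.m) (n := n) Z).sub (a2 p)
      rw [hZ, ← mul_sub] at this
      exact this.mono (by simp only [p]; linarith) (by simp only [p]; linarith)

end Pool.Agent.P.MP_009630_co.Dn
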