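import Pool.Agent.P.MP_009630_co.Dn.St

/-! The library exists. -/

set_option autoImplicit false

namespace Pool.Agent.P.MP_009630_co.Dn

open Finset

noncomputable section

namespace LibP

variable {n : ℕ} {P : Par} {c : ZMod n}

/-- offset inside a cell -/
def xx (m : ℕ) (y : ZMod n) : ℝ :=
  if Int.fract (ps m n (y.val : ℤ)) ≤ 1 / 2 then 1 / 5 else 3 / 4

theorem xx_mem (m : ℕ) (y : ZMod n) : 1 / 5 ≤ xx m y ∧ xx m y ≤ 3 / 4 := by
  unfold xx
  split_ifs <;> norm_num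

theorem mid_add [NeZero n] {m : ℕ} {v y : ZMod n} {A : ℤ}
    (h : At m v (A + xx m y) (A + xx m y + 1 / 20)) :
    ∃ a : ℤ, At m (v + y) (a + 1 / 5) (a + 4 / 5) := by
  have h1 : At m y (ps m n (y.val : ℤ)) (ps m n (y.val : ℤ)) := by
    simpa using At.intCast (m := m) (n := n) (y.val : ℤ)
  have h2 := h.add h1
  have h3 := Int.floor_add_fract (ps m n (y.val : ℤ))
  have h4 := Int.fract_nonneg (ps m n (y.val : ℤ))
  have h5 := Int.fract_lt_one (ps m n (y.val : ℤ))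
  unfold xx at h2
  split_ifs at h2 with h6
  · refine ⟨A + ⌊ps m n (y.val : ℤ)⌋, h2.mono ?_ ?_⟩ <;> push_cast <;> linarith
  · refine ⟨A + ⌊ps m n (y.val : ℤ)⌋ + 1, h2.mono ?_ ?_⟩ <;> push_cast <;> linarith

theorem red [NeZero n] {m : ℕ} [NeZero m] {y : ZMod n} (a : ℤ) {l h : ℝ}
    (H : At m y (((a : ZMod m).val : ℝ) + l) (((a : ZMod m).val : ℝ) + h)) :
    At m y (a + l) (a + h) := by
  have h1 : (((a : ZMod m).val : ℤ) : ℝ) + (a / m : ℤ) * m = a := by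
    rw [ZMod.val_intCast]
    exact_mod_cast Int.emod_add_ediv_mul a m
  push_cast at h1
  refine (H.shift (a / m)).mono ?_ ?_ <;> linarith

/-- the index set of the occupied points -/
def T (L : ℕ) : Finset (Bool × Bool × ℤ) := univ ×ˢ univ ×ˢ Icc (-(L : ℤ)) L

theorem card_T (L : ℕ) : (T L).card = 4 * (2 * L + 1) := by
  simp only [T, card_product, card_univ, Fintype.card_bool, Int.card_Icc]
  omega

theorem mem_T {L : ℕ} (s e : Bool) {j : ℤ} (h : |j| ≤ L) : (s, e, j) ∈ T L := by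
  simpa [T, abs_le] using h

/-- the two points of a gadget -/
def pu (b o : ZMod n) (e : Bool) : ZMod n := b + if e then o else 0

/-- the occupied points -/
def oc (c b o : ZMod n) (w : Bool × Bool × ℤ) : ZMod n :=
  if w.1 then c * pu b o w.2.1 + w.2.2 else pu b o w.2.1

theorem num {Q U D L k N : ℕ} (hQ : Q = (2 * L + 2) * (k + 1)) (hk : 1 ≤ k) {I : ℕ} (hI : I ≤ U)
    (hN : (U + 1) * Q ^ 6 * (D + 2) ≤ N) :
    4 * (2 * L + 1) * D * (4 * (2 * L + 1) * I + 1) + 4 * (2 * L + 1) * (D + 1) < N := by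
  have h1 : 4 * (2 * L + 1) ≤ 2 * Q := by nlinarith
  have h2 : 4 ≤ Q := by nlinarith
  have h3 : 4 * (2 * L + 1) * D * (4 * (2 * L + 1) * I + 1) ≤ 2 * Q * D * (2 * Q * U + 1) := by
    gcongr
  have h4 : 4 * (2 * L + 1) * (D + 1) ≤ 2 * Q * (D + 1) := by gcongr
  have h5 : 5 * Q ^ 2 ≤ Q ^ 6 := by
    have : 4 ^ 4 ≤ Q ^ 4 := by gcongr
    nlinarith
  have h6 : (U + 1) * (5 * Q ^ 2) * (D + 2) ≤ (U + 1) * Q ^ 6 * (D + 2) := by gcongr
  have h7 : Q ≤ Q ^ 2 := by nlinarith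
  nlinarith [Nat.zero_le (Q ^ 2 * U), Nat.zero_le (Q ^ 2 * D), Nat.zero_le (Q ^ 2 * U * D),
    Nat.mul_le_mul_right D h7]

/-- base points of a family of gadgets -/
theorem base (h1 : S_Greedy) (h2 : S_Fib) [NeZero n] (E : Env P c) {N0 U : ℕ}
    (hb : ∀ σ τ : ℝ, N0 ≤ (bx P.m c σ (1 / 20) τ (1 / 20)).card)
    (hN : (U + 1) * P.Q ^ 6 * (P.D + 2) ≤ N0) {I : Type} [Fintype I] (hI : Fintype.card I ≤ U)
    (σ τ : I → ℝ) (o : I → ZMod n) : ∃ b : I → ZMod n,
      (∀ i, b i ∈ bx P.m c (σ i) (1 / 20) (τ i) (1 / 20)) ∧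
      (∀ i, ∀ w ∈ T P.L, oc c (b i) (o i) w ≠ 0) ∧
      (∀ i e e' (j : ℤ), |j| ≤ P.L → c * pu (b i) (o i) e' + j ≠ pu (b i) (o i) e) ∧
      ∀ i i', i ≠ i' → ∀ w ∈ T P.L, ∀ w' ∈ T P.L, oc c (b i) (o i) w ≠ oc c (b i') (o i') w' := by
  classical
  let Bad : I → Finset (ZMod n) := fun i => (T P.L).biUnion fun w => univ.filter fun b =>
    (c - 1) * b = pu 0 (o i) w.1 - c * pu 0 (o i) w.2.1 - w.2.2
  have hBad : ∀ i, (Bad i).card ≤ 4 * (2 * P.L + 1) * (P.D + 1) := fun i => by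
    rw [← card_T]
    refine card_biUnion_le_card_mul _ _ _ fun w _ => (h2 n (c - 1) (c + 1) _ (P.d - 1)
      (sub_ne_zero.2 P.hd1) (by push_cast; linear_combination E.hc)).trans ?_
    have := P.hD
    omega
  obtain ⟨b, a1, a2⟩ := h1 I (ZMod n)
    (fun i => bx P.m c (σ i) (1 / 20) (τ i) (1 / 20) \ Bad i)
    (fun i b => (T P.L).image (oc c b (o i))) {0} (4 * (2 * P.L + 1)) (4 * (2 * P.L + 1) * P.D)
    (fun i b => card_image_le.trans (card_T _).le) (fun i p => by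
      have : ∀ w : Bool × Bool × ℤ, (univ.filter fun b => oc c b (o i) w = p).card ≤ P.D := by
        intro w
        rw [← P.hD]
        cases hw : w.1
        · refine le_trans (card_le_card fun b hb => ?_)
            (h2 n 1 P.d (p - pu 0 (o i) w.2.1) P.d P.hd0 (mul_one _))
          simp only [mem_filter, mem_univ, true_and, oc, hw, pu] at hb ⊢
          simp only [Bool.false_eq_true, if_false] at hb
          linear_combination hb
        · refine le_trans (card_le_card fun b hb => ?_)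
            (h2 n c c (p - c * pu 0 (o i) w.2.1 - w.2.2) P.d P.hd0 E.hc)
          simp only [mem_filter, mem_univ, true_and, oc, hw, pu, if_true] at hb ⊢
          linear_combination hb
      rw [← card_T]
      refine le_trans (card_le_card fun b hb => ?_)
        (card_biUnion_le_card_mul (T P.L) _ _ fun w _ => this w)
      simp only [mem_filter, mem_image, mem_biUnion, mem_univ, true_and] at hb ⊢
      exact hb.2) (fun i => by
      have h3 := le_card_sdiff (Bad i) (bx P.m c (σ i) (1 / 20) (τ i) (1 / 20))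
      have h4 := num (D := P.D) (L := P.L) rfl P.hk hI hN
      have h5 := hb (σ i) (τ i)
      have h6 := hBad i
      rw [card_singleton]
      omega)
  refine ⟨b, fun i => (mem_sdiff.1 (a1 i).1).1, fun i w hw h => ?_, fun i e e' j hj h => ?_,
    fun i i' hi w hw w' hw' h => ?_⟩
  · exact disjoint_singleton_right.1 (a1 i).2 (mem_image.2 ⟨w, hw, h⟩)
  · refine (mem_sdiff.1 (a1 i).1).2 (mem_biUnion.2 ⟨(e, e', j), mem_T _ _ hj, ?_⟩)
    simp only [mem_filter, mem_univ, true_and, pu] at h ⊢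
    linear_combination h
  · exact disjoint_left.1 (a2 i i' hi) (mem_image_of_mem _ hw) (mem_image.2 ⟨w', hw', h.symm⟩)

/-- the set of points of a family of gadgets -/
theorem gad (h1 : S_Greedy) (h2 : S_Fib) [NeZero n] (E : Env P c) {N0 U0 : ℕ}
    (hb : ∀ σ τ : ℝ, N0 ≤ (bx P.m c σ (1 / 20) τ (1 / 20)).card)
    (hN : (U0 + 1) * P.Q ^ 6 * (P.D + 2) ≤ N0) {I : Type} [Fintype I] (hI : Fintype.card I ≤ U0)
    (σ : I → ℝ) (A : I → ℤ) (o : I → ZMod n)
    (ho : ∀ i, o i = 0 ∨ ∀ j : ℤ, |j| ≤ 2 * (P.L + 1) → c * o i ≠ j) :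
    ∃ (U : Finset (ZMod n)) (b : I → ZMod n), (∀ i, b i ∈ U ∧ b i + o i ∈ U ∧
      At P.m (b i) (σ i) (σ i + 1 / 20) ∧ At P.m (c * b i) (A i + 1 / 5) (A i + 4 / 5)) ∧
      (∀ u ∈ U, ∃ a : ℤ, At P.m (c * u) (a + 1 / 5) (a + 4 / 5)) ∧ 0 ∉ U ∧
      (∀ u ∈ U, ∀ u' ∈ U, ∀ i j : ℤ, |i| ≤ P.L → |j| ≤ P.L →
        c * u + i = c * u' + j → u = u' ∧ i = j) ∧
      (∀ u ∈ U, ∀ j : ℤ, |j| ≤ P.L → c * u + j ∉ U ∧ c * u + j ≠ 0) ∧
      U.card = ∑ i, if o i = 0 then 1 else 2 := by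
  obtain ⟨b, a1, a2, a3, a4⟩ := base h1 h2 E hb hN hI σ (fun i => A i + xx P.m (c * o i)) o
  have z : |(0 : ℤ)| ≤ P.L := by simp
  have mem : ∀ u, u ∈ (univ.biUnion fun i => ({b i, b i + o i} : Finset (ZMod n))) ↔
      ∃ i e, u = pu (b i) (o i) e := fun u => by simp [pu]
  have at2 : ∀ i, At P.m (c * b i) (A i + 1 / 5) (A i + 4 / 5) := fun i =>
    (mem_bx.1 (a1 i)).2.mono (by linarith [(xx_mem P.m (c * o i)).1])
      (by linarith [(xx_mem P.m (c * o i)).2])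
  refine ⟨univ.biUnion fun i => {b i, b i + o i}, b, fun i => ⟨(mem _).2 ⟨i, false, by simp [pu]⟩,
    (mem _).2 ⟨i, true, rfl⟩, (mem_bx.1 (a1 i)).1, at2 i⟩, fun u hu => ?_, fun hu => ?_,
    fun u hu u' hu' j j' hj hj' h => ?_, fun u hu j hj => ⟨fun h => ?_, ?_⟩, ?_⟩
  · obtain ⟨i, e, rfl⟩ := (mem u).1 hu
    cases e
    · exact ⟨A i, by simpa [pu] using at2 i⟩
    · simpa [pu, mul_add] using mid_add (mem_bx.1 (a1 i)).2
  · obtain ⟨i, e, h⟩ := (mem 0).1 hu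
    exact a2 i (false, e, 0) (mem_T _ _ z) h.symm
  · obtain ⟨i, e, rfl⟩ := (mem u).1 hu
    obtain ⟨i', e', rfl⟩ := (mem u').1 hu'
    obtain rfl : i = i' := by_contra fun hi =>
      a4 i i' hi (true, e, j) (mem_T _ _ hj) (true, e', j') (mem_T _ _ hj') h
    have b1 := abs_le.1 hj
    have b2 := abs_le.1 hj'
    have h3 : pu (b i) (o i) e = pu (b i) (o i) e' := by
      rcases ho i with h0 | h0
      · simp [pu, h0]
      · cases e <;> cases e'
        · rfl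
        · refine (h0 (j - j') (abs_le.2 ⟨by omega, by omega⟩) ?_).elim
          simp only [pu, Bool.false_eq_true, if_false, if_true] at h
          push_cast
          linear_combination -h
        · refine (h0 (j' - j) (abs_le.2 ⟨by omega, by omega⟩) ?_).elim
          simp only [pu, Bool.false_eq_true, if_false, if_true] at h
          push_cast
          linear_combination h
        · rfl
    rw [h3] at h
    exact ⟨h3, E.inj (abs_le.2 ⟨by omega, by omega⟩) (abs_le.2 ⟨by omega, by omega⟩)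
      (add_left_cancel h)⟩
  · obtain ⟨i, e, rfl⟩ := (mem u).1 hu
    obtain ⟨i', e', h3⟩ := (mem _).1 h
    obtain rfl : i = i' := by_contra fun hi =>
      a4 i i' hi (true, e, j) (mem_T _ _ hj) (false, e', 0) (mem_T _ _ z) h3
    exact a3 i e' e j hj h3
  · obtain ⟨i, e, rfl⟩ := (mem u).1 hu
    exact a2 i (true, e, j) (mem_T _ _ hj)
  · rw [card_biUnion fun i _ i' _ hi => disjoint_left.2 fun u hu hu' => ?_]
    · refine sum_congr rfl fun i _ => ?_
      split_ifs with h0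
      · simp [h0]
      · exact card_pair (by simpa using h0)
    · obtain ⟨e, rfl⟩ : ∃ e, u = pu (b i) (o i) e := by simpa [pu] using hu
      obtain ⟨e', h3⟩ : ∃ e', pu (b i) (o i) e = pu (b i') (o i') e' := by
        generalize pu (b i) (o i) e = v at hu'
        simpa [pu] using hu'
      exact a4 i i' hi (false, e, 0) (mem_T _ _ z) (false, e', 0) (mem_T _ _ z) h3

theorem far [NeZero n] (E : Env P c) {y : ZMod n} (h : At P.m y (-P.lt) (-1)) (j : ℤ)
    (hj : |j| ≤ 2 * (P.L + 1)) : y ≠ j := by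
  obtain ⟨a1, a2, a3, a4, a5, a6, a7, a8, a9, a10, a11, a12, a13, a14, a15, a16, a17⟩ := P.factsR
  refine h.ne (E.small (B := 2) (by exact_mod_cast hj)) ?_ ?_ <;> push_cast <;> linarith

/-- the features of the four adjusting points -/
theorem adj [NeZero n] {p l : ℤ} {b1 b2 ζ1 ζ2 : ZMod n}
    (h1 : At P.m b1 (p + 2 * P.q) (p + (2 * P.q + 1 / 20)))
    (h2 : At P.m (c * b1) (l + (P.lt + 1 + 1 / 5)) (l + (P.lt + 1 + 4 / 5)))
    (h3 : At P.m b2 (p + (2 * P.q + P.ls + P.s2 + 4)) (p + (2 * P.q + P.ls + P.s2 + 4 + 1 / 20)))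
    (h4 : At P.m (c * b2) (l + (P.lt + 6 + 1 / 5)) (l + (P.lt + 6 + 4 / 5)))
    (z1 : At P.m ζ1 1 P.ls ∧ At P.m (c * ζ1) (-P.lt) (-1))
    (z2 : At P.m ζ2 (-P.s2 - 1) (-P.s2 + 1) ∧ At P.m (c * ζ2) (-3) (-1)) :
    Feat P.m (pt b1 - pt (b1 + ζ1)) (p + 2 * P.q) (p + 2 * P.q + P.ls + 1) ∧
      Feat P.m (pt (b2 + ζ2) - pt b2) (p + 2 * P.q + P.ls + 3) (p + 2 * P.q + P.ls + P.s2 + 5) ∧
      Feat P.m (pt (c * (b1 + ζ1)) - pt (c * b1) + (pt (c * (b2 + ζ2)) - pt (c * b2))) l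
        (l + P.ladj) := by
  obtain ⟨a1, a2, a3, a4, a5, a6, a7, a8, a9, a10, a11, a12, a13, a14, a15, a16, a17⟩ := P.factsR
  refine ⟨(Feat.dip P.m_pos h1 (h1.add z1.1) (by linarith) (by linarith)).mono le_rfl
    (by linarith), (Feat.dip P.m_pos (h3.add z2.1) h3 (by linarith) (by linarith)).mono
    (by linarith) (by linarith), ?_⟩
  rw [mul_add, mul_add]
  exact (Feat.dip P.m_pos (h2.add z1.2) h2 (by linarith) (by linarith)).add
    (Feat.dip P.m_pos (h4.add z2.2) h4 (by linarith) (by linarith)) (Or.inl (by linarith))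
    (by linarith) (by linarith) (by linarith) (by linarith) (by linarith)

end LibP

open LibP

theorem lib (h1 : S_Greedy) (h2 : S_Fib) : S_Lib := by
  intro P n _ c N0 X Er E La n' hN
  have : NeZero P.m := ⟨P.m_pos.ne'⟩
  obtain ⟨X1, X2, c1, c2, x1, x2, rep⟩ := La.rep
  let I0 := (Bool × ZMod P.m × ZMod P.m) ⊕ (ZMod P.m × ZMod P.m × X1) ⊕ (ZMod P.m × ZMod P.m × X2)
  let o0 : I0 → ZMod n := Sum.elim (fun _ => 0) (Sum.elim (fun i => i.2.2.1) fun i => i.2.2.1)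
  let σ0 : I0 → ℝ := Sum.elim (fun i => i.2.1.val + if i.1 then 17 / 20 else 1 / 20)
    (Sum.elim (fun i => i.1.val + 2 * P.q) fun i => i.1.val + (2 * P.q + P.ls + P.s2 + 4))
  let A0 : I0 → ℤ := Sum.elim (fun i => i.2.2.val)
    (Sum.elim (fun i => i.2.1.val + P.lt + 1) fun i => i.2.1.val + P.lt + 6)
  obtain ⟨r, hr⟩ : ∃ r : ℕ, r = ∑ i, if o0 i = 0 then 1 else 2 := ⟨_, rfl⟩
  have hk : (0 : ℤ) < P.k := by exact_mod_cast P.hk
  obtain ⟨t, ht⟩ : ∃ t : ℕ, (t : ℤ) = ((n' : ℤ) - r) % P.k :=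
    ⟨_, Int.toNat_of_nonneg (Int.emod_nonneg _ hk.ne')⟩
  have htk : t ≤ P.k := by
    have := Int.emod_lt_of_pos ((n' : ℤ) - r) hk
    omega
  have m1 : P.m * (P.m * X1.card) ≤ P.m ^ 2 * X := by
    rw [← mul_assoc, ← sq]
    gcongr
  have m2 : P.m * (P.m * X2.card) ≤ P.m ^ 2 * X := by
    rw [← mul_assoc, ← sq]
    gcongr
  have hr' : r ≤ 2 * P.m ^ 2 + 4 * P.m ^ 2 * X := by
    have e1 : ∀ {J : Type} [Fintype J] (f : J → ZMod n),
        (∑ i, if f i = 0 then 1 else 2) ≤ Fintype.card J * 2 := fun f =>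
      sum_le_card_nsmul _ _ 2 fun i _ => by split_ifs <;> omega
    have e2 := e1 fun i : ZMod P.m × ZMod P.m × X1 => i.2.2.1
    have e3 := e1 fun i : ZMod P.m × ZMod P.m × X2 => i.2.2.1
    simp only [Fintype.card_prod, ZMod.card, Fintype.card_coe] at e2 e3
    simp only [hr, o0, I0, Fintype.sum_sum_type, Sum.elim_inl, Sum.elim_inr, if_true, sum_const,
      card_univ, Fintype.card_prod, ZMod.card, Fintype.card_bool, smul_eq_mul]
    nlinarith
  have hc : Fintype.card (I0 ⊕ Fin t) ≤ P.Ub X := by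
    simp only [I0, Fintype.card_sum, Fintype.card_prod, ZMod.card, Fintype.card_coe,
      Fintype.card_bool, Fintype.card_fin, Par.Ub]
    nlinarith
  obtain ⟨U, b, a1, a2, a3, a4, a5, a6⟩ := gad h1 h2 E La.box hN hc (Sum.elim σ0 fun _ => 0)
    (Sum.elim A0 fun _ => 0) (Sum.elim o0 fun _ => 0) (by
      rintro ((i | i | i) | i)
      · exact Or.inl rfl
      · exact Or.inr (far E (x1 _ i.2.2.2).2)
      · refine Or.inr (far E ((x2 _ i.2.2.2).2.mono ?_ le_rfl))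
        obtain ⟨a1, a2, a3, a4, a5, a6, a7, a8, a9, a10, a11, a12, a13, a14, -⟩ := P.factsR
        linarith
      · exact Or.inl rfl)
  have hU : U.card = r + t := by
    rw [a6, Fintype.sum_sum_type, hr]
    simp
    rfl
  refine ⟨⟨U, fun s a a' => b (.inl (.inl (s, a, a'))), fun s a a' => (a1 _).1, fun a a' => ?_,
    fun a a' => ?_, fun s a a' => ?_, fun p l ξ y1 y2 => ?_, a2, a3, a4, a5⟩, ?_, ?_⟩
  · refine red a ((a1 (.inl (.inl (false, a, a')))).2.2.1.mono ?_ ?_) <;> simp [σ0]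
    linarith
  · refine red a ((a1 (.inl (.inl (true, a, a')))).2.2.1.mono ?_ ?_) <;> simp [σ0]
    linarith
  · refine red a' ((a1 (.inl (.inl (s, a, a')))).2.2.2.mono ?_ ?_) <;> simp [A0]
  · obtain ⟨ζ1, z1, ζ2, z2, rfl⟩ := rep ξ y1 y2
    obtain ⟨u1, u2, u3, u4⟩ := a1 (.inl (.inr (.inl (p, l, ⟨ζ1, z1⟩))))
    obtain ⟨v1, v2, v3, v4⟩ := a1 (.inl (.inr (.inr (p, l, ⟨ζ2, z2⟩))))
    refine ⟨_, u2, _, u1, _, v2, _, v1, by simp [o0], adj (red p (u3.mono ?_ ?_))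
      (red l (u4.mono ?_ ?_)) (red p (v3.mono ?_ ?_)) (red l (v4.mono ?_ ?_)) (x1 _ z1) (x2 _ z2)⟩
    all_goals simp [σ0, A0, add_assoc]
  · change U.card ≤ _
    unfold Par.Ub
    omega
  · change (P.k : ℤ) ∣ n' - U.card
    have := Int.emod_add_ediv_mul ((n' : ℤ) - r) P.k
    refine ⟨((n' : ℤ) - r) / P.k, ?_⟩
    rw [hU]
    push_cast
    linear_combination (-1) * ht - this

end

end Pool.Agent.P.MP_009630_co.Dn
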