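import Pool.Agent.P.MP_009630_co.Dn.St

/-! The final assembly: choice of the constants, all bounded by powers of `T`. -/

set_option autoImplicit false

namespace Pool.Agent.P.MP_009630_co.Dn

open Finset

noncomputable section

namespace MainP

theorem half (a b N K : ℕ) (hK : 2 * a ≤ K) (hb : 2 * b ≤ N) : a * (N / K) + b ≤ N := by
  have h1 : K * (N / K) ≤ N := Nat.mul_div_le N K
  have h2 : 2 * a * (N / K) ≤ K * (N / K) := Nat.mul_le_mul_right _ hK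
  have h3 : 2 * a * (N / K) = 2 * (a * (N / K)) := by ring
  omega

theorem pw {T : ℕ} (hT : 1024 ≤ T) (c a b : ℕ) (hc : c ≤ 1024) (hab : a < b) :
    c * T ^ a ≤ T ^ b :=
  calc c * T ^ a ≤ T * T ^ a := Nat.mul_le_mul_right _ (hc.trans hT)
    _ = T ^ (a + 1) := by ring
    _ ≤ T ^ b := Nat.pow_le_pow_right (by omega) hab

theorem exP (d : ℤ) (hd0 : d ≠ 0) (hd1 : d ≠ 1) (k T : ℕ) (hk : 1 ≤ k) (hkT : k ≤ T) (hT : 1024 ≤ T)
    (hD : d.natAbs + 3 ≤ T) :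
    ∃ P : Par, P.d = d ∧ P.k = k ∧ P.m = T ^ 5 ∧ P.L = T ^ 12 ∧
      P.w + P.S + P.S1 + 11 ≤ (T : ℤ) ^ 4 ∧ 2 * P.q + 12 ≤ (T : ℤ) ^ 3 ∧
      P.S + P.S1 ≤ (T : ℤ) ^ 3 := by
  obtain ⟨D, hDd⟩ : ∃ D : ℕ, d.natAbs = D := ⟨_, rfl⟩
  rw [hDd] at hD
  have t1 : (1024 : ℤ) ≤ T := by exact_mod_cast hT
  have t2 : (k : ℤ) ≤ T := by exact_mod_cast hkT
  have t3 : (D : ℤ) + 3 ≤ T := by exact_mod_cast hD
  have t4 : (0 : ℤ) ≤ k := by positivity
  have t5 : (0 : ℤ) ≤ D := by positivity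
  have p2 : 1024 * (T : ℤ) ≤ T ^ 2 := by nlinarith
  have p3 : 1024 * (T : ℤ) ^ 2 ≤ T ^ 3 := by exact_mod_cast pw hT 1024 2 3 le_rfl (by norm_num)
  have p4 : 1024 * (T : ℤ) ^ 3 ≤ T ^ 4 := by exact_mod_cast pw hT 1024 3 4 le_rfl (by norm_num)
  have p5 : 1024 * (T : ℤ) ^ 4 ≤ T ^ 5 := by exact_mod_cast pw hT 1024 4 5 le_rfl (by norm_num)
  obtain ⟨q, hq⟩ : ∃ q : ℤ, q = 2 * (k : ℤ) + (D : ℤ) := ⟨_, rfl⟩
  obtain ⟨lenP, hlenP⟩ : ∃ x : ℤ, x = 6 * q + 29 := ⟨_, rfl⟩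
  obtain ⟨S, hS⟩ : ∃ x : ℤ, x = (k : ℤ) * (6 + lenP) + 6 := ⟨_, rfl⟩
  obtain ⟨S1, hS1⟩ : ∃ x : ℤ, x = 14 * (D : ℤ) + 48 := ⟨_, rfl⟩
  obtain ⟨w1, hw1⟩ : ∃ x : ℤ, x = (k : ℤ) * (lenP + 8) + (S + S1 + 1 + 7) + 23 := ⟨_, rfl⟩
  obtain ⟨w, hw⟩ : ∃ x : ℤ, x = ((D : ℤ) + 3) * (w1 + 28) := ⟨_, rfl⟩
  have b1 : (k : ℤ) * (6 + lenP) ≤ T * (19 * T) := mul_le_mul t2 (by omega) (by omega) (by omega)
  have b2 : (k : ℤ) * (lenP + 8) ≤ T * (19 * T) := mul_le_mul t2 (by omega) (by omega) (by omega)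
  have b0 : (0 : ℤ) ≤ k * (6 + lenP) := mul_nonneg t4 (by omega)
  have b0' : (0 : ℤ) ≤ k * (lenP + 8) := mul_nonneg t4 (by omega)
  have e2 : (T : ℤ) * (19 * T) = 19 * T ^ 2 := by ring
  have b3 : w ≤ T * (40 * T ^ 2) := hw ▸ mul_le_mul t3 (by omega) (by omega) (by omega)
  have e3 : (T : ℤ) * (40 * T ^ 2) = 40 * T ^ 3 := by ring
  have hL : (D + D * T ^ 5 + 1) * (T ^ 5 + 2) + 2 ≤ T ^ 12 := by
    have h0 : 2 ≤ T ^ 5 := by simpa using pw hT 2 0 5 (by norm_num) (by norm_num)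
    have h1 : D + D * T ^ 5 + 1 ≤ T * T ^ 5 + T * T ^ 5 := by
      have : D * T ^ 5 ≤ T * T ^ 5 := Nat.mul_le_mul_right _ (by omega)
      have : T * 1 ≤ T * T ^ 5 := Nat.mul_le_mul_left _ (by omega)
      omega
    have h2 := Nat.mul_le_mul h1 (show T ^ 5 + 2 ≤ 2 * T ^ 5 by omega)
    have h3 : (T * T ^ 5 + T * T ^ 5) * (2 * T ^ 5) = 4 * T ^ 11 := by ring
    have h4 := pw hT 5 11 12 (by norm_num) (by norm_num)
    have h5 : 2 ≤ T ^ 11 := by simpa using pw hT 2 0 11 (by norm_num) (by norm_num)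
    omega
  refine ⟨⟨d, D, k, T ^ 5, T ^ 12, q, 2 * q + 13,
    2 * q + 7, lenP, lenP + 8, S, S1, S + S1 + 1, S + S1 + 1 + 7, w1, w, hDd, hd0, hd1, hk, hq,
    rfl, rfl, hlenP, rfl, hS, hS1, rfl, rfl, hw1, hw, ?_, hL⟩, rfl, rfl, rfl, rfl, ?_, ?_, ?_⟩
  · push_cast; omega
  · show w + S + S1 + 11 ≤ _
    omega
  · show 2 * q + 12 ≤ _
    omega
  · show S + S1 ≤ _
    omega

theorem core (h6 : S_Lat) (h7 : S_Build) (T n k : ℕ) [NeZero n] (c d : ℤ) (hd0 : d ≠ 0)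
    (hd1 : d ≠ 1) (hcc : (c : ZMod n) * (c : ZMod n) = (d : ZMod n)) (hT : 1024 ≤ T)
    (hD3 : d.natAbs + 3 ≤ T) (hlo : (n : ℤ) ≤ T * c) (hhi : (n : ℤ) ≤ T * (n - c))
    (hn : T ^ 340 ≤ n) (hk1 : 1 ≤ k) (hk : k ≤ T)
    (hCl : ∀ γ : ℕ, γ ≤ d.natAbs → ∃ Cf : Cl d d.natAbs k, Cf.gam = γ) (Co : Cm d k)
    (act : Finset (Fin k)) (hcl : ∀ y ∈ act, ∀ x, Co.W y x ≠ 0 → x ∈ act)
    (hodd : Odd (n + act.card)) (hcv : Cv (T ^ 5) (c : ZMod n) (1 / (4 * T ^ 108))) :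
    Goal (c : ZMod n) d := by
  obtain ⟨P, rfl, rfl, hm, hL, hw, hq, hS⟩ := exP d hd0 hd1 k T hk1 hk hT hD3
  rw [P.hD] at hD3 hCl
  have big : ∀ c a : ℕ, c ≤ 1024 → a < 340 → c * T ^ a ≤ n := fun c a h h' =>
    (pw hT c a 340 h h').trans hn
  have one : ∀ a : ℕ, 1 ≤ T ^ a := fun a => Nat.one_le_pow _ _ (by omega)
  have mono : ∀ a b : ℕ, a ≤ b → T ^ a ≤ T ^ b := fun a b h => Nat.pow_le_pow_right (by omega) h
  have hT1 : T = T ^ 1 := (pow_one T).symm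
  have d1 : 1 + P.D ≤ T := by omega
  have d2 : P.D + 1 ≤ T := by omega
  have d3 : P.D + 2 ≤ T := by omega
  have d4 : 2 + P.D ≤ T := by omega
  have hQ : P.Q ≤ T ^ 14 := by
    have := one 12
    calc P.Q ≤ (4 * T ^ 12) * (2 * T) := Nat.mul_le_mul (by omega) (by omega)
      _ = 8 * T ^ 13 := by ring
      _ ≤ _ := pw hT _ _ _ (by norm_num) (by norm_num)
  obtain ⟨Kb, hKb'⟩ : ∃ x : ℕ, x = (40 * P.m) ^ 2 := ⟨_, rfl⟩
  have hKb0 : T ^ 10 ≤ Kb := by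
    rw [hKb', hm]
    calc T ^ 10 = (1 * T ^ 5) ^ 2 := by ring
      _ ≤ _ := by gcongr; norm_num
  have hKb : 0 < Kb := (one 10).trans hKb0
  have hKb1 : Kb ≤ T ^ 12 := by
    rw [hKb', hm]
    exact (Nat.pow_le_pow_left (pw hT 40 5 6 (by norm_num) (by norm_num)) 2).trans_eq (by ring)
  have hU : 2 * P.m ^ 2 + P.k + 1 ≤ 4 * T ^ 10 := by
    have := mono 1 10 (by norm_num)
    have := one 10
    rw [hm, show (T ^ 5) ^ 2 = T ^ 10 by ring]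
    omega
  obtain ⟨a1, ha1⟩ : ∃ x : ℕ, x = 4 * P.m ^ 2 * (P.Q ^ 6 * (P.D + 2)) := ⟨_, rfl⟩
  obtain ⟨b1, hb1⟩ : ∃ x : ℕ, x = (2 * P.m ^ 2 + P.k + 1) * (P.Q ^ 6 * (P.D + 2)) := ⟨_, rfl⟩
  obtain ⟨a2, ha2⟩ : ∃ x : ℕ, x = P.m ^ 4 * (2 + 12 * P.m ^ 2 * P.Q ^ 4) := ⟨_, rfl⟩
  obtain ⟨b2, hb2⟩ : ∃ x : ℕ,
      x = P.m ^ 4 * (3 * ((2 * P.m ^ 2 + P.k + 1) * P.Q ^ 4) + 5 * P.k) := ⟨_, rfl⟩
  have u1 : a1 ≤ 4 * T ^ 95 :=
    calc a1 ≤ 4 * (T ^ 5) ^ 2 * ((T ^ 14) ^ 6 * T) := by rw [ha1, hm]; gcongr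
      _ = _ := by ring
  have u2 : b1 ≤ 4 * T ^ 95 :=
    calc b1 ≤ 4 * T ^ 10 * ((T ^ 14) ^ 6 * T) := by rw [hb1]; gcongr
      _ = _ := by ring
  have u3 : a2 ≤ 14 * T ^ 86 :=
    calc a2 ≤ (T ^ 5) ^ 4 * (2 * T ^ 66 + 12 * (T ^ 5) ^ 2 * (T ^ 14) ^ 4) := by
          rw [ha2, hm]
          gcongr
          have := one 66
          omega
      _ = _ := by ring
  have u4 : b2 ≤ 17 * T ^ 86 :=
    calc b2 ≤ (T ^ 5) ^ 4 * (3 * (4 * T ^ 10 * (T ^ 14) ^ 4) + 5 * T ^ 66) := by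
          rw [hb2]
          have := mono 1 66 (by norm_num)
          gcongr
          · exact hm.le
          · omega
      _ = _ := by ring
  obtain ⟨K', hK'⟩ : ∃ x : ℕ, x = 2 * a1 + 2 * a2 + 1 := ⟨_, rfl⟩
  have hK'pos : 0 < K' := by omega
  have hK'1 : K' ≤ T ^ 96 := by
    have := mono 86 95 (by norm_num)
    have := one 95
    have := pw hT 37 95 96 (by norm_num) (by norm_num)
    omega
  obtain ⟨K, hKe⟩ : ∃ x : ℕ, x = Kb * K' := ⟨_, rfl⟩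
  have hK : 0 < K := hKe ▸ Nat.mul_pos hKb hK'pos
  have hK1 : K ≤ T ^ 108 := hKe ▸ (Nat.mul_le_mul hKb1 hK'1).trans_eq (by ring)
  have hK2 : T ^ 2 ≤ K := by
    have := mono 2 10 (by norm_num)
    have : Kb ≤ Kb * K' := Nat.le_mul_of_pos_right _ hK'pos
    omega
  have hn0 : 0 < n := Nat.pos_of_ne_zero (NeZero.ne n)
  have hnR : (0 : ℝ) < n := by exact_mod_cast hn0
  have hwR : (P.w : ℝ) + P.S + P.S1 + 11 ≤ (T : ℝ) ^ 4 := by exact_mod_cast hw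
  have hloR : (n : ℝ) ≤ T * c := by exact_mod_cast hlo
  have hhiR : (n : ℝ) ≤ T * (n - c) := by exact_mod_cast hhi
  have hT4 : (0 : ℝ) ≤ (T : ℝ) ^ 4 := by positivity
  have hmR : (P.m : ℝ) = (T : ℝ) ^ 4 * T := by rw [hm]; push_cast; ring
  have hEnv : Env P (c : ZMod n) := by
    refine ⟨hcc, ⟨c, rfl, ?_, ?_⟩, ?_⟩
    · unfold ps
      rw [le_div_iff₀ hnR, hmR]
      nlinarith [mul_le_mul_of_nonneg_right hwR hnR.le, mul_le_mul_of_nonneg_left hloR hT4]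
    · unfold ps
      rw [div_le_iff₀ hnR, hmR]
      nlinarith [mul_le_mul_of_nonneg_right hwR hnR.le, mul_le_mul_of_nonneg_left hhiR hT4]
    · have := one 12
      calc 100 * (P.L + 1) * P.m ≤ 100 * (2 * T ^ 12) * T ^ 5 := by
            gcongr
            · omega
            · exact hm.le
        _ = 200 * T ^ 17 := by ring
        _ ≤ n := big _ _ (by norm_num) (by norm_num)
  have hLat := h6 P n (c : ZMod n) K (T ^ 3) (by nlinarith)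
    ((Nat.mul_le_mul hk d2).trans (by rwa [← sq])) (fun σ τ => by
      obtain ⟨g, g1, g2⟩ := hcv σ τ
      have h1 : (1 : ℝ) / (4 * T ^ 108) ≤ 1 / (4 * K) := by
        have h2 : (K : ℝ) ≤ T ^ 108 := by exact_mod_cast hK1
        have h3 : (0 : ℝ) < K := by exact_mod_cast hK
        exact one_div_le_one_div_of_le (by positivity) (by linarith)
      rw [← hm] at g1 g2
      exact ⟨g, g1.mono (by linarith) (by linarith), g2.mono (by linarith) (by linarith)⟩)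
    (by exact_mod_cast hq) (by exact_mod_cast hS)
    (calc _ ≤ (T ^ 3 * (4 * T ^ 108)) ^ 2 * T ^ 108 := by gcongr
      _ = 16 * T ^ 330 := by ring
      _ ≤ n := big _ _ (by norm_num) (by norm_num))
  rw [← hKb'] at hLat
  refine h7 P n _ _ _ _ hEnv hLat hCl Co act hcl hodd ?_ ?_
  · have e1 : (P.Ub (n / K) + 1) * P.Q ^ 6 * (P.D + 2) = a1 * (n / Kb / K') + b1 := by
      rw [Nat.div_div_eq_div_mul, ha1, hb1, Par.Ub, hKe]; ring
    rw [e1]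
    refine half _ _ _ _ (by omega) ?_
    rw [Nat.le_div_iff_mul_le hKb]
    calc 2 * b1 * Kb ≤ 2 * (4 * T ^ 95) * T ^ 12 := by gcongr
      _ = 8 * T ^ 107 := by ring
      _ ≤ n := big _ _ (by norm_num) (by norm_num)
  · have e2 : P.m ^ 4 * (2 * (n / K) + 3 * ((P.Ub (n / K) + 1) * P.Q ^ 4 + P.k) +
        2 * P.k) = a2 * (n / K) + b2 := by
      rw [ha2, hb2, Par.Ub]; ring
    rw [e2]
    have := big 34 86 (by norm_num) (by norm_num)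
    refine half _ _ _ _ ?_ (by omega)
    have : K' ≤ Kb * K' := Nat.le_mul_of_pos_left _ hKb
    omega

/-- The cases `d = 0` and `d = 1`. -/
theorem triv {n : ℕ} [NeZero n] {c d : ℤ} (h0 : 0 ≤ c) (h1 : c ≤ n) (hd : d = 0 ∨ d = 1)
    (hcc : (c : ZMod n) * (c : ZMod n) = (d : ZMod n)) : Goal (c : ZMod n) d := by
  refine ⟨fun x => pt (c * x), fun x => ?_, fun x => mom_pt _, fun x => ?_⟩
  · rw [lin_pt, ← mul_assoc, hcc]
    rcases hd with rfl | rfl <;> simp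
  · refine ⟨arc n (c * x.val) (c * x.val + c), arc_val _ _, ?_⟩
    rw [dd_arc (by omega) (by omega)]
    simp [mul_add]

end MainP

open MainP in
theorem main (h1 : S_Alg) (h2 : S_Odd) (h3 : S_Cl) (h3' : S_OddW) (h4 : S_Cov) (h5 : S_CovS)
    (h6 : S_Lat) (h7 : S_Build) : S_Main := by
  intro T n c d lam hc hT hDT hlo hhi hn hsq
  have hn0 : 0 < n := lt_of_lt_of_le (Nat.one_le_pow _ _ (by omega)) hn
  have hTZ : (0 : ℤ) < T := by exact_mod_cast (by omega : 0 < T)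
  have hTR : (1024 : ℝ) ≤ T := by exact_mod_cast hT
  have hnZ : (0 : ℤ) < n := by exact_mod_cast hn0
  have hcpos : 0 < c := pos_of_mul_pos_right (hnZ.trans_le hlo) hTZ.le
  have hclt : c < n := sub_pos.1 (pos_of_mul_pos_right (hnZ.trans_le hhi) hTZ.le)
  refine ⟨fun hs => or_iff_not_imp_left.2 fun hd => h2 n c d lam hd hn0 hcpos.ne' hc hs,
    fun hor => ?_⟩
  have : NeZero n := ⟨hn0.ne'⟩
  have hcc : (c : ZMod n) * (c : ZMod n) = (d : ZMod n) := by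
    have := congrArg (Int.cast : ℤ → ZMod n) hc
    push_cast at this
    rw [ZMod.natCast_self, mul_zero, add_zero] at this
    rw [← this]; ring
  refine h1 n c d lam hcpos hclt hc ?_
  by_cases hd01 : d = 0 ∨ d = 1
  · exact triv hcpos.le hclt.le hd01 hcc
  obtain ⟨hd0, hd1⟩ := not_or.1 hd01
  have hD3 : d.natAbs + 3 ≤ T := by
    have := Nat.le_self_pow (n := 4) (by norm_num) d.natAbs
    omega
  have hD3' : (d.natAbs : ℝ) + 3 ≤ T := by exact_mod_cast hD3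
  obtain ⟨k, hk1, hk2, hCl⟩ := h3 d hd0
  have hm : 0 < T ^ 5 := by positivity
  by_cases hd : IsSquare d
  · obtain ⟨e0, he0⟩ := hd
    obtain ⟨e, rfl⟩ : ∃ e : ℕ, d = (e : ℤ) ^ 2 := ⟨e0.natAbs, by rw [he0, Int.natAbs_sq, sq]⟩
    have he2 : 2 ≤ e := by
      by_contra h
      have : e = 0 ∨ e = 1 := by omega
      rcases this with rfl | rfl <;> simp at hd0 hd1
    have he2' : (2 : ℤ) ≤ e := by exact_mod_cast he2
    obtain ⟨s1, s2⟩ := hsq e rfl (by rw [abs_of_nonneg] <;> omega)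
    obtain ⟨-, s3⟩ := hsq (-e) (by ring) (by rw [abs_neg, abs_of_nonneg] <;> omega)
    rw [sub_neg_eq_add] at s3
    obtain ⟨j, hj, hj2, hW⟩ := h3' e (by omega)
    obtain ⟨Co, act, hact, hcl⟩ := hW k hk1
    have hD : ((e : ℤ) ^ 2).natAbs = e ^ 2 := by simp
    have hjk : j * k ≤ T := by
      rw [hD] at hk2 s1
      calc j * k ≤ 257 * e ^ 7 * (64 * (e ^ 2) ^ 4) := Nat.mul_le_mul hj2 hk2
        _ ≤ 9000 * 2 * e ^ 15 := by nlinarith [Nat.zero_le (e ^ 15)]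
        _ = 9000 * (2 * e ^ 15) := by ring
        _ ≤ 9000 * (e * e ^ 15) := by gcongr
        _ = 9000 * (e ^ 2) ^ 8 := by ring
        _ ≤ T := s1
    have hcv : Cv (T ^ 5) (c : ZMod n) (1 / (4 * T ^ 108)) := fun σ τ => by
      obtain ⟨g, g1, g2⟩ := h5 e c (T ^ 5) n (T ^ 115) (by omega) hm (by positivity) s2 s3 σ τ
      have : 2 * |((e : ℤ) : ℝ)| * (T ^ 5 : ℕ) / (T ^ 115 : ℕ) ≤ 1 / (4 * (T : ℝ) ^ 108) := by
        have h1 : (e : ℝ) ≤ T := by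
          have : e ≤ T := by rw [hD] at hD3; nlinarith
          exact_mod_cast this
        push_cast
        rw [Nat.abs_cast, div_le_div_iff₀ (by positivity) (by positivity)]
        calc 2 * (e : ℝ) * (T : ℝ) ^ 5 * (4 * (T : ℝ) ^ 108) = 8 * e * (T : ℝ) ^ 113 := by ring
          _ ≤ T * T * (T : ℝ) ^ 113 := by gcongr; linarith
          _ = _ := by ring
      exact ⟨g, g1.mono (by linarith) (by linarith), g2.mono (by linarith) (by linarith)⟩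
    have hj1 : 1 ≤ j := hj.pos
    rcases Nat.even_or_odd n with hn2 | hn2
    · exact core h6 h7 T n (j * k) c _ hd0 hd1 hcc hT hD3 hlo hhi hn (Nat.mul_pos hj1 hk1) hjk
        (hCl j hj1) Co act hcl (by rw [hact]; exact hn2.add_odd hj) hcv
    · exact core h6 h7 T n (j * k) c _ hd0 hd1 hcc hT hD3 hlo hhi hn (Nat.mul_pos hj1 hk1) hjk
        (hCl j hj1) Co ∅ (by simp) (by simpa using hn2) hcv
  · have hcv : Cv (T ^ 5) (c : ZMod n) (1 / (4 * T ^ 108)) := fun σ τ => by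
      obtain ⟨g, g1, g2⟩ := h4 d hd (T ^ 5) n c hm hcc σ τ
      have : (1 + d.natAbs) * ((T ^ 5 : ℕ) : ℝ) / √n ≤ 1 / (4 * T ^ 108) := by
        have h1 : (T : ℝ) ^ 115 ≤ √n := Real.le_sqrt_of_sq_le (by
          have : (T ^ 115) ^ 2 ≤ n := by
            rw [← pow_mul]
            exact (Nat.pow_le_pow_right (by omega) (by norm_num)).trans hn
          exact_mod_cast this)
        push_cast
        rw [div_le_div_iff₀ (lt_of_lt_of_le (by positivity) h1) (by positivity)]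
        calc _ = 4 * (1 + (d.natAbs : ℝ)) * T ^ 113 := by ring
          _ ≤ T * T * T ^ 113 := by gcongr <;> linarith
          _ = T ^ 115 := by ring
          _ ≤ _ := by rwa [one_mul]
      exact ⟨g, g1.mono (by linarith) (by linarith), g2.mono (by linarith) (by linarith)⟩
    obtain ⟨Cf, -⟩ := hCl 1 le_rfl 0 (Nat.zero_le _)
    exact core h6 h7 T n (1 * k) c _ hd0 hd1 hcc hT hD3 hlo hhi hn (by omega) (by omega)
      (hCl 1 le_rfl) Cf ∅ (by simp) (by simpa using hor.resolve_left hd) hcv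

end

end Pool.Agent.P.MP_009630_co.Dn
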