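import Pool.Agent.P.MP_009630_co.Dn.St

/-! Order-preserving matching. -/

set_option autoImplicit false

open Finset

namespace Pool.Agent.P.MP_009630_co.Dn

namespace MatchP

theorem exists_sorted {A : Type} [Fintype A] {N : ℕ} (h : Fintype.card A = N) (f : A → ℕ) :
    ∃ u : Fin N ≃ A, Monotone (f ∘ u) :=
  ⟨(Tuple.sort (f ∘ (Fintype.equivFinOfCardEq h).symm)).trans (Fintype.equivFinOfCardEq h).symm,
    Tuple.monotone_sort (f ∘ (Fintype.equivFinOfCardEq h).symm)⟩

theorem key {A B : Type} [Fintype A] [Fintype B] {N : ℕ} {f : A → ℕ} {g : B → ℕ}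
    {u : Fin N ≃ A} {v : Fin N ≃ B} (hu : Monotone (f ∘ u)) (hv : Monotone (g ∘ v))
    (h : ∀ i, (univ.filter fun a => f a ≤ i).card ≤ (univ.filter fun b => g b ≤ i + 1).card)
    (r : Fin N) : g (v r) ≤ f (u r) + 1 := by
  by_contra hn
  have h1 : (Iic r).card ≤ (univ.filter fun a => f a ≤ f (u r)).card :=
    card_le_card_of_injOn u (fun s hs => by
      simpa using hu (mem_Iic.1 hs)) u.injective.injOn
  have h2 : (univ.filter fun b => g b ≤ f (u r) + 1).card ≤ (Iio r).card :=
    card_le_card_of_injOn v.symm (fun b hb => by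
      have h3 : g b ≤ f (u r) + 1 := by simpa using hb
      refine mem_coe.2 (mem_Iio.2 (lt_of_not_ge fun h4 => hn ?_))
      have h5 := hv h4
      simp only [Function.comp, Equiv.apply_symm_apply] at h5
      exact h5.trans h3) v.symm.injective.injOn
  have h6 := h (f (u r))
  rw [Fin.card_Iic] at h1
  rw [Fin.card_Iio] at h2
  omega

end MatchP

theorem matching : S_Match := by
  intro A B _ _ f g hc h1 h2
  obtain ⟨u, hu⟩ := MatchP.exists_sorted hc f
  obtain ⟨v, hv⟩ := MatchP.exists_sorted rfl g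
  refine ⟨v.symm.trans u, fun b => ⟨?_, ?_⟩⟩
  · simpa using MatchP.key hv hu h2 (v.symm b)
  · simpa using MatchP.key hu hv h1 (v.symm b)

end Pool.Agent.P.MP_009630_co.Dn
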