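import Pool.Agent.P.MP_009630_co.Dn.St

/-! Ordinary blocks. -/

set_option autoImplicit false

namespace Pool.Agent.P.MP_009630_co.Dn

open Finset

noncomputable section

namespace NormP

variable {n : ℕ} {P : Par} {c : ZMod n}

/-- The cell of the member `y`. -/
def av (sd : Fin P.k → Bool) (κ : Bool → ℤ) (y : Fin P.k) : ℤ :=
  κ (sd y) + P.len * (y.val : ℤ)

/-- The block data. -/
def bd (Lb : Lib P c) (sd : Fin P.k → Bool) (κ : Bool → ℤ) (pos : Fin P.k → ZMod n)
    (af : Fin P.k → Fin P.k → Bool) : BD P n where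
  σ := 1
  pos := pos
  u0 y := Lb.lk false (av sd κ y + 2) (κ (!sd y) + P.w1 - 2)
  p y := av sd κ y + 6
  τ y := κ (!sd y) + P.w1 - 2
  z y := κ (!sd y) - 3
  adj y := κ (!sd y) + P.k * P.len
  β _ := 0
  u := 0
  ζ := 0
  sf _ _ := false
  sa _ _ := 0
  sb _ _ := 0
  af := af
  aa _ x := av sd κ x - 2
  ab _ x := av sd κ x + 3
  lo _ x := ((av sd κ x - 2 : ℤ) : ℝ)
  hi _ x := ((av sd κ x + 4 : ℤ) : ℝ)
  far _ := 0

variable (Lb : Lib P c) (Cf : Cm P.d P.k) (sd : Fin P.k → Bool) (κ : Bool → ℤ)
  (pos : Fin P.k → ZMod n)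
  (af : Fin P.k → Fin P.k → Bool)

theorem g_eq (y : Fin P.k) : (bd Lb sd κ pos af).g Cf y = 0 := by simp [BD.g, bd]

theorem C_eq (y : Fin P.k) : (bd Lb sd κ pos af).C Lb Cf y = 0 := by
  rw [BD.C, g_eq]
  simp [bd, Lib.scaf, Lib.dip]

theorem Ex_eq (y : Fin P.k) : (bd Lb sd κ pos af).Ex c y = 0 := by simp [BD.Ex, bd]

theorem ap_eq (y x : Fin P.k) : (bd Lb sd κ pos af).ap Lb Cf y x =
    if af y x then pt (Lb.vp (av sd κ y + 6) x (av sd κ x - 2)) -
      pt (Lb.vm (av sd κ y + 6) x (av sd κ x + 3)) else 0 := by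
  rw [BD.ap, Ex_eq, ite_self, add_zero]
  rfl

theorem av_bd {y x : Fin P.k} (e : κ (sd x) = κ (!sd y)) : κ (!sd y) ≤ av sd κ x ∧
    av sd κ x + P.len ≤ κ (!sd y) + P.k * P.len := by
  obtain ⟨a1, a2, a3, -, -, a6, a7, -⟩ := P.factsZ
  have h1 : (x.val : ℤ) + 1 ≤ P.k := by exact_mod_cast x.isLt
  have h2 : (0 : ℤ) ≤ x.val := Int.natCast_nonneg _
  have h3 : 0 ≤ P.len := by omega
  rw [av, e]
  constructor <;> nlinarith

theorem av_lt {y x x' : Fin P.k} (e : κ (sd x) = κ (!sd y)) (e' : κ (sd x') = κ (!sd y))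
    (hl : x < x') :
    av sd κ x + P.len ≤ av sd κ x' := by
  obtain ⟨a1, a2, a3, -, -, a6, a7, -⟩ := P.factsZ
  have h1 : (x.val : ℤ) + 1 ≤ x'.val := by exact_mod_cast hl
  have h3 : 0 ≤ P.len := by omega
  rw [av, av, e, e']
  nlinarith

theorem av_gap {y x x' : Fin P.k} (h : κ (sd x) = κ (!sd y)) (h' : κ (sd x') = κ (!sd y)) :
    x = x' ∨ av sd κ x + P.len ≤ av sd κ x' ∨ av sd κ x' + P.len ≤ av sd κ x := by
  rcases lt_trichotomy x x' with l | l | l
  · exact Or.inr (Or.inl (av_lt sd κ h h' l))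
  · exact Or.inl l
  · exact Or.inr (Or.inr (av_lt sd κ h' h l))

variable [NeZero n]

theorem exists_af (hp : ∀ y, At P.m (pos y) (av sd κ y - 1) (av sd κ y + 2)) (y x : Fin P.k) :
    ∃ fl : Bool, (Cf.W y x = 0 → fl = false) ∧ (Cf.W y x ≠ 0 →
      Feat P.m (Cf.W y x • (pt (pos x) -
        pt (Lb.lk false (av sd κ x + 2) (κ (!sd x) + P.w1 - 2))) +
        if fl then pt (Lb.vp (av sd κ y + 6) x (av sd κ x - 2)) -
          pt (Lb.vm (av sd κ y + 6) x (av sd κ x + 3)) else 0)
        (av sd κ x - 2) (av sd κ x + 4)) := by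
  by_cases h : Cf.W y x = 0
  · exact ⟨false, fun _ => rfl, fun h' => (h' h).elim⟩
  have hm : 7 ≤ P.m := by have := P.m_ge; omega
  obtain ⟨fl, hf⟩ := exists_aslot (a := av sd κ x) hm ((Cf.val y x).resolve_left h)
    ((hp x).mono le_rfl (by linarith))
    ((Lb.lk_f (av sd κ x + 2) (κ (!sd x) + P.w1 - 2)).mono (by push_cast; linarith)
      (by push_cast; linarith))
    ((Lb.vp_at (av sd κ y + 6) x (av sd κ x - 2)).mono (by push_cast; linarith)
      (by push_cast; linarith))
    ((Lb.vm_at (av sd κ y + 6) x (av sd κ x + 3)).mono (by push_cast; linarith)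
      (by push_cast; linarith))
  exact ⟨fl, fun h' => (h h').elim, fun _ => hf⟩

theorem apm (y x : Fin P.k) : At P.m (mom ((bd Lb sd κ pos af).ap Lb Cf y x)) (-6) 0 := by
  rw [ap_eq]
  split_ifs
  · rw [mom_sub, mom_pt, mom_pt]
    exact ((Lb.vp_at _ _ _).sub (Lb.vm_at _ _ _)).mono (by push_cast; linarith)
      (by push_cast; linarith)
  · simpa using At.zero (by norm_num) le_rfl

end NormP

open NormP

theorem norm (h : S_Block) : S_Norm := by
  intro P n _ c E Lb Cf sd κ pos hκ h1 h2
  have hp : ∀ y, At P.m (pos y) (av sd κ y - 1) (av sd κ y + 2) := fun y => by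
    simpa [av] using h1 y
  choose af ho hf using exists_af Lb Cf sd κ pos hp
  have hη := P.eta_pos
  obtain ⟨a1, a2, a3, a4, a5, a6, a7, a8, a9, a10, a11, a12, a13, a14, a15, a16, a17⟩ := P.factsZ
  have key : (bd Lb sd κ pos af).ok Lb Cf :=
    { hσ := Or.inl rfl
      hu0 := fun y => Lb.lk_mem _ _ _
      hu := Or.inr rfl
      near := fun y => ((hp y).sub (Lb.lk_f _ _)).mono (by push_cast; linarith)
        (by push_cast; linarith)
      jump := fun y => (Lb.lk_v _ _ _).mono (by simp [bd]) (by simp only [bd]; linarith)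
      hζ := At.zero (by linarith) hη.le
      hζ' := by simpa [bd] using At.zero (by linarith) hη.le
      hβ := fun y => by simp [bd]
      hg := fun y => by simp [g_eq]
      feat := fun y x hw => by
        rw [ap_eq]
        simpa [bd] using hf y x hw
      off := ho
      offE := fun y _ => Ex_eq Lb sd κ pos af y
      apm := apm Lb Cf sd κ pos af
      win := fun y => by
        simp only [Win, bd]
        omega
      inA := fun y x hw => by
        have := av_bd sd κ (hκ _ _ hw)
        simp only [bd]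
        norm_cast
        omega
      inP := fun y x hw => by
        have := av_bd sd κ (hκ _ _ hw)
        simp only [bd]
        omega
      inJ := fun y => by
        simp only [bd]
        omega
      AA := fun y x x' hw hw' hx => by
        have := (av_gap sd κ (hκ _ _ hw) (hκ _ _ hw')).resolve_left hx
        simp only [bd]
        norm_cast
        omega
      AP := fun y x x' hw hw' => by
        simp only [bd]
        norm_cast
        rcases av_gap sd κ (hκ _ _ hw) (hκ _ _ hw') with rfl | this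
        · omega
        · omega
      PP := fun y x x' hw hw' hx => by
        have := (av_gap sd κ (hκ _ _ hw) (hκ _ _ hw')).resolve_left hx
        simp only [bd]
        omega
      AJ := fun y x hw => by
        have := av_bd sd κ (hκ _ _ hw)
        simp only [bd]
        norm_cast
        omega
      PJ := fun y x hw => by
        have := av_bd sd κ (hκ _ _ hw)
        simp only [bd]
        omega
      tc := fun y => by
        have h3 : (0 : ℝ) ≤ P.D := Nat.cast_nonneg _
        have h4 := P.factsR.2.2.2.2.2.2.2.2.1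
        rw [C_eq]
        simp only [bd]
        push_cast
        simpa using (h2 y).mono (by linarith) (by linarith) }
  have := h P n c E Lb Cf _ key
  rwa [show (bd Lb sd κ pos af).C Lb Cf = fun _ => 0 from funext (C_eq Lb Cf sd κ pos af)] at this

end

end Pool.Agent.P.MP_009630_co.Dn
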