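import Pool.Agent.P.MP_009630_co.Dn.St

/-! Necessity of the parity condition. -/

set_option autoImplicit false

namespace Pool.Agent.P.MP_009630_co.Dn

open Finset

namespace OddP

theorem det_eq (k : ℕ) (d l : ℚ) (hd : d ≠ 0) :
    (d • (1 : Matrix (Fin (k + 1)) (Fin (k + 1)) ℚ) + Matrix.of fun _ _ => l).det =
      d ^ k * (d + l * (k + 1 : ℕ)) := by
  have h : (d • (1 : Matrix (Fin (k + 1)) (Fin (k + 1)) ℚ) + Matrix.of fun _ _ => l) =
      d • (1 + Matrix.replicateCol Unit (fun _ => l / d) *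
        Matrix.replicateRow Unit (fun _ => (1 : ℚ))) := by
    ext i j
    simp only [Matrix.add_apply, Matrix.smul_apply, Matrix.of_apply, Matrix.mul_apply,
      Matrix.replicateCol_apply, Matrix.replicateRow_apply, smul_eq_mul, univ_unique, sum_singleton]
    field_simp
  rw [h, Matrix.det_smul, Matrix.det_one_add_replicateCol_mul_replicateRow]
  simp only [Fintype.card_fin, dotProduct, sum_const, card_univ, nsmul_eq_mul, one_mul, pow_succ]
  field_simp

end OddP

theorem odd : S_Odd := by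
  intro n c d lam hd hn hc he ⟨A, _, _, _, hA⟩
  by_contra hodd
  obtain ⟨k, rfl⟩ : ∃ k, n = 2 * k + 1 + 1 := by
    obtain ⟨j, hj⟩ := Nat.not_odd_iff_even.1 hodd
    exact ⟨j - 1, by omega⟩
  have hd0 : (d : ℚ) ≠ 0 := by
    rintro h
    have : d = 0 := by exact_mod_cast h
    exact hd (this ▸ IsSquare.zero)
  have hc0 : (c : ℚ) ≠ 0 := by exact_mod_cast hc
  have h1 : ((Int.castRingHom ℚ).mapMatrix A) ^ 2 =
      (d : ℚ) • (1 : Matrix (Fin (2 * k + 1 + 1)) (Fin (2 * k + 1 + 1)) ℚ) +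
        Matrix.of fun _ _ => (lam : ℚ) := by
    rw [← map_pow, hA]
    ext i j
    simp only [RingHom.mapMatrix_apply, Matrix.map_apply, Matrix.add_apply, Matrix.smul_apply,
      Matrix.of_apply, Matrix.one_apply, smul_eq_mul]
    split_ifs <;> simp
  have h2 := congrArg Matrix.det h1
  have he' : (c : ℚ) ^ 2 = d + lam * (2 * k + 1 + 1 : ℕ) := by exact_mod_cast he
  rw [Matrix.det_pow, OddP.det_eq _ _ _ hd0, ← he'] at h2
  refine hd (Rat.isSquare_intCast_iff.1 ⟨((Int.castRingHom ℚ).mapMatrix A).det / (d ^ k * c), ?_⟩)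
  field_simp
  rw [h2]
  ring

end Pool.Agent.P.MP_009630_co.Dn
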