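import Pool.Agent.P.MP_009630_co.Dn.Cl

/-! A `{0,±1}` square root of `e ^ 2 I` of odd order. -/

set_option autoImplicit false

namespace Pool.Agent.P.MP_009630_co.Dn

open Finset Matrix

noncomputable section

namespace OddP

open ClP

/-- value in `{0, 1, -1}` -/
def T3 (a : ℤ) : Prop := a = 0 ∨ a = 1 ∨ a = -1

theorem T3.mul {a b : ℤ} (ha : T3 a) (hb : T3 b) : T3 (a * b) := by
  rcases ha with h | h | h <;> rcases hb with h' | h' | h' <;> simp [T3, h, h']

theorem T3.neg {a : ℤ} (ha : T3 a) : T3 (-a) := by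
  rcases ha with h | h | h <;> simp [T3, h]

theorem T3.zero : T3 0 := Or.inl rfl

theorem T3.of_abs {a : ℤ} (h : |a| ≤ 1) : T3 a := by
  have := abs_le.1 h
  unfold T3
  omega

/-- The gadget: a square root of `e ^ 2 I` of even order with an eigenvector having one big entry. -/
theorem gadget {e : ℕ} (he : e ≠ 0) {γ : ℕ} (hγ : γ ≤ e) :
    ∃ (κ : Type) (_ : Fintype κ) (_ : DecidableEq κ) (W : Matrix κ κ ℤ) (x : κ) (g : κ → ℤ),
      Even (Fintype.card κ) ∧ Fintype.card κ ≤ 256 * e ^ 6 ∧ W * W = ((e : ℤ) ^ 2) • 1 ∧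
      (∀ a b, T3 (W a b)) ∧ W *ᵥ g = -(e : ℤ) • g ∧ g x = γ ∧ W x x = 0 ∧
      ∀ y, y ≠ x → T3 (g y) ∧ T3 (W y x + g y) := by
  obtain ⟨κ, _, _, hc0, hc2, h⟩ := exists_sym' he
  obtain ⟨a0⟩ := Fintype.card_pos_iff.1 hc0
  obtain ⟨V1, hV1⟩ := h γ hγ
  obtain ⟨V2, hV2⟩ := h (e - γ) (by omega)
  obtain ⟨V, hV⟩ := h e le_rfl
  obtain ⟨U, i0, S, hU, h1, h2, h3⟩ := adapted hV1 hV2 a0 a0
  rw [show γ + (e - γ) = e by omega] at hU
  let ι := (κ × κ) ⊕ (κ × κ)
  let Pm : Matrix (ι × κ) (ι × κ) ℤ := kroneckerMap (· * ·) U V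
  let a : ι → ℤ := fun y => if y ∈ S then U i0 y else 0
  let Ua : ι → ℤ := fun x => ∑ y ∈ S, U x y * U i0 y
  have hUa : ∀ x, Ua x = ∑ y, U x y * a y := fun x => by
    simp only [Ua, a, mul_ite, mul_zero]
    rw [← sum_filter]
    simp
  have hsqU : ∀ x z, ∑ y, U x y * U y z = if x = z then (e : ℤ) else 0 := fun x z => by
    have := congrFun (congrFun hU.sq x) z
    rw [mul_apply] at this
    rw [this]
    by_cases h : x = z <;> simp [one_apply, h]
  have hsqV : ∀ x z, ∑ y, V x y * V y z = if x = z then (e : ℤ) else 0 := fun x z => by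
    have := congrFun (congrFun hV.sq x) z
    rw [mul_apply] at this
    rw [this]
    by_cases h : x = z <;> simp [one_apply, h]
  have hUUa : ∀ x, ∑ y, U x y * Ua y = e * a x := fun x => by
    simp only [hUa, mul_sum]
    rw [sum_comm]
    simp only [← mul_assoc, ← sum_mul, hsqU, ite_mul, zero_mul, sum_ite_eq, mem_univ, if_true]
  let g1 : ι × κ → ℤ := fun y => Ua y.1 * if y.2 = a0 then 1 else 0
  let g2 : ι × κ → ℤ := fun y => -(a y.1 * V y.2 a0)
  have hPP : Pm * Pm = ((e : ℤ) ^ 2) • 1 := by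
    simp only [Pm]
    rw [← mul_kronecker_mul, hU.sq, hV.sq, smul_kronecker, kronecker_smul, one_kronecker_one,
      smul_smul, sq]
  have ha : ∀ y, T3 (a y) := fun y => by
    simp only [a]
    split_ifs
    · exact hU.tri _ _
    · exact T3.zero
  refine ⟨(ι × κ) ⊕ (ι × κ), inferInstance, inferInstance, fromBlocks 0 Pm Pm 0,
    .inl (i0, a0), Sum.elim g1 g2, by simp, ?_, ?_, ?_, ?_, ?_, by simp, ?_⟩
  · simp only [ι, Fintype.card_sum, Fintype.card_prod]
    calc _ = 4 * Fintype.card κ ^ 3 := by ring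
      _ ≤ 4 * (4 * e ^ 2) ^ 3 := by gcongr
      _ = 256 * e ^ 6 := by ring
  · rw [fromBlocks_multiply, ← fromBlocks_one, fromBlocks_smul]
    simp [hPP]
  · rintro (y | y) (z | z)
    · exact T3.zero
    · exact T3.mul (hU.tri _ _) (hV.tri _ _)
    · exact T3.mul (hU.tri _ _) (hV.tri _ _)
    · exact T3.zero
  · rw [fromBlocks_mulVec]
    ext (⟨y, v⟩ | ⟨y, v⟩)
    · simp only [zero_mulVec, zero_add, Sum.elim_inl, Pi.smul_apply, smul_eq_mul, mulVec,
        dotProduct, Pm, kroneckerMap_apply, Function.comp, Sum.elim_inr, g1, g2,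
        Fintype.sum_prod_type, Pi.add_apply, Pi.zero_apply, Matrix.zero_apply, zero_mul, sum_const_zero]
      rw [sum_congr rfl (g := fun y' => -(U y y' * a y') * ∑ v', V v v' * V v' a0) fun y' _ => by
        rw [mul_sum]; exact sum_congr rfl fun v' _ => by ring]
      rw [hsqV, ← sum_mul, sum_neg_distrib, ← hUa]
      split_ifs <;> ring
    · simp only [zero_mulVec, add_zero, Sum.elim_inl, Pi.smul_apply, smul_eq_mul, mulVec,
        dotProduct, Pm, kroneckerMap_apply, Function.comp, Sum.elim_inr, g1, g2,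
        Fintype.sum_prod_type, Pi.add_apply, Pi.zero_apply, Matrix.zero_apply, zero_mul, sum_const_zero,
        mul_ite, mul_one, mul_zero, sum_ite_eq', mem_univ, if_true]
      rw [sum_congr rfl (g := fun y' => U y y' * Ua y' * V v a0) fun y' _ => by ring, ← sum_mul,
        hUUa]
      ring
  · simp only [Sum.elim_inl, g1, if_true, mul_one, Ua]
    rw [sum_congr rfl (g := fun _ => 1) fun y hy => by
      have := h1 y hy
      rcases hU.tri i0 y with h | h | h <;> simp_all]
    simp [h2]
  · rintro (⟨y, v⟩ | ⟨y, v⟩) hy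
    · have : T3 (g1 (y, v)) := by
        simp only [g1]
        split_ifs with hv
        · rw [mul_one]
          exact T3.of_abs (h3 y fun h => hy (by rw [h, hv]))
        · rw [mul_zero]; exact T3.zero
      exact ⟨this, by simpa using this⟩
    · refine ⟨T3.neg (T3.mul (ha y) (hV.tri _ _)), ?_⟩
      simp only [fromBlocks_apply₂₁, Pm, kroneckerMap_apply, Sum.elim_inr, g2, a]
      split_ifs
      · rw [hU.symm y i0, add_neg_cancel]; exact T3.zero
      · rw [zero_mul, neg_zero, add_zero]; exact T3.mul (hU.tri _ _) (hV.tri _ _)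

/-- State of the induction. -/
def St (e γ s : ℕ) : Prop :=
  ∃ (ι : Type) (_ : Fintype ι) (_ : DecidableEq ι) (M : Matrix ι ι ℤ) (p : ι) (χ : ι → ℤ),
    Odd (Fintype.card ι) ∧ Fintype.card ι ≤ 1 + s * (256 * e ^ 6) ∧ M * M = ((e : ℤ) ^ 2) • 1 ∧
    (∀ y, χ y = 0 ∨ χ y = 1) ∧ χ p = 1 ∧ (∀ y, χ y = 1 → M p y = γ) ∧
    (∀ y, χ y = 0 → T3 (M p y)) ∧ (∀ x, x ≠ p → ∀ y, T3 (M x y)) ∧ χ ᵥ* M = (e : ℤ) • χ

theorem conj_apply {ι : Type} [Fintype ι] [DecidableEq ι] (M : Matrix ι ι ℤ) (p x a b : ι) :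
    (transvection p x (-1 : ℤ) * M * transvection p x (1 : ℤ)) a b =
      (M a b - if a = p then M x b else 0) +
        if b = x then (M a p - if a = p then M x p else 0) else 0 := by
  have h : ∀ b, (transvection p x (-1 : ℤ) * M) a b = M a b - if a = p then M x b else 0 := by
    intro b
    by_cases h : a = p
    · subst h
      rw [transvection_mul_apply_same]
      simp [sub_eq_add_neg]
    · rw [transvection_mul_apply_of_ne _ _ _ _ h]
      simp [h]
  by_cases hb : b = x
  · subst hb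
    rw [mul_transvection_apply_same, h, h]
    simp
  · rw [mul_transvection_apply_of_ne _ _ _ _ hb, h]
    simp [hb]

theorem vecMul_trans {ι : Type} [Fintype ι] [DecidableEq ι] (v : ι → ℤ) (p x b : ι) (c : ℤ) :
    (v ᵥ* transvection p x c) b = v b + if b = x then v p * c else 0 := by
  rw [transvection, vecMul_add, vecMul_one, Pi.add_apply]
  congr 1
  simp only [vecMul, dotProduct, single_apply, mul_ite, mul_zero]
  by_cases h : b = x
  · subst h
    simp
  · simp [h, Ne.symm h]

theorem step {e γ s : ℕ} (he : e ≠ 0) (hγ : γ ≤ e) (h : St e (γ + 1) s) : St e γ (s + 1) := by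
  obtain ⟨ι, _, _, M, p, χ, hodd, hcard, hsq, h01, hp, hrow, hrow', hoth, hev⟩ := h
  obtain ⟨κ, _, _, W, x, g, heven, hck, hW, hWt, hg, hgx, hxx, hgy⟩ := gadget he hγ
  let M1 : Matrix (ι ⊕ κ) (ι ⊕ κ) ℤ := fromBlocks M 0 (vecMulVec g χ) W
  have hM1 : M1 * M1 = ((e : ℤ) ^ 2) • 1 := by
    simp only [M1]
    rw [fromBlocks_multiply, ← fromBlocks_one, fromBlocks_smul, vecMulVec_mul, mul_vecMulVec W, hev,
      hg, hsq, hW]
    congr 1
    · simp
    · simp
    · ext a b
      simp [vecMulVec_apply]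
      ring
    · simp
  have hne : (Sum.inl p : ι ⊕ κ) ≠ Sum.inr x := by simp
  have hT : transvection (Sum.inl p : ι ⊕ κ) (Sum.inr x) (1 : ℤ) *
      transvection (Sum.inl p) (Sum.inr x) (-1 : ℤ) = 1 := by
    rw [transvection_mul_transvection_same _ _ hne]; simp
  have hT' : transvection (Sum.inl p : ι ⊕ κ) (Sum.inr x) (-1 : ℤ) *
      transvection (Sum.inl p) (Sum.inr x) (1 : ℤ) = 1 := by
    rw [transvection_mul_transvection_same _ _ hne]; simp
  have hχ : ∀ y, T3 (χ y) := fun y => by rcases h01 y with h | h <;> simp [T3, h]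
  refine ⟨ι ⊕ κ, inferInstance, inferInstance,
    transvection (.inl p) (.inr x) (-1 : ℤ) * M1 * transvection (.inl p) (.inr x) (1 : ℤ), .inr x,
    Sum.elim χ (fun y => if y = x then 1 else 0), ?_, ?_, ?_, ?_, by simp, ?_, ?_, ?_, ?_⟩
  · rw [Fintype.card_sum]; exact hodd.add_even heven
  · rw [Fintype.card_sum]; nlinarith
  · calc _ = transvection (.inl p) (.inr x) (-1 : ℤ) * (M1 * (transvection (Sum.inl p : ι ⊕ κ)
          (Sum.inr x) (1 : ℤ) * transvection (Sum.inl p) (Sum.inr x) (-1 : ℤ)) * M1) *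
          transvection (.inl p) (.inr x) (1 : ℤ) := by simp only [Matrix.mul_assoc]
      _ = _ := by rw [hT, Matrix.mul_one, hM1, Matrix.mul_smul, Matrix.smul_mul, Matrix.mul_one, hT']
  · rintro (y | y)
    · exact h01 y
    · by_cases h : y = x <;> simp [h]
  · rintro (y | y) hy
    · simp only [Sum.elim_inl] at hy
      simp [conj_apply, M1, vecMulVec_apply, hy, hgx]
    · have : y = x := by simpa using hy
      subst this
      simp [conj_apply, M1, vecMulVec_apply, hp, hgx, hxx]
  · rintro (y | y) hy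
    · simp only [Sum.elim_inl] at hy
      simp [conj_apply, M1, vecMulVec_apply, hy, T3]
    · have : y ≠ x := by simpa using hy
      simpa [conj_apply, M1, vecMulVec_apply, this] using hWt x y
  · rintro (a | a) ha (b | b)
    · by_cases h : a = p
      · subst h
        rcases h01 b with hb | hb
        · simpa [conj_apply, M1, vecMulVec_apply, hb] using hrow' b hb
        · simp [conj_apply, M1, vecMulVec_apply, hb, hrow b hb, hgx, T3]
      · simpa [conj_apply, M1, vecMulVec_apply, h] using hoth a h b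
    · by_cases h : a = p
      · subst h
        by_cases hb : b = x
        · subst hb
          simp [conj_apply, M1, vecMulVec_apply, hp, hrow a hp, hgx, hxx, T3]
        · simpa [conj_apply, M1, vecMulVec_apply, hb] using (hWt x b).neg
      · by_cases hb : b = x
        · simpa [conj_apply, M1, vecMulVec_apply, hb, h] using hoth a h p
        · simp [conj_apply, M1, vecMulVec_apply, hb, h, T3]
    · have h : a ≠ x := fun h => ha (by rw [h])
      simpa [conj_apply, M1, vecMulVec_apply] using (hgy a h).1.mul (hχ b)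
    · have h : a ≠ x := fun h => ha (by rw [h])
      by_cases hb : b = x
      · subst hb
        simpa [conj_apply, M1, vecMulVec_apply, hp] using (hgy a h).2
      · simpa [conj_apply, M1, vecMulVec_apply, hb] using hWt a b
  · have e1 : Sum.elim χ (fun y => if y = x then (1 : ℤ) else 0) ᵥ*
        transvection (Sum.inl p : ι ⊕ κ) (Sum.inr x) (-1 : ℤ) = Sum.elim χ 0 := by
      ext (b | b)
      · simp [vecMul_trans]
      · by_cases h : b = x <;> simp [vecMul_trans, h, hp]
    have e2 : Sum.elim χ (0 : κ → ℤ) ᵥ* M1 = (e : ℤ) • Sum.elim χ 0 := by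
      simp only [M1]
      rw [vecMul_fromBlocks]
      ext (b | b)
      · simp [hev]
      · simp
    rw [← vecMul_vecMul, ← vecMul_vecMul, e1, e2, smul_vecMul]
    congr 1
    ext (b | b)
    · simp [vecMul_trans]
    · by_cases h : b = x <;> simp [vecMul_trans, h, hp]

theorem st {e : ℕ} (he : e ≠ 0) (s : ℕ) (hs : s ≤ e) : St e (e - s) s := by
  induction s with
  | zero =>
    refine ⟨Unit, inferInstance, inferInstance, (e : ℤ) • 1, (), fun _ => 1, by simp, by simp,
      by simp [smul_smul, sq], fun _ => Or.inr rfl, rfl, fun y _ => by simp, fun y h => by simp at h,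
      fun x hx => (hx rfl).elim, ?_⟩
    ext y
    simp [vecMul, dotProduct]
  | succ s ih =>
    refine step he (by omega) ?_
    rw [show e - (s + 1) + 1 = e - s by omega]
    exact ih (by omega)

end OddP

open OddP in
theorem oddW : S_OddW := by
  intro e he
  obtain ⟨ι, _, _, M, p, χ, hodd, hcard, hsq, h01, hp, hrow, hrow', hoth, -⟩ :=
    st (e := e) (by omega) (e - 1) (by omega)
  have hT : ∀ a b, T3 (M a b) := fun a b => by
    by_cases h : a = p
    · subst h
      rcases h01 b with hb | hb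
      · exact hrow' b hb
      · rw [hrow b hb, show e - (e - 1) = 1 by omega]; simp [T3]
    · exact hoth a h b
  refine ⟨Fintype.card ι, hodd, hcard.trans ?_, fun k hk => ?_⟩
  · have h1 : 1 ≤ e ^ 7 := Nat.one_le_pow _ _ he
    have h2 : (e - 1) * (256 * e ^ 6) ≤ e * (256 * e ^ 6) := by gcongr; omega
    nlinarith
  let E : Fin (Fintype.card ι * k) ≃ ι × Fin k := (Fintype.equivFinOfCardEq (by simp)).symm
  have hsq' : ∀ x z, ∑ y, M x y * M y z = if x = z then (e : ℤ) ^ 2 else 0 := fun x z => by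
    have := congrFun (congrFun hsq x) z
    rw [mul_apply] at this
    rw [this]
    by_cases h : x = z <;> simp [one_apply, h]
  let W : ι × Fin k → ι × Fin k → ℤ := fun x y => if x.2 = y.2 then M x.1 y.1 else 0
  refine ⟨⟨fun x y => W (E x) (E y), E.symm (p, ⟨0, hk⟩), fun x z => ?_, fun x y => ?_⟩,
    univ.filter fun x => (E x).2 = ⟨0, hk⟩, ?_, fun y hy x hx => ?_⟩
  · rw [E.sum_comp fun y => W (E x) y * W y (E z)]
    simp only [← E.apply_eq_iff_eq (x := x)]
    obtain ⟨a, i⟩ := E x
    obtain ⟨b, j⟩ := E z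
    simp only [W, Fintype.sum_prod_type, ite_mul, zero_mul, sum_ite_eq, mem_univ, if_true,
      Prod.mk.injEq]
    by_cases h : i = j
    · simp only [h, if_true, and_true, hsq']
    · simp [h]
  · simp only [W]
    split_ifs
    · exact hT _ _
    · exact Or.inl rfl
  · rw [← card_map E.toEmbedding]
    have : (univ.filter fun x => (E x).2 = ⟨0, hk⟩).map E.toEmbedding =
        (univ : Finset ι) ×ˢ {⟨0, hk⟩} := by
      ext ⟨a, i⟩
      simp [mem_map_equiv, eq_comm]
    rw [this]
    simp
  · simp only [mem_filter, mem_univ, true_and] at hy ⊢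
    by_contra h
    exact hx (if_neg fun h' => h (h'.symm.trans hy))

end

end Pool.Agent.P.MP_009630_co.Dn
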