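import Pool.Agent.P.MP_009630_co.Dn.St

/-! Choice of the jump cell and of the feature zone away from few points. -/

set_option autoImplicit false

namespace Pool.Agent.P.MP_009630_co.Dn

open Finset

namespace OptP

/-- Pigeonhole: `N` equally spaced short arcs, fewer than `N` points. -/
theorem pigeon {n : ℕ} [NeZero n] {m N : ℕ} (s : Finset (ZMod n)) (hs : s.card < N)
    (a δ l : ℝ) (hl : l < δ) (hδ : 0 ≤ δ) (hN : N * δ ≤ m) :
    ∃ o : ℕ, o < N ∧ ∀ y ∈ s, ¬ At m y (a + o * δ) (a + o * δ + l) := by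
  classical
  by_contra hc
  push Not at hc
  have key : ∀ i j : ℕ, i < j → j < N → ∀ y : ZMod n, At m y (a + i * δ) (a + i * δ + l) →
      At m y (a + j * δ) (a + j * δ + l) → False := by
    intro i j hij hj y p q
    have h1 : (i : ℝ) + 1 ≤ j := by exact_mod_cast hij
    have h2 : (j : ℝ) + 1 ≤ N := by exact_mod_cast hj
    have h3 : (0 : ℝ) ≤ i := Nat.cast_nonneg i
    have h4 : ((i : ℝ) + 1) * δ ≤ j * δ := mul_le_mul_of_nonneg_right h1 hδ
    have h5 : ((j : ℝ) + 1) * δ ≤ N * δ := mul_le_mul_of_nonneg_right h2 hδ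
    have h6 : 0 ≤ (i : ℝ) * δ := mul_nonneg h3 hδ
    exact p.disj q (by nlinarith) (by nlinarith)
  choose f hf using fun o : Fin N => hc o.val o.isLt
  have hinj : Function.Injective f := by
    intro i j e
    rcases lt_trichotomy i.val j.val with h | h | h
    · exact (key i j h j.isLt (f i) (hf i).2 (e ▸ (hf j).2)).elim
    · exact Fin.ext h
    · exact (key j i h i.isLt (f j) (hf j).2 (e ▸ (hf i).2)).elim
  have : (univ : Finset (Fin N)).card ≤ s.card :=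
    card_le_card_of_injOn f (fun o _ => (hf o).1) hinj.injOn
  simp at this
  omega

end OptP

theorem opt : S_Opt := by
  intro P n _ t s hs
  obtain ⟨a1, a2, a3, a4, a5, a6, a7, a8, a9, a10, a11, a12, a13, a14, a15, a16, a17⟩ := P.factsZ
  obtain ⟨b1, b2, b3, b4, b5, b6, b7, b8, b9, b10, b11, b12, b13, b14, b15, b16, b17⟩ := P.factsR
  have hw1 : (0 : ℤ) ≤ P.w1 := by omega
  have hw1' : (0 : ℝ) ≤ P.w1 := by exact_mod_cast hw1
  have hS : (0 : ℝ) ≤ P.S := by exact_mod_cast (by omega : (0 : ℤ) ≤ P.S)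
  set τ0 : ℤ := ⌈t⌉ + P.S + 9 with hτ0
  obtain ⟨o, ho, h1⟩ := OptP.pigeon (m := P.m) (N := P.D + 3) s (by omega) ((τ0 : ℝ) - 6) 14 13
    (by norm_num) (by norm_num) (by push_cast; nlinarith)
  obtain ⟨o', ho', h2⟩ := OptP.pigeon (m := P.m) (N := P.D + 3) s (by omega)
    ((τ0 : ℝ) - (P.D + 3) * (P.w1 + 14) - 6) (P.w1 + 14) (P.w1 + 12)
    (by linarith) (by linarith) (by push_cast; nlinarith)
  have c1 : t ≤ ⌈t⌉ := Int.le_ceil t
  have c2 : (⌈t⌉ : ℝ) < t + 1 := Int.ceil_lt_add_one t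
  have d1 : (o : ℝ) ≤ P.D + 2 := by exact_mod_cast (by omega : o ≤ P.D + 2)
  have d2 : (0 : ℝ) ≤ o := Nat.cast_nonneg o
  have e1 : (o' : ℤ) ≤ P.D + 2 := by exact_mod_cast (by omega : o' ≤ P.D + 2)
  have e2 : (0 : ℤ) ≤ o' := Int.natCast_nonneg o'
  have e3 : (o : ℤ) ≤ P.D + 2 := by exact_mod_cast (by omega : o ≤ P.D + 2)
  have e4 : (0 : ℤ) ≤ o := Int.natCast_nonneg o
  have e5 : 0 ≤ (o' : ℤ) * (P.w1 + 14) := mul_nonneg e2 (by omega)
  have e6 : (o' : ℤ) * (P.w1 + 14) ≤ (P.D + 2) * (P.w1 + 14) :=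
    mul_le_mul_of_nonneg_right e1 (by omega)
  refine ⟨τ0 + 14 * o, τ0 - (P.D + 3) * (P.w1 + 14) + o' * (P.w1 + 14), ?_, ?_, ⟨?_, ?_⟩,
    fun y hy => ⟨fun h => h1 y hy (h.mono ?_ ?_), fun h => h2 y hy (h.mono ?_ ?_)⟩⟩
  · rw [hτ0]; push_cast; linarith
  · rw [hτ0]; push_cast; linarith
  · nlinarith
  · nlinarith
  all_goals (push_cast; linarith)

end Pool.Agent.P.MP_009630_co.Dn
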