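import Pool.Agent.P.MP_009630_co.Dn.St

/-!
The pair zone of a block member.
-/

set_option autoImplicit false

namespace Pool.Agent.P.MP_009630_co.Dn

open Finset

theorem pz : S_Pz := by
  intro P n _ c Lb ι _ ix hinj hix p fl a b E1 E2 w p' s' hw h1 h2
  obtain ⟨a1, a2, a3, a4, a5, a6, a7, a8, a9, a10, a11, a12, a13, a14, a15, a16, a17⟩ := P.factsR
  have hm := P.m_pos
  have hlen : (P.lenP : ℝ) + 20 < P.m := by nlinarith
  have hq : (3 : ℝ) ≤ P.q := by linarith
  have hsum : Feat P.m (∑ s, if fl s then pt (Lb.lk false (p + 2 * ix s) (b s)) -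
      pt (Lb.lk false (p + 2 * ix s + 1) (a s)) else 0) p (p + 2 * P.q - 1 / 2) := by
    refine Feat.sum univ (l := fun s => (p : ℝ) + 2 * ix s + 1 / 20)
      (h := fun s => (p : ℝ) + 2 * ix s + 1 + 3 / 20) (fun s _ => ?_) (fun s _ => ?_)
      (fun s _ s' _ hs => ?_) (by linarith)
    · split_ifs
      · have b1 := Lb.lk_f (p + 2 * ix s) (b s)
        have b2 := Lb.lk_f (p + 2 * ix s + 1) (a s)
        push_cast at b1 b2
        exact Feat.dip hm b1 b2 (by linarith) (by linarith)
      · exact Feat.zero _ _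
    · have b1 : ((ix s : ℤ) : ℝ) + 1 ≤ P.q := by exact_mod_cast hix s
      have b2 : (0 : ℝ) ≤ ix s := Nat.cast_nonneg _
      push_cast at b1
      constructor <;> linarith
    · rcases lt_or_gt_of_ne (hinj.ne hs) with h | h
      · have b1 : (ix s : ℝ) + 1 ≤ ix s' := by exact_mod_cast h
        left; linarith
      · have b1 : (ix s' : ℝ) + 1 ≤ ix s := by exact_mod_cast h
        right; linarith
  have hE := hsum.add h1 (Or.inl (by linarith)) (lo := p) (hi := p + 2 * P.q + P.ls + 1)
    le_rfl (by linarith) (by linarith) le_rfl (by linarith)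
  rcases hw with rfl | rfl
  · have b1 := Lb.vp_at p' s' (p + 2 * P.q + P.ls + 2)
    have b2 := Lb.vm_at p' s' (p + 2 * P.q + P.ls + P.s2 + 6)
    push_cast at b1 b2
    have b3 := h2.hole hm b1 b2 (by linarith) (by linarith) (by linarith) (by linarith)
    refine (hE.add b3 (Or.inl (by linarith)) (by linarith) (by linarith) (by linarith)
      (by linarith) (by linarith)).congr ?_
    simp only [Lib.dip, if_true, one_smul]
    abel
  · have b1 := Lb.vp_at p' s' (p - 1)
    have b2 := Lb.vm_at p' s' (p + 2 * P.q + P.ls + 2)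
    push_cast at b1 b2
    have b3 := hE.hole hm b1 b2 (by linarith) (by linarith) (by linarith) (by linarith)
    refine (b3.add h2 (Or.inl (by linarith)) (by linarith) (by linarith) (by linarith)
      (by linarith) (by linarith)).congr ?_
    have b4 : ¬ ((-1 : ℤ) = 1) := by decide
    simp only [Lib.dip, if_true, if_neg b4, neg_smul, one_smul]
    abel

end Pool.Agent.P.MP_009630_co.Dn
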