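import Pool.Agent.P.MP_009630_co.Dn.St

/-! Relaxation step of a run. -/

set_option autoImplicit false

namespace Pool.Agent.P.MP_009630_co.Dn

open Finset

noncomputable section

namespace RelaxP

variable {n : ℕ}

theorem near {m : ℕ} {y y' : ZMod n} {lo hi : ℝ} (h : At m y' lo hi)
    (d : At m (y' - y) (-2) 2) : At m y (lo - 2) (hi + 2) := by
  have := h.sub d
  rw [sub_sub_cancel] at this
  exact this.mono le_rfl (by linarith)

theorem far_near {P : Par} {τ z : ℤ} {y y' : ZMod n} (h : Far P τ z y 6)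
    (d : At P.m (y' - y) (-2) 2) : Far P τ z y' 4 :=
  ⟨fun a => h.1 ((near a d).mono (by linarith) (by linarith)),
    fun a => h.2 ((near a d).mono (by linarith) (by linarith))⟩

theorem far_mono {P : Par} {τ z : ℤ} {y : ZMod n} (h : Far P τ z y 6) : Far P τ z y 4 :=
  ⟨fun a => h.1 (a.mono (by linarith) (by linarith)),
    fun a => h.2 (a.mono (by linarith) (by linarith))⟩

/-- A short dipole outside the arc from `τ1` to `τ2`. -/
theorem rowLem [NeZero n] {P : Par} {C1 C2 : Dv n} {τ1 z1 τ2 z2 : ℤ} {p q y0 : ZMod n} {b : ℝ}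
    (hp : At P.m p b (b + 1)) (hq : At P.m q (b + 1) (b + 2)) (hC : C2 - C1 = pt q - pt p)
    (h1 : τ1 < τ2) (h2 : τ2 < τ1 + P.m) (h3 : (τ2 : ℝ) + 1 ≤ b) (h4 : b + 2 ≤ τ1 + P.m - 1)
    (h0 : At P.m y0 b (b + 2)) (f1 : ¬ At P.m y0 (z1 - 4) (z1 + P.w1 + 4))
    (f2 : ¬ At P.m y0 (z2 - 4) (z2 + P.w1 + 4)) : RowOK P C1 τ1 z1 C2 τ2 z2 := by
  have hm : (100 : ℝ) ≤ P.m := by exact_mod_cast P.m_ge
  refine ⟨?_, ?_⟩
  · rw [hC, mom_sub, mom_pt, mom_pt]
    exact (hq.sub hp).mono (by linarith) (by linarith)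
  · obtain ⟨e, he, hE⟩ := Feat.dip P.m_pos hp hq le_rfl (by linarith)
    refine ⟨e, ?_, fun y hy => ?_⟩
    · rw [hC, ← neg_sub, hE, neg_neg]
    · rcases he y with h | ⟨h, a⟩
      · exact absurd h hy
      · have d : At P.m (y - y0) (-2) 2 := (a.sub h0).mono (by linarith) (by linarith)
        refine ⟨fun g => f1 ((near g d).mono (by linarith) (by linarith)),
          fun g => f2 ((near g d).mono (by linarith) (by linarith)), 0, by simpa using h1,
          by simpa using h2, Or.inr ⟨h, a.mono (by simpa using h3) h4⟩⟩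

/-- A point far from both jumps and not between them has a cell outside. -/
theorem outside [NeZero n] {m : ℕ} (hm : 0 < m) {y : ZMod n} {lo hi : ℝ} {a : ℤ}
    (ha : At m y (a + 1 / 5) (a + 4 / 5)) (f1 : ¬ At m y (lo - 4) (lo + 1 + 4))
    (f2 : ¬ At m y (hi - 4) (hi + 1 + 4)) (f3 : ¬ At m y (lo + 1) (hi - 1)) :
    ∃ u : ℤ, hi + 4 ≤ a + u * m ∧ (a : ℝ) + u * m ≤ lo + m - 4 := by
  obtain ⟨Y, e, y1, y2⟩ := exists_lift hm y (lo - 4)
  obtain ⟨Y0, e0, a1, a2⟩ := ha
  obtain ⟨u, -, hu⟩ := lift_ps (m := m) (e0.trans e.symm)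
  have b1 : lo + 1 + 4 < ps m n Y := by
    by_contra g
    exact f1 ⟨Y, e, y1, not_lt.1 g⟩
  have b2 : hi - 1 < ps m n Y := by
    by_contra g
    exact f3 ⟨Y, e, by linarith, not_lt.1 g⟩
  have b3 : hi + 1 + 4 < ps m n Y := by
    by_contra g
    exact f2 ⟨Y, e, by linarith, not_lt.1 g⟩
  exact ⟨u, by linarith, by linarith⟩

theorem sg_cases (dir : Bool) : (dir = true ∧ sg dir = 1) ∨ (dir = false ∧ sg dir = -1) := by
  cases dir <;> simp [sg]

/-- The new jump cell and feature zone. -/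
theorem pick (h : S_Opt) (P : Par) [NeZero n] {c : ZMod n} (E : Env P c) (x : ZMod n)
    (dir : Bool) (C : Dv n) (τ : ℤ) (tc : At P.m (c * x - mom C) (τ - P.S - P.S1) (τ - P.S))
    (v : Fin P.D → ZMod n) :
    ∃ τ' z' : ℤ, Win P τ' z' ∧ (∀ i, Far P τ' z' (v i) 6) ∧ 1 ≤ sg dir * (τ' - τ) ∧
      sg dir * (τ' - τ) ≤ P.m - 2 ∧ ∀ C' : Dv n, At P.m (mom (C' - C)) (-8) 8 →
        At P.m (c * (x + ((sg dir : ℤ) : ZMod n)) - mom C') (τ' - P.S - P.S1) (τ' - P.S) := by
  classical
  obtain ⟨T, eT, t1, t2⟩ := tc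
  obtain ⟨R, eR, r1, r2⟩ := E.hpos
  obtain ⟨a1, a2, a3, a4, a5, a6, a7, a8, a9, a10, a11, a12, a13, a14, a15, a16, a17⟩ := P.factsR
  have hc : (univ.image v).card ≤ P.D + 2 :=
    card_image_le.trans (by simp)
  obtain ⟨τ', z', o1, o2, o3, o4⟩ := h P n (ps P.m n (T + sg dir * R)) (univ.image v) hc
  have hS : (0 : ℝ) ≤ P.S := by linarith
  have hw : (0 : ℝ) ≤ P.w := by linarith
  refine ⟨τ', z', o3, fun i => o4 _ (mem_image_of_mem v (mem_univ i)), ?_, ?_, fun C' hC => ?_⟩
  · rw [ps_add, ps_mul] at o1 o2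
    rcases sg_cases dir with ⟨-, e⟩ | ⟨-, e⟩
    · rw [e] at o1 o2 ⊢
      have : (1 : ℝ) ≤ 1 * (τ' - τ) := by push_cast at o1 o2; linarith
      exact_mod_cast this
    · rw [e] at o1 o2 ⊢
      have : (1 : ℝ) ≤ -1 * (τ' - τ) := by push_cast at o1 o2; linarith
      exact_mod_cast this
  · rw [ps_add, ps_mul] at o1 o2
    rcases sg_cases dir with ⟨-, e⟩ | ⟨-, e⟩
    · rw [e] at o1 o2 ⊢
      have : 1 * ((τ' : ℝ) - τ) ≤ P.m - 2 := by push_cast at o1 o2; linarith
      exact_mod_cast this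
    · rw [e] at o1 o2 ⊢
      have : -1 * ((τ' : ℝ) - τ) ≤ P.m - 2 := by push_cast at o1 o2; linarith
      exact_mod_cast this
  · have := (At.intCast (m := P.m) (n := n) (T + sg dir * R)).sub hC
    have e : (((T + sg dir * R : ℤ)) : ZMod n) - mom (C' - C) =
        c * (x + (sg dir : ℤ)) - mom C' := by
      rw [mom_sub]; push_cast; rw [eT, eR]; ring
    rw [e] at this
    exact this.mono (by linarith) (by linarith)

/-- Change of the scaffolding when one dipole shrinks. -/
theorem scaf_sub {P : Par} {c : ZMod n} (Lb : Lib P c) (p : ℤ) (sf sf' : Fin P.D → Bool)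
    (sa sa' sb : Fin P.D → ℤ) (i : Fin P.D) (h1 : ∀ j, j ≠ i → sf' j = sf j)
    (h2 : ∀ j, j ≠ i → sa' j = sa j) :
    Lb.scaf p sf' sa' sb - Lb.scaf p sf sa sb =
      Lb.dip p (2 * P.k + i) (sf' i) (sa' i) (sb i) -
        Lb.dip p (2 * P.k + i) (sf i) (sa i) (sb i) := by
  unfold Lib.scaf
  rw [← sum_sub_distrib, sum_eq_single i]
  · intro j _ hj
    rw [h1 j hj, h2 j hj, sub_self]
  · intro hi
    exact absurd (mem_univ i) hi

end RelaxP

open RelaxP in
theorem relax (h : S_Opt) : S_Relax := by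
  classical
  intro P n _ c E Lb x dir r kk inv hγ
  have hm : (100 : ℝ) ≤ P.m := by exact_mod_cast P.m_ge
  set p := P.pz r.a r.f with hp
  obtain ⟨τ', z', win, far, s1, s2, tc⟩ := pick h P E x dir (r.C Lb) r.τ inv.ok.tc
    (fun i => Lb.vp p (2 * P.k + i) (r.sa i))
  by_cases H : ∀ i, kk i ≠ 0 → (∀ i', i' < i → kk i' = 0) →
      At P.m (Lb.vp p (2 * P.k + i) (r.sa i)) ((min r.τ τ' : ℤ) + 1) ((max r.τ τ' : ℤ) - 1)
  · refine ⟨{ r with τ := τ', z := z' }, kk, ⟨⟨win, tc (r.C Lb) ?_, inv.ok.hγ, fun g => ?_⟩,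
      inv.hsf, inv.hsb, inv.hkk, inv.free, fun i _ => far_mono (far i)⟩, ⟨rfl, rfl, rfl, rfl⟩,
      hγ, ?_, s1, s2, Or.inr ⟨rfl, rfl, H⟩⟩
    · simpa using At.zero (by norm_num) (by norm_num)
    · exact absurd g (by simp [hγ])
    · split_ifs
      · exact RowOK.refl P (r.C Lb) _ _ _ _
      · exact RowOK.refl P (r.C Lb) _ _ _ _
  · push Not at H
    obtain ⟨i, hi, -, out⟩ := H
    set y0 := Lb.vp p (2 * P.k + i) (r.sa i) with hy0
    have a0 : At P.m y0 (r.sa i + 1 / 5) (r.sa i + 4 / 5) := Lb.vp_at _ _ _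
    have f0 : Far P r.τ r.z y0 4 := inv.far i hi
    have f1 : Far P τ' z' y0 4 := far_mono (far i)
    set kk' : Fin P.D → ℕ := Function.update kk i (kk i - 1) with hkk'
    set sa' : Fin P.D → ℤ := Function.update r.sa i (r.sa i + sg dir) with hsa'
    have k1 : ∀ j, j ≠ i → kk' j = kk j := fun j hj => Function.update_of_ne hj _ _
    have k2 : kk' i = kk i - 1 := Function.update_self _ _ _
    have k3 : ∀ j, j ≠ i → sa' j = r.sa j := fun j hj => Function.update_of_ne hj _ _
    have k4 : sa' i = r.sa i + sg dir := Function.update_self _ _ _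
    set r' : RD P n := { r with τ := τ', z := z', sf := fun j => decide (kk' j ≠ 0), sa := sa' }
      with hr'
    have hsg : (sg dir : ℝ) = 1 ∨ (sg dir : ℝ) = -1 := by
      rcases sg_cases dir with ⟨-, e⟩ | ⟨-, e⟩ <;> simp [e]
    obtain ⟨y1, a1, hC⟩ : ∃ y1 : ZMod n,
        At P.m y1 (r.sa i + sg dir + 1 / 5) (r.sa i + sg dir + 4 / 5) ∧
          r'.C Lb - r.C Lb = pt y1 - pt y0 := by
      have e : r'.C Lb - r.C Lb = Lb.dip p (2 * P.k + i) (decide (kk' i ≠ 0)) (sa' i) (r.sb i) -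
          Lb.dip p (2 * P.k + i) (r.sf i) (r.sa i) (r.sb i) := by
        rw [← scaf_sub Lb p r.sf (fun j => decide (kk' j ≠ 0)) r.sa sa' r.sb i
          (fun j hj => by rw [inv.hsf j, k1 j hj]) k3]
        show (Lb.scaf p _ _ _ + _) - (Lb.scaf p _ _ _ + _) = _
        exact add_sub_add_right_eq_sub _ _ _
      have e1 : r.sf i = true := by rw [inv.hsf i]; simpa using hi
      rw [e, e1, k4]
      by_cases g : kk' i = 0
      · have g1 : kk i = 1 := by omega
        have g2 : r.sb i = r.sa i + sg dir := by rw [inv.hsb i hi, g1]; simp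
        refine ⟨Lb.vm p (2 * P.k + i) (r.sb i), ?_, ?_⟩
        · have := Lb.vm_at p (2 * P.k + i) (r.sb i)
          rw [g2] at this ⊢
          exact_mod_cast this
        · simp [Lib.dip, g, hy0]
      · refine ⟨Lb.vp p (2 * P.k + i) (r.sa i + sg dir), ?_, ?_⟩
        · have := Lb.vp_at p (2 * P.k + i) (r.sa i + sg dir)
          exact_mod_cast this
        · simp [Lib.dip, g, hy0]
    have hmom : At P.m (mom (r'.C Lb - r.C Lb)) (-8) 8 := by
      rw [hC, mom_sub, mom_pt, mom_pt]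
      refine (a1.sub a0).mono ?_ ?_ <;> rcases hsg with e | e <;> rw [e] <;> linarith
    refine ⟨r', kk', ⟨⟨win, tc _ hmom, inv.ok.hγ, fun g => absurd g (by simp [hr', hγ])⟩,
      fun _ => rfl, fun j hj => ?_, fun j => ?_, fun j g => absurd g (by simp [hr', hγ]),
      fun j hj => ?_⟩, ⟨rfl, rfl, rfl, rfl⟩, hγ, ?_, s1, s2, Or.inl ?_⟩
    · show r.sb j = sa' j + sg dir * kk' j
      by_cases g : j = i
      · subst g
        rw [inv.hsb j hi, k4, k2, Nat.cast_sub (by omega)]
        push_cast; ring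
      · rw [k1 j g] at hj ⊢
        rw [k3 j g, inv.hsb j hj]
    · by_cases g : j = i
      · subst g
        have := inv.hkk j
        omega
      · rw [k1 j g]; exact inv.hkk j
    · show Far P τ' z' (Lb.vp p (2 * P.k + j) (sa' j)) 4
      by_cases g : j = i
      · subst g
        refine far_near (far j) ?_
        have := (Lb.vp_at p (2 * P.k + j) (sa' j)).sub a0
        rw [k4] at this ⊢
        push_cast at this
        refine this.mono ?_ ?_ <;> rcases hsg with e | e <;> rw [e] <;> linarith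
      · rw [k3 j g]; exact far_mono (far j)
    · rcases sg_cases dir with ⟨e0, e⟩ | ⟨e0, e⟩
      · rw [if_pos e0]
        rw [e] at s1 s2 a1
        rw [min_eq_left (by omega), max_eq_right (by omega)] at out
        obtain ⟨u, u1, u2⟩ := outside P.m_pos a0 f0.1 f1.1 out
        have b0 := a0.shift u
        have b1 := a1.shift u
        push_cast at b1
        exact rowLem (b := r.sa i + u * P.m) (p := y0) (q := y1) (y0 := y0)
          (b0.mono (by linarith) (by linarith)) (b1.mono (by linarith) (by linarith)) hC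
          (show r.τ < τ' by omega) (show τ' < r.τ + P.m by omega)
          (show (τ' : ℝ) + 1 ≤ _ by linarith) (by linarith)
          (b0.mono (by linarith) (by linarith)) f0.2 f1.2
      · rw [if_neg (by simp [e0])]
        rw [e] at s1 s2 a1
        rw [min_eq_right (by omega), max_eq_left (by omega)] at out
        obtain ⟨u, u1, u2⟩ := outside P.m_pos a0 f1.1 f0.1 out
        have b0 := a0.shift u
        have b1 := a1.shift u
        push_cast at b1
        have hC' : r.C Lb - r'.C Lb = pt y0 - pt y1 := by rw [← neg_sub, hC, neg_sub]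
        exact rowLem (b := r.sa i + u * P.m - 1) (p := y1) (q := y0) (y0 := y0)
          (b1.mono (by linarith) (by linarith)) (b0.mono (by linarith) (by linarith)) hC'
          (show τ' < r.τ by omega) (show r.τ < τ' + P.m by omega) (by linarith)
          (show _ ≤ (τ' : ℝ) + P.m - 1 by linarith)
          (b0.mono (by linarith) (by linarith)) f1.2 f0.2
    · rw [hkk', sum_update_of_mem (mem_univ i), ← add_sum_erase univ kk (mem_univ i),
        sdiff_singleton_eq_erase]
      omega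

end

end Pool.Agent.P.MP_009630_co.Dn
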