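import Pool.Agent.P.MP_009630_co.Dn.St

/-!
The rows are `{0,1}`-valued.
-/

set_option autoImplicit false

namespace Pool.Agent.P.MP_009630_co.Dn

namespace RowP

variable {P : Par} {n : ℕ} [NeZero n] {c : ZMod n}

/-- The distance of two consecutive jump cells. -/
theorem dist (E : Env P c) {x : ZMod n} {C C' : Dv n} {τ τ' : ℤ}
    (h1 : At P.m (c * x - mom C) (τ - P.S - P.S1) (τ + 1))
    (h2 : At P.m (c * (x + 1) - mom C') (τ' - P.S - P.S1) (τ' + 1))
    (h3 : At P.m (mom (C' - C)) (-8) 8) :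
    ∃ t : ℤ, (τ : ℝ) + P.w + 2 ≤ τ' + t * P.m ∧ (τ' : ℝ) + t * P.m ≤ τ + P.m - P.w - 2 := by
  obtain ⟨Y, e, a, b⟩ := (h1.add E.hpos).sub h3
  obtain ⟨Z, e', a', b'⟩ := h2
  obtain ⟨t, -, ht⟩ := lift_ps (m := P.m) (n := n) (Y := Z) (Z := Y) (by
    rw [e, e', mom_sub]; ring)
  exact ⟨t, by linarith, by linarith⟩

end RowP

theorem row : S_Row := by
  intro P n _ c E x Nx Nx' C C' τ z τ' z' ⟨⟨w1, w2⟩, a1, M, ⟨A, hA, A1, A2⟩, h, hh, eh⟩
    ⟨⟨w3, w4⟩, a2, M', hM', h', hh', eh'⟩ ⟨a3, e, he, hr⟩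
  obtain ⟨t, t1, t2⟩ := RowP.dist E a1 a2 a3
  obtain ⟨B, hB, B1, B2⟩ := hM'.shift t
  have v1 : (τ : ℝ) - P.w ≤ z := by exact_mod_cast w1
  have v2 : (z : ℝ) + P.w1 + 1 ≤ τ := by exact_mod_cast w2
  have v3 : (τ' : ℝ) - P.w ≤ z' := by exact_mod_cast w3
  have v4 : (z' : ℝ) + P.w1 + 1 ≤ τ' := by exact_mod_cast w4
  have v5 : (0 : ℝ) ≤ P.w := by
    have : 0 ≤ P.w := by
      obtain ⟨a1, a2, a3, a4, a5, a6, a7, a8, a9, a10, a11, a12, a13, a14, a15, a16, a17⟩ :=
        P.factsZ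
      omega
    exact_mod_cast this
  have one : ∀ y : ZMod n, At P.m y (τ + 1) (τ' + t * P.m - 1) → arc n A B y = 1 := by
    rintro y ⟨Y, f, f1, f2⟩
    exact arc_eq_one.2 ⟨Y, f, le_of_ps_le (n := n) P.m_pos (by linarith),
      lt_of_ps_lt (m := P.m) (n := n) (by linarith)⟩
  have zero : ∀ y : ZMod n, At P.m y (τ' + t * P.m + 1) (τ + P.m - 1) → arc n A B y = 0 := by
    intro y hy
    refine arc_eq_zero.2 ?_
    rintro ⟨Y, f, f1, f2⟩
    have g1 := ps_mono (m := P.m) (n := n) f1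
    have g2 := ps_lt (n := n) P.m_pos f2
    exact At.disj (l1 := τ) (h1 := ps P.m n Y) ⟨Y, f, by linarith, le_rfl⟩ hy (by linarith)
      (by linarith)
  have s1 : ∀ y : ZMod n, At P.m y z (z + P.w1) →
      At P.m y (τ' + t * P.m + 1) (τ + P.m - 1) := fun y hy =>
    (hy.shift 1).mono (by push_cast; linarith) (by push_cast; linarith)
  have s2 : ∀ y : ZMod n, At P.m y z' (z' + P.w1) → At P.m y (τ + 1) (τ' + t * P.m - 1) :=
    fun y hy => (hy.shift t).mono (by linarith) (by linarith)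
  refine ⟨arc n A B + h - h' + e, fun y => ?_, ?_⟩
  · simp only [Pi.add_apply, Pi.sub_apply]
    by_cases e0 : e y = 0
    · rcases hh y with b | ⟨b, b'⟩ <;> rcases hh' y with d | ⟨d, d'⟩
      · rcases arc_val A B y with f | f <;> omega
      · have := one y (s2 y d'); omega
      · have := zero y (s1 y b'); omega
      · have := one y (s2 y d'); have := zero y (s1 y b'); omega
    · obtain ⟨b1, b2, t', c1, c2, c3⟩ := hr y e0
      have b := (hh y).resolve_right fun b => b1 b.2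
      have d := (hh' y).resolve_right fun b => b2 b.2
      obtain rfl : t' = t := by
        have c4 : τ < τ' + t * P.m := by
          have : (τ : ℝ) < τ' + t * P.m := by linarith
          exact_mod_cast this
        have c5 : τ' + t * P.m < τ + P.m := by
          have : (τ' : ℝ) + t * P.m < τ + P.m := by linarith
          exact_mod_cast this
        have c6 : (0 : ℤ) < P.m := by exact_mod_cast P.m_pos
        rcases lt_trichotomy t' t with c7 | c7 | c7
        · nlinarith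
        · exact c7
        · nlinarith
      rcases c3 with ⟨c3, c4⟩ | ⟨c3, c4⟩
      · have := one y c4; omega
      · have := zero y c4; omega
  · rw [dd_add, dd_sub, dd_add, dd_arc (le_of_ps_le (n := n) P.m_pos (by linarith))
      (le_add_n (m := P.m) (by linarith)), hA, hB, ← he, ← neg_eq_iff_eq_neg.2 eh,
      ← neg_eq_iff_eq_neg.2 eh']
    abel

end Pool.Agent.P.MP_009630_co.Dn
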