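import Pool.Agent.P.MP_009630_co.Dn.St

/-! One-sided runs. -/

set_option autoImplicit false

namespace Pool.Agent.P.MP_009630_co.Dn

open Finset

namespace Run1P

theorem exists_seq {α : Type} (I : ℕ → α → Prop) (R : α → α → Prop) (a0 : α) (h0 : I 0 a0)
    (hs : ∀ j a, I j a → ∃ b, I (j + 1) b ∧ R a b) :
    ∃ f : ℕ → α, f 0 = a0 ∧ ∀ j, I j (f j) ∧ R (f j) (f (j + 1)) := by
  have : Nonempty α := ⟨a0⟩
  choose! g hg using hs
  let f : ℕ → α := fun j => Nat.rec a0 g j
  have hI : ∀ j, I j (f j) := fun j => by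
    induction j with
    | zero => exact h0
    | succ j ih => exact (hg j _ ih).1
  exact ⟨f, rfl, fun j => ⟨hI j, (hg j _ (hI j)).2⟩⟩

/-- a point cannot stay inside `m` consecutive short arcs -/
theorem stall {m : ℕ} (hm : 0 < m) (T A : ℕ → ℝ)
    (h1 : ∀ i < m, T i + 1 ≤ A i ∧ A i ≤ T (i + 1) - 1 ∧ T (i + 1) ≤ T i + (m - 2))
    (h2 : ∀ i, i + 1 < m → ∃ t : ℤ, A (i + 1) = A i + t * m) : False := by
  have hm' : (0 : ℝ) < m := by exact_mod_cast hm
  have key : ∀ i < m, A 0 + i * m ≤ A i ∧ T (i + 1) ≤ T 0 + (i + 1) * (m - 2) := by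
    intro i hi
    induction i with
    | zero => simpa using (h1 0 hi).2.2
    | succ i ih =>
      obtain ⟨a1, a2⟩ := ih (by omega)
      obtain ⟨t, ht⟩ := h2 i hi
      obtain ⟨-, b2, -⟩ := h1 i (by omega)
      obtain ⟨c1, -, c3⟩ := h1 (i + 1) hi
      have h0 : (0 : ℝ) < t := by
        by_contra hc
        nlinarith
      have h1' : (1 : ℝ) ≤ t := by exact_mod_cast (show (0 : ℤ) < t by exact_mod_cast h0)
      push_cast
      constructor <;> nlinarith
  obtain ⟨i, rfl⟩ : ∃ i, m = i + 1 := ⟨m - 1, by omega⟩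
  obtain ⟨a1, a2⟩ := key i (by omega)
  obtain ⟨b1, -, -⟩ := h1 0 hm
  obtain ⟨-, c2, -⟩ := h1 i (by omega)
  have : (0 : ℝ) ≤ i := Nat.cast_nonneg i
  push_cast at a1 a2
  nlinarith

theorem stall' {n m : ℕ} [NeZero n] (hm : 0 < m) (dir : Bool) (τ : ℕ → ℤ) (y : ZMod n)
    (h1 : ∀ i < m, 1 ≤ sg dir * (τ (i + 1) - τ i) ∧ sg dir * (τ (i + 1) - τ i) ≤ m - 2 ∧
      At m y (min (τ i : ℝ) (τ (i + 1)) + 1) (max (τ i : ℝ) (τ (i + 1)) - 1)) : False := by
  have h2 : ∀ i, ∃ Y : ℤ, i < m → (Y : ZMod n) = y ∧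
      min (τ i : ℝ) (τ (i + 1)) + 1 ≤ ps m n Y ∧ ps m n Y ≤ max (τ i : ℝ) (τ (i + 1)) - 1 := by
    intro i
    by_cases hi : i < m
    · obtain ⟨Y, hY⟩ := (h1 i hi).2.2
      exact ⟨Y, fun _ => hY⟩
    · exact ⟨0, fun h => absurd h hi⟩
  choose Y hY using h2
  refine stall hm (fun i => sg dir * τ i) (fun i => sg dir * ps m n (Y i)) (fun i hi => ?_)
    fun i hi => ?_
  · obtain ⟨a1, a2, -⟩ := h1 i hi
    obtain ⟨-, b1, b2⟩ := hY i hi
    have a1' : (1 : ℝ) ≤ sg dir * (τ (i + 1) - τ i) := by exact_mod_cast a1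
    have a2' : (sg dir : ℝ) * (τ (i + 1) - τ i) ≤ m - 2 := by exact_mod_cast a2
    cases dir
    · simp only [sg, Bool.false_eq_true, if_false, Int.cast_neg, Int.cast_one] at a1' a2' ⊢
      rw [min_eq_right (by linarith)] at b1
      rw [max_eq_left (by linarith)] at b2
      exact ⟨by linarith, by linarith, by linarith⟩
    · simp only [sg, if_true, Int.cast_one] at a1' a2' ⊢
      rw [min_eq_left (by linarith)] at b1
      rw [max_eq_right (by linarith)] at b2
      exact ⟨by linarith, by linarith, by linarith⟩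
  · obtain ⟨t, -, ht⟩ := lift_ps (m := m) ((hY i (by omega)).1.trans (hY (i + 1) hi).1.symm)
    exact ⟨sg dir * t, by rw [ht]; push_cast; ring⟩

/-- a non-increasing sequence that drops in every window of length `m` reaches zero -/
theorem zero_of {S : ℕ → ℕ} {D m B : ℕ} (h1 : ∀ j, D ≤ j → S (j + 1) ≤ S j)
    (h2 : ∀ j, D ≤ j → 0 < S j → S (j + m) < S j) (h3 : S D ≤ B) {j : ℕ} (hj : D + B * m ≤ j) :
    S j = 0 := by
  have mono : ∀ j, D ≤ j → ∀ i, S (j + i) ≤ S j := fun j hj i => by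
    induction i with
    | zero => exact le_rfl
    | succ i ih => exact (h1 (j + i) (by omega)).trans ih
  have key : ∀ s, S (D + s * m) ≤ B - s := fun s => by
    induction s with
    | zero => simpa using h3
    | succ s ih =>
      have a1 := h2 (D + s * m) (by omega)
      have a2 := mono (D + s * m) (by omega) m
      rw [show D + (s + 1) * m = D + s * m + m by ring]
      omega
  obtain ⟨i, rfl⟩ := Nat.exists_eq_add_of_le hj
  have a1 := key B
  have a2 := mono (D + B * m) (by omega) i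
  omega

end Run1P

open Run1P in
theorem run1 (h1 : S_Conv) (h2 : S_Relax) : S_Run1 := by
  intro P n _ c E Lb x dir r hr hsf
  obtain ⟨f, f0, hf⟩ := exists_seq (α := RD P n × (Fin P.D → ℕ))
    (fun j s => s.1.inv Lb (x + (sg dir * j : ℤ)) dir s.2)
    (fun s s' => s.1.same s'.1 ∧ s'.1.γ = s.1.γ - 1 ∧
      (if dir then s.1.row s'.1 Lb else s'.1.row s.1 Lb) ∧ (s.1.γ = 0 →
      1 ≤ sg dir * (s'.1.τ - s.1.τ) ∧ sg dir * (s'.1.τ - s.1.τ) ≤ P.m - 2 ∧
      (∑ i, s'.2 i + 1 = ∑ i, s.2 i ∨ (s'.2 = s.2 ∧ s'.1.sa = s.1.sa ∧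
        ∀ i, s.2 i ≠ 0 → (∀ i', i' < i → s.2 i' = 0) →
          At P.m (Lb.vp (P.pz s.1.a s.1.f) (2 * P.k + i) (s.1.sa i)) (min s.1.τ s'.1.τ + 1)
            (max s.1.τ s'.1.τ - 1))))) (r, fun _ => 0)
    ⟨by simpa using hr, by simpa using hsf, by simp, fun _ => P.m_pos, by simp, by simp⟩ (by
      intro j s hs
      have e : x + ((sg dir * (j + 1 : ℕ) : ℤ) : ZMod n) =
          x + ((sg dir * j : ℤ) : ZMod n) + (sg dir : ℤ) := by
        push_cast; ring
      rw [e]
      rcases Nat.eq_zero_or_pos s.1.γ with h0 | h0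
      · obtain ⟨r', kk', a1, a2, a3, a4, a5⟩ := h2 P n c E Lb _ dir s.1 s.2 hs h0
        exact ⟨(r', kk'), a1, a2, by simp [a3, h0], a4, fun _ => a5⟩
      · obtain ⟨r', kk', a1, a2, a3, a4⟩ := h1 P n c E Lb _ dir s.1 s.2 hs h0
        exact ⟨(r', kk'), a1, a2, by simp [← a3], a4, fun h => absurd h h0.ne'⟩)
  have hs : ∀ j, r.same (f j).1 ∧ (f j).1.γ = r.γ - j := fun j => by
    induction j with
    | zero => rw [f0]; exact ⟨⟨rfl, rfl, rfl, rfl⟩, rfl⟩
    | succ j ih =>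
      obtain ⟨⟨a1, a2, a3, a4⟩, a5, -⟩ := (hf j).2
      obtain ⟨⟨b1, b2, b3, b4⟩, b5⟩ := ih
      exact ⟨⟨a1.trans b1, a2.trans b2, a3.trans b3, a4.trans b4⟩, by omega⟩
  have hγ : ∀ j, P.D ≤ j → (f j).1.γ = 0 := fun j hj => by
    have := hr.hγ
    have := (hs j).2
    omega
  refine ⟨fun j => (f j).1, congrArg Prod.fst f0, fun j => ⟨(hs j).1, (hs j).2, (hf j).1.ok⟩,
    fun j => (hf j).2.2.2.1, fun j hj => ?_⟩
  have hst := fun j hj => (hf j).2.2.2.2 (hγ j hj)
  have mono : ∀ j, P.D ≤ j → ∑ i, (f (j + 1)).2 i ≤ ∑ i, (f j).2 i := fun j hj => by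
    rcases (hst j hj).2.2 with h | h
    · omega
    · rw [h.1]
  have hj' : P.D + P.D * P.m * P.m ≤ j := by
    have hL := P.hL
    have e : (P.D + P.D * P.m + 1) * (P.m + 2) =
        P.D + P.D * P.m * P.m + (P.D + 3 * (P.D * P.m) + P.m + 2) := by ring
    omega
  have h0 : ∑ i, (f j).2 i = 0 := by
    refine zero_of (S := fun j => ∑ i, (f j).2 i) (m := P.m) (B := P.D * P.m) mono
      (fun j hj hp => ?_) ?_ hj'
    · by_contra hc
      have mono' : ∀ i l, ∑ i', (f (j + i + l)).2 i' ≤ ∑ i', (f (j + i)).2 i' := fun i l => by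
        induction l with
        | zero => exact le_rfl
        | succ l ih => exact (mono (j + i + l) (by omega)).trans ih
      have hb : ∀ i < P.m, ¬ (∑ i', (f (j + i + 1)).2 i' + 1 = ∑ i', (f (j + i)).2 i') := by
        intro i hi h
        have a1 := mono' 0 i
        have a2 := mono' (i + 1) (P.m - (i + 1))
        rw [show j + (i + 1) + (P.m - (i + 1)) = j + P.m by omega, ← add_assoc] at a2
        rw [add_zero] at a1
        omega
      have hc' : ∀ i ≤ P.m, (f (j + i)).2 = (f j).2 ∧ (f (j + i)).1.sa = (f j).1.sa := by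
        intro i hi
        induction i with
        | zero => exact ⟨rfl, rfl⟩
        | succ i ih =>
          have a1 := (hst (j + i) (by omega)).2.2.resolve_left (hb i (by omega))
          have a2 := ih (by omega)
          exact ⟨a1.1.trans a2.1, a1.2.1.trans a2.2⟩
      have hne : (univ.filter fun i => (f j).2 i ≠ 0).Nonempty := by
        obtain ⟨i, -, hi⟩ := exists_ne_zero_of_sum_ne_zero hp.ne'
        exact ⟨i, by simpa using hi⟩
      have hi0 : (f j).2 (min' _ hne) ≠ 0 := by simpa using min'_mem _ hne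
      have hlt : ∀ i', i' < min' _ hne → (f j).2 i' = 0 := fun i' hi' => by
        by_contra h
        exact absurd (min'_le _ i' (by simpa using h)) (not_le.2 hi')
      refine stall' P.m_pos dir (fun i => (f (j + i)).1.τ)
        (Lb.vp (P.pz r.a r.f) (2 * P.k + (min' _ hne : Fin P.D)) ((f j).1.sa (min' _ hne)))
        fun i hi => ?_
      obtain ⟨a1, a2, a3⟩ := hst (j + i) (by omega)
      have a4 := (a3.resolve_left (hb i hi)).2.2 (min' _ hne)
      rw [(hc' i hi.le).1, (hc' i hi.le).2, (hs (j + i)).1.1, (hs (j + i)).1.2.1] at a4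
      have a5 := a4 hi0 hlt
      rw [Int.cast_min, Int.cast_max] at a5
      exact ⟨a1, a2, a5⟩
    · calc ∑ i, (f P.D).2 i ≤ ∑ _i : Fin P.D, P.m := sum_le_sum fun i _ => ((hf P.D).1.hkk i).le
        _ = P.D * P.m := by simp
  have h3 : ∀ i, (f j).1.sf i = false := fun i => by
    rw [(hf j).1.hsf i, sum_eq_zero_iff.1 h0 i (mem_univ i)]
    rfl
  simp [RD.C, Lib.scaf, Lib.dip, h3, hγ j (le_trans (Nat.le_add_right _ _) hj')]

end Pool.Agent.P.MP_009630_co.Dn
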