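import Pool.Agent.P.MP_009630_co.Dn.St

/-! Two-sided runs. -/

set_option autoImplicit false

namespace Pool.Agent.P.MP_009630_co.Dn

open Finset

noncomputable section

namespace Run2P

variable {n : ℕ} {P : Par} {c : ZMod n}

theorem ps_small [NeZero n] (E : Env P c) {j : ℤ} (hj : |j| ≤ P.L) :
    |ps P.m n j| ≤ 1 / 100 := by
  have hn := npos (n := n)
  have h1 : (100 : ℝ) * (P.L + 1) * P.m ≤ n := by exact_mod_cast E.hsm
  have h2 : |(j : ℝ)| ≤ P.L := by exact_mod_cast hj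
  have hm : (0 : ℝ) ≤ P.m := Nat.cast_nonneg P.m
  unfold ps
  rw [abs_div, abs_mul, abs_of_pos hn, abs_of_nonneg hm, div_le_iff₀ hn]
  have : |(j : ℝ)| * P.m ≤ P.L * P.m := by gcongr
  nlinarith

theorem loc_of [NeZero n] (E : Env P c) {x : ZMod n} {a j : ℤ} (hj : |j| ≤ P.L)
    (h : At P.m x (a + 1 / 5) (a + 4 / 5)) :
    At P.m (x + (j : ZMod n)) (a + 17 / 100) (a + 83 / 100) := by
  have h1 := abs_le.1 (ps_small E hj)
  exact (h.add (At.intCast j)).mono (by linarith) (by linarith)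

theorem far_mono {τ z : ℤ} {y : ZMod n} (h : Far P τ z y 6) : Far P τ z y 4 :=
  ⟨fun h' => h.1 (h'.mono (by linarith) (by linarith)),
    fun h' => h.2 (h'.mono (by linarith) (by linarith))⟩

/-- The initial data next to `c u`. -/
def r0 (P : Par) (u : ZMod n) (a : ℤ) (f : Bool) (τ z : ℤ) : RD P n where
  a := a
  f := f
  τ := τ
  z := z
  sf := fun _ => false
  sa := fun _ => 0
  sb := fun _ => 0
  γ := P.D
  pp := if 0 < P.d then u else 0
  pm := if 0 < P.d then 0 else u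

theorem r0_C (Lb : Lib P c) (u : ZMod n) (a : ℤ) (f : Bool) (τ z : ℤ) :
    (r0 P u a f τ z).C Lb = P.d • (pt u - pt 0) := by
  have h := P.abs_d
  unfold RD.C Lib.scaf Lib.dip r0
  simp only [Bool.false_eq_true, if_false, sum_const_zero, zero_add]
  split_ifs with hd
  · rw [← h, abs_of_pos hd]
  · rw [← h, abs_of_nonpos (not_lt.1 hd), neg_smul, ← smul_neg, neg_sub]

theorem exists_r0 (h1 : S_Opt) [NeZero n] (E : Env P c) (Lb : Lib P c) {u : ZMod n}
    (hu : u ∈ Lb.U) (a : ℤ) (f : Bool) (e : ℤ) :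
    ∃ τ z : ℤ, (r0 P u a f τ z).ok Lb (c * u + e) := by
  classical
  obtain ⟨Y, hY, -⟩ := exists_lift P.m_pos (c * (e : ZMod n)) 0
  have hc : ({u, 0} : Finset (ZMod n)).card ≤ P.D + 2 := card_le_two.trans (by omega)
  obtain ⟨τ, z, a1, a2, hw, hf⟩ := h1 P n (ps P.m n Y) {u, 0} hc
  have hu0 : u ≠ 0 := fun h => Lb.zero (h ▸ hu)
  have f1 := far_mono (hf u (by simp))
  have f0 := far_mono (hf 0 (by simp))
  refine ⟨τ, z, hw, ?_, le_rfl, fun _ => ?_⟩
  · have e1 : c * (c * u + e) - mom ((r0 P u a f τ z).C Lb) = c * e := by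
      rw [r0_C, mom_smul, mom_sub, mom_pt, mom_pt, ← E.hc]
      ring
    have hS := P.factsR.2.2.2.2.2.2.2.2.1
    rw [e1]
    refine ⟨Y, hY, ?_, ?_⟩
    · show (τ : ℝ) - P.S - P.S1 ≤ _
      linarith
    · show _ ≤ (τ : ℝ) - P.S
      linarith
  · show (if 0 < P.d then u else 0) ≠ (if 0 < P.d then 0 else u) ∧
      Far P τ z (if 0 < P.d then u else 0) 4 ∧ Far P τ z (if 0 < P.d then 0 else u) 4
    split_ifs
    · exact ⟨hu0, f1, f0⟩
    · exact ⟨hu0.symm, f0, f1⟩

theorem exists_a [NeZero n] (Lb : Lib P c) {u : ZMod n} (hu : u ∈ Lb.U) :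
    ∃ (a : ℤ) (f : Bool), At P.m (c * u) (a + 1 / 5) (a + 4 / 5) ∧
      ((f = true ∧ 0 ≤ a ∧ 2 * a ≤ P.m) ∨ (f = false ∧ -(P.m : ℤ) ≤ 2 * a ∧ a ≤ -1)) := by
  obtain ⟨a0, h0⟩ := Lb.mid u hu
  have hm : (0 : ℤ) < P.m := by exact_mod_cast P.m_pos
  have h1 := Int.emod_nonneg a0 hm.ne'
  have h2 := Int.emod_lt_of_pos a0 hm
  have h3 : a0 % P.m = a0 + (-(a0 / P.m)) * P.m := by
    have := Int.emod_add_mul_ediv a0 P.m
    linarith
  have h4 : ((a0 % P.m : ℤ) : ℝ) = a0 + ((-(a0 / P.m) : ℤ) : ℝ) * P.m := by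
    rw [h3]
    push_cast
    ring
  have h5 : At P.m (c * u) ((a0 % P.m : ℤ) + 1 / 5) ((a0 % P.m : ℤ) + 4 / 5) :=
    (h0.shift (-(a0 / P.m))).mono (by linarith) (by linarith)
  by_cases h : 2 * (a0 % P.m) ≤ P.m
  · exact ⟨a0 % P.m, true, h5, Or.inl ⟨rfl, h1, h⟩⟩
  · refine ⟨a0 % P.m - P.m, false, (h5.shift (-1)).mono ?_ ?_, Or.inr ⟨rfl, by omega, by omega⟩⟩
    · push_cast
      linarith
    · push_cast
      linarith

theorem pre [NeZero n] (E : Env P c) {Lb : Lib P c} {u : ZMod n} (hu : u ∈ Lb.U) {a : ℤ}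
    {f : Bool} (ha : At P.m (c * u) (a + 1 / 5) (a + 4 / 5))
    (hf : (f = true ∧ 0 ≤ a ∧ 2 * a ≤ P.m) ∨ (f = false ∧ -(P.m : ℤ) ≤ 2 * a ∧ a ≤ -1))
    {τ z j : ℤ} (h0 : j ≠ 0) (hj : |j| ≤ P.L) {r : RD P n} (hs : (r0 P u a f τ z).same r)
    (hok : r.ok Lb (c * u + j)) : StarPre Lb (c * u + j) r u (decide (0 < j)) := by
  obtain ⟨e1, e2, e3, e4⟩ := hs
  have e1' : r.a = a := e1
  have e2' : r.f = f := e2
  refine ⟨hok, e1' ▸ loc_of E hj ha, fun _ => ⟨hu, e3, e4, e1' ▸ e2' ▸ hf, ?_⟩⟩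
  obtain ⟨V, hV, v1, v2⟩ := ha
  have h1 := abs_le.1 (ps_small E hj)
  rw [e1']
  refine ⟨V + j, V, by push_cast; rw [hV], hV, ?_, ?_, by linarith, by linarith, ?_⟩
  · rw [ps_add]
    linarith
  · rw [ps_add]
    linarith
  · by_cases h : 0 < j
    · simp only [h, decide_true, if_true]
      omega
    · simp only [h, decide_false, Bool.false_eq_true, if_false]
      omega

end Run2P

open Run2P

theorem run2 (h : S_Run1) : S_Run2 := by
  intro P n _ c E Lb x r hok hsf hγ hx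
  obtain ⟨sT, t0, t1, t2, t3⟩ := h P n c E Lb x true r hok hsf
  obtain ⟨sF, f0, f1, f2, f3⟩ := h P n c E Lb x false r hok hsf
  have hL := P.L_ge
  refine ⟨fun j => if 0 ≤ j then sT j.toNat else sF (-j).toNat, by simpa using t0,
    fun j h0 hj => ?_, fun j => ?_, fun j hj => ?_⟩
  · have key : ∀ (r' : RD P n) (i : ℕ) (e : ℤ), 0 < i → e = j → r.same r' ∧ r'.γ = r.γ - i ∧
        r'.ok Lb (x + (e : ℤ)) → r'.γ = 0 ∧ StarPre Lb (x + j) r' 0 true := by
      rintro r' i e hi rfl ⟨a1, a2, a3⟩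
      have hz : r'.γ = 0 := by omega
      exact ⟨hz, a3, a1.1 ▸ loc_of E hj hx, fun h => absurd h (by omega)⟩
    by_cases hp : 0 ≤ j
    · simp only [hp, if_true]
      exact key _ j.toNat _ (by omega) (by simp only [sg, if_true]; omega) (t1 _)
    · simp only [hp, if_false]
      exact key _ (-j).toNat _ (by omega)
        (by simp only [sg, Bool.false_eq_true, if_false]; omega) (f1 _)
  · by_cases hp : 0 ≤ j
    · have hp' : 0 ≤ j + 1 := by omega
      have e : (j + 1).toNat = j.toNat + 1 := by omega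
      simp only [hp, hp', if_true, e]
      simpa using t2 j.toNat
    · have e : (-j).toNat = (-(j + 1)).toNat + 1 := by omega
      have h2 := f2 (-(j + 1)).toNat
      simp only [Bool.false_eq_true, if_false] at h2
      by_cases hp' : 0 ≤ j + 1
      · have e1 : (j + 1).toNat = 0 := by omega
        have e2 : (-(j + 1)).toNat = 0 := by omega
        simp only [hp, hp', if_true, if_false, e, e1]
        rw [t0, ← f0, e2]
        rw [e2] at h2
        exact h2
      · simp only [hp, hp', if_false, e]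
        exact h2
  · have hj' := abs_eq (by omega : (0 : ℤ) ≤ P.L) |>.1 hj
    by_cases hp : 0 ≤ j
    · simp only [hp, if_true]
      exact t3 _ (by omega)
    · simp only [hp, if_false]
      exact f3 _ (by omega)

theorem runV (h1 : S_Opt) (h2 : S_Run1) : S_RunV := by
  intro P n _ c E Lb u hu
  obtain ⟨a, f, ha, hf⟩ := exists_a Lb hu
  obtain ⟨τ, z, ok1⟩ := exists_r0 h1 E Lb hu a f 1
  obtain ⟨τ', z', ok2⟩ := exists_r0 h1 E Lb hu a f (-1)
  obtain ⟨sT, t0, t1, t2, t3⟩ := h2 P n c E Lb _ true _ ok1 fun _ => rfl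
  obtain ⟨sF, f0, f1, f2, f3⟩ := h2 P n c E Lb _ false _ ok2 fun _ => rfl
  have hL := P.L_ge
  refine ⟨fun j => if 0 < j then sT (j - 1).toNat else sF (-j - 1).toNat,
    fun j h0 hj => ?_, fun j h0 h0' => ?_, ?_, ?_, fun j hj => ?_⟩
  · by_cases hp : 0 < j
    · obtain ⟨a1, -, a3⟩ := t1 (j - 1).toNat
      have e : j = 1 + sg true * ((j - 1).toNat : ℤ) := by
        simp only [sg, if_true]
        omega
      rw [add_assoc, ← Int.cast_add, ← e] at a3
      have := pre E hu ha hf h0 hj a1 a3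
      simpa only [hp, if_true] using this
    · obtain ⟨a1, -, a3⟩ := f1 (-j - 1).toNat
      have e : j = -1 + sg false * ((-j - 1).toNat : ℤ) := by
        simp only [sg, Bool.false_eq_true, if_false]
        omega
      rw [add_assoc, ← Int.cast_add, ← e] at a3
      have := pre E hu ha hf h0 hj a1 a3
      simpa only [hp, if_false] using this
  · by_cases hp : 0 < j
    · have hp' : 0 < j + 1 := by omega
      have e : (j + 1 - 1).toNat = (j - 1).toNat + 1 := by omega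
      simp only [hp, hp', if_true, e]
      simpa using t2 (j - 1).toNat
    · have hp' : ¬ 0 < j + 1 := by omega
      have e : (-j - 1).toNat = (-(j + 1) - 1).toNat + 1 := by omega
      simp only [hp, hp', if_false, e]
      simpa using f2 (-(j + 1) - 1).toNat
  · show (sT 0).C Lb = _
    rw [t0, r0_C]
  · show (sF 0).C Lb = _
    rw [f0, r0_C]
  · have hj' := abs_eq (by omega : (0 : ℤ) ≤ P.L) |>.1 hj
    by_cases hp : 0 < j
    · simp only [hp, if_true]
      exact t3 _ (by omega)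
    · simp only [hp, if_false]
      exact f3 _ (by omega)

end

end Pool.Agent.P.MP_009630_co.Dn
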