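import Pool.Agent.P.MP_009630_co.Dn.St

/-! All special blocks. -/

set_option autoImplicit false

namespace Pool.Agent.P.MP_009630_co.Dn

open Finset

namespace SpecP

theorem num1 {U Q t a f D N : ℕ} (hQ : 2 ≤ Q) (ht : t ≤ Q) (ha : a ≤ (U + 1) * Q ^ 2)
    (hf : f ≤ 2 * ((U + 1) * Q ^ 2)) (hN : (U + 1) * Q ^ 6 * (D + 2) ≤ N) :
    t * (t * a + f) < N := by
  set V := (U + 1) * Q ^ 2 with hV
  have hV0 : 0 < V := by positivity
  have h1 : t * (t * a + f) ≤ Q * (Q * V + Q * V) := by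
    gcongr
    exact hf.trans (Nat.mul_le_mul_right _ hQ)
  have h2 : Q ^ 2 < Q ^ 4 := Nat.pow_lt_pow_right hQ (by norm_num)
  have h3 : V * Q ^ 2 < V * Q ^ 4 := Nat.mul_lt_mul_of_pos_left h2 hV0
  have h4 : V * Q ^ 4 * 2 ≤ (U + 1) * Q ^ 6 * (D + 2) := by
    rw [show V * Q ^ 4 = (U + 1) * Q ^ 6 by rw [hV]; ring]
    exact Nat.mul_le_mul_left _ (by omega)
  have h5 : Q * (Q * V + Q * V) = V * Q ^ 2 * 2 := by ring
  omega

theorem num2 {u U Q a b : ℕ} (hu : u ≤ U) (hQ : 2 ≤ Q) (ha : a ≤ u * Q) (hb : b ≤ u * Q ^ 2) :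
    1 + 2 * u + (a + b) ≤ (U + 1) * Q ^ 4 := by
  have h1 : 4 ≤ Q ^ 2 := by nlinarith
  have h2 : Q ≤ Q ^ 2 := by nlinarith
  have h3 : 4 * Q ^ 2 ≤ Q ^ 4 := by
    rw [show Q ^ 4 = Q ^ 2 * Q ^ 2 by ring]
    exact Nat.mul_le_mul_right _ h1
  have h4 : u * Q ≤ u * Q ^ 2 := Nat.mul_le_mul_left _ h2
  have h5 : u * 4 ≤ u * Q ^ 2 := Nat.mul_le_mul_left _ h1
  have h6 : u * (4 * Q ^ 2) ≤ U * Q ^ 4 := Nat.mul_le_mul hu h3
  have h7 : (U + 1) * Q ^ 4 = U * Q ^ 4 + Q ^ 4 := by ring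
  have h8 : u * (4 * Q ^ 2) = 4 * (u * Q ^ 2) := by ring
  omega

theorem inj_stage {A G ι : Type} {F : Finset G} {i0 : ι} {x : A → G} {pos : A → ι → G}
    (hx : ∀ a a', x a = x a' → a = a') (hF : ∀ a, x a ∈ F) (h0 : ∀ a, pos a i0 = x a)
    (h1 : ∀ a i, i ≠ i0 → pos a i ∉ F)
    (h2 : ∀ a i a' i', i ≠ i0 → i' ≠ i0 → pos a i = pos a' i' → a = a' ∧ i = i') :
    ∀ a i a' i', pos a i = pos a' i' → a = a' ∧ i = i' := by
  intro a i a' i' h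
  by_cases e : i = i0 <;> by_cases e' : i' = i0
  · subst e e'
    exact ⟨hx _ _ (by rw [← h0, ← h0, h]), rfl⟩
  · subst e
    exact (h1 a' i' e' (by rw [← h, h0]; exact hF a)).elim
  · subst e'
    exact (h1 a i e (by rw [h, h0]; exact hF a')).elim
  · exact h2 a i a' i' e e' h

theorem C_zero {P : Par} {n : ℕ} {c : ZMod n} (Lb : Lib P c) {r : RD P n}
    (h1 : ∀ j, r.sf j = false) (h2 : r.γ = 0) : r.C Lb = 0 := by
  simp [RD.C, Lib.scaf, Lib.dip, h1, h2]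

/-- the nonzero offsets -/
abbrev JJ (L : ℕ) : Type := {j : ℤ // j ∈ (Icc (-(L : ℤ)) L).erase 0}

theorem mem_J {L : ℕ} {j : ℤ} : j ∈ (Icc (-(L : ℤ)) L).erase 0 ↔ j ≠ 0 ∧ |j| ≤ L := by
  rw [mem_erase, mem_Icc, abs_le]

theorem card_I (L : ℕ) : (Icc (-(L : ℤ)) L).card = 2 * L + 1 := by
  rw [Int.card_Icc]
  omega

theorem card_J (L : ℕ) : Fintype.card (JJ L) = 2 * L := by
  rw [Fintype.card_coe, card_erase_of_mem (by simp), card_I]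
  rfl

/-- neighbours along a run -/
theorem nbr {P : Par} {n : ℕ} [NeZero n] {c : ZMod n} {Lb : Lib P c} {B : Type}
    {pos : B → Fin P.k → ZMod n} {rd : B → Fin P.k → RD P n} {x : ZMod n} {seq : ℤ → RD P n}
    (h : ∀ j : ℤ, |j| ≤ P.L → ∃ b i, pos b i = x + j ∧ rd b i = seq j)
    (hr : ∀ j : ℤ, (seq j).row (seq (j + 1)) Lb) {j : ℤ} (hj : |j| < P.L) :
    (∃ b' i', pos b' i' = x + j + 1 ∧ (seq j).row (rd b' i') Lb) ∧
      ∃ b' i', pos b' i' = x + j - 1 ∧ (rd b' i').row (seq j) Lb := by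
  rw [abs_lt] at hj
  obtain ⟨b, i, e, e'⟩ := h (j + 1) (abs_le.2 ⟨by omega, by omega⟩)
  obtain ⟨b', i', f, f'⟩ := h (j - 1) (abs_le.2 ⟨by omega, by omega⟩)
  refine ⟨⟨b, i, by rw [e]; push_cast; ring, e' ▸ hr j⟩,
    ⟨b', i', by rw [f]; push_cast; ring, ?_⟩⟩
  have := hr (j - 1)
  rwa [sub_add_cancel, ← f'] at this

/-- neighbours along a run around `c u` -/
theorem nbrV {P : Par} {n : ℕ} [NeZero n] {c : ZMod n} {Lb : Lib P c} {B : Type}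
    {pos : B → Fin P.k → ZMod n} {rd : B → Fin P.k → RD P n} {u : ZMod n} (hu : u ∈ Lb.U)
    {seq : ℤ → RD P n}
    (h : ∀ j : ℤ, j ≠ 0 → |j| ≤ P.L → ∃ b i, pos b i = c * u + j ∧ rd b i = seq j)
    (hr : ∀ j : ℤ, j ≠ 0 → j + 1 ≠ 0 → (seq j).row (seq (j + 1)) Lb) {j : ℤ} (h0 : j ≠ 0)
    (hj : |j| < P.L) :
    ((∃ v ∈ Lb.U, c * u + j + 1 = c * v) ∨
      ∃ b' i', pos b' i' = c * u + j + 1 ∧ (seq j).row (rd b' i') Lb) ∧
    ((∃ v ∈ Lb.U, c * u + j - 1 = c * v) ∨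
      ∃ b' i', pos b' i' = c * u + j - 1 ∧ (rd b' i').row (seq j) Lb) := by
  rw [abs_lt] at hj
  constructor
  · by_cases e : j + 1 = 0
    · obtain rfl : j = -1 := by omega
      exact Or.inl ⟨u, hu, by push_cast; ring⟩
    · obtain ⟨b, i, f, f'⟩ := h (j + 1) e (abs_le.2 ⟨by omega, by omega⟩)
      exact Or.inr ⟨b, i, by rw [f]; push_cast; ring, f' ▸ hr j h0 e⟩
  · by_cases e : j - 1 = 0
    · obtain rfl : j = 1 := by omega
      exact Or.inl ⟨u, hu, by push_cast; ring⟩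
    · obtain ⟨b, i, f, f'⟩ := h (j - 1) e (abs_le.2 ⟨by omega, by omega⟩)
      refine Or.inr ⟨b, i, by rw [f]; push_cast; ring, ?_⟩
      have := hr (j - 1) e (by omega)
      rwa [sub_add_cancel, ← f'] at this

theorem Q_facts (P : Par) : 2 ≤ P.Q ∧ 2 * P.L + 2 ≤ P.Q ∧ 2 * P.L * P.k ≤ P.Q := by
  unfold Par.Q
  refine ⟨?_, ?_, ?_⟩ <;> nlinarith [Nat.zero_le P.k, Nat.zero_le P.L, Nat.zero_le (P.L * P.k)]

end SpecP

open SpecP in
theorem spec (h1 : S_Stage) (h2 : S_Run2) (h3 : S_RunV) : S_Spec := by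
  intro P n _ c N0 X E hE hL Lb hCl hU hN
  classical
  obtain ⟨i0, hi0⟩ : ∃ i0 : Fin P.k, i0.val = 0 := ⟨⟨0, P.hk⟩, rfl⟩
  obtain ⟨q1, q2, q3⟩ := Q_facts P
  have hL2 := P.L_ge
  have z0 : |(0 : ℤ)| ≤ P.L := by simp
  choose sV v1 v2 v3 v4 v5 using fun u : {u // u ∈ Lb.U} => h3 P n c hE Lb u.1 u.2
  set I : Finset ℤ := Icc (-(P.L : ℤ)) P.L with hI
  have mI : ∀ j : ℤ, |j| ≤ P.L → j ∈ I := fun j hj => mem_Icc.2 (abs_le.1 hj)
  set F1 : Finset (ZMod n) :=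
    insert 0 (Lb.U ∪ (Lb.U ×ˢ I).image fun p => c * p.1 + (p.2 : ZMod n)) with hF1
  have m1 : ∀ u ∈ Lb.U, ∀ j : ℤ, |j| ≤ P.L → c * u + j ∈ F1 := fun u hu j hj =>
    mem_insert_of_mem (mem_union_right _ (mem_image.2 ⟨(u, j), mem_product.2 ⟨hu, mI j hj⟩, rfl⟩))
  have n1 : ∀ y, y ∉ F1 → y ≠ 0 ∧ y ∉ Lb.U ∧ ∀ u ∈ Lb.U, y ≠ c * u := fun y hy =>
    ⟨fun h => hy (h ▸ mem_insert_self _ _), fun h => hy (mem_insert_of_mem (mem_union_left _ h)),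
      fun u hu h => hy (by simpa [h] using m1 u hu 0 z0)⟩
  have QQ : P.Q ≤ P.Q ^ 2 := by nlinarith
  have c1 : F1.card ≤ (P.Ub X + 1) * P.Q ^ 2 := by
    have a : F1.card ≤ Lb.U.card + Lb.U.card * (2 * P.L + 1) + 1 := by
      refine (card_insert_le _ _).trans (Nat.succ_le_succ ((card_union_le _ _).trans ?_))
      refine Nat.add_le_add_left (card_image_le.trans ?_) _
      rw [card_product, card_I]
    have b : Lb.U.card * (2 * P.L + 2) ≤ P.Ub X * P.Q ^ 2 := Nat.mul_le_mul hU (q2.trans QQ)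
    nlinarith
  have a1 : Fintype.card ({u // u ∈ Lb.U} × JJ P.L) * P.k ≤ Lb.U.card * P.Q := by
    rw [Fintype.card_prod, Fintype.card_coe, card_J, mul_assoc]
    exact Nat.mul_le_mul_left _ q3
  obtain ⟨p1, r1, s1, s2, s3, s4⟩ := h1 P n c N0 X E hE hL Lb hCl i0 hi0 ({u // u ∈ Lb.U} × JJ P.L)
    (fun a => c * a.1.1 + (a.2.1 : ZMod n)) (fun a => sV a.1 a.2.1) (fun a => a.1.1)
    (fun a => decide (0 < a.2.1)) F1
    (fun a => v1 a.1 a.2.1 (mem_J.1 a.2.2).1 (mem_J.1 a.2.2).2)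
    (num1 q1 (by omega) (a1.trans (Nat.mul_le_mul (by omega) QQ)) (by omega) hN)
  choose sR w1 w2 w3 w4 using
    fun a : ({u // u ∈ Lb.U} × JJ P.L) × {i : Fin P.k // i ≠ i0} =>
      h2 P n c hE Lb (p1 a.1 a.2.1) (r1 a.1 a.2.1) (s2 a.1 a.2.1 a.2.2).1 (s2 a.1 a.2.1 a.2.2).2.1
        (s2 a.1 a.2.1 a.2.2).2.2.1 (s2 a.1 a.2.1 a.2.2).2.2.2.2.1
  have a2 : Fintype.card (({u // u ∈ Lb.U} × JJ P.L) × {i : Fin P.k // i ≠ i0}) ≤
      Lb.U.card * P.Q := by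
    rw [Fintype.card_prod]
    refine le_trans (Nat.mul_le_mul_left _ ?_) a1
    exact (Fintype.card_subtype_le _).trans (Fintype.card_fin _).le
  have a3 : Fintype.card ((({u // u ∈ Lb.U} × JJ P.L) × {i : Fin P.k // i ≠ i0}) × JJ P.L) *
      P.k ≤ Lb.U.card * P.Q ^ 2 := by
    rw [Fintype.card_prod, card_J, mul_assoc, sq, ← mul_assoc Lb.U.card]
    exact Nat.mul_le_mul a2 q3
  set F2 : Finset (ZMod n) := F1 ∪ (univ ×ˢ I).image
    fun p : (({u // u ∈ Lb.U} × JJ P.L) × {i : Fin P.k // i ≠ i0}) × ℤ =>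
      p1 p.1.1 p.1.2.1 + (p.2 : ZMod n) with hF2
  have m2 : ∀ a i, i ≠ i0 → ∀ j : ℤ, |j| ≤ P.L → p1 a i + j ∈ F2 := fun a i hi j hj =>
    mem_union_right _ (mem_image.2 ⟨((a, ⟨i, hi⟩), j), mem_product.2 ⟨mem_univ _, mI j hj⟩, rfl⟩)
  have c2 : F2.card ≤ 2 * ((P.Ub X + 1) * P.Q ^ 2) := by
    refine (card_union_le _ _).trans ?_
    rw [two_mul]
    refine Nat.add_le_add c1 (card_image_le.trans ?_)
    rw [card_product, card_I, card_univ, sq, ← mul_assoc]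
    exact Nat.mul_le_mul (a2.trans (Nat.mul_le_mul_right _ (by omega))) (by omega)
  obtain ⟨p2, r2, t1, t2, t3, t4⟩ := h1 P n c N0 X E hE hL Lb hCl i0 hi0
    ((({u // u ∈ Lb.U} × JJ P.L) × {i : Fin P.k // i ≠ i0}) × JJ P.L)
    (fun a => p1 a.1.1 a.1.2.1 + (a.2.1 : ZMod n)) (fun a => sR a.1 a.2.1) (fun _ => 0)
    (fun _ => true) F2
    (fun a => (w2 a.1 a.2.1 (mem_J.1 a.2.2).1 (mem_J.1 a.2.2).2).2)
    (num1 q1 (by omega) (a3.trans (Nat.mul_le_mul_right _ (by omega))) c2 hN)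
  have o1 : ∀ a i, i ≠ i0 → ∀ j : ℤ, |j| ≤ P.L → p1 a i + j ∉ F1 := fun a i hi =>
    (s2 a i hi).2.2.2.2.2
  have o1' : ∀ a i, i ≠ i0 → p1 a i ∉ F1 := fun a i hi => by simpa using o1 a i hi 0 z0
  have o2 : ∀ a i, i ≠ i0 → p2 a i ∉ F2 := fun a i hi => by
    simpa using (t2 a i hi).2.2.2.2.2 0 z0
  have i1 := inj_stage (F := F1) (pos := p1) (fun a a' h => by
      obtain ⟨e, e'⟩ := Lb.disj _ a.1.2 _ a'.1.2 _ _ (mem_J.1 a.2.2).2 (mem_J.1 a'.2.2).2 h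
      exact Prod.ext (Subtype.ext e) (Subtype.ext e'))
    (fun a => m1 _ a.1.2 _ (mem_J.1 a.2.2).2) (fun a => (s1 a).1) o1'
    fun a i a' i' hi hi' h => by
      have := s3 a i a' i' hi hi' 0 0 z0 z0 (by rw [h])
      exact ⟨this.1, this.2.1⟩
  have i2 := inj_stage (F := F2) (pos := p2) (fun a a' h => by
      obtain ⟨e, e', e''⟩ := s3 _ _ _ _ a.1.2.2 a'.1.2.2 _ _ (mem_J.1 a.2.2).2
        (mem_J.1 a'.2.2).2 h
      exact Prod.ext (Prod.ext e (Subtype.ext e')) (Subtype.ext e''))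
    (fun a => m2 _ _ a.1.2.2 _ (mem_J.1 a.2.2).2) (fun a => (t1 a).1) o2
    fun a i a' i' hi hi' h => by
      have := t3 a i a' i' hi hi' 0 0 z0 z0 (by rw [h])
      exact ⟨this.1, this.2.1⟩
  have m0 : ∀ a, p1 a i0 ∈ F1 := fun a => by
    rw [(s1 a).1]
    exact m1 _ a.1.2 _ (mem_J.1 a.2.2).2
  have i3 : ∀ a i b i', p1 a i ≠ p2 b i' := by
    intro a i b i' h
    by_cases e' : i' = i0
    · rw [e', (t1 b).1] at h
      by_cases e : i = i0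
      · exact o1 _ _ b.1.2.2 _ (mem_J.1 b.2.2).2 (by rw [← h, e]; exact m0 a)
      · exact (mem_J.1 b.2.2).1
          (s3 _ _ _ _ e b.1.2.2 0 _ z0 (mem_J.1 b.2.2).2 (by simpa using h)).2.2.symm
    · refine o2 b i' e' ?_
      rw [← h]
      by_cases e : i = i0
      · rw [e]
        exact mem_union_left _ (m0 a)
      · simpa using m2 a i e 0 z0
  have hV : ∀ (u : {u // u ∈ Lb.U}) (j : ℤ), j ≠ 0 → |j| ≤ P.L →
      ∃ b i, Sum.elim p1 p2 b i = c * u.1 + j ∧ Sum.elim r1 r2 b i = sV u j := fun u j h0 hj =>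
    ⟨.inl (u, ⟨j, mem_J.2 ⟨h0, hj⟩⟩), i0, (s1 _).1, (s1 _).2⟩
  have hR : ∀ a (j : ℤ), |j| ≤ P.L →
      ∃ b i, Sum.elim p1 p2 b i = p1 a.1 a.2.1 + j ∧ Sum.elim r1 r2 b i = sR a j := by
    intro a j hj
    by_cases h0 : j = 0
    · exact ⟨.inl a.1, a.2.1, by simp [h0], by rw [h0, w1]; rfl⟩
    · exact ⟨.inr (a, ⟨j, mem_J.2 ⟨h0, hj⟩⟩), i0, (t1 _).1, (t1 _).2⟩
  refine ⟨_, inferInstance, Sum.elim p1 p2, Sum.elim r1 r2, ?_, ?_, ?_, ?_, ?_, ?_⟩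
  · rw [Fintype.card_sum, add_mul]
    exact num2 hU q1 a1 a3
  · rintro (a | a) i (a' | a') i' h
    · exact (i1 a i a' i' h).imp_left (congrArg _)
    · exact (i3 _ _ _ _ h).elim
    · exact (i3 _ _ _ _ (Eq.symm h)).elim
    · exact (i2 a i a' i' h).imp_left (congrArg _)
  · rintro (a | a) i
    · by_cases e : i = i0
      · have := Lb.disjU _ a.1.2 _ (mem_J.1 a.2.2).2
        rw [Sum.elim_inl, e, (s1 a).1]
        exact ⟨this.2, this.1, fun u hu h => (mem_J.1 a.2.2).1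
          (Lb.disj _ a.1.2 u hu _ 0 (mem_J.1 a.2.2).2 z0 (by simpa using h)).2⟩
      · exact n1 _ (o1' a i e)
    · by_cases e : i = i0
      · rw [Sum.elim_inr, e, (t1 a).1]
        exact n1 _ (o1 _ _ a.1.2.2 _ (mem_J.1 a.2.2).2)
      · exact n1 _ fun h => o2 a i e (mem_union_left _ h)
  · rintro (a | a)
    exacts [s4 a, t4 a]
  · intro u hu
    obtain ⟨b, i, e, e'⟩ := hV ⟨u, hu⟩ 1 one_ne_zero (by rw [abs_one]; omega)
    obtain ⟨b', i', f, f'⟩ := hV ⟨u, hu⟩ (-1) (by omega) (by rw [abs_neg, abs_one]; omega)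
    exact ⟨⟨b, i, by rw [e]; push_cast; ring, by rw [e']; exact v3 _⟩,
      ⟨b', i', by rw [f]; push_cast; ring, by rw [f']; exact v4 _⟩⟩
  · rintro (a | a) i hC
    · by_cases e : i = i0
      · rw [Sum.elim_inl, e, (s1 a).2] at hC
        rw [Sum.elim_inl, Sum.elim_inl, e, (s1 a).1, (s1 a).2]
        exact nbrV a.1.2 (hV a.1) (v2 a.1) (mem_J.1 a.2.2).1
          (lt_of_le_of_ne (mem_J.1 a.2.2).2 fun h => hC (v5 _ _ h))
      · have := nbr (hR (a, ⟨i, e⟩)) (w3 _) (j := 0) (by rw [abs_zero]; omega)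
        rw [w1, Int.cast_zero, add_zero] at this
        exact ⟨Or.inr this.1, Or.inr this.2⟩
    · by_cases e : i = i0
      · rw [Sum.elim_inr, e, (t1 a).2] at hC
        rw [Sum.elim_inr, Sum.elim_inr, e, (t1 a).1, (t1 a).2]
        have := nbr (hR a.1) (w3 _) (lt_of_le_of_ne (mem_J.1 a.2.2).2 fun h => hC (w4 _ _ h))
        exact ⟨Or.inr this.1, Or.inr this.2⟩
      · exact (hC (C_zero Lb (t2 a i e).2.1 ((t2 a i e).2.2.2.1
          (w2 a.1 a.2.1 (mem_J.1 a.2.2).1 (mem_J.1 a.2.2).2).1))).elim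

end Pool.Agent.P.MP_009630_co.Dn
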