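import Pool.Agent.P.MP_009630_co.Dn.Arc

/-! Statements of the modules. Each `S_X` is proved in the file `Dn/X.lean`. -/

set_option autoImplicit false

namespace Pool.Agent.P.MP_009630_co.Dn

open Finset

noncomputable section

/-- From the operator `N` to the matrix. -/
def S_Alg : Prop := ∀ (n : ℕ) [NeZero n] (c d lam : ℤ), 0 < c → c < n → c ^ 2 = d + lam * n →
  Goal (c : ZMod n) d → Sol n c d lam

/-- Necessity. -/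
def S_Odd : Prop := ∀ (n : ℕ) (c d lam : ℤ), ¬ IsSquare d → 0 < n → c ≠ 0 → c ^ 2 = d + lam * n →
  Sol n c d lam → Odd n

/-- Signed matrices of polynomial size. -/
def S_Cl : Prop := ∀ d : ℤ, d ≠ 0 → ∃ k : ℕ, 1 ≤ k ∧ k ≤ 64 * d.natAbs ^ 4 ∧ ∀ j : ℕ, 1 ≤ j →
  ∀ γ : ℕ, γ ≤ d.natAbs → ∃ Cf : Cl d d.natAbs (j * k), Cf.gam = γ

/-- A square root of `e ^ 2 I` of odd order, repeated `k` times. -/
def S_OddW : Prop := ∀ e : ℕ, 1 ≤ e → ∃ j : ℕ, Odd j ∧ j ≤ 257 * e ^ 7 ∧ ∀ k : ℕ, 1 ≤ k →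
  ∃ (Cf : Cm ((e : ℤ) ^ 2) (j * k)) (act : Finset (Fin (j * k))), act.card = j ∧
    ∀ y ∈ act, ∀ x, Cf.W y x ≠ 0 → x ∈ act

/-- Rows are `{0,1}`-valued. -/
def S_Row : Prop := ∀ (P : Par) (n : ℕ) [NeZero n] (c : ZMod n), Env P c →
  ∀ (x : ZMod n) (Nx Nx' C C' : Dv n) (τ z τ' z' : ℤ), PointOK P c x Nx C τ z →
    PointOK P c (x + 1) Nx' C' τ' z' → RowOK P C τ z C' τ' z' →
    ∃ a : Dv n, (∀ y, a y = 0 ∨ a y = 1) ∧ dd a = Nx' - Nx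

/-- Gluing blocks and library to the operator `N`. -/
def S_Glue : Prop := ∀ (P : Par) (n : ℕ) [NeZero n] (c : ZMod n), Env P c →
  ∀ (Lb : Lib P c) (B : Type) (pos : B → Fin P.k → ZMod n) (act : B → Fin P.k → Prop)
    (C : ZMod n → Dv n) (τ z : ZMod n → ℤ),
    (∀ b i b' i', act b i → act b' i' → pos b i = pos b' i' → b = b' ∧ i = i') →
    (∀ b i, act b i → pos b i ≠ 0 ∧ pos b i ∉ Lb.U ∧ ∀ u ∈ Lb.U, pos b i ≠ c * u) →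
    (∀ x, x = 0 ∨ x ∈ Lb.U ∨ (∃ u ∈ Lb.U, x = c * u) ∨ ∃ b i, act b i ∧ pos b i = x) →
    (∀ b, ∃ (Cf : Cm P.d P.k) (C' : Fin P.k → Dv n) (τ' z' : Fin P.k → ℤ),
      BlockOK Lb Cf (pos b) C' τ' z' ∧ (∀ y x, act b y → Cf.W y x ≠ 0 → act b x) ∧
      ∀ i, act b i → C' i = C (pos b i) ∧ τ' i = τ (pos b i) ∧ z' i = z (pos b i)) →
    (C 0 = 0 ∧ τ 0 = 0 ∧ z 0 = -P.w) →
    (∀ u ∈ Lb.U, C u = 0 ∧ At P.m (c * u) (τ u) (τ u + 1) ∧ z u = τ u - P.w) →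
    (∀ u ∈ Lb.U, C (c * u) = P.d • (pt u - pt 0) ∧ τ (c * u) = 0 ∧ z (c * u) = -P.w) →
    ∃ N : ZMod n → Dv n, (∀ x, lin N (N x) = P.d • pt x + (1 - P.d) • pt 0) ∧
      (∀ x, mom (N x) = c * x) ∧ ∀ x, PointOK P c x (N x) (C x) (τ x) (z x)

/-- Pair zone of a block member, seen by a neighbour with coefficient `w`. -/
def S_Pz : Prop := ∀ (P : Par) (n : ℕ) [NeZero n] (c : ZMod n) (Lb : Lib P c)
  (ι : Type) [Fintype ι] (ix : ι → ℕ), Function.Injective ix → (∀ s, (ix s : ℤ) < P.q) →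
  ∀ (p : ℤ) (fl : ι → Bool) (a b : ι → ℤ) (E1 E2 : Dv n) (w : ℤ) (p' : ℤ) (s' : ℕ),
    (w = 1 ∨ w = -1) →
    Feat P.m E1 (p + 2 * P.q) (p + 2 * P.q + P.ls + 1) →
    Feat P.m E2 (p + 2 * P.q + P.ls + 3) (p + 2 * P.q + P.ls + P.s2 + 5) →
    Feat P.m (w • ((∑ s, if fl s then pt (Lb.lk false (p + 2 * ix s) (b s)) -
          pt (Lb.lk false (p + 2 * ix s + 1) (a s)) else 0) + E1 - E2) +
        Lb.dip p' s' true (if w = 1 then p + 2 * P.q + P.ls + 2 else p - 1)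
          (if w = 1 then p + 2 * P.q + P.ls + P.s2 + 6 else p + 2 * P.q + P.ls + 2))
      (p - 1) (p - 1 + P.lenP)

/-- The block lemma. -/
def S_Block : Prop := ∀ (P : Par) (n : ℕ) [NeZero n] (c : ZMod n), Env P c →
  ∀ (Lb : Lib P c) (Cf : Cm P.d P.k) (B : BD P n), B.ok Lb Cf →
    BlockOK Lb Cf B.pos (B.C Lb Cf) B.τ B.z

/-- Ordinary blocks. -/
def S_Norm : Prop := ∀ (P : Par) (n : ℕ) [NeZero n] (c : ZMod n), Env P c →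
  ∀ (Lb : Lib P c) (Cf : Cm P.d P.k) (sd : Fin P.k → Bool) (κ : Bool → ℤ)
    (pos : Fin P.k → ZMod n), (∀ y x, Cf.W y x ≠ 0 → κ (sd x) = κ (!sd y)) →
    (∀ y, At P.m (pos y) (κ (sd y) + P.len * (y.val : ℤ) - 1)
      (κ (sd y) + P.len * (y.val : ℤ) + 2)) →
    (∀ y, At P.m (c * pos y) (κ (!sd y) + P.w1 - P.S - 13) (κ (!sd y) + P.w1 - P.S - 10)) →
    BlockOK Lb Cf pos (fun _ => 0) (fun y => κ (!sd y) + P.w1 - 2) (fun y => κ (!sd y) - 3)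

/-- Blocks around a run point. -/
def S_Star : Prop := ∀ (P : Par) (n : ℕ) [NeZero n] (c : ZMod n), Env P c →
  (∀ σ τ : ℝ, ∃ g : ZMod n, At P.m g (σ - P.eta) (σ + P.eta) ∧
    At P.m (c * g) (τ - P.eta) (τ + P.eta)) →
  ∀ (Lb : Lib P c) (Cf : Cl P.d P.D P.k) (x : ZMod n) (r : RD P n) (u : ZMod n) (dir : Bool),
    StarPre Lb x r u dir → Cf.gam = r.γ →
    ∃ rd : Fin P.k → RD P n, rd Cf.i0 = r ∧
      (∀ i, i ≠ Cf.i0 → (∀ j, (rd i).sf j = false) ∧ (rd i).γ ≤ 1 ∧ (r.γ = 0 → (rd i).γ = 0)) ∧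
      ∀ pos : Fin P.k → ZMod n, pos Cf.i0 = x →
        (∀ i, i ≠ Cf.i0 → At P.m (pos i) ((rd i).a + 1 / 5) ((rd i).a + 1 / 4) ∧
          At P.m (c * pos i - mom ((rd i).C Lb)) ((rd i).τ - P.S - 10) ((rd i).τ - P.S - 9)) →
        (∀ i, i ≠ Cf.i0 → (rd i).ok Lb (pos i)) ∧
          BlockOK Lb Cf pos (fun i => (rd i).C Lb) (fun i => (rd i).τ) (fun i => (rd i).z)

/-- Choice of jump cell and feature zone away from given points. -/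
def S_Opt : Prop := ∀ (P : Par) (n : ℕ) [NeZero n] (t : ℝ) (s : Finset (ZMod n)),
  s.card ≤ P.D + 2 → ∃ τ z : ℤ, t + P.S + 9 ≤ τ ∧ (τ : ℝ) ≤ t + P.S + 14 * P.D + 38 ∧
    Win P τ z ∧ ∀ y ∈ s, Far P τ z y 6

/-- Conversion step of a run (`γ > 0`). -/
def S_Conv : Prop := ∀ (P : Par) (n : ℕ) [NeZero n] (c : ZMod n), Env P c →
  ∀ (Lb : Lib P c) (x : ZMod n) (dir : Bool) (r : RD P n) (kk : Fin P.D → ℕ),
    r.inv Lb x dir kk → 0 < r.γ →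
    ∃ (r' : RD P n) (kk' : Fin P.D → ℕ), r'.inv Lb (x + (sg dir : ℤ)) dir kk' ∧ r.same r' ∧
      r'.γ + 1 = r.γ ∧ (if dir then r.row r' Lb else r'.row r Lb)

/-- Relaxation step of a run (`γ = 0`). -/
def S_Relax : Prop := ∀ (P : Par) (n : ℕ) [NeZero n] (c : ZMod n), Env P c →
  ∀ (Lb : Lib P c) (x : ZMod n) (dir : Bool) (r : RD P n) (kk : Fin P.D → ℕ),
    r.inv Lb x dir kk → r.γ = 0 →
    ∃ (r' : RD P n) (kk' : Fin P.D → ℕ), r'.inv Lb (x + (sg dir : ℤ)) dir kk' ∧ r.same r' ∧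
      r'.γ = 0 ∧ (if dir then r.row r' Lb else r'.row r Lb) ∧
      1 ≤ sg dir * (r'.τ - r.τ) ∧ sg dir * (r'.τ - r.τ) ≤ P.m - 2 ∧
      (∑ i, kk' i + 1 = ∑ i, kk i ∨ (kk' = kk ∧ r'.sa = r.sa ∧
        ∀ i, kk i ≠ 0 → (∀ i', i' < i → kk i' = 0) →
          At P.m (Lb.vp (P.pz r.a r.f) (2 * P.k + i) (r.sa i)) (min r.τ r'.τ + 1)
            (max r.τ r'.τ - 1)))

/-- One-sided run. -/
def S_Run1 : Prop := ∀ (P : Par) (n : ℕ) [NeZero n] (c : ZMod n), Env P c →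
  ∀ (Lb : Lib P c) (x : ZMod n) (dir : Bool) (r : RD P n), r.ok Lb x → (∀ i, r.sf i = false) →
    ∃ seq : ℕ → RD P n, seq 0 = r ∧
      (∀ j, r.same (seq j) ∧ (seq j).γ = r.γ - j ∧ (seq j).ok Lb (x + (sg dir * j : ℤ))) ∧
      (∀ j, if dir then (seq j).row (seq (j + 1)) Lb else (seq (j + 1)).row (seq j) Lb) ∧
      ∀ j, P.L ≤ j + 1 → (seq j).C Lb = 0

/-- Two-sided run around a point. -/
def S_Run2 : Prop := ∀ (P : Par) (n : ℕ) [NeZero n] (c : ZMod n), Env P c →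
  ∀ (Lb : Lib P c) (x : ZMod n) (r : RD P n), r.ok Lb x → (∀ i, r.sf i = false) → r.γ ≤ 1 →
    At P.m x (r.a + 1 / 5) (r.a + 4 / 5) →
    ∃ seq : ℤ → RD P n, seq 0 = r ∧
      (∀ j : ℤ, j ≠ 0 → |j| ≤ P.L → (seq j).γ = 0 ∧ StarPre Lb (x + j) (seq j) 0 true) ∧
      (∀ j : ℤ, (seq j).row (seq (j + 1)) Lb) ∧
      ∀ j : ℤ, |j| = P.L → (seq j).C Lb = 0

/-- Two-sided run around `c u`, `u` in the library. -/
def S_RunV : Prop := ∀ (P : Par) (n : ℕ) [NeZero n] (c : ZMod n), Env P c →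
  ∀ (Lb : Lib P c) (u : ZMod n), u ∈ Lb.U →
    ∃ seq : ℤ → RD P n,
      (∀ j : ℤ, j ≠ 0 → |j| ≤ P.L → StarPre Lb (c * u + j) (seq j) u (decide (0 < j))) ∧
      (∀ j : ℤ, j ≠ 0 → j + 1 ≠ 0 → (seq j).row (seq (j + 1)) Lb) ∧
      (seq 1).C Lb = P.d • (pt u - pt 0) ∧ (seq (-1)).C Lb = P.d • (pt u - pt 0) ∧
      ∀ j : ℤ, |j| = P.L → (seq j).C Lb = 0

/-- Greedy choice. -/
def S_Greedy : Prop := ∀ (I G : Type) [Fintype I] [DecidableEq G] (Good : I → Finset G)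
  (Occ : I → G → Finset G) (F : Finset G) (K K' : ℕ), (∀ i b, (Occ i b).card ≤ K) →
  (∀ i p, ((Good i).filter fun b => p ∈ Occ i b).card ≤ K') →
  (∀ i, K' * (K * Fintype.card I + F.card) < (Good i).card) →
  ∃ b : I → G, (∀ i, b i ∈ Good i ∧ Disjoint (Occ i (b i)) F) ∧
    ∀ i j, i ≠ j → Disjoint (Occ i (b i)) (Occ j (b j))

/-- Order-preserving matching. -/
def S_Match : Prop := ∀ (A B : Type) [Fintype A] [Fintype B] (f : A → ℕ) (g : B → ℕ),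
  Fintype.card A = Fintype.card B →
  (∀ i, (univ.filter fun a => f a ≤ i).card ≤ (univ.filter fun b => g b ≤ i + 1).card) →
  (∀ i, (univ.filter fun b => g b ≤ i).card ≤ (univ.filter fun a => f a ≤ i + 1).card) →
  ∃ e : B ≃ A, ∀ b, f (e b) ≤ g b + 1 ∧ g b ≤ f (e b) + 1

/-- Covering: every box of radius `(1 + |d|) √n` contains a lattice point. -/
def S_Cov : Prop := ∀ (d : ℤ), ¬ IsSquare d → ∀ (m n : ℕ) [NeZero n] (c : ZMod n), 0 < m →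
  c * c = (d : ZMod n) → ∀ σ τ : ℝ, ∃ g : ZMod n,
    At m g (σ - (1 + d.natAbs) * m / √n) (σ + (1 + d.natAbs) * m / √n) ∧
    At m (c * g) (τ - (1 + d.natAbs) * m / √n) (τ + (1 + d.natAbs) * m / √n)

/-- Covering in the square case. -/
def S_CovS : Prop := ∀ (e c : ℤ) (m n G : ℕ) [NeZero n], e ≠ 0 → 0 < m → 0 < G →
  G ≤ Int.gcd n (c - e) → G ≤ Int.gcd n (c + e) → Cv m (c : ZMod n) (2 * |(e : ℝ)| * m / G)

/-- All lattice facts follow from a small covering radius. -/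
def S_Lat : Prop := ∀ (P : Par) (n : ℕ) [NeZero n] (c : ZMod n) (K Z : ℕ), 20 ≤ K →
  P.k * (P.D + 1) ≤ K → Cv P.m c (1 / (4 * K)) → 2 * P.q + 12 ≤ Z → P.S + P.S1 ≤ Z →
  (Z * (4 * K)) ^ 2 * K ≤ n → Lat P c (n / (40 * P.m) ^ 2) (n / K) (n / K)

/-- Fibres of multiplication by a divisor of a nonzero integer. -/
def S_Fib : Prop := ∀ (n : ℕ) [NeZero n] (α β h : ZMod n) (e : ℤ), e ≠ 0 → β * α = (e : ZMod n) →
  (univ.filter fun b : ZMod n => α * b = h).card ≤ e.natAbs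

/-- The library exists. -/
def S_Lib : Prop := ∀ (P : Par) (n : ℕ) [NeZero n] (c : ZMod n) (N0 X E : ℕ), Env P c →
  Lat P c N0 X E → ∀ n' : ℤ, (P.Ub X + 1) * P.Q ^ 6 * (P.D + 2) ≤ N0 →
  ∃ Lb : Lib P c, Lb.U.card ≤ P.Ub X ∧ (P.k : ℤ) ∣ n' - Lb.U.card

/-- Blocks around a family of run points, with fresh members. -/
def S_Stage : Prop := ∀ (P : Par) (n : ℕ) [NeZero n] (c : ZMod n) (N0 X E : ℕ), Env P c →
  Lat P c N0 X E → ∀ (Lb : Lib P c),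
    (∀ γ : ℕ, γ ≤ P.D → ∃ Cf : Cl P.d P.D P.k, Cf.gam = γ) → ∀ i0 : Fin P.k, i0.val = 0 →
    ∀ (A : Type) [Fintype A]
    (x : A → ZMod n) (r : A → RD P n) (u : A → ZMod n) (dir : A → Bool) (F : Finset (ZMod n)),
    (∀ a, StarPre Lb (x a) (r a) (u a) (dir a)) →
    (2 * P.L + 1) * ((2 * P.L + 1) * (Fintype.card A * P.k) + F.card) < N0 →
    ∃ (pos : A → Fin P.k → ZMod n) (rd : A → Fin P.k → RD P n),
      (∀ a, pos a i0 = x a ∧ rd a i0 = r a) ∧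
      (∀ a i, i ≠ i0 → (rd a i).ok Lb (pos a i) ∧ (∀ j, (rd a i).sf j = false) ∧
        (rd a i).γ ≤ 1 ∧ ((r a).γ = 0 → (rd a i).γ = 0) ∧
        At P.m (pos a i) ((rd a i).a + 1 / 5) ((rd a i).a + 4 / 5) ∧
        ∀ j : ℤ, |j| ≤ P.L → pos a i + j ∉ F) ∧
      (∀ a i a' i', i ≠ i0 → i' ≠ i0 → ∀ j j' : ℤ, |j| ≤ P.L → |j'| ≤ P.L →
        pos a i + j = pos a' i' + j' → a = a' ∧ i = i' ∧ j = j') ∧
      ∀ a, ∃ Cf : Cl P.d P.D P.k, BlockOK Lb Cf (pos a) (fun i => (rd a i).C Lb)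
        (fun i => (rd a i).τ) (fun i => (rd a i).z)

/-- The remaining points are grouped into ordinary blocks. -/
def S_Group : Prop := ∀ (P : Par) (n : ℕ) [NeZero n] (c : ZMod n) (N0 X E : ℕ), Env P c →
  Lat P c N0 X E → ∀ (Lb : Lib P c) (Cf : Cl P.d P.D P.k) (T : Finset (ZMod n)) (Sp : ℕ),
    P.k ∣ T.card → n ≤ T.card + Sp → P.m ^ 4 * (2 * E + 3 * Sp + 2 * P.k) ≤ n →
    ∃ (Nb : ℕ) (pos : Fin Nb → Fin P.k → ZMod n) (τ z : Fin Nb → Fin P.k → ℤ),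
      (∀ b i b' i', pos b i = pos b' i' → b = b' ∧ i = i') ∧ (∀ b i, pos b i ∈ T) ∧
      (∀ x ∈ T, ∃ b i, pos b i = x) ∧ ∀ b, BlockOK Lb Cf (pos b) (fun _ => 0) (τ b) (z b)

/-- All special blocks: the two stages together. `B` indexes the blocks, `Rn` the runs. -/
def S_Spec : Prop := ∀ (P : Par) (n : ℕ) [NeZero n] (c : ZMod n) (N0 X E : ℕ), Env P c →
  Lat P c N0 X E → ∀ (Lb : Lib P c),
    (∀ γ : ℕ, γ ≤ P.D → ∃ Cf : Cl P.d P.D P.k, Cf.gam = γ) → Lb.U.card ≤ P.Ub X →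
    (P.Ub X + 1) * P.Q ^ 6 * (P.D + 2) ≤ N0 →
    ∃ (B : Type) (_ : Fintype B) (pos : B → Fin P.k → ZMod n) (rd : B → Fin P.k → RD P n),
      1 + 2 * Lb.U.card + Fintype.card B * P.k ≤ (P.Ub X + 1) * P.Q ^ 4 ∧
      (∀ b i b' i', pos b i = pos b' i' → b = b' ∧ i = i') ∧
      (∀ b i, pos b i ≠ 0 ∧ pos b i ∉ Lb.U ∧ ∀ u ∈ Lb.U, pos b i ≠ c * u) ∧
      (∀ b, ∃ Cf : Cl P.d P.D P.k, BlockOK Lb Cf (pos b) (fun i => (rd b i).C Lb)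
        (fun i => (rd b i).τ) (fun i => (rd b i).z)) ∧
      (∀ u ∈ Lb.U, (∃ b i, pos b i = c * u + 1 ∧ (rd b i).C Lb = P.d • (pt u - pt 0)) ∧
        (∃ b i, pos b i = c * u - 1 ∧ (rd b i).C Lb = P.d • (pt u - pt 0))) ∧
      (∀ b i, (rd b i).C Lb ≠ 0 →
        ((∃ u ∈ Lb.U, pos b i + 1 = c * u) ∨
          ∃ b' i', pos b' i' = pos b i + 1 ∧ (rd b i).row (rd b' i') Lb) ∧
        ((∃ u ∈ Lb.U, pos b i - 1 = c * u) ∨
          ∃ b' i', pos b' i' = pos b i - 1 ∧ (rd b' i').row (rd b i) Lb))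

/-- Assembly. -/
def S_Build : Prop := ∀ (P : Par) (n : ℕ) [NeZero n] (c : ZMod n) (N0 X E : ℕ), Env P c →
  Lat P c N0 X E → (∀ γ : ℕ, γ ≤ P.D → ∃ Cf : Cl P.d P.D P.k, Cf.gam = γ) →
  ∀ (Co : Cm P.d P.k) (act : Finset (Fin P.k)), (∀ y ∈ act, ∀ x, Co.W y x ≠ 0 → x ∈ act) →
  Odd (n + act.card) → (P.Ub X + 1) * P.Q ^ 6 * (P.D + 2) ≤ N0 →
  P.m ^ 4 * (2 * E + 3 * ((P.Ub X + 1) * P.Q ^ 4 + P.k) + 2 * P.k) ≤ n → Goal c P.d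

/-- The theorem. -/
def S_Main : Prop := ∀ (T n : ℕ) (c d lam : ℤ), c ^ 2 = d + lam * n → 1024 ≤ T →
  64 * d.natAbs ^ 4 ≤ T → (n : ℤ) ≤ T * c → (n : ℤ) ≤ T * (n - c) → T ^ 340 ≤ n →
  (∀ e : ℤ, e ^ 2 = d → 2 ≤ |e| → 9000 * d.natAbs ^ 8 ≤ T ∧ T ^ 115 ≤ Int.gcd n (c - e)) →
  (Sol n c d lam ↔ IsSquare d ∨ Odd n)

end

end Pool.Agent.P.MP_009630_co.Dn
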