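import Pool.Agent.P.MP_009630_co.Dn.St

/-!
Blocks around a family of run points.
-/

set_option autoImplicit false

namespace Pool.Agent.P.MP_009630_co.Dn

open Finset

namespace StageP

variable {n : ℕ}

/-- the window of radius `L` around `b` -/
noncomputable def occ (L : ℕ) (b : ZMod n) : Finset (ZMod n) :=
  (Icc (-(L : ℤ)) L).image fun j : ℤ => b + j

theorem mem_occ {L : ℕ} {b p : ZMod n} : p ∈ occ L b ↔ ∃ j : ℤ, |j| ≤ L ∧ b + j = p := by
  simp only [occ, mem_image, mem_Icc, abs_le]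

theorem card_occ (L : ℕ) (b : ZMod n) : (occ L b).card ≤ 2 * L + 1 := by
  refine card_image_le.trans ?_
  rw [Int.card_Icc]
  omega

theorem card_filter (L : ℕ) (G : Finset (ZMod n)) (p : ZMod n) :
    (G.filter fun b => p ∈ occ L b).card ≤ 2 * L + 1 := by
  refine (card_le_card fun b hb => ?_).trans (card_occ L p)
  obtain ⟨j, h1, h2⟩ := mem_occ.1 (mem_filter.1 hb).2
  exact mem_occ.2 ⟨-j, by rwa [abs_neg], by rw [← h2]; push_cast; ring⟩

end StageP

open StageP in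
theorem stage (h1 : S_Greedy) (h2 : S_Star) : S_Stage := by
  intro P n _ c N0 X E hE hL Lb hC i0 hi0 A _ x r u dir F hpre hN
  classical
  choose Cf hCf using fun a => hC (r a).γ (hpre a).ok.hγ
  have hi : ∀ a, (Cf a).i0 = i0 := fun a => Fin.ext ((Cf a).hi0.trans hi0.symm)
  choose rd e0 e1 e2 using fun a =>
    h2 P n c hE hL.tiny Lb (Cf a) (x a) (r a) (u a) (dir a) (hpre a) (hCf a)
  simp only [hi] at e0 e1 e2
  have hH : ∀ y : ZMod n, ∃ Y : ℤ, (Y : ZMod n) = y := fun y => ⟨y.val, by simp⟩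
  choose H hH using hH
  obtain ⟨b, b1, b2⟩ := h1 (A × {i : Fin P.k // i ≠ i0}) (ZMod n)
    (fun s => bx P.m c ((rd s.1 s.2).a + 1 / 5) (1 / 20)
      (ps P.m n (H (mom ((rd s.1 s.2).C Lb))) + (rd s.1 s.2).τ - P.S - 10) (1 / 20))
    (fun _ y => occ P.L y) F (2 * P.L + 1) (2 * P.L + 1) (fun _ y => card_occ _ y)
    (fun _ p => card_filter _ _ p) (fun s => by
      refine lt_of_le_of_lt ?_ (hN.trans_le (hL.box _ _))
      have h3 : Fintype.card (A × {i : Fin P.k // i ≠ i0}) ≤ Fintype.card A * P.k := by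
        rw [Fintype.card_prod]
        exact Nat.mul_le_mul_left _ ((Fintype.card_subtype_le _).trans_eq (Fintype.card_fin _))
      gcongr)
  set pos : A → Fin P.k → ZMod n := fun a i => if h : i = i0 then x a else b (a, ⟨i, h⟩)
    with hpos
  have p0 : ∀ a, pos a i0 = x a := fun a => by simp [hpos]
  have p1 : ∀ a i (h : i ≠ i0), pos a i = b (a, ⟨i, h⟩) := fun a i h => by simp [hpos, h]
  have p2 : ∀ a i, i ≠ i0 → At P.m (pos a i) ((rd a i).a + 1 / 5) ((rd a i).a + 1 / 4) ∧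
      At P.m (c * pos a i - mom ((rd a i).C Lb)) ((rd a i).τ - P.S - 10)
        ((rd a i).τ - P.S - 9) := fun a i h => by
    obtain ⟨h3, h4⟩ := mem_bx.1 (b1 (a, ⟨i, h⟩)).1
    rw [← p1 a i h] at h3 h4
    have h5 := At.intCast (m := P.m) (n := n) (H (mom ((rd a i).C Lb)))
    rw [hH] at h5
    exact ⟨h3.mono le_rfl (by linarith), (h4.sub h5).mono (by linarith) (by linarith)⟩
  refine ⟨pos, rd, fun a => ⟨p0 a, e0 a⟩, fun a i h => ⟨(e2 a (pos a) (p0 a) (p2 a)).1 i h,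
    (e1 a i h).1, (e1 a i h).2.1, (e1 a i h).2.2, (p2 a i h).1.mono le_rfl (by linarith),
    fun j hj hF => ?_⟩, fun a i a' i' h h' j j' hj hj' he => ?_,
    fun a => ⟨Cf a, (e2 a (pos a) (p0 a) (p2 a)).2⟩⟩
  · exact disjoint_left.1 (b1 (a, ⟨i, h⟩)).2 (mem_occ.2 ⟨j, hj, by rw [p1 a i h]⟩) hF
  · have h3 : ((a, ⟨i, h⟩) : A × {i : Fin P.k // i ≠ i0}) = (a', ⟨i', h'⟩) := by
      by_contra h4
      exact disjoint_left.1 (b2 _ _ h4) (mem_occ.2 ⟨j, hj, by rw [← p1 a i h]⟩)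
        (mem_occ.2 ⟨j', hj', by rw [← p1 a' i' h', he]⟩)
    obtain ⟨rfl, h5⟩ := Prod.mk.inj h3
    obtain rfl : i = i' := congrArg Subtype.val h5
    refine ⟨rfl, rfl, hE.inj ?_ ?_ (add_left_cancel he)⟩ <;> omega

end Pool.Agent.P.MP_009630_co.Dn
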