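import Pool.Agent.P.MP_009630_co.Dn.Star1

set_option autoImplicit false

namespace Pool.Agent.P.MP_009630_co.Dn

open Finset

noncomputable section

namespace StarP

variable {n : ℕ} [NeZero n] {P : Par} {c : ZMod n}

open Classical in
/-- Run data of the members of the block. -/
def rdf (Lb : Lib P c) (Cf : Cl P.d P.D P.k) (r : RD P n) (u : ZMod n) (zY : ℤ) (nr : Bool)
    (y : Fin P.k) : RD P n :=
  if y = Cf.i0 then r
  else if Cf.sd y = Cf.sd Cf.i0 then
    { a := r.a + sg r.f * (P.len * (y.val : ℤ)), f := r.f, τ := r.τ, z := r.z,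
      sf := fun _ => false, sa := fun _ => 0, sb := fun _ => 0,
      γ := (gg Cf r.γ r.f y).natAbs,
      pp := if gg Cf r.γ r.f y = 1 then u else 0, pm := if gg Cf r.γ r.f y = 1 then 0 else u }
  else
    { a := r.z + 3 + P.len * (y.val : ℤ), f := true, τ := zY + P.w1 + 1, z := zY,
      sf := fun _ => false, sa := fun _ => 0, sb := fun _ => 0,
      γ := if bset Cf r.γ y ∧ nr = false then 1 else 0,
      pp := if r.f then spe Lb r.f (r.z + 3 + P.len * (y.val : ℤ) + 6) Cf.i0 else 0,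
      pm := if r.f then 0 else spe Lb r.f (r.z + 3 + P.len * (y.val : ℤ) + 6) Cf.i0 }

section
variable (Lb : Lib P c) (Cf : Cl P.d P.D P.k) (r : RD P n) (u : ZMod n) (zY : ℤ) (nr : Bool)

omit [NeZero n] in
theorem rdf_i0 : rdf Lb Cf r u zY nr Cf.i0 = r := by simp [rdf]

omit [NeZero n] in
theorem rdf_X {y : Fin P.k} (h : Cf.sd y = Cf.sd Cf.i0) :
    (rdf Lb Cf r u zY nr y).a = r.a + sg r.f * (P.len * (y.val : ℤ)) ∧
    (rdf Lb Cf r u zY nr y).f = r.f ∧ (rdf Lb Cf r u zY nr y).τ = r.τ ∧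
    (rdf Lb Cf r u zY nr y).z = r.z := by
  by_cases hy : y = Cf.i0
  · subst hy; simp [rdf, Cf.hi0]
  · simp [rdf, hy, h]

omit [NeZero n] in
theorem rdf_Y {y : Fin P.k} (h : Cf.sd y ≠ Cf.sd Cf.i0) :
    (rdf Lb Cf r u zY nr y).a = r.z + 3 + P.len * (y.val : ℤ) ∧
    (rdf Lb Cf r u zY nr y).f = true ∧ (rdf Lb Cf r u zY nr y).τ = zY + P.w1 + 1 ∧
    (rdf Lb Cf r u zY nr y).z = zY := by
  have hy : y ≠ Cf.i0 := fun e => h (by rw [e])
  simp [rdf, hy, h]

omit [NeZero n] in
theorem rdf_fresh (hg : Cf.gam = r.γ) {y : Fin P.k} (h : y ≠ Cf.i0) :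
    (∀ j, (rdf Lb Cf r u zY nr y).sf j = false) ∧ (rdf Lb Cf r u zY nr y).γ ≤ 1 ∧
      (r.γ = 0 → (rdf Lb Cf r u zY nr y).γ = 0) := by
  by_cases hs : Cf.sd y = Cf.sd Cf.i0
  · simp only [rdf, h, hs, if_true, if_false]
    refine ⟨fun _ => trivial, ?_, fun h0 => ?_⟩
    · have := abs_le.1 (gg_small Cf hg r.f h); omega
    · rw [h0, gg_zero]; rfl
  · simp only [rdf, h, hs, if_false]
    refine ⟨fun _ => trivial, by split_ifs <;> omega, fun h0 => ?_⟩
    rw [if_neg]
    rintro ⟨hb, -⟩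
    have := (bset_Y Cf hb).1; omega

open Classical in
/-- The carried part next to `0` of a special neighbour. -/
def farf (y : Fin P.k) : Dv n :=
  if bset Cf r.γ y then (if nr then 0 else fdip Lb r.f (r.z + 3 + P.len * (y.val : ℤ) + 6) Cf.i0)
  else 0

end

theorem carried {Lb : Lib P c} (Cf : Cl P.d P.D P.k) {x u : ZMod n} {r : RD P n} {dir : Bool}
    (h : StarPre Lb x r u dir) (hg : Cf.gam = r.γ) (zY : ℤ) (nr : Bool) (y : Fin P.k) :
    gg Cf r.γ r.f y • (pt (if 0 < r.γ then u else 0) - pt 0) + farf Lb Cf r nr y =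
      ((rdf Lb Cf r u zY nr y).γ : ℤ) •
        (pt (rdf Lb Cf r u zY nr y).pp - pt (rdf Lb Cf r u zY nr y).pm) := by
  by_cases hs : Cf.sd y = Cf.sd Cf.i0
  · have hb : ¬ bset Cf r.γ y := fun hb => (bset_Y Cf hb).2.1 hs
    simp only [farf, hb, if_false, add_zero]
    by_cases hy : y = Cf.i0
    · subst hy
      rw [rdf_i0, gg_i0 Cf h.ok.hγ]
      by_cases hγ : 0 < r.γ
      · obtain ⟨-, e1, e2, -⟩ := h.sp hγ
        rw [e1, e2, if_pos hγ]
        rcases sign_cases P with s | s
        · simp [s.1, s.2]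
        · simp only [s.1, s.2, if_false]; module
      · have : r.γ = 0 := by omega
        simp [this]
    · simp only [rdf, hy, hs, if_true, if_false]
      by_cases hγ : 0 < r.γ
      · rw [if_pos hγ]
        have := abs_le.1 (gg_small Cf hg r.f hy)
        have h3 : gg Cf r.γ r.f y = 0 ∨ gg Cf r.γ r.f y = 1 ∨ gg Cf r.γ r.f y = -1 := by omega
        rcases h3 with e | e | e <;> simp [e]
      · have : r.γ = 0 := by omega
        simp [this, gg_zero]
  · have hy : y ≠ Cf.i0 := fun e => hs (by rw [e])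
    rw [gg_Y Cf _ _ hs]
    simp only [rdf, hy, hs, if_false, farf, zero_smul, zero_add]
    by_cases hb : bset Cf r.γ y
    · cases nr
      · cases hf : r.f <;> simp [hb, fdip]
      · simp [hb]
    · simp [hb]

theorem fresh_ok {Lb : Lib P c} (Cf : Cl P.d P.D P.k) {x u : ZMod n} {r : RD P n} {dir : Bool}
    (h : StarPre Lb x r u dir) (hg : Cf.gam = r.γ) {zY : ℤ} {nr : Bool}
    (hFar : 0 < r.γ → nr = false → ∀ y : ZMod n, At P.m y (-1) 1 →
      Far P (zY + P.w1 + 1) zY y 4) {y : Fin P.k} (hy : y ≠ Cf.i0) {p : ZMod n}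
    (hp : At P.m (c * p - mom ((rdf Lb Cf r u zY nr y).C Lb))
      ((rdf Lb Cf r u zY nr y).τ - P.S - 10) ((rdf Lb Cf r u zY nr y).τ - P.S - 9)) :
    (rdf Lb Cf r u zY nr y).ok Lb p := by
  obtain ⟨a1, a2, a3, a4, a5, a6, a7, a8, a9, a10, a11, a12, a13, a14, a15, a16, a17⟩ := P.factsZ
  have b9 : (P.S1 : ℝ) = 14 * P.D + 48 := by exact_mod_cast a9
  have b1 : (0 : ℝ) ≤ P.D := Nat.cast_nonneg _
  refine ⟨?_, hp.mono (by linarith) (by linarith), ?_, fun hγ => ?_⟩
  · by_cases hs : Cf.sd y = Cf.sd Cf.i0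
    · obtain ⟨-, -, e1, e2⟩ := rdf_X Lb Cf r u zY nr hs
      rw [e1, e2]; exact h.ok.win
    · obtain ⟨-, -, e1, e2⟩ := rdf_Y Lb Cf r u zY nr hs
      rw [e1, e2]; constructor <;> omega
  · exact (rdf_fresh Lb Cf r u zY nr hg hy).2.1.trans P.D_pos
  · have hγ0 : 0 < r.γ := by
      by_contra h0
      have := (rdf_fresh Lb Cf r u zY nr hg hy).2.2 (by omega)
      omega
    by_cases hs : Cf.sd y = Cf.sd Cf.i0
    · obtain ⟨hu, e1, e2, -⟩ := h.sp hγ0
      obtain ⟨-, f1, f2⟩ := h.ok.far hγ0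
      have hu0 : u ≠ 0 := fun e => Lb.zero (e ▸ hu)
      have key : Far P r.τ r.z u 4 ∧ Far P r.τ r.z (0 : ZMod n) 4 := by
        rw [e1] at f1; rw [e2] at f2
        by_cases hd : 0 < P.d
        · simp only [hd, if_true] at f1 f2; exact ⟨f1, f2⟩
        · simp only [hd, if_false] at f1 f2; exact ⟨f2, f1⟩
      simp only [rdf, hy, hs, if_true, if_false]
      split_ifs
      · exact ⟨hu0, key⟩
      · exact ⟨hu0.symm, key.symm⟩
    · simp only [rdf, hy, hs, if_false] at hγ ⊢
      have hn : nr = false := by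
        by_contra hc
        simp [hc] at hγ
      have f0 := hFar hγ0 hn 0 (At.zero (by norm_num) (by norm_num))
      have f1 := fun f p i => hFar hγ0 hn _ (spe_at Lb f p i)
      split_ifs
      · exact ⟨spe_ne Lb _ _ _, f1 _ _ _, f0⟩
      · exact ⟨(spe_ne Lb _ _ _).symm, f0, f1 _ _ _⟩

omit [NeZero n] in
/-- Integer layout of the two views. -/
theorem layout (Lb : Lib P c) (Cf : Cl P.d P.D P.k) (r : RD P n) (u : ZMod n) (nr : Bool)
    {zY loM hiM adjY : ℤ}
    (hT : r.f = true → loM ≤ r.a - 2 ∧ hiM = r.a + 4 ∧ zY ≤ loM ∧ adjY = r.a + P.k * P.len ∧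
      adjY + P.ladj ≤ zY + P.w1)
    (hF : r.f = false → loM = r.a - 2 ∧ r.a + 4 ≤ hiM ∧ hiM ≤ zY + P.w1 ∧
      adjY = r.a - P.k * P.len - P.ladj ∧ zY ≤ adjY)
    (lo hi p adj : Fin P.k → ℤ)
    (hlo : ∀ x, lo x = if x = Cf.i0 then loM else (rdf Lb Cf r u zY nr x).a - 2)
    (hhi : ∀ x, hi x = if x = Cf.i0 then hiM else (rdf Lb Cf r u zY nr x).a + 4)
    (hp : ∀ x, p x = P.pz (rdf Lb Cf r u zY nr x).a (rdf Lb Cf r u zY nr x).f)
    (hadj : ∀ y, adj y = if Cf.sd y = Cf.sd Cf.i0 then r.z + P.k * P.len + 1 else adjY)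
    (y x x' : Fin P.k) (h1 : Cf.W y x ≠ 0) (h2 : Cf.W y x' ≠ 0) :
    ((rdf Lb Cf r u zY nr y).z ≤ lo x ∧ hi x ≤ (rdf Lb Cf r u zY nr y).z + P.w1) ∧
    ((rdf Lb Cf r u zY nr y).z ≤ p x - 1 ∧
      p x - 1 + P.lenP ≤ (rdf Lb Cf r u zY nr y).z + P.w1) ∧
    (x ≠ x' → hi x < lo x' ∨ hi x' < lo x) ∧
    (hi x < p x' - 1 ∨ p x' - 1 + P.lenP < lo x) ∧
    (x ≠ x' → p x - 1 + P.lenP < p x' - 1 ∨ p x' - 1 + P.lenP < p x - 1) ∧
    (hi x < adj y ∨ adj y + P.ladj < lo x) ∧
    (p x - 1 + P.lenP < adj y ∨ adj y + P.ladj < p x - 1) := by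
  obtain ⟨a1, a2, a3, a4, a5, a6, a7, a8, a9, a10, a11, a12, a13, a14, a15, a16, a17⟩ := P.factsZ
  have s1 := Cf.bip _ _ h1
  have s2 := Cf.bip _ _ h2
  obtain ⟨l1, l2, l3, l4⟩ := len_facts Cf x
  obtain ⟨m1, m2, m3, -⟩ := len_facts Cf x'
  have l5 := l4 x'
  have z0 : P.len * (Cf.i0.val : ℤ) = 0 := by rw [Cf.hi0]; simp
  rw [hlo x, hlo x', hhi x, hhi x', hp x, hp x', hadj y]
  by_cases hs : Cf.sd y = Cf.sd Cf.i0
  · have t1 : Cf.sd x ≠ Cf.sd Cf.i0 := fun e => s1 (hs.trans e.symm)
    have t2 : Cf.sd x' ≠ Cf.sd Cf.i0 := fun e => s2 (hs.trans e.symm)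
    have n1 : x ≠ Cf.i0 := fun e => t1 (by rw [e])
    have n2 : x' ≠ Cf.i0 := fun e => t2 (by rw [e])
    obtain ⟨e1, e2, -, -⟩ := rdf_Y Lb Cf r u zY nr t1
    obtain ⟨e3, e4, -, -⟩ := rdf_Y Lb Cf r u zY nr t2
    rw [(rdf_X Lb Cf r u zY nr hs).2.2.2, e1, e2, e3, e4]
    simp only [n1, n2, hs, if_true, if_false, Par.pz]
    by_cases e : x = x'
    · subst e; simp only [ne_eq, not_true_eq_false, false_imp_iff, true_and]; omega
    · have := l5 e
      simp only [ne_eq, e, not_false_eq_true, true_imp_iff]; omega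
  · have t1 : Cf.sd x = Cf.sd Cf.i0 := by
      revert s1 hs; cases Cf.sd y <;> cases Cf.sd x <;> cases Cf.sd Cf.i0 <;> simp
    have t2 : Cf.sd x' = Cf.sd Cf.i0 := by
      revert s2 hs; cases Cf.sd y <;> cases Cf.sd x' <;> cases Cf.sd Cf.i0 <;> simp
    obtain ⟨e1, e2, -, -⟩ := rdf_X Lb Cf r u zY nr t1
    obtain ⟨e3, e4, -, -⟩ := rdf_X Lb Cf r u zY nr t2
    rw [(rdf_Y Lb Cf r u zY nr hs).2.2.2, e1, e2, e3, e4]
    simp only [hs, if_false, Par.pz]
    cases hf : r.f
    · have := hF hf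
      simp only [sg, Bool.false_eq_true, if_false]
      by_cases e : x = x'
      · subst e
        simp only [ne_eq, not_true_eq_false, false_imp_iff, true_and]
        by_cases n1 : x = Cf.i0
        · subst n1; simp only [if_true]; omega
        · have := l3 n1; simp only [n1, if_false]; omega
      · have := l5 e
        simp only [ne_eq, e, not_false_eq_true, true_imp_iff]
        by_cases n1 : x = Cf.i0
        · subst n1
          have n2 : x' ≠ Cf.i0 := fun h => e h.symm
          simp only [n2, if_true, if_false]; omega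
        · by_cases n2 : x' = Cf.i0
          · subst n2; simp only [n1, if_true, if_false]; omega
          · have := l3 n1; have := m3 n2; simp only [n1, n2, if_false]; omega
    · have := hT hf
      simp only [sg, if_true]
      by_cases e : x = x'
      · subst e
        simp only [ne_eq, not_true_eq_false, false_imp_iff, true_and]
        by_cases n1 : x = Cf.i0
        · subst n1; simp only [if_true]; omega
        · have := l3 n1; simp only [n1, if_false]; omega
      · have := l5 e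
        simp only [ne_eq, e, not_false_eq_true, true_imp_iff]
        by_cases n1 : x = Cf.i0
        · subst n1
          have n2 : x' ≠ Cf.i0 := fun h => e h.symm
          simp only [n2, if_true, if_false]; omega
        · by_cases n2 : x' = Cf.i0
          · subst n2; simp only [n1, if_true, if_false]; omega
          · have := l3 n1; have := m3 n2; simp only [n1, n2, if_false]; omega

end StarP

open StarP in
theorem star (hB : S_Block) : S_Star := by
  classical
  intro P n _ c E tiny Lb Cf x r u dir h hg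
  obtain ⟨a1, a2, a3, a4, a5, a6, a7, a8, a9, a10, a11, a12, a13, a14, a15, a16, a17⟩ := P.factsZ
  have hm : (100 : ℝ) ≤ P.m := by exact_mod_cast P.m_ge
  obtain ⟨zY, loM, hiM, adjY, nr, hT, hF, hN, hFar⟩ := view n P r.a r.f (0 < r.γ)
    (fun hγ => (h.sp hγ).2.2.2.1)
  refine ⟨rdf Lb Cf r u zY nr, rdf_i0 .., fun i hi => rdf_fresh Lb Cf r u zY nr hg hi,
    fun pos hx hpos => ?_⟩
  have hok : ∀ i, i ≠ Cf.i0 → (rdf Lb Cf r u zY nr i).ok Lb (pos i) :=
    fun i hi => fresh_ok Cf h hg hFar hi (hpos i hi).2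
  refine ⟨hok, ?_⟩
  have hok' : ∀ i, (rdf Lb Cf r u zY nr i).ok Lb (pos i) := by
    intro i
    by_cases hi : i = Cf.i0
    · subst hi; rw [rdf_i0, hx]; exact h.ok
    · exact hok i hi
  set rd := rdf Lb Cf r u zY nr with hrd
  obtain ⟨ζ, hζ, hζ'⟩ : ∃ ζ : ZMod n, At P.m ζ (-P.eta) P.eta ∧
      At P.m ((if 0 < r.γ then u else 0) - c * ζ) (-P.eta) P.eta := by
    set Y : ℤ := (((if 0 < r.γ then u else 0 : ZMod n)).val : ℤ)
    obtain ⟨g, g1, g2⟩ := tiny 0 (ps P.m n Y)
    have : At P.m (if 0 < r.γ then u else 0 : ZMod n) (ps P.m n Y) (ps P.m n Y) :=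
      ⟨Y, by simp [Y], le_rfl, le_rfl⟩
    exact ⟨g, g1.mono (by linarith) (by linarith), (this.sub g2).mono (by linarith) (by linarith)⟩
  let u0 : Fin P.k → ZMod n := fun y => Lb.lk (if y = Cf.i0 then dir else true) (rd y).a (rd y).τ
  have hu0 : ∀ y, At P.m (u0 y) (rd y).a ((rd y).a + 1) := by
    intro y
    show At P.m (Lb.lk _ _ _) _ _
    cases (if y = Cf.i0 then dir else true)
    · exact (Lb.lk_f _ _).mono (by linarith) (by linarith)
    · exact (Lb.lk_t _ _).mono (by linarith) (by linarith)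
  have hps : ∀ y, At P.m (pos y) (rd y).a ((rd y).a + 1) := by
    intro y
    by_cases hy : y = Cf.i0
    · subst hy; rw [hx, hrd, rdf_i0]; exact h.loc.mono (by linarith) (by linarith)
    · exact (hpos y hy).1.mono (by linarith) (by linarith)
  let σ : ℤ := -sg r.f * P.d.sign
  have hσ : σ = 1 ∨ σ = -1 := by
    rcases sign_cases P with s | s <;> cases hf : r.f <;> simp [σ, s.2, sg, hf]
  let p : Fin P.k → ℤ := fun y => P.pz (rd y).a (rd y).f
  have hA : ∀ y x', ∃ fl : Bool, (Cf.W y x' = 0 → fl = false) ∧ (Cf.W y x' ≠ 0 →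
      Feat P.m ((σ * Cf.W y x') • (pt (pos x') - pt (u0 x')) +
        Lb.dip (p y) x' fl ((rd x').a - 2) ((rd x').a + 3)) ((rd x').a - 2) ((rd x').a + 4)) := by
    intro y x'
    by_cases hw : Cf.W y x' = 0
    · exact ⟨false, fun _ => rfl, fun h => absurd hw h⟩
    · have hw' : σ * Cf.W y x' = 1 ∨ σ * Cf.W y x' = -1 := by
        rcases hσ with s | s <;> rcases Cf.val y x' with t | t | t <;> simp_all
      have q1 := Lb.vp_at (p y) x' ((rd x').a - 2)
      have q2 := Lb.vm_at (p y) x' ((rd x').a + 3)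
      push_cast at q1 q2
      obtain ⟨fl, hfl⟩ := exists_aslot (a := (rd x').a) (by have := P.m_ge; omega) hw'
        ((hps x').mono (by linarith) (by linarith)) ((hu0 x').mono (by linarith) (by linarith))
        (q1.mono (by linarith) (by linarith)) (q2.mono (by linarith) (by linarith))
      exact ⟨fl, fun h => absurd h hw, fun _ => hfl⟩
  choose fl hfl0 hfl1 using hA
  let lo : Fin P.k → ℤ := fun x => if x = Cf.i0 then loM else (rd x).a - 2
  let hi : Fin P.k → ℤ := fun x => if x = Cf.i0 then hiM else (rd x).a + 4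
  let adj : Fin P.k → ℤ := fun y => if Cf.sd y = Cf.sd Cf.i0 then r.z + P.k * P.len + 1 else adjY
  let B : BD P n :=
    { σ := σ, pos := pos, u0 := u0, p := p, τ := fun y => (rd y).τ, z := fun y => (rd y).z,
      adj := adj, β := bet Cf r.γ r.f, u := if 0 < r.γ then u else 0, ζ := ζ,
      sf := fun y => (rd y).sf, sa := fun y => (rd y).sa, sb := fun y => (rd y).sb,
      af := fun y x => if bset Cf r.γ y ∧ x = Cf.i0 then true else fl y x,
      aa := fun y x => if bset Cf r.γ y ∧ x = Cf.i0 then (if r.f then -1 else r.a - 2)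
        else (rd x).a - 2,
      ab := fun y x => if bset Cf r.γ y ∧ x = Cf.i0 then (if r.f then r.a + 3 else 0)
        else (rd x).a + 3,
      lo := fun _ x => lo x, hi := fun _ x => hi x, far := farf Lb Cf r nr }
  have hC : B.C Lb Cf = fun i => (rd i).C Lb := by
    funext y
    have := carried Cf h hg zY nr y
    show Lb.scaf _ _ _ _ + gg Cf r.γ r.f y • _ + farf Lb Cf r nr y = Lb.scaf _ _ _ _ + _
    rw [add_assoc]
    exact congrArg _ this
  have hlay := layout Lb Cf r u nr hT hF lo hi p adj (fun _ => rfl) (fun _ => rfl) (fun _ => rfl)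
    (fun _ => rfl)
  have hM : loM ≤ r.a - 2 ∧ r.a + 4 ≤ hiM ∧ hiM < loM + P.m := by
    cases hf : r.f
    · have := hF hf; omega
    · have := hT hf; omega
  have hlohi : ∀ x, lo x ≤ (rd x).a - 2 ∧ (rd x).a + 4 ≤ hi x := by
    intro x
    by_cases e : x = Cf.i0
    · subst e; simp only [lo, hi, if_true, hrd, rdf_i0]; omega
    · simp only [lo, hi, e, if_false]; omega
  have hEx : ∀ y, ¬ bset Cf r.γ y → B.Ex c y = 0 := by
    intro y hy
    simp [BD.Ex, B, bet, farf, hy]
  have hsp : ∀ y, bset Cf r.γ y → B.ap Lb Cf y Cf.i0 = sap Lb r u nr (p y) Cf.i0 := by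
    intro y hy
    obtain ⟨g1, g2, -⟩ := bset_Y Cf hy
    obtain ⟨e1, e2, -, -⟩ := rdf_Y Lb Cf r u zY nr g2
    have : p y = r.z + 3 + P.len * (y.val : ℤ) + 6 := by
      simp only [p, hrd, e1, e2, Par.pz, if_true]
    simp only [BD.ap, BD.Ex, B, bet, farf, hy, sap, g1, this, true_and, if_true, and_self]
  have hns : ∀ y x', ¬ (bset Cf r.γ y ∧ x' = Cf.i0) → B.ap Lb Cf y x' =
      Lb.dip (p y) x' (fl y x') ((rd x').a - 2) ((rd x').a + 3) := by
    intro y x' hy
    have : (if x' = Cf.i0 then B.Ex c y else 0) = 0 := by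
      split_ifs with e
      · exact hEx y fun hb => hy ⟨hb, e⟩
      · rfl
    rw [BD.ap, this, add_zero]
    simp only [B, hy, if_false]
  have hspF : ∀ y, bset Cf r.γ y → _ := fun y hy =>
    spec_feat h (bset_Y Cf hy).1 (p y) Cf.i0 nr loM hiM (by exact_mod_cast hM.1)
      (by exact_mod_cast hM.2.1)
      (fun e => by have := hN (bset_Y Cf hy).1 e; exact ⟨by exact_mod_cast this.1,
        by exact_mod_cast this.2⟩) (by exact_mod_cast hM.2.2)
  have eL : ∀ y x', B.lo y x' = (lo x' : ℝ) := fun _ _ => rfl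
  have eH : ∀ y x', B.hi y x' = (hi x' : ℝ) := fun _ _ => rfl
  have hBok : B.ok Lb Cf :=
    { hσ := hσ
      hu0 := fun y => Lb.lk_mem _ _ _
      hu := by
        by_cases hγ : 0 < r.γ
        · left; simp only [B, hγ, if_true]; exact (h.sp hγ).1
        · right; simp only [B, hγ, if_false]
      near := fun y => ((hps y).sub (hu0 y)).mono (by linarith) (by linarith)
      jump := fun y => (Lb.lk_v _ _ _).mono (by simp only [B]; linarith) (by simp only [B]; linarith)
      hζ := hζ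
      hζ' := hζ'
      hβ := fun y => by
        simp only [B, bet]
        split_ifs
        · cases r.f <;> simp [sg]
        · simp
      hg := fun y => by
        show |gg Cf r.γ r.f y| ≤ _
        by_cases hy : y = Cf.i0
        · subst hy
          rw [gg_i0 Cf h.ok.hγ, abs_mul]
          have := h.ok.hγ
          rcases sign_cases P with s | s <;> simpa [s.2] using this
        · exact (gg_small Cf hg _ hy).trans a1
      feat := fun y x' hw => by
        by_cases hb : bset Cf r.γ y ∧ x' = Cf.i0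
        · obtain ⟨hb, rfl⟩ := hb
          rw [hsp y hb]
          have e : B.σ * Cf.W y Cf.i0 = -sg r.f := by
            rw [(bset_Y Cf hb).2.2]
            rcases sign_cases P with s | s <;> simp [B, σ, s.2]
          rw [e]
          have := (hspF y hb).1
          simpa only [B, lo, hi, u0, if_true, hx, hrd, rdf_i0] using this
        · rw [hns y x' hb]
          refine (hfl1 y x' hw).mono ?_ ?_
          · rw [eL]; exact_mod_cast (hlohi x').1
          · rw [eH]; exact_mod_cast (hlohi x').2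
      off := fun y x' hw => by
        have : ¬ (bset Cf r.γ y ∧ x' = Cf.i0) := by
          rintro ⟨hb, rfl⟩
          rw [(bset_Y Cf hb).2.2] at hw
          exact P.hd0 (Int.sign_eq_zero_iff_zero.1 hw)
        simp only [B, this, if_false]
        exact hfl0 y x' hw
      offE := fun y hw => hEx y fun hb => by
        rw [(bset_Y Cf hb).2.2] at hw
        exact P.hd0 (Int.sign_eq_zero_iff_zero.1 hw)
      apm := fun y x' => by
        by_cases hb : bset Cf r.γ y ∧ x' = Cf.i0
        · obtain ⟨hb, rfl⟩ := hb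
          rw [hsp y hb]; exact (hspF y hb).2
        · rw [hns y x' hb, Lib.dip]
          split_ifs
          · rw [mom_sub, mom_pt, mom_pt]
            refine ((Lb.vp_at _ _ _).sub (Lb.vm_at _ _ _)).mono ?_ ?_ <;> push_cast <;> linarith
          · rw [mom_zero]; exact At.zero (by norm_num) le_rfl
      win := fun y => (hok' y).win
      inA := fun y x' hw => by
        have := (hlay y x' x' hw hw).1
        rw [eL, eH]
        exact ⟨by exact_mod_cast this.1, by exact_mod_cast this.2⟩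
      inP := fun y x' hw => (hlay y x' x' hw hw).2.1
      inJ := fun y => by
        by_cases hs : Cf.sd y = Cf.sd Cf.i0
        · have := (rdf_X Lb Cf r u zY nr hs).2.2.2
          simp only [B, adj, hs, if_true, hrd, this]; omega
        · have := (rdf_Y Lb Cf r u zY nr hs).2.2.2
          simp only [B, adj, hs, if_false, hrd, this]
          cases hf : r.f
          · have := hF hf; omega
          · have := hT hf; omega
      AA := fun y x1 x2 h1 h2 e => by
        simp only [eL, eH]; exact_mod_cast (hlay y x1 x2 h1 h2).2.2.1 e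
      AP := fun y x1 x2 h1 h2 => by
        simp only [eL, eH]; exact_mod_cast (hlay y x1 x2 h1 h2).2.2.2.1
      PP := fun y x1 x2 h1 h2 e => (hlay y x1 x2 h1 h2).2.2.2.2.1 e
      AJ := fun y x1 h1 => by
        simp only [eL, eH]; exact_mod_cast (hlay y x1 x1 h1 h1).2.2.2.2.2.1
      PJ := fun y x1 h1 => (hlay y x1 x1 h1 h1).2.2.2.2.2.2
      tc := fun y => by rw [hC]; exact (hok' y).tc }
  have := hB P n c E Lb Cf B hBok
  rw [hC] at this
  exact this

end

end Pool.Agent.P.MP_009630_co.Dn
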