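import Pool.Agent.P.MP_009630_co.Dn.St

set_option autoImplicit false

namespace Pool.Agent.P.MP_009630_co.Dn

open Finset

noncomputable section

namespace StarP

variable {n : ℕ} [NeZero n] {P : Par} {c : ZMod n}

/-- Layout of the zone in which the side of the run point is seen. -/
theorem view (n : ℕ) [NeZero n] (P : Par) (a : ℤ) (f : Bool) (act : Prop)
    (h : act → (f = true ∧ 0 ≤ a ∧ 2 * a ≤ P.m) ∨ (f = false ∧ -(P.m : ℤ) ≤ 2 * a ∧ a ≤ -1)) :
    ∃ (zY loM hiM adjY : ℤ) (nr : Bool),
      (f = true → loM ≤ a - 2 ∧ hiM = a + 4 ∧ zY ≤ loM ∧ adjY = a + P.k * P.len ∧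
        adjY + P.ladj ≤ zY + P.w1) ∧
      (f = false → loM = a - 2 ∧ a + 4 ≤ hiM ∧ hiM ≤ zY + P.w1 ∧
        adjY = a - P.k * P.len - P.ladj ∧ zY ≤ adjY) ∧
      (act → nr = true → loM ≤ -1 ∧ 1 ≤ hiM) ∧
      (act → nr = false → ∀ y : ZMod n, At P.m y (-1) 1 → Far P (zY + P.w1 + 1) zY y 4) := by
  obtain ⟨a1, a2, a3, a4, a5, a6, a7, a8, a9, a10, a11, a12, a13, a14, a15, a16, a17⟩ := P.factsZ
  classical
  cases f with
  | true =>
    by_cases hn : act ∧ a < 10
    · have := h hn.1
      refine ⟨-2, -2, a + 4, a + P.k * P.len, true, fun _ => ?_, by simp, fun _ _ => ?_, by simp⟩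
      · simp at this; omega
      · simp at this; omega
    · refine ⟨a - 3, a - 2, a + 4, a + P.k * P.len, false, fun _ => by omega, by simp, by simp,
        fun ha _ y hy => ?_⟩
      have := h ha
      simp at this
      have h1 : (10 : ℝ) ≤ a := by
        have : 10 ≤ a := by by_contra hc; exact hn ⟨ha, by omega⟩
        exact_mod_cast this
      have h2 : (a : ℝ) + P.w1 + 5 ≤ P.m := by
        have : a + P.w1 + 5 ≤ P.m := by omega
        exact_mod_cast this
      have h3 : (0 : ℝ) ≤ P.w1 := by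
        have : 0 ≤ P.w1 := by omega
        exact_mod_cast this
      constructor
      · intro h'; push_cast at h'; exact hy.disj h' (by linarith) (by linarith)
      · intro h'; push_cast at h'; exact hy.disj h' (by linarith) (by linarith)
  | false =>
    by_cases hn : act ∧ -13 < a
    · have := h hn.1
      refine ⟨4 - P.w1, a - 2, 4, a - P.k * P.len - P.ladj, true, by simp, fun _ => ?_,
        fun _ _ => ?_, by simp⟩
      · simp at this; omega
      · simp at this; omega
    · refine ⟨a + 5 - P.w1, a - 2, a + 4, a - P.k * P.len - P.ladj, false, by simp,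
        fun _ => by omega, by simp, fun ha _ y hy => ?_⟩
      have := h ha
      simp at this
      have h1 : (a : ℝ) ≤ -13 := by
        have : a ≤ -13 := by by_contra hc; exact hn ⟨ha, by omega⟩
        exact_mod_cast this
      have h2 : (P.w1 : ℝ) + 5 ≤ a + P.m := by
        have : P.w1 + 5 ≤ a + P.m := by omega
        exact_mod_cast this
      have h3 : (0 : ℝ) ≤ P.w1 := by
        have : 0 ≤ P.w1 := by omega
        exact_mod_cast this
      constructor
      · intro h'; push_cast at h'; exact h'.disj hy (by linarith) (by linarith)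
      · intro h'; push_cast at h'; exact h'.disj hy (by linarith) (by linarith)

/-- The end of the special slot that lies next to `0`. -/
def spe (Lb : Lib P c) (f : Bool) (p : ℤ) (i : ℕ) : ZMod n :=
  if f then Lb.vp p i (-1) else Lb.vm p i 0

/-- The dipole between `0` and that end. -/
def fdip (Lb : Lib P c) (f : Bool) (p : ℤ) (i : ℕ) : Dv n :=
  if f then pt (spe Lb f p i) - pt 0 else pt 0 - pt (spe Lb f p i)

omit [NeZero n] in
theorem spe_at (Lb : Lib P c) (f : Bool) (p : ℤ) (i : ℕ) : At P.m (spe Lb f p i) (-1) 1 := by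
  cases f
  · exact (Lb.vm_at p i 0).mono (by norm_num) (by norm_num)
  · exact (Lb.vp_at p i (-1)).mono (by norm_num) (by norm_num)

theorem spe_ne (Lb : Lib P c) (f : Bool) (p : ℤ) (i : ℕ) : spe Lb f p i ≠ 0 := by
  have hm : (100 : ℝ) ≤ P.m := by exact_mod_cast P.m_ge
  cases f
  · exact ((At.zero le_rfl le_rfl).ne (Lb.vm_at p i 0) (by norm_num) (by norm_num; linarith)).symm
  · exact (Lb.vp_at p i (-1)).ne (At.zero le_rfl le_rfl) (by norm_num) (by norm_num; linarith)

/-- What a special neighbour adds to the dipole of the run point. -/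
def sap (Lb : Lib P c) (r : RD P n) (u : ZMod n) (nr : Bool) (p : ℤ) (i : ℕ) : Dv n :=
  Lb.dip p i true (if r.f then -1 else r.a - 2) (if r.f then r.a + 3 else 0) +
    (sg r.f • (pt (c * u) - pt 0) - if nr then 0 else fdip Lb r.f p i)

theorem spec_feat {Lb : Lib P c} {x u : ZMod n} {r : RD P n} {dir : Bool}
    (h : StarPre Lb x r u dir) (hγ : 0 < r.γ) (p : ℤ) (i : ℕ) (nr : Bool) (lo hi : ℝ)
    (h1 : lo ≤ r.a - 2) (h2 : r.a + 4 ≤ hi) (h3 : nr = true → lo ≤ -1 ∧ 1 ≤ hi)
    (h4 : hi < lo + P.m) :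
    Feat P.m ((-sg r.f) • (pt x - pt (Lb.lk dir r.a r.τ)) + sap Lb r u nr p i) lo hi ∧
      At P.m (mom (sap Lb r u nr p i)) (-6) 0 := by
  have hm : (100 : ℝ) ≤ P.m := by exact_mod_cast P.m_ge
  have hm0 := P.m_pos
  obtain ⟨-, -, -, hf, X, V, rfl, eV, x1, x2, v1, v2, hd⟩ := h.sp hγ
  have aX := At.intCast (m := P.m) (n := n) X
  have aV := At.intCast (m := P.m) (n := n) V
  have a0 : At P.m (0 : ZMod n) 0 0 := At.zero le_rfl le_rfl
  rw [eV] at aV
  rcases hf with ⟨hf, ha, -⟩ | ⟨hf, -, ha⟩
  · have ha' : (0 : ℝ) ≤ r.a := by exact_mod_cast ha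
    have p1 := Lb.vp_at p i (-1)
    have p2 := Lb.vm_at p i (r.a + 3)
    push_cast at p1 p2
    have core : Feat P.m (pt (c * u) - pt (Lb.vm p i (r.a + 3)) -
        (pt (X : ZMod n) - pt (Lb.lk dir r.a r.τ))) (r.a + 1 / 20) (r.a + 4) := by
      cases dir
      · have hd' : ps P.m n X < ps P.m n V := ps_lt hm0 (by simpa using hd)
        have u1 := Lb.lk_f r.a r.τ
        exact ((Feat.dip hm0 u1 aX (by linarith) (by linarith)).add
          (Feat.dip hm0 aV p2 (by linarith) (by linarith)) (Or.inl hd') le_rfl (by linarith)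
          (by linarith) (by linarith) (by linarith)).congr (by abel)
      · have hd' : ps P.m n V < ps P.m n X := ps_lt hm0 (by simpa using hd)
        have u1 := Lb.lk_t r.a r.τ
        exact ((Feat.dip hm0 aX u1 (by linarith) (by linarith)).hole hm0 aV p2 (by linarith)
          hd'.le (by linarith) (by linarith)).mono (by linarith) (by linarith)
    cases nr
    · constructor
      · refine (core.mono (by linarith) h2).congr ?_
        simp only [sap, fdip, spe, Lib.dip, sg, hf, if_true, Bool.false_eq_true, if_false]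
        module
      · have : mom (sap Lb r u false p i) = c * u - Lb.vm p i (r.a + 3) := by
          simp only [sap, fdip, spe, Lib.dip, sg, hf, if_true, Bool.false_eq_true, if_false,
            mom_add, mom_sub, mom_smul, mom_pt]
          push_cast; ring
        rw [this]
        exact (aV.sub p2).mono (by linarith) (by linarith)
    · obtain ⟨h5, h6⟩ := h3 rfl
      constructor
      · refine (((Feat.dip hm0 p1 a0 (by linarith) (by linarith)).add core (Or.inl (by linarith))
          (by linarith) (by linarith) (by linarith) h2 h4)).congr ?_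
        simp only [sap, fdip, spe, Lib.dip, sg, hf, if_true]
        module
      · have : mom (sap Lb r u true p i) = c * u - Lb.vm p i (r.a + 3) + Lb.vp p i (-1) := by
          simp only [sap, fdip, spe, Lib.dip, sg, hf, if_true, mom_add, mom_sub, mom_smul, mom_pt,
            mom_zero]
          push_cast; ring
        rw [this]
        exact ((aV.sub p2).add p1).mono (by linarith) (by linarith)
  · have ha' : (r.a : ℝ) ≤ -1 := by exact_mod_cast ha
    have p1 := Lb.vp_at p i (r.a - 2)
    have p2 := Lb.vm_at p i 0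
    push_cast at p1 p2
    have core : Feat P.m (pt (Lb.vp p i (r.a - 2)) - pt (c * u) +
        (pt (X : ZMod n) - pt (Lb.lk dir r.a r.τ))) (r.a - 2) (r.a + 19 / 20) := by
      cases dir
      · have hd' : ps P.m n X < ps P.m n V := ps_lt hm0 (by simpa using hd)
        have u1 := Lb.lk_f r.a r.τ
        exact (((Feat.dip hm0 u1 aX (by linarith) (by linarith)).hole hm0 p1 aV (by linarith)
          (by linarith) hd' (by linarith)).mono (by linarith) (by linarith)).congr (by abel)
      · have hd' : ps P.m n V < ps P.m n X := ps_lt hm0 (by simpa using hd)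
        have u1 := Lb.lk_t r.a r.τ
        exact (Feat.dip hm0 p1 aV (by linarith) (by linarith)).add
          (Feat.dip hm0 aX u1 (by linarith) (by linarith)) (Or.inl hd') (by linarith)
          (by linarith) (by linarith) le_rfl (by linarith)
    cases nr
    · constructor
      · refine (core.mono h1 (by linarith)).congr ?_
        simp only [sap, fdip, spe, Lib.dip, sg, hf, if_true, Bool.false_eq_true, if_false]
        module
      · have : mom (sap Lb r u false p i) = Lb.vp p i (r.a - 2) - c * u := by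
          simp only [sap, fdip, spe, Lib.dip, sg, hf, if_true, Bool.false_eq_true, if_false,
            mom_add, mom_sub, mom_smul, mom_pt]
          push_cast; ring
        rw [this]
        exact (p1.sub aV).mono (by linarith) (by linarith)
    · obtain ⟨h5, h6⟩ := h3 rfl
      constructor
      · refine ((core.add (Feat.dip hm0 a0 p2 (by linarith) (by linarith)) (Or.inl (by linarith))
          h1 (by linarith) (by linarith) (by linarith) h4)).congr ?_
        simp only [sap, fdip, spe, Lib.dip, sg, hf, if_true, Bool.false_eq_true, if_false]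
        module
      · have : mom (sap Lb r u true p i) = Lb.vp p i (r.a - 2) - c * u - Lb.vm p i 0 := by
          simp only [sap, fdip, spe, Lib.dip, sg, hf, if_true, Bool.false_eq_true, if_false,
            mom_add, mom_sub, mom_smul, mom_pt, mom_zero]
          push_cast; ring
        rw [this]
        exact ((p1.sub aV).sub p2).mono (by linarith) (by linarith)

/-! The vector `β` and the multiplicities `g`. -/

variable (Cf : Cl P.d P.D P.k)

/-- Special neighbours. -/
def bset (γ : ℕ) (y : Fin P.k) : Prop := ∃ a : Fin P.D, a.val < γ ∧ Cf.e a = y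

open Classical in
/-- The vector `β`. -/
def bet (γ : ℕ) (f : Bool) (y : Fin P.k) : ℤ := if bset Cf γ y then sg f else 0

/-- The multiplicities. -/
def gg (γ : ℕ) (f : Bool) (y : Fin P.k) : ℤ :=
  -∑ x, (-sg f * P.d.sign) * Cf.W y x * bet Cf γ f x

omit [NeZero n] in
theorem sg_sq (f : Bool) : sg f * sg f = 1 := by cases f <;> simp [sg]

theorem gg_eq (γ : ℕ) (f : Bool) (y : Fin P.k) : gg Cf γ f y =
    P.d.sign * ∑ a ∈ univ.filter (fun a : Fin P.D => a.val < γ), Cf.W y (Cf.e a) := by
  classical
  have : ∑ a ∈ univ.filter (fun a : Fin P.D => a.val < γ), Cf.W y (Cf.e a) =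
      ∑ x, if bset Cf γ x then Cf.W y x else 0 := by
    rw [← sum_filter, ← sum_image (s := univ.filter fun a : Fin P.D => a.val < γ) (g := Cf.e)
      (f := fun x => Cf.W y x) (fun a _ b _ h => Cf.einj h)]
    refine sum_congr ?_ fun _ _ => rfl
    ext x; simp [bset]
  rw [this, gg, mul_sum, ← sum_neg_distrib]
  refine sum_congr rfl fun x _ => ?_
  unfold bet
  split_ifs
  · linear_combination (P.d.sign * Cf.W y x) * sg_sq f
  · simp

theorem sign_cases (P : Par) : (0 < P.d ∧ P.d.sign = 1) ∨ (¬ 0 < P.d ∧ P.d.sign = -1) := by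
  rcases lt_trichotomy P.d 0 with h | h | h
  · exact Or.inr ⟨by omega, Int.sign_eq_neg_one_of_neg h⟩
  · exact absurd h P.hd0
  · exact Or.inl ⟨h, Int.sign_eq_one_of_pos h⟩

theorem gg_i0 {γ : ℕ} (hγ : γ ≤ P.D) (f : Bool) : gg Cf γ f Cf.i0 = P.d.sign * γ := by
  rw [gg_eq]
  simp only [Cf.w0e, sum_const, nsmul_eq_mul, mul_one]
  rw [Fin.card_filter_val_lt, min_eq_right hγ]

theorem gg_small {γ : ℕ} (hg : Cf.gam = γ) (f : Bool) {y : Fin P.k} (hy : y ≠ Cf.i0) :
    |gg Cf γ f y| ≤ 1 := by
  subst hg
  rw [gg_eq, abs_mul]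
  have := Cf.small y hy
  rcases sign_cases P with h | h <;> simpa [h.2] using this

theorem sd_e (a : Fin P.D) : Cf.sd (Cf.e a) ≠ Cf.sd Cf.i0 :=
  (Cf.bip _ _ (by rw [Cf.w0e]; norm_num)).symm

theorem gg_Y (γ : ℕ) (f : Bool) {y : Fin P.k} (hy : Cf.sd y ≠ Cf.sd Cf.i0) : gg Cf γ f y = 0 := by
  rw [gg_eq, sum_eq_zero, mul_zero]
  intro a _
  by_contra h
  have h1 := Cf.bip _ _ h
  have h2 := sd_e Cf a
  revert h1 h2 hy
  cases Cf.sd y <;> cases Cf.sd (Cf.e a) <;> cases Cf.sd Cf.i0 <;> simp

theorem gg_zero (f : Bool) (y : Fin P.k) : gg Cf 0 f y = 0 := by rw [gg_eq]; simp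

theorem bset_Y {γ : ℕ} {y : Fin P.k} (h : bset Cf γ y) :
    0 < γ ∧ Cf.sd y ≠ Cf.sd Cf.i0 ∧ Cf.W y Cf.i0 = P.d.sign := by
  obtain ⟨a, ha, rfl⟩ := h
  exact ⟨by omega, sd_e Cf a, Cf.we0 a⟩

theorem len_facts (x : Fin P.k) : 0 ≤ P.len * (x.val : ℤ) ∧
    P.len * (x.val : ℤ) + P.len ≤ P.k * P.len ∧ (x ≠ Cf.i0 → P.len ≤ P.len * (x.val : ℤ)) ∧
    ∀ x' : Fin P.k, x ≠ x' → P.len * (x.val : ℤ) + P.len ≤ P.len * (x'.val : ℤ) ∨
      P.len * (x'.val : ℤ) + P.len ≤ P.len * (x.val : ℤ) := by
  have hl : 0 ≤ P.len := by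
    obtain ⟨a1, a2, a3, a4, a5, a6, a7, -⟩ := P.factsZ
    omega
  have hx : (x.val : ℤ) + 1 ≤ P.k := by have := x.isLt; omega
  refine ⟨by positivity, by nlinarith, fun h => ?_, fun x' h => ?_⟩
  · have : x.val ≠ 0 := fun h' => h (Fin.ext (h'.trans Cf.hi0.symm))
    have : (1 : ℤ) ≤ x.val := by omega
    nlinarith
  · have : x.val ≠ x'.val := fun h' => h (Fin.ext h')
    rcases lt_or_gt_of_ne this with h | h
    · left
      have : (x.val : ℤ) + 1 ≤ x'.val := by omega
      nlinarith
    · right
      have : (x'.val : ℤ) + 1 ≤ x.val := by omega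
      nlinarith

end StarP

end

end Pool.Agent.P.MP_009630_co.Dn
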